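import Mathlib

/-! Convex surfaces with property (M): basic definitions (helper956). -/

set_option autoImplicit false

open Set Filter Topology MeasureTheory
open scoped Gradient RealInnerProductSpace ContDiff

namespace Pool.Agent.GR

/-- three dimensional Euclidean space -/
abbrev E := EuclideanSpace ℝ (Fin 3)

/-- the hypotheses on the function f whose zero set is the surface -/
structure Surf (f : E → ℝ) : Prop where
  smooth : ContDiff ℝ ((⊤ : ℕ∞) : WithTop ℕ∞) f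
  convex : Convex ℝ {x | f x ≤ 0}
  compact : IsCompact {x | f x ≤ 0}
  int : (interior {x | f x ≤ 0}).Nonempty
  reg : ∀ x, f x = 0 → fderiv ℝ f x ≠ 0

/-- unit normal field (outward on the surface) -/
noncomputable def N (f : E → ℝ) (x : E) : E := ‖∇ f x‖⁻¹ • ∇ f x

/-- tangent vectors (x, v) -/
def TT (f : E → ℝ) : Set (E × E) := {p | f p.1 = 0 ∧ ⟪N f p.1, p.2⟫ = 0}

/-- unit tangent vectors (x, v) -/
def UT (f : E → ℝ) : Set (E × E) := {p | f p.1 = 0 ∧ ⟪N f p.1, p.2⟫ = 0 ∧ ‖p.2‖ = 1}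

/-- the shape bilinear form: A f x v w = inner (DN(x) v) w -/
noncomputable def A (f : E → ℝ) (x v w : E) : ℝ := ⟪fderiv ℝ (N f) x v, w⟫

/-- Gauss curvature -/
noncomputable def K (f : E → ℝ) (x : E) : ℝ :=
  (fderiv ℝ (N f) x + (innerSL ℝ (N f x)).smulRight (N f x)).det

/-- cross product -/
noncomputable def cr (a b : E) : E :=
  !₂[a 1 * b 2 - a 2 * b 1, a 2 * b 0 - a 0 * b 2, a 0 * b 1 - a 1 * b 0]

/-- rotation of the unit tangent vector u at x by the angle θ -/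
noncomputable def rot (f : E → ℝ) (x u : E) (θ : ℝ) : E :=
  Real.cos θ • u + Real.sin θ • cr (N f x) u

/-- geodesic flow: G t (x, v) = (position, velocity) at time t, for tangent vectors with norm at most 2 -/
structure GFlow (f : E → ℝ) (G : ℝ → E × E → E × E) : Prop where
  smooth : ContDiff ℝ ((⊤ : ℕ∞) : WithTop ℕ∞) (fun q : ℝ × (E × E) => G q.1 q.2)
  zero : ∀ p, G 0 p = p
  add : ∀ s t p, G (s + t) p = G s (G t p)
  pos : ∀ p ∈ TT f, ‖p.2‖ ≤ 2 → ∀ t, HasDerivAt (fun t => (G t p).1) (G t p).2 t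
  vel : ∀ p ∈ TT f, ‖p.2‖ ≤ 2 → ∀ t, HasDerivAt (fun t => (G t p).2)
    (-(A f (G t p).1 (G t p).2 (G t p).2) • N f (G t p).1) t
  mem : ∀ p ∈ TT f, ‖p.2‖ ≤ 2 → ∀ t, G t p ∈ TT f
  norm : ∀ p ∈ TT f, ‖p.2‖ ≤ 2 → ∀ t, ‖(G t p).2‖ = ‖p.2‖
  scale : ∀ p ∈ TT f, ∀ c : ℝ, ‖p.2‖ ≤ 2 → ‖c • p.2‖ ≤ 2 → ∀ t,
    G t (p.1, c • p.2) = ((G (c * t) p).1, c • (G (c * t) p).2)

/-- admissible curves on the surface from x to y -/
def Curve (f : E → ℝ) (γ : ℝ → E) (x y : E) : Prop :=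
  ContinuousOn γ (Icc 0 1) ∧ γ 0 = x ∧ γ 1 = y ∧ ∀ t ∈ Icc (0 : ℝ) 1, f (γ t) = 0

/-- intrinsic distance, extended -/
noncomputable def eD (f : E → ℝ) (x y : E) : ENNReal :=
  ⨅ γ : ℝ → E, ⨅ _ : Curve f γ x y, eVariationOn γ (Icc 0 1)

/-- intrinsic distance -/
noncomputable def D (f : E → ℝ) (x y : E) : ℝ := (eD f x y).toReal

/-- the scalar Jacobi field along the geodesic of p = (x, u) with J 0 = 0, J' 0 = 1 -/
noncomputable def J (f : E → ℝ) (G : ℝ → E × E → E × E) (p : E × E) (t : ℝ) : ℝ :=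
  ⟪fderiv ℝ (fun v => (G t (p.1, v)).1) p.2 (cr (N f p.1) p.2),
    cr (N f (G t p).1) (G t p).2⟫

/-- property (M), in the form used in the frozen statement -/
def PropM (f : E → ℝ) : Prop :=
  ∀ x y : E, f x = 0 → f y = 0 →
    ∀ 𝒜 : Set (Set E),
      𝒜 = {A | ∃ γ : ℝ → E,
            ContinuousOn γ (Set.Icc 0 1) ∧ γ 0 = x ∧ γ 1 = y ∧
            (∀ t ∈ Set.Icc (0:ℝ) 1, f (γ t) = 0) ∧
            (∀ δ : ℝ → E,
              ContinuousOn δ (Set.Icc 0 1) → δ 0 = x → δ 1 = y →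
              (∀ t ∈ Set.Icc (0:ℝ) 1, f (δ t) = 0) →
              eVariationOn γ (Set.Icc 0 1) ≤ eVariationOn δ (Set.Icc 0 1)) ∧
            γ '' Set.Icc 0 1 = A} →
      𝒜.Subsingleton ∨ 𝒜.Infinite

/-- directions of the shortest geodesics from x to y -/
def Dir (f : E → ℝ) (G : ℝ → E × E → E × E) (x y : E) : Set E :=
  {u | (x, u) ∈ UT f ∧ (G (D f x y) (x, u)).1 = y}

/-- the structure reached after the cut locus analysis: all geodesics have the same cut distance L,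
every point x has an antipode q x, polar coordinates at x are bijective -/
structure Blaschke (f : E → ℝ) (G : ℝ → E × E → E × E) (L : ℝ) (q : E → E) : Prop where
  L_pos : 0 < L
  q_mem : ∀ x, f x = 0 → f (q x) = 0
  q_ne : ∀ x, f x = 0 → q x ≠ x
  q_q : ∀ x, f x = 0 → q (q x) = x
  anti : ∀ x u, (x, u) ∈ UT f → (G L (x, u)).1 = q x
  inj : ∀ x u w s t, (x, u) ∈ UT f → (x, w) ∈ UT f → s ∈ Ioo 0 L → t ∈ Ioo 0 L →
    (G s (x, u)).1 = (G t (x, w)).1 → s = t ∧ u = w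
  surj : ∀ x y, f x = 0 → f y = 0 → y ≠ x → y ≠ q x →
    ∃ u s, (x, u) ∈ UT f ∧ s ∈ Ioo 0 L ∧ (G s (x, u)).1 = y
  ne : ∀ x u s, (x, u) ∈ UT f → s ∈ Ioo 0 L → (G s (x, u)).1 ≠ x ∧ (G s (x, u)).1 ≠ q x
  J_pos : ∀ p ∈ UT f, ∀ t ∈ Ioo 0 L, 0 < J f G p t
  J_L : ∀ p ∈ UT f, J f G p L = 0

end Pool.Agent.GR
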