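import Pool.Agent.GR.Defs

set_option autoImplicit false
open Set Filter Topology MeasureTheory
open scoped Gradient RealInnerProductSpace ContDiff


namespace Pool.Agent.GR.GA1
open Pool.Agent.GR


/-! ## TARGET (prove this) -/

private theorem grad_ne_iff' {f : E → ℝ} {x : E} : ∇ f x ≠ 0 ↔ fderiv ℝ f x ≠ 0 := by
  have h : ∇ f x = (InnerProductSpace.toDual ℝ E).symm (fderiv ℝ f x) := rfl
  rw [h, Ne, Ne, LinearIsometryEquiv.map_eq_zero_iff]

private theorem inner_grad' {f : E → ℝ} (x v : E) : ⟪∇ f x, v⟫ = fderiv ℝ f x v := by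
  have h : ∇ f x = (InnerProductSpace.toDual ℝ E).symm (fderiv ℝ f x) := rfl
  rw [h, InnerProductSpace.toDual_symm_apply]

private theorem grad_smooth' {f : E → ℝ} (hf : Surf f) : ContDiff ℝ ∞ (∇ f) := by
  have h : (∇ f) = fun x => (InnerProductSpace.toDual ℝ E).symm (fderiv ℝ f x) := rfl
  rw [h]
  have h1 : ContDiff ℝ ∞ (fderiv ℝ f) := hf.smooth.fderiv_right (by simp)
  exact (InnerProductSpace.toDual ℝ E).symm.contDiff.comp h1

theorem grad_ne {f : E → ℝ} (hf : Surf f) {x : E} (hx : f x = 0) : ∇ f x ≠ 0 :=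
  grad_ne_iff'.2 (hf.reg x hx)

theorem N_norm' {f : E → ℝ} {x : E} (hx : ∇ f x ≠ 0) : ‖N f x‖ = 1 := by
  unfold N
  rw [norm_smul, norm_inv, norm_norm, inv_mul_cancel₀ (norm_ne_zero_iff.2 hx)]

theorem fderiv_eq' {f : E → ℝ} (hf : Surf f) (x v : E) :
    fderiv ℝ f x v = ‖∇ f x‖ * ⟪N f x, v⟫ := by
  unfold N
  rw [real_inner_smul_left, inner_grad']
  by_cases h : ∇ f x = 0
  · have h2 : fderiv ℝ f x = 0 := by
      by_contra h3
      exact grad_ne_iff'.2 h3 h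
    rw [h, h2]
    simp
  · have : ‖∇ f x‖ ≠ 0 := norm_ne_zero_iff.2 h
    field_simp

theorem N_smooth' {f : E → ℝ} (hf : Surf f) {x : E} (hx : ∇ f x ≠ 0) : ContDiffAt ℝ ∞ (N f) x := by
  have h := (grad_smooth' hf).contDiffAt (x := x)
  unfold N
  exact ((h.norm ℝ hx).inv (norm_ne_zero_iff.2 hx)).smul h

theorem fderiv_eq {f : E → ℝ} (hf : Surf f) {x : E} (hx : f x = 0) (v : E) :
    fderiv ℝ f x v = ‖∇ f x‖ * ⟪N f x, v⟫ := fderiv_eq' hf x v

theorem N_smooth {f : E → ℝ} (hf : Surf f) {x : E} (hx : f x = 0) : ContDiffAt ℝ ∞ (N f) x :=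
  N_smooth' hf (grad_ne hf hx)

theorem N_norm {f : E → ℝ} (hf : Surf f) {x : E} (hx : f x = 0) : ‖N f x‖ = 1 :=
  N_norm' (grad_ne hf hx)

theorem N_norm_nhds {f : E → ℝ} (hf : Surf f) {x : E} (hx : f x = 0) : ∀ᶠ y in 𝓝 x, ‖N f y‖ = 1 := by
  have h : ∀ᶠ y in 𝓝 x, ∇ f y ≠ 0 :=
    (grad_smooth' hf).continuous.continuousAt.eventually_ne (grad_ne hf hx)
  filter_upwards [h] with y hy
  exact N_norm' hy

end Pool.Agent.GR.GA1
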