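import Pool.Agent.GR.Defs
import Pool.Agent.GR.GA1

set_option autoImplicit false
open Set Filter Topology MeasureTheory
open scoped Gradient RealInnerProductSpace ContDiff


namespace Pool.Agent.GR.GA2
open Pool.Agent.GR
open Pool.Agent.GR.GA1 (grad_ne fderiv_eq N_smooth N_norm N_norm_nhds)




/-! ## TARGET (prove this) -/

theorem aux_inner {f : E → ℝ} (y w : E) : fderiv ℝ f y w = ⟪∇ f y, w⟫ :=
  (InnerProductSpace.toDual_symm_apply).symm

theorem aux_fN {f : E → ℝ} (y : E) : fderiv ℝ f y (N f y) = ‖∇ f y‖ := by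
  rw [aux_inner, N, real_inner_smul_right, real_inner_self_eq_norm_sq]
  by_cases h : ‖∇ f y‖ = 0
  · rw [h]; simp
  · field_simp

theorem aux_id {f : E → ℝ} (y w : E) :
    fderiv ℝ f y w = fderiv ℝ f y (N f y) * ⟪N f y, w⟫ := by
  rw [aux_fN, N, real_inner_smul_left, aux_inner, ← mul_assoc]
  by_cases h : ‖∇ f y‖ = 0
  · have h1 : ∇ f y = 0 := norm_eq_zero.1 h
    rw [h1]; simp
  · rw [mul_inv_cancel₀ h, one_mul]

theorem aux_d1 {f : E → ℝ} (hf : Surf f) (y : E) : HasFDerivAt f (fderiv ℝ f y) y :=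
  ((hf.smooth.differentiable (by simp)) y).hasFDerivAt

theorem aux_d2 {f : E → ℝ} (hf : Surf f) (y : E) :
    HasFDerivAt (fderiv ℝ f) (fderiv ℝ (fderiv ℝ f) y) y := by
  have h1 : ContDiff ℝ 1 (fderiv ℝ f) := hf.smooth.fderiv_right (by norm_cast)
  exact ((h1.differentiable (by simp)) y).hasFDerivAt

theorem aux_line (x v : E) (t : ℝ) : HasDerivAt (fun t : ℝ => x + t • v) v t := by
  have h := ((hasDerivAt_id t).smul_const v).const_add x
  simpa using h

theorem aux_dN {f : E → ℝ} (hf : Surf f) {x : E} (hx : f x = 0) :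
    HasFDerivAt (N f) (fderiv ℝ (N f) x) x :=
  ((N_smooth hf hx).differentiableAt (by simp)).hasFDerivAt

theorem aux_dd {f : E → ℝ} (hf : Surf f) (x v w : E) :
    HasDerivAt (fun t : ℝ => fderiv ℝ f (x + t • v) w) (fderiv ℝ (fderiv ℝ f) x v w) 0 := by
  have h0 : HasFDerivAt (fderiv ℝ f) (fderiv ℝ (fderiv ℝ f) x) (x + (0 : ℝ) • v) := by
    simpa using aux_d2 hf x
  have h1 : HasDerivAt (fun t : ℝ => fderiv ℝ f (x + t • v)) (fderiv ℝ (fderiv ℝ f) x v) 0 :=
    h0.comp_hasDerivAt 0 (aux_line x v 0)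
  have h2 := h1.clm_apply (hasDerivAt_const (0 : ℝ) w)
  simpa using h2

theorem aux_hess {f : E → ℝ} (hf : Surf f) {x : E} (hx : f x = 0) (v w : E)
    (hw : ⟪N f x, w⟫ = 0) :
    fderiv ℝ (fderiv ℝ f) x v w = ‖∇ f x‖ * A f x v w := by
  have hN0 : HasFDerivAt (N f) (fderiv ℝ (N f) x) (x + (0 : ℝ) • v) := by
    simpa using aux_dN hf hx
  have hN : HasDerivAt (fun t : ℝ => N f (x + t • v)) (fderiv ℝ (N f) x v) 0 :=
    HasFDerivAt.comp_hasDerivAt (l := N f) (f := fun t : ℝ => x + t • v) 0 hN0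
      (aux_line x v 0)
  have h0 : HasFDerivAt (fderiv ℝ f) (fderiv ℝ (fderiv ℝ f) x) (x + (0 : ℝ) • v) := by
    simpa using aux_d2 hf x
  have h1 : HasDerivAt (fun t : ℝ => fderiv ℝ f (x + t • v)) (fderiv ℝ (fderiv ℝ f) x v) 0 :=
    h0.comp_hasDerivAt 0 (aux_line x v 0)
  have h2 := h1.clm_apply hN
  have h3 := hN.inner ℝ (hasDerivAt_const (0 : ℝ) w)
  have h4 := h2.mul h3
  have h5 : (fun t : ℝ => fderiv ℝ f (x + t • v) w) =
      (fun t : ℝ => fderiv ℝ f (x + t • v) (N f (x + t • v)) * ⟪N f (x + t • v), w⟫) := by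
    funext t
    exact aux_id _ _
  have h6 := aux_dd hf x v w
  rw [h5] at h6
  have h7 := h6.unique h4
  rw [h7]
  simp only [zero_smul, add_zero, inner_zero_right, zero_add, hw, mul_zero]
  rw [aux_fN]
  rfl

theorem A_normal {f : E → ℝ} (hf : Surf f) {x : E} (hx : f x = 0) (v : E) : A f x v (N f x) = 0 := by
  have h1 := (aux_dN hf hx).norm_sq
  have h2 : HasFDerivAt (fun y => ‖N f y‖ ^ 2) (0 : E →L[ℝ] ℝ) x := by
    have h3 : (fun y => ‖N f y‖ ^ 2) =ᶠ[𝓝 x] fun _ => (1 : ℝ) := by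
      filter_upwards [N_norm_nhds hf hx] with y hy
      rw [hy]; norm_num
    exact (hasFDerivAt_const (1 : ℝ) x).congr_of_eventuallyEq h3
  have h3 := h1.unique h2
  have h4 := congrArg (fun L : E →L[ℝ] ℝ => L v) h3
  have h5 : 2 * ⟪N f x, fderiv ℝ (N f) x v⟫ = 0 := by
    simpa using h4
  rw [A, real_inner_comm]
  linarith
theorem A_symm {f : E → ℝ} (hf : Surf f) {x v w : E} (hx : f x = 0) (hv : ⟪N f x, v⟫ = 0)
    (hw : ⟪N f x, w⟫ = 0) : A f x v w = A f x w v := by
  have hg : ‖∇ f x‖ ≠ 0 := norm_ne_zero_iff.2 (grad_ne hf hx)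
  have h1 := aux_hess hf hx v w hw
  have h2 := aux_hess hf hx w v hv
  have h3 : IsSymmSndFDerivAt ℝ f x :=
    hf.smooth.contDiffAt.isSymmSndFDerivAt (by
      simp only [minSmoothness_of_isRCLikeNormedField]
      exact WithTop.coe_le_coe.2 (le_top : (2 : ℕ∞) ≤ ⊤))
  have h4 := h3 v w
  rw [h1, h2] at h4
  exact mul_left_cancel₀ hg h4
theorem supp {f : E → ℝ} (hf : Surf f) {x y : E} (hx : f x = 0) (hy : f y ≤ 0) :
    ⟪N f x, y - x⟫ ≤ 0 := by
  have hx' : x ∈ {z | f z ≤ 0} := hx.le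
  have hseg : segment ℝ x y ⊆ {z | f z ≤ 0} := hf.convex.segment_subset hx' hy
  have hmax : IsLocalMaxOn f {z | f z ≤ 0} x := by
    have h1 : ∀ᶠ z in 𝓝[{z | f z ≤ 0}] x, f z ≤ f x := by
      filter_upwards [self_mem_nhdsWithin] with z hz
      rw [hx]
      exact hz
    exact h1
  have h1 := hmax.hasFDerivWithinAt_nonpos (aux_d1 hf x).hasFDerivWithinAt
    (sub_mem_posTangentConeAt_of_segment_subset hseg)
  rw [fderiv_eq hf hx] at h1
  have hg : 0 < ‖∇ f x‖ := norm_pos_iff.2 (grad_ne hf hx)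
  exact nonpos_of_mul_nonpos_right h1 hg
theorem A_nonneg {f : E → ℝ} (hf : Surf f) {x v : E} (hx : f x = 0) (hv : ⟪N f x, v⟫ = 0) :
    0 ≤ A f x v v := by
  by_contra hneg
  push Not at hneg
  have hg : 0 < ‖∇ f x‖ := norm_pos_iff.2 (grad_ne hf hx)
  have h1 := aux_hess hf hx v v hv
  have hneg2 : fderiv ℝ (fderiv ℝ f) x v v < 0 := by
    rw [h1]
    exact mul_neg_of_pos_of_neg hg hneg
  have hdd := aux_dd hf x v v
  have hv0 : fderiv ℝ f (x + (0 : ℝ) • v) v = 0 := by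
    rw [zero_smul, add_zero, fderiv_eq hf hx, hv, mul_zero]
  have hsign := eventually_nhdsWithin_sign_eq_of_deriv_neg (x₀ := (0 : ℝ))
    (f := fun t : ℝ => fderiv ℝ f (x + t • v) v) (by rw [hdd.deriv]; exact hneg2) hv0
  obtain ⟨δ, hδ, hball⟩ := Metric.eventually_nhds_iff.1 hsign
  have hline : ∀ t : ℝ, HasDerivAt (fun t : ℝ => f (x + t • v)) (fderiv ℝ f (x + t • v) v) t :=
    fun t => (aux_d1 hf (x + t • v)).comp_hasDerivAt t (aux_line x v t)
  have hanti : StrictAntiOn (fun t : ℝ => f (x + t • v)) (Icc 0 (δ / 2)) := by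
    apply strictAntiOn_of_deriv_neg (convex_Icc _ _)
    · exact fun t _ => (hline t).continuousAt.continuousWithinAt
    · intro t ht
      rw [interior_Icc] at ht
      rw [(hline t).deriv]
      have h2 := hball (y := t) (by
        rw [Real.dist_eq, sub_zero, abs_of_pos ht.1]
        linarith [ht.2])
      have h3 : SignType.sign (0 - t) = -1 := by
        rw [sign_eq_neg_one_iff]
        linarith [ht.1]
      rw [h3, sign_eq_neg_one_iff] at h2
      exact h2
  have h4 : f (x + (δ / 2) • v) < 0 := by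
    have h5 := hanti (left_mem_Icc.2 (by positivity)) (right_mem_Icc.2 (by positivity))
      (by positivity : (0 : ℝ) < δ / 2)
    simpa [hx] using h5
  -- move slightly in the direction of the normal
  have hcont : ContinuousAt (fun s : ℝ => f (x + (δ / 2) • v + s • N f x)) 0 := by
    have h6 : Continuous f := hf.smooth.continuous
    apply Continuous.continuousAt
    fun_prop
  have h7 : ∀ᶠ s in 𝓝 (0 : ℝ), f (x + (δ / 2) • v + s • N f x) < 0 := by
    apply hcont.eventually_lt continuousAt_const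
    simpa using h4
  have h8 : ∀ᶠ s in 𝓝[>] (0 : ℝ), f (x + (δ / 2) • v + s • N f x) < 0 :=
    h7.filter_mono nhdsWithin_le_nhds
  obtain ⟨s, hs, hs0⟩ := (h8.and self_mem_nhdsWithin).exists
  have hs0' : 0 < s := hs0
  have h9 := supp hf hx hs.le
  have h10 : x + (δ / 2) • v + s • N f x - x = (δ / 2) • v + s • N f x := by abel
  rw [h10, inner_add_right, real_inner_smul_right, real_inner_smul_right, hv,
    real_inner_self_eq_norm_sq, N_norm hf hx] at h9
  linarith

end Pool.Agent.GR.GA2
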