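import Pool.Agent.GR.Defs
import Pool.Agent.GR.GA1

set_option autoImplicit false
open Set Filter Topology MeasureTheory
open scoped Gradient RealInnerProductSpace ContDiff


namespace Pool.Agent.GR.GA3
open Pool.Agent.GR
open Pool.Agent.GR.GA1 (grad_ne fderiv_eq N_smooth N_norm N_norm_nhds)




/-! ## TARGET (prove this) -/

theorem S_compact {f : E → ℝ} (hf : Surf f) : IsCompact {x | f x = 0} := by
  apply hf.compact.of_isClosed_subset
  · exact isClosed_eq hf.smooth.continuous continuous_const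
  · intro x hx
    exact le_of_eq hx
theorem UT_compact {f : E → ℝ} (hf : Surf f) : IsCompact (UT f) := by
  have hK : IsCompact ({x | f x = 0} ×ˢ Metric.sphere (0 : E) 1) :=
    (S_compact hf).prod (isCompact_sphere 0 1)
  have hc : Continuous (fun p : E × E => fderiv ℝ f p.1 p.2) := by
    have h1 : Continuous (fderiv ℝ f) := hf.smooth.continuous_fderiv (by simp)
    exact (h1.comp continuous_fst).clm_apply continuous_snd
  have hcl : IsClosed {p : E × E | fderiv ℝ f p.1 p.2 = 0} := isClosed_eq hc continuous_const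
  have heq : UT f = ({x | f x = 0} ×ˢ Metric.sphere (0 : E) 1) ∩
      {p : E × E | fderiv ℝ f p.1 p.2 = 0} := by
    ext p
    constructor
    · rintro ⟨h1, h2, h3⟩
      refine ⟨⟨h1, ?_⟩, ?_⟩
      · rw [mem_sphere_zero_iff_norm]
        exact h3
      · show fderiv ℝ f p.1 p.2 = 0
        rw [fderiv_eq hf h1, h2, mul_zero]
    · rintro ⟨⟨h1, h2⟩, h3⟩
      have h1' : f p.1 = 0 := h1
      refine ⟨h1', ?_, ?_⟩
      · have h4 : fderiv ℝ f p.1 p.2 = 0 := h3
        rw [fderiv_eq hf h1'] at h4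
        rcases mul_eq_zero.mp h4 with h5 | h5
        · exact absurd (norm_eq_zero.mp h5) (grad_ne hf h1')
        · exact h5
      · exact mem_sphere_zero_iff_norm.mp h2
  rw [heq]
  exact hK.inter_right hcl
theorem S_nonempty {f : E → ℝ} (hf : Surf f) : ∃ x, f x = 0 := by
  obtain ⟨z, hz⟩ := hf.int
  have hz0 : z ∈ {x | f x ≤ 0} := interior_subset hz
  have hz' : f z ≤ 0 := hz0
  obtain ⟨R, hR⟩ := hf.compact.isBounded.subset_closedBall (0 : E)
  have hw : ∃ w, 0 ≤ f w := by
    refine ⟨EuclideanSpace.single 0 (|R| + 1), ?_⟩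
    by_contra hcon
    push Not at hcon
    have h1 := hR (show EuclideanSpace.single 0 (|R| + 1) ∈ {x | f x ≤ 0} from hcon.le)
    rw [mem_closedBall_zero_iff, PiLp.norm_single, Real.norm_eq_abs,
      abs_of_nonneg (by positivity)] at h1
    have := le_abs_self R
    linarith
  obtain ⟨x, hx⟩ := mem_range_of_exists_le_of_exists_ge hf.smooth.continuous ⟨z, hz'⟩ hw
  exact ⟨x, hx⟩
theorem exists_UT {f : E → ℝ} (hf : Surf f) {x : E} (hx : f x = 0) : ∃ u, (x, u) ∈ UT f := by
  have hker : LinearMap.ker ((innerSL ℝ (N f x)).toLinearMap) ≠ ⊥ := by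
    apply LinearMap.ker_ne_bot_of_finrank_lt
    simp
  obtain ⟨v, hv, hv0⟩ := Submodule.exists_mem_ne_zero_of_ne_bot hker
  have hv' : ⟪N f x, v⟫ = 0 := hv
  have hn : ‖v‖ ≠ 0 := norm_ne_zero_iff.mpr hv0
  refine ⟨‖v‖⁻¹ • v, hx, ?_, ?_⟩
  · show ⟪N f x, ‖v‖⁻¹ • v⟫ = 0
    rw [inner_smul_right, hv', mul_zero]
  · show ‖‖v‖⁻¹ • v‖ = 1
    rw [norm_smul, norm_inv, norm_norm, inv_mul_cancel₀ hn]

end Pool.Agent.GR.GA3
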