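import Pool.Agent.GR.Defs
import Pool.Agent.GR.GA1
import Pool.Agent.GR.GA2
import Pool.Agent.GR.GA3

set_option autoImplicit false
open Set Filter Topology MeasureTheory
open scoped Gradient RealInnerProductSpace ContDiff


namespace Pool.Agent.GR.GA5
open Pool.Agent.GR
open Pool.Agent.GR.GA1 (grad_ne fderiv_eq N_smooth N_norm N_norm_nhds)
open Pool.Agent.GR.GA2 (supp)
open Pool.Agent.GR.GA3 (S_compact)




/-! ## TARGET (prove this) -/

theorem retr_int_neg {f : E → ℝ} (hf : Surf f) {p : E} (hp : p ∈ interior {x | f x ≤ 0}) :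
    f p < 0 := by
  have h0 : p ∈ {x | f x ≤ 0} := interior_subset hp
  have h1 : f p ≤ 0 := h0
  rcases h1.lt_or_eq with h | h
  · exact h
  · exfalso
    have hmax : IsLocalMax f p := by
      filter_upwards [mem_interior_iff_mem_nhds.1 hp] with y hy
      rw [h]
      exact hy
    exact hf.reg p h hmax.fderiv_eq_zero

theorem retr_pos {f : E → ℝ} (hf : Surf f) {o p : E} (ho : o ∈ interior {x | f x ≤ 0})
    (hp : f p = 0) : 0 < fderiv ℝ f p (p - o) := by
  rw [fderiv_eq hf hp]
  have h1 : 0 < ‖∇ f p‖ := norm_pos_iff.2 (grad_ne hf hp)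
  refine mul_pos h1 ?_
  obtain ⟨r, hr, hb⟩ := Metric.mem_nhds_iff.1 (mem_interior_iff_mem_nhds.1 ho)
  have hy : o + (r / 2) • N f p ∈ {x | f x ≤ 0} := by
    apply hb
    rw [Metric.mem_ball, dist_eq_norm, add_sub_cancel_left, norm_smul, N_norm hf hp, mul_one,
      Real.norm_of_nonneg (by positivity)]
    linarith
  have h2 := supp hf hp hy
  have h3 : ⟪N f p, o + (r / 2) • N f p - p⟫ = -⟪N f p, p - o⟫ + r / 2 := by
    have : o + (r / 2) • N f p - p = -(p - o) + (r / 2) • N f p := by abel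
    rw [this, inner_add_right, inner_neg_right, inner_smul_right, real_inner_self_eq_norm_sq,
      N_norm hf hp]
    ring
  rw [h3] at h2
  linarith

theorem retr_between {f : E → ℝ} (hf : Surf f) {o z : E} (ho : o ∈ interior {x | f x ≤ 0})
    {s t : ℝ} (hs : 0 ≤ s) (hst : s < t) (ht : f (o + t • (z - o)) ≤ 0) :
    f (o + s • (z - o)) < 0 := by
  apply retr_int_neg hf
  have ht0 : 0 < t := lt_of_le_of_lt hs hst
  have h1 := hf.convex.combo_interior_self_mem_interior ho ht (a := 1 - s / t) (b := s / t)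
    (by rw [sub_pos, div_lt_one ht0]; exact hst) (by positivity) (by ring)
  have : (1 - s / t) • o + (s / t) • (o + t • (z - o)) = o + s • (z - o) := by
    rw [smul_add, smul_smul, div_mul_cancel₀ _ ht0.ne', sub_smul, one_smul]
    abel
  rwa [this] at h1

theorem retr_exists {f : E → ℝ} (hf : Surf f) {o z : E} (ho : o ∈ interior {x | f x ≤ 0})
    (hz : z ≠ o) : ∃ s : ℝ, 0 < s ∧ f (o + s • (z - o)) = 0 := by
  have h0 : f (o + (0 : ℝ) • (z - o)) < 0 := by
    rw [zero_smul, add_zero]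
    exact retr_int_neg hf ho
  obtain ⟨R, hR⟩ := hf.compact.isBounded.subset_closedBall o
  have hn : 0 < ‖z - o‖ := norm_pos_iff.2 (sub_ne_zero.2 hz)
  have hS : 0 < (|R| + 1) / ‖z - o‖ := by positivity
  have h1 : 0 < f (o + ((|R| + 1) / ‖z - o‖) • (z - o)) := by
    by_contra hcon
    push Not at hcon
    have := hR hcon
    rw [Metric.mem_closedBall, dist_eq_norm, add_sub_cancel_left, norm_smul,
      Real.norm_of_nonneg hS.le, div_mul_cancel₀ _ hn.ne'] at this
    linarith [le_abs_self R]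
  have hcont : ContinuousOn (fun s : ℝ => f (o + s • (z - o))) (Icc 0 ((|R| + 1) / ‖z - o‖)) :=
    (hf.smooth.continuous.comp (g := f) (f := fun s : ℝ => o + s • (z - o))
      (by fun_prop)).continuousOn
  obtain ⟨s, hs, hs2⟩ := intermediate_value_Icc hS.le hcont ⟨h0.le, h1.le⟩
  refine ⟨s, ?_, hs2⟩
  rcases hs.1.lt_or_eq with h | h
  · exact h
  · rw [← h] at hs2
    exact absurd hs2 h0.ne

theorem retr_scale {f : E → ℝ} (hf : Surf f) {o : E} (ho : o ∈ interior {x | f x ≤ 0}) :
    ∃ s : E → ℝ, (∀ z, z ≠ o → 0 < s z ∧ f (o + s z • (z - o)) = 0) ∧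
      (∀ z, z ≠ o → ∀ t, 0 < t → f (o + t • (z - o)) = 0 → t = s z) ∧
      ∀ z, z ≠ o → ContDiffAt ℝ ∞ s z := by
  classical
  have hex : ∀ z : E, ∃ s : ℝ, z ≠ o → 0 < s ∧ f (o + s • (z - o)) = 0 := by
    intro z
    by_cases hz : z = o
    · exact ⟨1, fun h => absurd hz h⟩
    · obtain ⟨s, h⟩ := retr_exists hf ho hz
      exact ⟨s, fun _ => h⟩
  choose s hs using hex
  have huniq : ∀ z, z ≠ o → ∀ t, 0 < t → f (o + t • (z - o)) = 0 → t = s z := by
    intro z hz t ht h
    obtain ⟨h1, h2⟩ := hs z hz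
    rcases lt_trichotomy t (s z) with h3 | h3 | h3
    · have := retr_between hf ho ht.le h3 h2.le
      linarith
    · exact h3
    · have := retr_between hf ho h1.le h3 h.le
      linarith
  have hcont : ∀ z, z ≠ o → ContinuousAt s z := by
    intro z₀ hz₀
    obtain ⟨h1, h2⟩ := hs z₀ hz₀
    rw [Metric.continuousAt_iff']
    intro ε hε
    have hl : f (o + (max 0 (s z₀ - ε)) • (z₀ - o)) < 0 := by
      refine retr_between hf ho (le_max_left _ _) ?_ h2.le
      exact max_lt h1 (by linarith)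
    have hu : 0 < f (o + (s z₀ + ε) • (z₀ - o)) := by
      by_contra hcon
      push Not at hcon
      have := retr_between hf ho h1.le (by linarith : s z₀ < s z₀ + ε) hcon
      linarith
    have hc : ∀ c : ℝ, Continuous (fun z : E => f (o + c • (z - o))) := fun c =>
      hf.smooth.continuous.comp (g := f) (f := fun z : E => o + c • (z - o)) (by fun_prop)
    have e1 : ∀ᶠ z in 𝓝 z₀, f (o + (max 0 (s z₀ - ε)) • (z - o)) < 0 :=
      (hc _).continuousAt.eventually_lt continuousAt_const hl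
    have e2 : ∀ᶠ z in 𝓝 z₀, 0 < f (o + (s z₀ + ε) • (z - o)) :=
      continuousAt_const.eventually_lt (hc _).continuousAt hu
    have e3 : ∀ᶠ z in 𝓝 z₀, z ≠ o := isOpen_ne.mem_nhds hz₀
    filter_upwards [e1, e2, e3] with z k1 k2 k3
    obtain ⟨g1, g2⟩ := hs z k3
    have m1 : max 0 (s z₀ - ε) < s z := by
      by_contra hcon
      push Not at hcon
      rcases hcon.lt_or_eq with h3 | h3
      · have := retr_between hf ho g1.le h3 k1.le
        linarith
      · rw [← h3] at k1
        linarith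
    have m2 : s z < s z₀ + ε := by
      by_contra hcon
      push Not at hcon
      rcases hcon.lt_or_eq with h3 | h3
      · have := retr_between hf ho (by linarith) h3 g2.le
        linarith
      · rw [h3] at k2
        linarith
    have m3 : s z₀ - ε < s z := (le_max_right _ _).trans_lt m1
    rw [Real.dist_eq, abs_lt]
    constructor <;> linarith
  refine ⟨s, hs, huniq, ?_⟩
  intro z₀ hz₀
  obtain ⟨h1, h2⟩ := hs z₀ hz₀
  have cdf : ContDiffAt ℝ ∞ (fun v : E × ℝ => f (o + v.2 • (v.1 - o))) (z₀, s z₀) := by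
    have : ContDiff ℝ ∞ (fun v : E × ℝ => o + v.2 • (v.1 - o)) := by fun_prop
    exact (hf.smooth.comp this).contDiffAt
  have hfd : HasFDerivAt (fun v : E × ℝ => f (o + v.2 • (v.1 - o)))
      (fderiv ℝ (fun v : E × ℝ => f (o + v.2 • (v.1 - o))) (z₀, s z₀)) (z₀, s z₀) :=
    (cdf.differentiableAt (by simp)).hasFDerivAt
  -- derivative in the second variable
  have hc1 : HasDerivAt (fun t : ℝ => f (o + t • (z₀ - o)))
      (fderiv ℝ (fun v : E × ℝ => f (o + v.2 • (v.1 - o))) (z₀, s z₀) (0, 1)) (s z₀) := by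
    have h3 : HasDerivAt (fun t : ℝ => ((z₀, t) : E × ℝ)) (0, 1) (s z₀) :=
      (hasDerivAt_const _ _).prodMk (hasDerivAt_id _)
    exact HasFDerivAt.comp_hasDerivAt (l := fun v : E × ℝ => f (o + v.2 • (v.1 - o)))
      (s z₀) hfd h3
  have hc2 : HasDerivAt (fun t : ℝ => f (o + t • (z₀ - o)))
      (fderiv ℝ f (o + s z₀ • (z₀ - o)) (z₀ - o)) (s z₀) := by
    have h3 : HasDerivAt (fun t : ℝ => o + t • (z₀ - o)) (z₀ - o) (s z₀) := by
      have := ((hasDerivAt_id (s z₀)).smul_const (z₀ - o)).const_add o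
      rw [one_smul] at this
      exact this
    exact HasFDerivAt.comp_hasDerivAt (l := f) (s z₀)
      ((hf.smooth.differentiable (by simp)).differentiableAt).hasFDerivAt h3
  have hc3 := hc1.unique hc2
  have hne : fderiv ℝ f (o + s z₀ • (z₀ - o)) (z₀ - o) ≠ 0 := by
    have h3 := retr_pos hf ho h2
    rw [add_sub_cancel_left, map_smul, smul_eq_mul] at h3
    intro h4
    rw [h4, mul_zero] at h3
    exact lt_irrefl _ h3
  have if₂ : (fderiv ℝ (fun v : E × ℝ => f (o + v.2 • (v.1 - o))) (z₀, s z₀) ∘L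
      ContinuousLinearMap.inr ℝ E ℝ).IsInvertible := by
    refine ⟨ContinuousLinearEquiv.unitsEquivAut ℝ (Units.mk0 _ hne), ?_⟩
    apply ContinuousLinearMap.ext_ring
    simp only [ContinuousLinearMap.comp_apply, ContinuousLinearMap.inr_apply]
    rw [hc3]
    simp
  have hev := cdf.eventually_apply_eq_iff_implicitFunction (by simp) if₂
  have hsm := cdf.contDiffAt_implicitFunction (by simp) if₂
  have htend : Tendsto (fun z : E => ((z, s z) : E × ℝ)) (𝓝 z₀) (𝓝 (z₀, s z₀)) :=
    (continuousAt_id.prodMk (hcont z₀ hz₀))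
  have hev2 := htend.eventually hev
  refine hsm.congr_of_eventuallyEq ?_
  have e3 : ∀ᶠ z in 𝓝 z₀, z ≠ o := isOpen_ne.mem_nhds hz₀
  filter_upwards [hev2, e3] with z k1 k2
  exact (k1.1 (by show f (o + s z • (z - o)) = f (o + s z₀ • (z₀ - o)); rw [(hs z k2).2, h2])).symm

theorem retr {f : E → ℝ} (hf : Surf f) : ∃ (o : E) (P : E → E), f o < 0 ∧
    ContDiffOn ℝ ∞ P {o}ᶜ ∧ (∀ z, z ≠ o → f (P z) = 0) ∧ (∀ x, f x = 0 → P x = x) ∧
    ∀ x v, f x = 0 → ⟪N f x, v⟫ = 0 → fderiv ℝ P x v = v := by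
  obtain ⟨o, ho⟩ := hf.int
  have hfo := retr_int_neg hf ho
  obtain ⟨s, hs, huniq, hsm⟩ := retr_scale hf ho
  have hne : ∀ x, f x = 0 → x ≠ o := by
    rintro x hx rfl
    linarith
  have hs1 : ∀ x, f x = 0 → s x = 1 := by
    intro x hx
    refine (huniq x (hne x hx) 1 one_pos ?_).symm
    rw [one_smul, add_sub_cancel]
    exact hx
  refine ⟨o, fun z => o + s z • (z - o), hfo, ?_, fun z hz => (hs z hz).2, ?_, ?_⟩
  · intro z hz
    have h1 := hsm z hz
    exact (contDiffAt_const.add (h1.smul (contDiffAt_id.sub contDiffAt_const))).contDiffWithinAt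
  · intro x hx
    show o + s x • (x - o) = x
    rw [hs1 x hx, one_smul, add_sub_cancel]
  · intro x v hx hv
    have hxo := hne x hx
    have hsd : HasFDerivAt s (fderiv ℝ s x) x :=
      ((hsm x hxo).differentiableAt (by simp)).hasFDerivAt
    have hP : HasFDerivAt (fun z => o + s z • (z - o))
        (s x • ContinuousLinearMap.id ℝ E + (fderiv ℝ s x).smulRight (x - o)) x := by
      have h1 : HasFDerivAt (fun z : E => z - o) (ContinuousLinearMap.id ℝ E) x :=
        (hasFDerivAt_id x).sub_const o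
      exact (hsd.smul h1).const_add o
    rw [hP.fderiv]
    have hval : (s x • ContinuousLinearMap.id ℝ E + (fderiv ℝ s x).smulRight (x - o)) v =
        v + fderiv ℝ s x v • (x - o) := by
      simp [hs1 x hx]
    rw [hval]
    have hfd : HasFDerivAt f (fderiv ℝ f x) (o + s x • (x - o)) := by
      rw [hs1 x hx, one_smul, add_sub_cancel]
      exact ((hf.smooth.differentiable (by simp)).differentiableAt).hasFDerivAt
    have hcomp : HasFDerivAt (fun z => f (o + s z • (z - o)))
        ((fderiv ℝ f x).comp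
          (s x • ContinuousLinearMap.id ℝ E + (fderiv ℝ s x).smulRight (x - o))) x :=
      HasFDerivAt.comp (g := f) (f := fun z => o + s z • (z - o)) x hfd hP
    have hzero : HasFDerivAt (fun z => f (o + s z • (z - o))) (0 : E →L[ℝ] ℝ) x := by
      refine (hasFDerivAt_const (0 : ℝ) x).congr_of_eventuallyEq ?_
      have e3 : ∀ᶠ z in 𝓝 x, z ≠ o := isOpen_ne.mem_nhds hxo
      filter_upwards [e3] with z hz
      exact (hs z hz).2
    have h1 := hcomp.unique hzero
    have h2 := congrArg (fun L : E →L[ℝ] ℝ => L v) h1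
    simp only [ContinuousLinearMap.comp_apply, ContinuousLinearMap.zero_apply] at h2
    rw [hval, map_add, map_smul, fderiv_eq hf hx v, hv, mul_zero, zero_add, smul_eq_mul] at h2
    have h3 := (retr_pos hf ho hx).ne'
    have h4 : fderiv ℝ s x v = 0 := (mul_eq_zero.1 h2).resolve_right h3
    rw [h4, zero_smul, add_zero]

end Pool.Agent.GR.GA5
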