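import Pool.Agent.GR.Defs
import Pool.Agent.GR.GA5
import Pool.Agent.GR.GA3

set_option autoImplicit false
open Set Filter Topology MeasureTheory
open scoped Gradient RealInnerProductSpace ContDiff


namespace Pool.Agent.GR.GA4
open Pool.Agent.GR
open Pool.Agent.GR.GA5 (retr)
open Pool.Agent.GR.GA3 (S_nonempty S_compact)




/-! ## TARGET (prove this) -/

theorem retraction {f : E → ℝ} (hf : Surf f) : ∃ (U : Set E) (P : E → E), IsOpen U ∧
    {x | f x = 0} ⊆ U ∧ ContDiffOn ℝ ∞ P U ∧ (∀ z ∈ U, f (P z) = 0) ∧ (∀ x, f x = 0 → P x = x) ∧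
    ∀ x v, f x = 0 → ⟪N f x, v⟫ = 0 → fderiv ℝ P x v = v := by
  obtain ⟨o, P, ho, h1, h2, h3, h4⟩ := retr hf
  refine ⟨{o}ᶜ, P, isOpen_compl_singleton, ?_, h1, fun z hz => h2 z hz, h3, h4⟩
  intro x hx hxo
  have hx' : f x = 0 := hx
  rw [Set.mem_singleton_iff] at hxo
  rw [hxo] at hx'
  linarith
theorem S_connected {f : E → ℝ} (hf : Surf f) : IsConnected {x | f x = 0} := by
  obtain ⟨o, P, ho, h1, h2, h3, h4⟩ := retr hf
  have himg : {x | f x = 0} = P '' {o}ᶜ := by
    ext x
    constructor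
    · intro hx
      have hx' : f x = 0 := hx
      refine ⟨x, ?_, h3 x hx'⟩
      intro hxo
      rw [Set.mem_singleton_iff] at hxo
      rw [hxo] at hx'
      linarith
    · rintro ⟨z, hz, rfl⟩
      exact h2 z hz
  rw [himg]
  refine IsConnected.image ?_ P h1.continuousOn
  apply isConnected_compl_singleton_of_one_lt_rank
  have hfr : Module.finrank ℝ E = 3 := by simp [E]
  rw [← Module.finrank_eq_rank, hfr]
  norm_num

end Pool.Agent.GR.GA4
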