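import Pool.Agent.GR.Defs

set_option autoImplicit false
open Set Filter Topology MeasureTheory
open scoped Gradient RealInnerProductSpace ContDiff


namespace Pool.Agent.GR.GA6
open Pool.Agent.GR


/-! ## TARGET (prove this) -/

theorem inner3 (a b : E) : ⟪a, b⟫ = a 0 * b 0 + a 1 * b 1 + a 2 * b 2 := by
  rw [PiLp.inner_apply, Fin.sum_univ_three]
  simp [mul_comm]
theorem norm3 (a : E) : ‖a‖ ^ 2 = a 0 ^ 2 + a 1 ^ 2 + a 2 ^ 2 := by
  rw [← real_inner_self_eq_norm_sq, inner3]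
  ring
theorem cr0 (a b : E) : cr a b 0 = a 1 * b 2 - a 2 * b 1 := by simp [cr]
theorem cr1 (a b : E) : cr a b 1 = a 2 * b 0 - a 0 * b 2 := by simp [cr]
theorem cr2 (a b : E) : cr a b 2 = a 0 * b 1 - a 1 * b 0 := by simp [cr]
theorem ext3 {a b : E} (h0 : a 0 = b 0) (h1 : a 1 = b 1) (h2 : a 2 = b 2) : a = b := by
  ext i
  fin_cases i
  · exact h0
  · exact h1
  · exact h2
theorem cr_inner_left (a b : E) : ⟪cr a b, a⟫ = 0 := by
  rw [inner3, cr0, cr1, cr2]
  ring
theorem cr_inner_right (a b : E) : ⟪cr a b, b⟫ = 0 := by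
  rw [inner3, cr0, cr1, cr2]
  ring
theorem cr_norm {a b : E} (ha : ‖a‖ = 1) (hb : ‖b‖ = 1) (h : ⟪a, b⟫ = 0) : ‖cr a b‖ = 1 := by
  have h1 : ‖cr a b‖ ^ 2 = 1 := by
    have e1 := norm3 a
    have e2 := norm3 b
    rw [ha, one_pow] at e1
    rw [hb, one_pow] at e2
    rw [inner3] at h
    rw [norm3, cr0, cr1, cr2]
    linear_combination (-(a 0 * b 0 + a 1 * b 1 + a 2 * b 2)) * h -
      (b 0 ^ 2 + b 1 ^ 2 + b 2 ^ 2) * e1 - e2
  have h2 : 0 ≤ ‖cr a b‖ := norm_nonneg _
  nlinarith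
theorem cr_smooth : ContDiff ℝ ∞ (fun p : E × E => cr p.1 p.2) := by
  have hc1 : ∀ i : Fin 3, ContDiff ℝ ∞ (fun p : E × E => p.1 i) := fun i =>
    (EuclideanSpace.proj (𝕜 := ℝ) i).contDiff.comp contDiff_fst
  have hc2 : ∀ i : Fin 3, ContDiff ℝ ∞ (fun p : E × E => p.2 i) := fun i =>
    (EuclideanSpace.proj (𝕜 := ℝ) i).contDiff.comp contDiff_snd
  rw [contDiff_euclidean]
  intro i
  fin_cases i
  · have : (fun p : E × E => cr p.1 p.2 0) = fun p => p.1 1 * p.2 2 - p.1 2 * p.2 1 := by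
      funext p; exact cr0 _ _
    show ContDiff ℝ ∞ (fun p : E × E => cr p.1 p.2 0)
    rw [this]
    exact ((hc1 1).mul (hc2 2)).sub ((hc1 2).mul (hc2 1))
  · have : (fun p : E × E => cr p.1 p.2 1) = fun p => p.1 2 * p.2 0 - p.1 0 * p.2 2 := by
      funext p; exact cr1 _ _
    show ContDiff ℝ ∞ (fun p : E × E => cr p.1 p.2 1)
    rw [this]
    exact ((hc1 2).mul (hc2 0)).sub ((hc1 0).mul (hc2 2))
  · have : (fun p : E × E => cr p.1 p.2 2) = fun p => p.1 0 * p.2 1 - p.1 1 * p.2 0 := by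
      funext p; exact cr2 _ _
    show ContDiff ℝ ∞ (fun p : E × E => cr p.1 p.2 2)
    rw [this]
    exact ((hc1 0).mul (hc2 1)).sub ((hc1 1).mul (hc2 0))
theorem cr_cr {a b : E} (ha : ‖a‖ = 1) (h : ⟪a, b⟫ = 0) : cr a (cr a b) = -b := by
  have e1 := norm3 a
  rw [ha, one_pow] at e1
  rw [inner3] at h
  apply ext3
  · rw [cr0, cr1, cr2, PiLp.neg_apply]
    linear_combination (a 0) * h + (b 0) * e1
  · rw [cr1, cr0, cr2, PiLp.neg_apply]
    linear_combination (a 1) * h + (b 1) * e1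
  · rw [cr2, cr0, cr1, PiLp.neg_apply]
    linear_combination (a 2) * h + (b 2) * e1
theorem cr_add (a b c : E) : cr a (b + c) = cr a b + cr a c := by
  apply ext3
  · rw [PiLp.add_apply, cr0, cr0, cr0, PiLp.add_apply, PiLp.add_apply]; ring
  · rw [PiLp.add_apply, cr1, cr1, cr1, PiLp.add_apply, PiLp.add_apply]; ring
  · rw [PiLp.add_apply, cr2, cr2, cr2, PiLp.add_apply, PiLp.add_apply]; ring
theorem cr_smul (a b : E) (c : ℝ) : cr a (c • b) = c • cr a b := by
  apply ext3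
  · rw [PiLp.smul_apply, cr0, cr0, PiLp.smul_apply, PiLp.smul_apply]
    simp only [smul_eq_mul]; ring
  · rw [PiLp.smul_apply, cr1, cr1, PiLp.smul_apply, PiLp.smul_apply]
    simp only [smul_eq_mul]; ring
  · rw [PiLp.smul_apply, cr2, cr2, PiLp.smul_apply, PiLp.smul_apply]
    simp only [smul_eq_mul]; ring
theorem frame {a b : E} (ha : ‖a‖ = 1) (hb : ‖b‖ = 1) (h : ⟪a, b⟫ = 0) (v : E) :
    v = ⟪a, v⟫ • a + ⟪b, v⟫ • b + ⟪cr a b, v⟫ • cr a b := by
  have hc := cr_norm ha hb h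
  have h1 := cr_inner_left a b
  have h2 := cr_inner_right a b
  have ho : Orthonormal ℝ ![a, b, cr a b] := by
    constructor
    · intro i
      fin_cases i
      · exact ha
      · exact hb
      · exact hc
    · intro i j hij
      fin_cases i <;> fin_cases j
      · exact absurd rfl hij
      · exact h
      · show ⟪a, cr a b⟫ = 0
        rw [real_inner_comm]; exact h1
      · show ⟪b, a⟫ = 0
        rw [real_inner_comm]; exact h
      · exact absurd rfl hij
      · show ⟪b, cr a b⟫ = 0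
        rw [real_inner_comm]; exact h2
      · exact h1
      · exact h2
      · exact absurd rfl hij
  have hcard : Fintype.card (Fin 3) = Module.finrank ℝ E := by simp
  have hob : ⇑(basisOfOrthonormalOfCardEqFinrank ho hcard) = ![a, b, cr a b] :=
    coe_basisOfOrthonormalOfCardEqFinrank ho hcard
  have ho' : Orthonormal ℝ ⇑(basisOfOrthonormalOfCardEqFinrank ho hcard) := by rw [hob]; exact ho
  have h3 := ((basisOfOrthonormalOfCardEqFinrank ho hcard).toOrthonormalBasis ho').sum_repr' v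
  rw [Module.Basis.coe_toOrthonormalBasis, hob, Fin.sum_univ_three] at h3
  exact h3.symm
end Pool.Agent.GR.GA6
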