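import Pool.Agent.GR.Defs
import Pool.Agent.GR.GA1
import Pool.Agent.GR.GA6

set_option autoImplicit false
open Set Filter Topology MeasureTheory
open scoped Gradient RealInnerProductSpace ContDiff


namespace Pool.Agent.GR.GA7
open Pool.Agent.GR
open Pool.Agent.GR.GA1 (N_norm)
open Pool.Agent.GR.GA6 (cr_inner_left cr_inner_right cr_norm cr_smooth cr_cr cr_add cr_smul frame)




/-! ## TARGET (prove this) -/

theorem ut_facts847 {f : E → ℝ} {x u : E} (hf : Surf f) (hp : (x, u) ∈ UT f) :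
    f x = 0 ∧ ‖N f x‖ = 1 ∧ ⟪N f x, u⟫ = 0 ∧ ‖u‖ = 1 ∧ ‖cr (N f x) u‖ = 1 ∧
      ⟪N f x, cr (N f x) u⟫ = 0 ∧ ⟪u, cr (N f x) u⟫ = 0 := by
  obtain ⟨hx, h, hu⟩ := hp
  simp only at hx h hu
  have hn := N_norm hf hx
  refine ⟨hx, hn, h, hu, cr_norm hn hu h, ?_, ?_⟩
  · rw [real_inner_comm]; exact cr_inner_left _ _
  · rw [real_inner_comm]; exact cr_inner_right _ _

theorem comb_norm847 {u w : E} (hu : ‖u‖ = 1) (hw : ‖w‖ = 1) (h : ⟪u, w⟫ = 0) (a b : ℝ) :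
    ‖a • u + b • w‖ ^ 2 = a ^ 2 + b ^ 2 := by
  rw [norm_add_sq_real, norm_smul, norm_smul, inner_smul_left, inner_smul_right, h, hu, hw]
  simp

theorem perp_UT {f : E → ℝ} {x u : E} (hf : Surf f) (hp : (x, u) ∈ UT f) : (x, cr (N f x) u) ∈ UT f := by
  obtain ⟨hx, hn, h, hu, hw, h1, h2⟩ := ut_facts847 hf hp
  exact ⟨hx, h1, hw⟩
theorem rot_UT {f : E → ℝ} {x u : E} (hf : Surf f) (hp : (x, u) ∈ UT f) (θ : ℝ) :
    (x, rot f x u θ) ∈ UT f := by
  obtain ⟨hx, hn, h, hu, hw, h1, h2⟩ := ut_facts847 hf hp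
  refine ⟨hx, ?_, ?_⟩
  · simp only [rot]
    rw [inner_add_right, inner_smul_right, inner_smul_right, h, h1]; simp
  · simp only [rot]
    have := comb_norm847 hu hw h2 (Real.cos θ) (Real.sin θ)
    rw [Real.cos_sq_add_sin_sq] at this
    have h0 : 0 ≤ ‖Real.cos θ • u + Real.sin θ • cr (N f x) u‖ := norm_nonneg _
    nlinarith
theorem rot_zero (f : E → ℝ) (x u : E) : rot f x u 0 = u := by
  simp [rot]
theorem cr_rot_aux847 {f : E → ℝ} {x u : E} (hf : Surf f) (hp : (x, u) ∈ UT f) (θ : ℝ) :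
    cr (N f x) (rot f x u θ) = -Real.sin θ • u + Real.cos θ • cr (N f x) u := by
  obtain ⟨hx, hn, h, hu, hw, h1, h2⟩ := ut_facts847 hf hp
  simp only [rot]
  rw [cr_add, cr_smul, cr_smul, cr_cr hn h]
  module
theorem rot_rot {f : E → ℝ} {x u : E} (hf : Surf f) (hp : (x, u) ∈ UT f) (θ φ : ℝ) :
    rot f x (rot f x u θ) φ = rot f x u (θ + φ) := by
  have h := cr_rot_aux847 hf hp θ
  conv_lhs => rw [rot, h]
  simp only [rot]
  rw [Real.cos_add, Real.sin_add]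
  module
theorem rot_inner847 {f : E → ℝ} {x u : E} (hf : Surf f) (hp : (x, u) ∈ UT f) (θ : ℝ) :
    ⟪u, rot f x u θ⟫ = Real.cos θ ∧ ⟪cr (N f x) u, rot f x u θ⟫ = Real.sin θ := by
  obtain ⟨hx, hn, h, hu, hw, h1, h2⟩ := ut_facts847 hf hp
  have h3 : ⟪cr (N f x) u, u⟫ = 0 := by rw [real_inner_comm]; exact h2
  simp only [rot]
  constructor
  · rw [inner_add_right, inner_smul_right, inner_smul_right, h2, real_inner_self_eq_norm_sq, hu]
    simp
  · rw [inner_add_right, inner_smul_right, inner_smul_right, h3, real_inner_self_eq_norm_sq, hw]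
    simp
theorem rot_eq_iff {f : E → ℝ} {x u : E} (hf : Surf f) (hp : (x, u) ∈ UT f) (θ φ : ℝ) :
    rot f x u θ = rot f x u φ ↔ ∃ k : ℤ, φ = θ + k * (2 * Real.pi) := by
  constructor
  · intro h
    obtain ⟨a1, a2⟩ := rot_inner847 hf hp θ
    obtain ⟨b1, b2⟩ := rot_inner847 hf hp φ
    rw [h] at a1 a2
    have hc : Real.cos φ = Real.cos θ := by rw [← b1, ← a1]
    have hs : Real.sin φ = Real.sin θ := by rw [← b2, ← a2]
    have := Real.Angle.cos_sin_inj hc hs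
    obtain ⟨k, hk⟩ := Real.Angle.angle_eq_iff_two_pi_dvd_sub.mp this
    exact ⟨k, by linarith⟩
  · rintro ⟨k, rfl⟩
    simp only [rot]
    rw [Real.cos_add_int_mul_two_pi, Real.sin_add_int_mul_two_pi]
theorem rot_surj {f : E → ℝ} {x u w : E} (hf : Surf f) (hp : (x, u) ∈ UT f) (hw : (x, w) ∈ UT f) :
    ∃ θ ∈ Ico 0 (2 * Real.pi), w = rot f x u θ := by
  obtain ⟨hx, hn, h, hu, hv, h1, h2⟩ := ut_facts847 hf hp
  obtain ⟨_, hnw, hw1⟩ := hw
  simp only at hnw hw1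
  have hfr := frame hn hu h w
  rw [hnw, zero_smul, zero_add] at hfr
  set a : ℝ := ⟪u, w⟫ with ha
  set b : ℝ := ⟪cr (N f x) u, w⟫ with hb
  have hab : a ^ 2 + b ^ 2 = 1 := by
    rw [← comb_norm847 hu hv h2 a b, ← hfr, hw1]; norm_num
  set z : ℂ := ⟨a, b⟩ with hz
  have hzn : ‖z‖ = 1 := by
    have h3 : ‖z‖ ^ 2 = 1 := by
      rw [← Complex.normSq_eq_norm_sq, Complex.normSq_mk]; linarith
    have h4 : 0 ≤ ‖z‖ := norm_nonneg z
    nlinarith
  have hz0 : z ≠ 0 := by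
    intro h0; rw [h0, norm_zero] at hzn; exact zero_ne_one hzn
  have hcos : Real.cos z.arg = a := by rw [Complex.cos_arg hz0, hzn]; simp [hz]
  have hsin : Real.sin z.arg = b := by rw [Complex.sin_arg, hzn]; simp [hz]
  have hpi := Real.pi_pos
  have hle := Complex.arg_le_pi z
  have hlt := Complex.neg_pi_lt_arg z
  rcases le_or_gt 0 z.arg with h5 | h5
  · refine ⟨z.arg, ⟨h5, by linarith⟩, ?_⟩
    simp only [rot]; rw [hcos, hsin]; exact hfr
  · refine ⟨z.arg + 2 * Real.pi, ⟨by linarith, by linarith⟩, ?_⟩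
    simp only [rot]; rw [Real.cos_add_two_pi, Real.sin_add_two_pi, hcos, hsin]; exact hfr
theorem rot_deriv (f : E → ℝ) (x u : E) (θ : ℝ) :
    HasDerivAt (fun θ => rot f x u θ) (-Real.sin θ • u + Real.cos θ • cr (N f x) u) θ := by
  simp only [rot]
  exact ((Real.hasDerivAt_cos θ).smul_const u).add ((Real.hasDerivAt_sin θ).smul_const _)
theorem cr_rot {f : E → ℝ} {x u : E} (hf : Surf f) (hp : (x, u) ∈ UT f) (θ : ℝ) :
    cr (N f x) (rot f x u θ) = -Real.sin θ • u + Real.cos θ • cr (N f x) u :=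
  cr_rot_aux847 hf hp θ

end Pool.Agent.GR.GA7
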