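import Pool.Agent.GR.Defs
import Pool.Agent.GR.GA1
import Pool.Agent.GR.GA2
import Pool.Agent.GR.GA6
import Pool.Agent.GR.GA7
import Pool.Agent.GR.GA3

set_option autoImplicit false
open Set Filter Topology MeasureTheory
open scoped Gradient RealInnerProductSpace ContDiff


namespace Pool.Agent.GR.GA8
open Pool.Agent.GR
open Pool.Agent.GR.GA1 (grad_ne fderiv_eq N_smooth N_norm N_norm_nhds)
open Pool.Agent.GR.GA2 (A_normal A_symm)
open Pool.Agent.GR.GA6 (cr_inner_left cr_inner_right cr_norm frame)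
open Pool.Agent.GR.GA7 (perp_UT)
open Pool.Agent.GR.GA3 (exists_UT)




/-! ## TARGET (prove this) -/

theorem det_onb (b : OrthonormalBasis (Fin 3) ℝ E) (T : E →L[ℝ] E) :
    T.det = (Matrix.of fun i j => ⟪b i, T (b j)⟫).det := by
  show LinearMap.det (T : E →ₗ[ℝ] E) = _
  rw [← LinearMap.det_toMatrix b.toBasis]
  congr 1
  ext i j
  rw [LinearMap.toMatrix_apply, OrthonormalBasis.coe_toBasis_repr_apply,
    OrthonormalBasis.coe_toBasis, OrthonormalBasis.repr_apply_apply]
  rfl

theorem A_eq {f : E → ℝ} (hf : Surf f) {x u : E} (hp : (x, u) ∈ UT f) :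
    fderiv ℝ (N f) x u = A f x u u • u + A f x u (cr (N f x) u) • cr (N f x) u := by
  obtain ⟨hx, hn, hu⟩ := hp
  have hx' : f x = 0 := hx
  have hn' : ⟪N f x, u⟫ = 0 := hn
  have hu' : ‖u‖ = 1 := hu
  have h1 := frame (N_norm hf hx') hu' hn' (fderiv ℝ (N f) x u)
  have h2 : ⟪N f x, fderiv ℝ (N f) x u⟫ = 0 := by
    rw [real_inner_comm]
    exact A_normal hf hx' u
  have h3 : ⟪u, fderiv ℝ (N f) x u⟫ = A f x u u := by
    rw [real_inner_comm]; rfl
  have h4 : ⟪cr (N f x) u, fderiv ℝ (N f) x u⟫ = A f x u (cr (N f x) u) := by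
    rw [real_inner_comm]; rfl
  rw [h2, h3, h4, zero_smul, zero_add] at h1
  exact h1

theorem K_eq {f : E → ℝ} (hf : Surf f) {x u : E} (hp : (x, u) ∈ UT f) :
    K f x = A f x u u * A f x (cr (N f x) u) (cr (N f x) u) - A f x u (cr (N f x) u) ^ 2 := by
  have hp2 := perp_UT hf hp
  obtain ⟨hx, hn, hu⟩ := hp
  obtain ⟨_, hnw, hw⟩ := hp2
  have hx' : f x = 0 := hx
  have hn' : ⟪N f x, u⟫ = 0 := hn
  have hu' : ‖u‖ = 1 := hu
  have hnw' : ⟪N f x, cr (N f x) u⟫ = 0 := hnw
  have hw' : ‖cr (N f x) u‖ = 1 := hw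
  have hNn := N_norm hf hx'
  have huw : ⟪u, cr (N f x) u⟫ = 0 := by
    rw [real_inner_comm]; exact cr_inner_right _ _
  have hfr := frame hNn hu' hn'
  have hsym : A f x (cr (N f x) u) u = A f x u (cr (N f x) u) := A_symm hf hx' hnw' hn'
  have hA1 : A f x u (N f x) = 0 := A_normal hf hx' u
  have hA2 : A f x (cr (N f x) u) (N f x) = 0 := A_normal hf hx' _
  have hA3 : A f x (N f x) (N f x) = 0 := A_normal hf hx' _
  unfold K
  generalize hwdef : cr (N f x) u = w at *
  generalize hndef : N f x = n at *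
  have hon : Orthonormal ℝ ![u, w, n] := by
    constructor
    · intro i
      fin_cases i
      · exact hu'
      · exact hw'
      · exact hNn
    · intro i j hij
      fin_cases i <;> fin_cases j
      · exact absurd rfl hij
      · exact huw
      · show ⟪u, n⟫ = 0
        rw [real_inner_comm]; exact hn'
      · show ⟪w, u⟫ = 0
        rw [real_inner_comm]; exact huw
      · exact absurd rfl hij
      · show ⟪w, n⟫ = 0
        rw [real_inner_comm]; exact hnw'
      · exact hn'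
      · exact hnw'
      · exact absurd rfl hij
  have hsp : ⊤ ≤ Submodule.span ℝ (Set.range ![u, w, n]) := by
    intro v _
    rw [hfr v]
    have m0 : u ∈ Submodule.span ℝ (Set.range ![u, w, n]) := Submodule.subset_span ⟨0, rfl⟩
    have m1 : w ∈ Submodule.span ℝ (Set.range ![u, w, n]) := Submodule.subset_span ⟨1, rfl⟩
    have m2 : n ∈ Submodule.span ℝ (Set.range ![u, w, n]) := Submodule.subset_span ⟨2, rfl⟩
    exact Submodule.add_mem _ (Submodule.add_mem _ (Submodule.smul_mem _ _ m2)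
      (Submodule.smul_mem _ _ m0)) (Submodule.smul_mem _ _ m1)
  rw [det_onb (OrthonormalBasis.mk hon hsp), OrthonormalBasis.coe_mk, Matrix.det_fin_three]
  have hT : ∀ v : E, (fderiv ℝ (N f) x + (innerSL ℝ n).smulRight n) v =
      fderiv ℝ (N f) x v + ⟪n, v⟫ • n := fun v => rfl
  have hAd : ∀ v w' : E, ⟪w', fderiv ℝ (N f) x v⟫ = A f x v w' := by
    intro v w'
    rw [real_inner_comm]; rfl
  simp only [Matrix.of_apply, Matrix.cons_val_zero, Matrix.cons_val_one, Matrix.cons_val,
    hT, inner_add_right, real_inner_smul_right, hAd, hn', hnw', hA1, hA2, hA3, hsym,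
    real_inner_self_eq_norm_sq, hNn]
  ring

theorem K_smooth {f : E → ℝ} (hf : Surf f) {x : E} (hx : f x = 0) : ContDiffAt ℝ ∞ (K f) x := by
  have hN := N_smooth hf hx
  have hD : ContDiffAt ℝ ∞ (fderiv ℝ (N f)) x := hN.fderiv_right (by simp)
  have hI : ContDiffAt ℝ ∞ (fun y => innerSL ℝ (N f y)) x :=
    (innerSL ℝ (E := E)).contDiff.contDiffAt.comp x hN
  have hT : ContDiffAt ℝ ∞ (fun y => fderiv ℝ (N f) y + (innerSL ℝ (N f y)).smulRight (N f y)) x :=
    hD.add (hI.smulRight hN)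
  have hent : ∀ i j : Fin 3, ContDiffAt ℝ ∞ (fun y =>
      ⟪EuclideanSpace.basisFun (Fin 3) ℝ i, (fderiv ℝ (N f) y + (innerSL ℝ (N f y)).smulRight (N f y))
        (EuclideanSpace.basisFun (Fin 3) ℝ j)⟫) x := by
    intro i j
    exact contDiffAt_const.inner ℝ (hT.clm_apply contDiffAt_const)
  have e : K f = fun y => (Matrix.of fun i j => ⟪EuclideanSpace.basisFun (Fin 3) ℝ i,
      (fderiv ℝ (N f) y + (innerSL ℝ (N f y)).smulRight (N f y))
        (EuclideanSpace.basisFun (Fin 3) ℝ j)⟫).det := by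
    funext y
    exact det_onb (EuclideanSpace.basisFun (Fin 3) ℝ) _
  rw [e]
  simp only [Matrix.det_fin_three, Matrix.of_apply]
  have h00 := hent 0 0
  have h01 := hent 0 1
  have h02 := hent 0 2
  have h10 := hent 1 0
  have h11 := hent 1 1
  have h12 := hent 1 2
  have h20 := hent 2 0
  have h21 := hent 2 1
  have h22 := hent 2 2
  exact ((((((h00.mul h11).mul h22).sub ((h00.mul h12).mul h21)).sub ((h01.mul h10).mul h22)).add
    ((h01.mul h12).mul h20)).add ((h02.mul h10).mul h21)).sub ((h02.mul h11).mul h20)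

end Pool.Agent.GR.GA8
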