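import Pool.Agent.GR.Defs
import Pool.Agent.GR.GA1
import Pool.Agent.GR.GA3

set_option autoImplicit false
open Set Filter Topology MeasureTheory
open scoped Gradient RealInnerProductSpace ContDiff


namespace Pool.Agent.GR.GB1a
open Pool.Agent.GR
open Pool.Agent.GR.GA1 (grad_ne N_smooth N_smooth' N_norm')
open Pool.Agent.GR.GA3 (S_compact)




/-! ## TARGET (prove this) -/

theorem cut_field {f : E → ℝ} (hf : Surf f) : ∃ (X : E × E → E × E) (W : Set (E × E)),
    ContDiff ℝ ∞ X ∧ HasCompactSupport X ∧ IsOpen W ∧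
    (∀ p : E × E, f p.1 = 0 → ‖p.2‖ ≤ 2 → p ∈ W) ∧ (∀ p ∈ W, ∇ f p.1 ≠ 0) ∧
    ∀ p ∈ W, X p = (p.2, -(A f p.1 p.2 p.2) • N f p.1) := by
  classical
  have hgc : Continuous (fun x => ∇ f x) := by
    have h1 : Continuous (fderiv ℝ f) := hf.smooth.continuous_fderiv (by simp)
    exact (InnerProductSpace.toDual ℝ E).symm.continuous.comp h1
  have hOo : IsOpen {p : E × E | ∇ f p.1 ≠ 0} :=
    isOpen_ne_fun (hgc.comp continuous_fst) continuous_const
  have hC : IsCompact (({x | f x = 0} : Set E) ×ˢ Metric.closedBall (0 : E) 2) :=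
    (S_compact hf).prod (isCompact_closedBall 0 2)
  have hCO : (({x | f x = 0} : Set E) ×ˢ Metric.closedBall (0 : E) 2) ⊆
      {p : E × E | ∇ f p.1 ≠ 0} := fun p hp => grad_ne hf hp.1
  obtain ⟨K1, hK1, hCK1, hK1O⟩ := exists_compact_between hC hOo hCO
  obtain ⟨K2, hK2, hK12, hK2O⟩ := exists_compact_between hK1 hOo hK1O
  obtain ⟨χ, hχ0, hχ1, -⟩ := exists_contMDiffMap_zero_one_of_isClosed (n := (⊤ : ℕ∞))
    (modelWithCornersSelf ℝ (E × E))
    (isOpen_interior (s := K2)).isClosed_compl hK1.isClosed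
    (by
      rw [Set.disjoint_left]
      intro a ha hb
      exact ha (hK12 hb))
  have hχs : ContDiff ℝ ∞ (χ : E × E → ℝ) := χ.contMDiff.contDiff
  have hsupp : tsupport (χ : E × E → ℝ) ⊆ K2 := by
    apply closure_minimal _ hK2.isClosed
    intro a ha
    by_contra hb
    exact ha (hχ0 (fun h => hb (interior_subset h)))
  have hX0 : ∀ p : E × E, ∇ f p.1 ≠ 0 →
      ContDiffAt ℝ ∞ (fun p : E × E => ((p.2, -(A f p.1 p.2 p.2) • N f p.1) : E × E)) p := by
    intro p hp
    have hN := N_smooth' hf hp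
    have h1 : ContDiffAt ℝ ∞ (fun p : E × E => N f p.1) p := hN.comp p contDiffAt_fst
    have h2 : ContDiffAt ℝ ∞ (fun p : E × E => fderiv ℝ (N f) p.1) p := by
      have h3 : ContDiffAt ℝ ∞ (fderiv ℝ (N f)) p.1 := hN.fderiv_right (by simp)
      exact h3.comp p contDiffAt_fst
    have h3 : ContDiffAt ℝ ∞ (fun p : E × E => A f p.1 p.2 p.2) p :=
      (h2.clm_apply contDiffAt_snd).inner ℝ contDiffAt_snd
    exact contDiffAt_snd.prodMk (h3.neg.smul h1)
  refine ⟨fun p => χ p • ((p.2, -(A f p.1 p.2 p.2) • N f p.1) : E × E), interior K1, ?_, ?_,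
    isOpen_interior, ?_, ?_, ?_⟩
  · rw [contDiff_iff_contDiffAt]
    intro p
    by_cases hp : p ∈ tsupport (χ : E × E → ℝ)
    · exact hχs.contDiffAt.smul (hX0 p (hK2O (hsupp hp)))
    · have h1 : (fun p : E × E => χ p • ((p.2, -(A f p.1 p.2 p.2) • N f p.1) : E × E)) =ᶠ[𝓝 p]
          fun _ => 0 := by
        have h2 := notMem_tsupport_iff_eventuallyEq.1 hp
        filter_upwards [h2] with a ha
        rw [ha]
        simp
      exact contDiffAt_const.congr_of_eventuallyEq h1
  · apply HasCompactSupport.smul_right (f := (χ : E × E → ℝ))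
    exact HasCompactSupport.intro' hK2 hK2.isClosed (fun a ha => by
      by_contra hb
      exact ha (hsupp (subset_tsupport _ hb)))
  · intro p hp hp2
    exact hCK1 ⟨hp, by simpa using hp2⟩
  · intro p hp
    exact hK1O (interior_subset hp)
  · intro p hp
    have := hχ1 (interior_subset hp)
    simp only [Pi.one_apply] at this
    simp only [this, one_smul]

end Pool.Agent.GR.GB1a
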