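import Pool.Agent.GR.Flow
import Pool.Agent.GR.Defs

set_option autoImplicit false

open Set Filter Topology MeasureTheory
open scoped Gradient RealInnerProductSpace ContDiff

namespace Pool.Agent.GR.GFL
open Pool.Agent.GR

theorem flow_of_compact (X : E × E → E × E) (hX : ContDiff ℝ ∞ X) (hc : HasCompactSupport X) :
    ∃ G : ℝ → E × E → E × E, ContDiff ℝ ∞ (fun q : ℝ × (E × E) => G q.1 q.2) ∧ (∀ p, G 0 p = p) ∧
      (∀ s t p, G (s + t) p = G s (G t p)) ∧ ∀ p t, HasDerivAt (fun t => G t p) (X (G t p)) t := by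
  obtain ⟨K, hK⟩ := hX.lipschitzWith_of_hasCompactSupport hc (by simp)
  obtain ⟨M, hM⟩ := hc.exists_bound_of_continuous hX.continuous
  have hM' : ∀ x, ‖X x‖ ≤ (Real.toNNReal M : NNReal) := fun x => (hM x).trans (Real.le_coe_toNNReal M)
  choose g h0 h1 using fun p => Pool.Agent.GR.Flow.exists_solution hK hM' p
  have hfl : Pool.Agent.GR.Flow.IsFlowOf X (fun t p => g p t) := ⟨h0, h1⟩
  refine ⟨fun t p => g p t, ?_, h0, fun s t p => hfl.add hK s t p, h1⟩
  rw [contDiff_infty]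
  intro m
  have key : ∀ m : ℕ, m ≠ 0 → ContDiff ℝ m (fun q : ℝ × (E × E) => g q.2 q.1) := by
    intro m hm
    exact Pool.Agent.GR.Flow.contDiff_flow (X := ⟨X, hX.continuous⟩) hm
      (hX.of_le (by exact_mod_cast le_top)) hK hfl
  exact (key (m + 1) (by omega)).of_le (by exact_mod_cast Nat.le_succ m)

end Pool.Agent.GR.GFL
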