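import Pool.Agent.GR.Defs
import Pool.Agent.GR.GA1
import Pool.Agent.GR.GA2
import Pool.Agent.GR.GA3
import Pool.Agent.GR.GB1a
import Pool.Agent.GR.GFL

set_option autoImplicit false
open Set Filter Topology MeasureTheory
open scoped Gradient RealInnerProductSpace ContDiff


namespace Pool.Agent.GR.GB1b
open Pool.Agent.GR
open Pool.Agent.GR.GA1 (grad_ne N_smooth' N_norm' fderiv_eq' fderiv_eq N_smooth N_norm N_norm_nhds)
open Pool.Agent.GR.GA2 (A_normal)
open Pool.Agent.GR.GA3 (S_compact)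
open Pool.Agent.GR.GB1a (cut_field)
open Pool.Agent.GR.GFL (flow_of_compact)





theorem const_Ioo {F : Type} [NormedAddCommGroup F] [NormedSpace ℝ F] {a b : ℝ} {g : ℝ → F}
    (h : ∀ t ∈ Ioo a b, HasDerivAt g 0 t) {s t : ℝ} (hs : s ∈ Ioo a b) (ht : t ∈ Ioo a b) :
    g s = g t := by
  refine IsOpen.is_const_of_deriv_eq_zero isOpen_Ioo isPreconnected_Ioo ?_ ?_ hs ht
  · intro x hx
    exact (h x hx).differentiableAt.differentiableWithinAt
  · intro x hx
    exact (h x hx).deriv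

theorem step {f : E → ℝ} (hf : Surf f) (X : E × E → E × E) (W : Set (E × E))
    (hWn : ∀ p ∈ W, ∇ f p.1 ≠ 0)
    (hXW : ∀ p ∈ W, X p = (p.2, -(A f p.1 p.2 p.2) • N f p.1))
    (γ : ℝ → E × E) (hγ : ∀ t, HasDerivAt γ (X (γ t)) t) (a b : ℝ) (hab : ∀ t ∈ Ioo a b, γ t ∈ W)
    (t₀ : ℝ) (ht₀ : t₀ ∈ Ioo a b) (h1 : f (γ t₀).1 = 0) (h2 : ⟪∇ f (γ t₀).1, (γ t₀).2⟫ = 0)
    (t : ℝ) (ht : t ∈ Ioo a b) :
    f (γ t).1 = 0 ∧ ⟪∇ f (γ t).1, (γ t).2⟫ = 0 ∧ ‖(γ t).2‖ = ‖(γ t₀).2‖ := by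
  have hx : ∀ s ∈ Ioo a b, HasDerivAt (fun s => (γ s).1) (γ s).2 s := by
    intro s hs
    have h := (ContinuousLinearMap.fst ℝ E E).hasFDerivAt.comp_hasDerivAt s (hγ s)
    rw [hXW _ (hab s hs)] at h
    exact h
  have hv : ∀ s ∈ Ioo a b, HasDerivAt (fun s => (γ s).2)
      (-(A f (γ s).1 (γ s).2 (γ s).2) • N f (γ s).1) s := by
    intro s hs
    have h := (ContinuousLinearMap.snd ℝ E E).hasFDerivAt.comp_hasDerivAt s (hγ s)
    rw [hXW _ (hab s hs)] at h
    exact h
  have hb : ∀ s ∈ Ioo a b, HasDerivAt (fun s => ⟪N f (γ s).1, (γ s).2⟫) 0 s := by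
    intro s hs
    have hne := hWn _ (hab s hs)
    have hN0 : HasFDerivAt (N f) (fderiv ℝ (N f) (γ s).1) (γ s).1 :=
      ((N_smooth' hf hne).differentiableAt (by simp)).hasFDerivAt
    have hN1 := hN0.comp_hasDerivAt s (hx s hs)
    have hN : HasDerivAt (fun s => N f (γ s).1) (fderiv ℝ (N f) (γ s).1 (γ s).2) s := hN1
    have h := hN.inner ℝ (hv s hs)
    have e : ⟪N f (γ s).1, -(A f (γ s).1 (γ s).2 (γ s).2) • N f (γ s).1⟫ +
        ⟪fderiv ℝ (N f) (γ s).1 (γ s).2, (γ s).2⟫ = 0 := by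
      rw [inner_smul_right, real_inner_self_eq_norm_sq, N_norm' hne]
      unfold A
      ring
    rw [e] at h
    exact h
  have hb0 : ∀ s ∈ Ioo a b, ⟪N f (γ s).1, (γ s).2⟫ = 0 := by
    intro s hs
    have h := const_Ioo hb hs ht₀
    rw [h]
    unfold N
    rw [inner_smul_left, h2, mul_zero]
  have ha : ∀ s ∈ Ioo a b, HasDerivAt (fun s => f (γ s).1) 0 s := by
    intro s hs
    have h := ((hf.smooth.differentiable (by simp)) (γ s).1).hasFDerivAt.comp_hasDerivAt s (hx s hs)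
    rw [fderiv_eq' hf, hb0 s hs, mul_zero] at h
    exact h
  have hn : ∀ s ∈ Ioo a b, HasDerivAt (fun s => ⟪(γ s).2, (γ s).2⟫) 0 s := by
    intro s hs
    have h := (hv s hs).inner ℝ (hv s hs)
    have e : ⟪(γ s).2, -(A f (γ s).1 (γ s).2 (γ s).2) • N f (γ s).1⟫ +
        ⟪-(A f (γ s).1 (γ s).2 (γ s).2) • N f (γ s).1, (γ s).2⟫ = 0 := by
      rw [real_inner_comm, inner_smul_left, hb0 s hs]
      simp
    rw [e] at h
    exact h
  refine ⟨?_, ?_, ?_⟩
  · have h := const_Ioo ha ht ht₀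
    rw [h, h1]
  · have h := hb0 t ht
    unfold N at h
    rw [inner_smul_left] at h
    rcases mul_eq_zero.mp h with h | h
    · exfalso
      have : ‖∇ f (γ t).1‖⁻¹ = 0 := by simpa using h
      rw [inv_eq_zero, norm_eq_zero] at this
      exact hWn _ (hab t ht) this
    · exact h
  · have h := const_Ioo hn ht ht₀
    simp only [real_inner_self_eq_norm_sq] at h
    exact (sq_eq_sq₀ (norm_nonneg _) (norm_nonneg _)).mp h

theorem stay {f : E → ℝ} (hf : Surf f) (X : E × E → E × E) (W : Set (E × E)) (hWo : IsOpen W)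
    (hW : ∀ p : E × E, f p.1 = 0 → ‖p.2‖ ≤ 2 → p ∈ W) (hWn : ∀ p ∈ W, ∇ f p.1 ≠ 0)
    (hXW : ∀ p ∈ W, X p = (p.2, -(A f p.1 p.2 p.2) • N f p.1))
    (γ : ℝ → E × E) (hγ : ∀ t, HasDerivAt γ (X (γ t)) t) (h1 : f (γ 0).1 = 0)
    (h2 : ⟪∇ f (γ 0).1, (γ 0).2⟫ = 0) (h3 : ‖(γ 0).2‖ ≤ 2) (t : ℝ) :
    f (γ t).1 = 0 ∧ ⟪∇ f (γ t).1, (γ t).2⟫ = 0 ∧ ‖(γ t).2‖ = ‖(γ 0).2‖ := by
  have hγc : Continuous γ := continuous_iff_continuousAt.mpr fun t => (hγ t).continuousAt
  have hγ1 : Continuous fun t => (γ t).1 := continuous_fst.comp hγc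
  have hγ2 : Continuous fun t => (γ t).2 := continuous_snd.comp hγc
  have hfc : Continuous f := hf.smooth.continuous
  have hgc : Continuous (∇ f) := by
    have : (∇ f) = fun x => (InnerProductSpace.toDual ℝ E).symm (fderiv ℝ f x) := by
      ext1 x; rfl
    rw [this]
    exact (InnerProductSpace.toDual ℝ E).symm.continuous.comp (hf.smooth.continuous_fderiv (by simp))
  let T : Set ℝ := {t | f (γ t).1 = 0 ∧ ⟪∇ f (γ t).1, (γ t).2⟫ = 0 ∧ ‖(γ t).2‖ = ‖(γ 0).2‖}
  have hTc : IsClosed T := by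
    apply IsClosed.inter (isClosed_eq (hfc.comp hγ1) continuous_const)
    apply IsClosed.inter (isClosed_eq ((hgc.comp hγ1).inner hγ2) continuous_const)
    exact isClosed_eq hγ2.norm continuous_const
  have hTo : IsOpen T := by
    rw [Metric.isOpen_iff]
    intro t₀ ht₀
    have hmem : γ t₀ ∈ W := hW _ ht₀.1 (by rw [ht₀.2.2]; exact h3)
    obtain ⟨ε, hε, hball⟩ := Metric.isOpen_iff.mp (hWo.preimage hγc) t₀ hmem
    refine ⟨ε, hε, ?_⟩
    intro s hs
    rw [Real.ball_eq_Ioo] at hs hball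
    have := step hf X W hWn hXW γ hγ (t₀ - ε) (t₀ + ε) (fun u hu => hball hu) t₀
      ⟨by linarith, by linarith⟩ ht₀.1 ht₀.2.1 s hs
    exact ⟨this.1, this.2.1, this.2.2.trans ht₀.2.2⟩
  have : T = univ := IsClopen.eq_univ ⟨hTc, hTo⟩ ⟨0, h1, h2, rfl⟩
  have ht : t ∈ T := by rw [this]; trivial
  exact ht

/-! ## TARGET (prove this) -/

theorem exists_flow {f : E → ℝ} (hf : Surf f) : ∃ G, GFlow f G := by
  obtain ⟨X, W, hXs, hXc, hWo, hW, hWn, hXW⟩ := cut_field hf
  obtain ⟨G, hGs, hG0, hGadd, hGd⟩ := flow_of_compact X hXs hXc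
  have hin : ∀ x v : E, f x = 0 → ⟪N f x, v⟫ = 0 → ⟪∇ f x, v⟫ = 0 := by
    intro x v hx h
    unfold N at h
    rw [inner_smul_left] at h
    rcases mul_eq_zero.mp h with h | h
    · exfalso
      have : ‖∇ f x‖⁻¹ = 0 := by simpa using h
      rw [inv_eq_zero, norm_eq_zero] at this
      exact grad_ne hf hx this
    · exact h
  have main : ∀ p ∈ TT f, ‖p.2‖ ≤ 2 → ∀ t, G t p ∈ TT f ∧ ‖(G t p).2‖ = ‖p.2‖ ∧ G t p ∈ W := by
    intro p hp hp2 t
    have h := stay hf X W hWo hW hWn hXW (fun t => G t p) (fun t => hGd p t)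
      (by simp only [hG0]; exact hp.1) (by simp only [hG0]; exact hin _ _ hp.1 hp.2)
      (by simp only [hG0]; exact hp2) t
    simp only [hG0] at h
    refine ⟨⟨h.1, ?_⟩, h.2.2, hW _ h.1 (by rw [h.2.2]; exact hp2)⟩
    unfold N
    rw [inner_smul_left, h.2.1, mul_zero]
  refine ⟨G, hGs, hG0, hGadd, ?_, ?_, ?_, ?_, ?_⟩
  · intro p hp hp2 t
    have h := (ContinuousLinearMap.fst ℝ E E).hasFDerivAt.comp_hasDerivAt t (hGd p t)
    rw [hXW _ (main p hp hp2 t).2.2] at h
    exact h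
  · intro p hp hp2 t
    have h := (ContinuousLinearMap.snd ℝ E E).hasFDerivAt.comp_hasDerivAt t (hGd p t)
    rw [hXW _ (main p hp hp2 t).2.2] at h
    exact h
  · intro p hp hp2 t
    exact (main p hp hp2 t).1
  · intro p hp hp2 t
    exact (main p hp hp2 t).2.1
  · intro p hp c hp2 hcp t
    obtain ⟨C, hC⟩ := ContDiff.lipschitzWith_of_hasCompactSupport hXc hXs (by simp)
    have hu : (fun t => G t (p.1, c • p.2)) = fun t => ((G (c * t) p).1, c • (G (c * t) p).2) := by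
      refine ODE_solution_unique_univ (v := fun _ => X) (s := fun _ => univ) (K := C) (t₀ := 0)
        (fun _ => hC.lipschitzOnWith) (fun t => ⟨hGd _ t, trivial⟩) (fun t => ⟨?_, trivial⟩) ?_
      · have hm := main p hp hp2 (c * t)
        have hct : HasDerivAt (fun t : ℝ => c * t) c t := by
          simpa using (hasDerivAt_id t).const_mul c
        have h1 : HasDerivAt (fun t => (G (c * t) p).1) (c • (G (c * t) p).2) t := by
          have h := (ContinuousLinearMap.fst ℝ E E).hasFDerivAt.comp_hasDerivAt (c * t) (hGd p (c * t))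
          rw [hXW _ hm.2.2] at h
          exact HasDerivAt.scomp t h hct
        have h2 : HasDerivAt (fun t => c • (G (c * t) p).2)
            (c • (c • (-(A f (G (c * t) p).1 (G (c * t) p).2 (G (c * t) p).2) •
              N f (G (c * t) p).1))) t := by
          have h := (ContinuousLinearMap.snd ℝ E E).hasFDerivAt.comp_hasDerivAt (c * t) (hGd p (c * t))
          rw [hXW _ hm.2.2] at h
          exact (HasDerivAt.scomp t h hct).const_smul c
        have h3 := h1.prodMk h2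
        have hW' : ((G (c * t) p).1, c • (G (c * t) p).2) ∈ W := by
          refine hW ((G (c * t) p).1, c • (G (c * t) p).2) hm.1.1 ?_
          simp only
          rw [norm_smul, hm.2.1, ← norm_smul]
          exact hcp
        rw [hXW _ hW']
        have e : -(A f (G (c * t) p).1 (c • (G (c * t) p).2) (c • (G (c * t) p).2)) •
            N f (G (c * t) p).1 = c • c • (-(A f (G (c * t) p).1 (G (c * t) p).2 (G (c * t) p).2) •
              N f (G (c * t) p).1) := by
          unfold A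
          rw [map_smul, inner_smul_left, inner_smul_right, smul_smul, smul_smul]
          congr 1
          simp
          ring
        simp only [e]
        exact h3
      · simp only [hG0, mul_zero]
    exact congrFun hu t

end Pool.Agent.GR.GB1b
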