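import Pool.Agent.GR.Defs

set_option autoImplicit false
open Set Filter Topology MeasureTheory
open scoped Gradient RealInnerProductSpace ContDiff


namespace Pool.Agent.GR.GC2
open Pool.Agent.GR


/-! ## TARGET (prove this) -/

theorem le_eD_add (f : E → ℝ) (x y : E) (c a : ENNReal)
    (h : ∀ γ, Curve f γ x y → c ≤ eVariationOn γ (Icc 0 1) + a) : c ≤ eD f x y + a := by
  unfold eD
  rw [ENNReal.iInf_add]
  refine le_iInf fun γ => ?_
  rw [ENNReal.iInf_add]
  exact le_iInf fun h' => h γ h'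

theorem eD_tri (f : E → ℝ) (x y z : E) : eD f x z ≤ eD f x y + eD f y z := by
  refine le_eD_add f x y _ _ fun γ₁ h₁ => ?_
  rw [add_comm]
  refine le_eD_add f y z _ _ fun γ₂ h₂ => ?_
  rw [add_comm]
  obtain ⟨hc1, h10, h11, h1f⟩ := h₁
  obtain ⟨hc2, h20, h21, h2f⟩ := h₂
  set γ : ℝ → E := fun t => if t ≤ 1 / 2 then γ₁ (2 * t) else γ₂ (2 * t - 1) with hγ
  have e1 : EqOn γ (γ₁ ∘ fun t => 2 * t) (Icc 0 (1 / 2)) := by
    intro t ht
    simp only [hγ, Function.comp]
    rw [if_pos ht.2]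
  have e2 : EqOn γ (γ₂ ∘ fun t => 2 * t - 1) (Icc (1 / 2) 1) := by
    intro t ht
    simp only [hγ, Function.comp]
    rcases ht.1.eq_or_lt with h | h
    · rw [if_pos (le_of_eq h.symm), ← h]
      norm_num
      rw [h11, h20]
    · rw [if_neg (not_le.2 h)]
  have m1 : MapsTo (fun t : ℝ => 2 * t) (Icc 0 (1 / 2)) (Icc 0 1) := by
    intro t ht
    constructor
    · have := ht.1; show 0 ≤ 2 * t; linarith
    · have := ht.2; show 2 * t ≤ 1; linarith
  have m2 : MapsTo (fun t : ℝ => 2 * t - 1) (Icc (1 / 2) 1) (Icc 0 1) := by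
    intro t ht
    constructor
    · have := ht.1; show 0 ≤ 2 * t - 1; linarith
    · have := ht.2; show 2 * t - 1 ≤ 1; linarith
  have hI : Icc (0 : ℝ) 1 = Icc 0 (1 / 2) ∪ Icc (1 / 2) 1 := by
    rw [Icc_union_Icc_eq_Icc] <;> norm_num
  have hcurve : Curve f γ x z := by
    refine ⟨?_, ?_, ?_, ?_⟩
    · rw [hI]
      refine ContinuousOn.union_of_isClosed ?_ ?_ isClosed_Icc isClosed_Icc
      · refine ContinuousOn.congr ?_ e1
        exact hc1.comp (by fun_prop) m1
      · refine ContinuousOn.congr ?_ e2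
        exact hc2.comp (by fun_prop) m2
    · rw [e1 ⟨le_rfl, by norm_num⟩]
      simp only [Function.comp, mul_zero]
      exact h10
    · rw [e2 ⟨by norm_num, le_rfl⟩]
      simp only [Function.comp]
      norm_num
      exact h21
    · intro t ht
      rw [hI] at ht
      rcases ht with ht | ht
      · rw [e1 ht]; exact h1f _ (m1 ht)
      · rw [e2 ht]; exact h2f _ (m2 ht)
  have hvar : eVariationOn γ (Icc 0 1) ≤
      eVariationOn γ₁ (Icc 0 1) + eVariationOn γ₂ (Icc 0 1) := by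
    have h := eVariationOn.Icc_add_Icc γ (s := univ) (a := (0 : ℝ)) (b := 1 / 2) (c := 1)
      (by norm_num) (by norm_num) (mem_univ _)
    rw [univ_inter, univ_inter, univ_inter] at h
    rw [← h, eVariationOn.congr e1, eVariationOn.congr e2]
    gcongr
    · refine eVariationOn.comp_le_of_monotoneOn _ _ ?_ m1
      intro s _ t _ hst
      show 2 * s ≤ 2 * t
      linarith
    · refine eVariationOn.comp_le_of_monotoneOn _ _ ?_ m2
      intro s _ t _ hst
      show 2 * s - 1 ≤ 2 * t - 1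
      linarith
  refine le_trans ?_ hvar
  exact iInf_le_of_le γ (iInf_le _ hcurve)

theorem eD_le (f : E → ℝ) (x y : E) : eD f x y ≤ eD f y x := by
  refine le_iInf fun γ => le_iInf fun h => ?_
  obtain ⟨hc, h0, h1, hf⟩ := h
  have m : MapsTo (fun t : ℝ => 1 - t) (Icc 0 1) (Icc 0 1) := by
    intro t ht
    constructor
    · have := ht.2; show 0 ≤ 1 - t; linarith
    · have := ht.1; show 1 - t ≤ 1; linarith
  have hcurve : Curve f (γ ∘ fun t => 1 - t) x y := by
    refine ⟨hc.comp (by fun_prop) m, ?_, ?_, fun t ht => hf _ (m ht)⟩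
    · simp only [Function.comp, sub_zero]; exact h1
    · simp only [Function.comp, sub_self]; exact h0
  have hle : eD f x y ≤ eVariationOn (γ ∘ fun t => 1 - t) (Icc 0 1) :=
    iInf_le_of_le (γ ∘ fun t => 1 - t) (iInf_le _ hcurve)
  refine hle.trans ?_
  refine eVariationOn.comp_le_of_antitoneOn _ _ ?_ m
  intro s _ t _ hst
  show 1 - t ≤ 1 - s
  linarith

theorem eD_comm (f : E → ℝ) (x y : E) : eD f x y = eD f y x :=
  le_antisymm (eD_le f x y) (eD_le f y x)

theorem eD_ge (f : E → ℝ) (x y : E) : ENNReal.ofReal ‖x - y‖ ≤ eD f x y := by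
  refine le_iInf fun γ => le_iInf fun h => ?_
  obtain ⟨hc, h0, h1, hf⟩ := h
  have h2 := eVariationOn.edist_le γ (s := Icc (0 : ℝ) 1) (x := 0) (y := 1)
    ⟨le_rfl, zero_le_one⟩ ⟨zero_le_one, le_rfl⟩
  rw [h0, h1, edist_dist, dist_eq_norm] at h2
  exact h2

end Pool.Agent.GR.GC2
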