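import Pool.Agent.GR.Defs
import Pool.Agent.GR.GA4
import Pool.Agent.GR.GA3
import Pool.Agent.GR.GA1
import Pool.Agent.GR.GA2

set_option autoImplicit false
open Set Filter Topology MeasureTheory
open scoped Gradient RealInnerProductSpace ContDiff


namespace Pool.Agent.GR.GC1
open Pool.Agent.GR
open Pool.Agent.GR.GA4 (retraction)
open Pool.Agent.GR.GA3 (S_compact)
open Pool.Agent.GR.GA1 (N_smooth N_norm)
open Pool.Agent.GR.GA2 (supp)




/-! ## TARGET (prove this) -/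

theorem eD_local {f : E → ℝ} (hf : Surf f) : ∃ C : ℝ, 0 ≤ C ∧ ∃ δ > 0, ∀ x y, f x = 0 → f y = 0 →
    ‖x - y‖ ≤ δ → eD f x y ≤ ENNReal.ofReal (‖x - y‖ * (1 + C * ‖x - y‖)) := by
  obtain ⟨U, P, hU, hSU, hPs, hP0, hPid, -⟩ := retraction hf
  have hS := S_compact hf
  obtain ⟨r, hr, hrU⟩ := hS.exists_cthickening_subset_open hU hSU
  have hK : IsCompact (Metric.cthickening r {x | f x = 0}) := hS.cthickening
  have hD1 : ContDiffOn ℝ 1 (fderiv ℝ P) U :=
    hPs.fderiv_of_isOpen hU (by norm_cast)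
  have hD2 : ContinuousOn (fderiv ℝ (fderiv ℝ P)) U :=
    hD1.continuousOn_fderiv_of_isOpen hU le_rfl
  have hD3 : ContinuousOn (fun z => ‖fderiv ℝ (fderiv ℝ P) z‖) (Metric.cthickening r {x | f x = 0}) :=
    (continuous_norm (E := E →L[ℝ] E →L[ℝ] E)).comp_continuousOn (hD2.mono hrU)
  obtain ⟨M0, hM0'⟩ := hK.bddAbove_image hD3
  have hM0 : ∀ z ∈ Metric.cthickening r {x | f x = 0}, ‖fderiv ℝ (fderiv ℝ P) z‖ ≤ M0 :=
    fun z hz => hM0' (mem_image_of_mem _ hz)
  obtain ⟨M, hM⟩ : ∃ M, M = max M0 0 := ⟨_, rfl⟩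
  have hMn : 0 ≤ M := by rw [hM]; exact le_max_right _ _
  have hM0M : M0 ≤ M := by rw [hM]; exact le_max_left _ _
  have hball : ∀ x, f x = 0 → Metric.closedBall x r ⊆ Metric.cthickening r {x | f x = 0} := by
    intro x hx
    have hx' : x ∈ {x | f x = 0} := hx
    exact Metric.closedBall_subset_cthickening hx' r
  have hdP : ∀ z ∈ U, DifferentiableAt ℝ P z := fun z hz =>
    (hPs.differentiableOn (by norm_num) z hz).differentiableAt (hU.mem_nhds hz)
  have hddP : ∀ z ∈ U, DifferentiableAt ℝ (fderiv ℝ P) z := fun z hz =>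
    (hD1.differentiableOn one_ne_zero z hz).differentiableAt (hU.mem_nhds hz)
  have hLip : ∀ x, f x = 0 → ∀ z ∈ Metric.closedBall x r,
      ‖fderiv ℝ P z - fderiv ℝ P x‖ ≤ M * ‖z - x‖ := by
    intro x hx z hz
    refine Convex.norm_image_sub_le_of_norm_fderiv_le (𝕜 := ℝ) (s := Metric.closedBall x r)
      (fun w hw => hddP w (hrU (hball x hx hw)))
      (fun w hw => le_trans (hM0 w (hball x hx hw)) hM0M)
      (convex_closedBall x r) (Metric.mem_closedBall_self hr.le) hz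
  refine ⟨2 * M, by positivity, r, hr, fun x y hx hy hxy => ?_⟩
  obtain ⟨d, hd⟩ : ∃ d, d = ‖x - y‖ := ⟨_, rfl⟩
  have hd' : ‖y - x‖ = d := by rw [hd, norm_sub_rev]
  have hd0 : 0 ≤ d := by rw [hd]; exact norm_nonneg _
  rw [← hd] at hxy ⊢
  have hsub : Metric.closedBall x d ⊆ Metric.closedBall x r := Metric.closedBall_subset_closedBall hxy
  -- main estimate
  have hmain : ∀ a ∈ Metric.closedBall x d, ∀ b ∈ Metric.closedBall x d,
      ‖P b - P a - (fderiv ℝ P x) (b - a)‖ ≤ (M * d) * ‖b - a‖ := by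
    intro a ha b hb
    refine Convex.norm_image_sub_le_of_norm_fderiv_le' (𝕜 := ℝ) (s := Metric.closedBall x d)
      (fun w hw => hdP w (hrU (hball x hx (hsub hw)))) (fun w hw => ?_)
      (convex_closedBall x d) ha hb
    refine le_trans (hLip x hx w (hsub hw)) ?_
    apply mul_le_mul_of_nonneg_left _ hMn
    have := Metric.mem_closedBall.1 hw
    rwa [dist_eq_norm] at this
  have hxm : x ∈ Metric.closedBall x d := Metric.mem_closedBall_self hd0
  have hym : y ∈ Metric.closedBall x d := by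
    rw [Metric.mem_closedBall, dist_eq_norm, hd']
  have hφ : ‖(fderiv ℝ P x) (y - x)‖ ≤ d + M * d * d := by
    have h1 := hmain x hxm y hym
    rw [hPid x hx, hPid y hy, hd'] at h1
    have h2 : (fderiv ℝ P x) (y - x) = (y - x) - (y - x - (fderiv ℝ P x) (y - x)) := by abel
    rw [h2]
    refine le_trans (norm_sub_le _ _) ?_
    rw [hd']
    linarith
  -- the curve
  have hz : ∀ t ∈ Icc (0:ℝ) 1, x + t • (y - x) ∈ Metric.closedBall x d := by
    intro t ht
    rw [Metric.mem_closedBall, dist_eq_norm, add_sub_cancel_left, norm_smul, hd',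
      Real.norm_eq_abs, abs_of_nonneg ht.1]
    exact mul_le_of_le_one_left hd0 ht.2
  obtain ⟨σ, hσ⟩ : ∃ σ : ℝ → E, ∀ t, σ t = P (x + t • (y - x)) := ⟨_, fun _ => rfl⟩
  obtain ⟨Λ, hΛ⟩ : ∃ Λ : ℝ, Λ = d * (1 + 2 * M * d) := ⟨_, rfl⟩
  have hΛ0 : 0 ≤ Λ := by rw [hΛ]; positivity
  have hσL : ∀ s ∈ Icc (0:ℝ) 1, ∀ t ∈ Icc (0:ℝ) 1, ‖σ t - σ s‖ ≤ Λ * |t - s| := by
    intro s hs t ht
    rw [hσ, hσ]
    have h1 := hmain _ (hz s hs) _ (hz t ht)
    have h2 : (x + t • (y - x)) - (x + s • (y - x)) = (t - s) • (y - x) := by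
      rw [sub_smul]; abel
    rw [h2, map_smul] at h1
    have h3 : P (x + t • (y - x)) - P (x + s • (y - x)) =
        (P (x + t • (y - x)) - P (x + s • (y - x)) - (t - s) • (fderiv ℝ P x) (y - x)) +
        (t - s) • (fderiv ℝ P x) (y - x) := by abel
    rw [h3]
    refine le_trans (norm_add_le _ _) ?_
    rw [norm_smul, hd', Real.norm_eq_abs] at h1
    rw [norm_smul, Real.norm_eq_abs]
    have h4 : |t - s| * ‖(fderiv ℝ P x) (y - x)‖ ≤ |t - s| * (d + M * d * d) :=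
      mul_le_mul_of_nonneg_left hφ (abs_nonneg _)
    rw [hΛ]
    linarith
  have hlip : LipschitzOnWith (Real.toNNReal Λ) σ (Icc 0 1) := by
    refine LipschitzOnWith.of_dist_le_mul fun t ht s hs => ?_
    rw [dist_eq_norm, Real.coe_toNNReal _ hΛ0, Real.dist_eq]
    exact hσL s hs t ht
  have hcurve : Curve f σ x y := by
    refine ⟨hlip.continuousOn, ?_, ?_, ?_⟩
    · rw [hσ, zero_smul, add_zero, hPid x hx]
    · rw [hσ, one_smul, add_sub_cancel, hPid y hy]
    · intro t ht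
      rw [hσ]
      exact hP0 _ (hrU (hball x hx (hsub (hz t ht))))
  have hvar : eVariationOn σ (Icc 0 1) ≤ ENNReal.ofReal Λ := by
    have h1 := hlip.comp_eVariationOn_le (g := fun t : ℝ => t) (s := Icc (0:ℝ) 1)
      (fun t ht => ht)
    have h2 : eVariationOn (fun t : ℝ => t) (Icc (0:ℝ) 1) ≤ ENNReal.ofReal (1 - 0) := by
      have h3 : MonotoneOn (fun t : ℝ => t) (Icc (0:ℝ) 1) := fun a _ b _ h => h
      have h4 := h3.eVariationOn_le (left_mem_Icc.2 zero_le_one) (right_mem_Icc.2 zero_le_one)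
      rwa [inter_self] at h4
    have h5 : eVariationOn (σ ∘ fun t : ℝ => t) (Icc (0:ℝ) 1) = eVariationOn σ (Icc 0 1) := rfl
    rw [h5] at h1
    refine le_trans h1 ?_
    have h6 : (Real.toNNReal Λ : ENNReal) * eVariationOn (fun t : ℝ => t) (Icc (0:ℝ) 1) ≤
        (Real.toNNReal Λ : ENNReal) * ENNReal.ofReal (1 - 0) := mul_le_mul_right h2 _
    refine le_trans h6 ?_
    rw [sub_zero, ENNReal.ofReal_one, mul_one]
    exact le_rfl
  rw [← hΛ]
  exact le_trans (iInf₂_le σ hcurve) hvar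

end Pool.Agent.GR.GC1
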