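import Pool.Agent.GR.Defs
import Pool.Agent.GR.GC1
import Pool.Agent.GR.GC2
import Pool.Agent.GR.GA3
import Pool.Agent.GR.GA4

set_option autoImplicit false
open Set Filter Topology MeasureTheory
open scoped Gradient RealInnerProductSpace ContDiff


namespace Pool.Agent.GR.GC3
open Pool.Agent.GR
open Pool.Agent.GR.GC1 (eD_local)
open Pool.Agent.GR.GC2 (eD_tri eD_comm eD_ge)
open Pool.Agent.GR.GA3 (S_compact)
open Pool.Agent.GR.GA4 (S_connected)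




/-! ## TARGET (prove this) -/

theorem gc3_self {f : E → ℝ} {x : E} (hx : f x = 0) : eD f x x = 0 := by
  have h : Curve f (fun _ => x) x x := ⟨continuousOn_const, rfl, rfl, fun _ _ => hx⟩
  have h1 : eD f x x ≤ eVariationOn (fun _ : ℝ => x) (Icc 0 1) :=
    (iInf_le _ (fun _ : ℝ => x)).trans (iInf_le _ h)
  have h2 : eVariationOn (fun _ : ℝ => x) (Icc (0:ℝ) 1) = 0 :=
    eVariationOn.constant_on (by
      rintro _ ⟨a, _, rfl⟩ _ ⟨b, _, rfl⟩; rfl)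
  rw [h2] at h1
  exact le_antisymm h1 bot_le

theorem eD_bdd {f : E → ℝ} (hf : Surf f) : ∃ M : ℝ, 0 ≤ M ∧ ∀ x y, f x = 0 → f y = 0 →
    eD f x y ≤ ENNReal.ofReal M := by
  obtain ⟨C, hC, δ, hδ, hloc⟩ := eD_local hf
  obtain ⟨B, hB0, hB⟩ : ∃ B : ℝ, 0 ≤ B ∧ ∀ x y, f x = 0 → f y = 0 → dist x y < δ →
      eD f x y ≤ ENNReal.ofReal B := by
    refine ⟨δ * (1 + C * δ), by positivity, fun x y hx hy hd => ?_⟩
    rw [dist_eq_norm] at hd
    refine (hloc x y hx hy hd.le).trans (ENNReal.ofReal_le_ofReal ?_)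
    have h1 : 0 ≤ ‖x - y‖ := norm_nonneg _
    have h2 : C * ‖x - y‖ ≤ C * δ := mul_le_mul_of_nonneg_left hd.le hC
    exact mul_le_mul hd.le (by linarith) (by positivity) hδ.le
  obtain ⟨x₀, hx₀⟩ := (S_connected hf).nonempty
  have hx₀' : f x₀ = 0 := hx₀
  have hfin : ∀ y, f y = 0 → eD f x₀ y < ⊤ := by
    by_contra hcon
    push Not at hcon
    obtain ⟨y, hy, hytop⟩ := hcon
    have hpre := (S_connected hf).isPreconnected
      (⋃ x ∈ {x | f x = 0 ∧ eD f x₀ x < ⊤}, Metric.ball x δ)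
      (⋃ x ∈ {x | f x = 0 ∧ ¬ eD f x₀ x < ⊤}, Metric.ball x δ)
      (isOpen_biUnion fun x _ => Metric.isOpen_ball) (isOpen_biUnion fun x _ => Metric.isOpen_ball)
      (by
        intro z hz
        by_cases h : eD f x₀ z < ⊤
        · left
          exact Set.mem_biUnion (show z ∈ {x | f x = 0 ∧ eD f x₀ x < ⊤} from ⟨hz, h⟩)
            (Metric.mem_ball_self hδ)
        · right
          exact Set.mem_biUnion (show z ∈ {x | f x = 0 ∧ ¬ eD f x₀ x < ⊤} from ⟨hz, h⟩)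
            (Metric.mem_ball_self hδ))
      ⟨x₀, hx₀, Set.mem_biUnion (show x₀ ∈ {x | f x = 0 ∧ eD f x₀ x < ⊤} from
        ⟨hx₀, by rw [gc3_self hx₀']; exact ENNReal.zero_lt_top⟩) (Metric.mem_ball_self hδ)⟩
      ⟨y, hy, Set.mem_biUnion (show y ∈ {x | f x = 0 ∧ ¬ eD f x₀ x < ⊤} from
        ⟨hy, not_lt.mpr hytop⟩) (Metric.mem_ball_self hδ)⟩
    obtain ⟨z, hz, hzU, hzV⟩ := hpre
    obtain ⟨u, ⟨hu, hutop⟩, hzu⟩ := Set.mem_iUnion₂.mp hzU
    obtain ⟨v, ⟨hv, hvtop⟩, hzv⟩ := Set.mem_iUnion₂.mp hzV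
    apply hvtop
    have h1 : eD f u z ≤ ENNReal.ofReal B := hB u z hu hz (by rw [dist_comm]; exact hzu)
    have h2 : eD f z v ≤ ENNReal.ofReal B := hB z v hz hv hzv
    calc eD f x₀ v ≤ eD f x₀ z + eD f z v := eD_tri f _ _ _
      _ ≤ (eD f x₀ u + eD f u z) + eD f z v := by gcongr; exact eD_tri f _ _ _
      _ ≤ (eD f x₀ u + ENNReal.ofReal B) + ENNReal.ofReal B := by gcongr
      _ < ⊤ := by
        rw [ENNReal.add_lt_top, ENNReal.add_lt_top]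
        exact ⟨⟨hutop, ENNReal.ofReal_lt_top⟩, ENNReal.ofReal_lt_top⟩
  obtain ⟨t, htS, htf, htc⟩ := (S_compact hf).finite_cover_balls hδ
  obtain ⟨M1, hM1⟩ := (htf.image (fun x => (eD f x₀ x).toReal)).bddAbove
  have hM : ∀ y, f y = 0 → eD f x₀ y ≤ ENNReal.ofReal (max M1 0 + B) := by
    intro y hy
    obtain ⟨x, hx, hyx⟩ := Set.mem_iUnion₂.mp (htc (show y ∈ {x | f x = 0} from hy))
    have hxS : f x = 0 := htS hx
    have h1 : (eD f x₀ x).toReal ≤ M1 := hM1 ⟨x, hx, rfl⟩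
    have h2 : eD f x₀ x ≤ ENNReal.ofReal (max M1 0) := by
      rw [← ENNReal.ofReal_toReal (hfin x hxS).ne]
      exact ENNReal.ofReal_le_ofReal (h1.trans (le_max_left _ _))
    rw [ENNReal.ofReal_add (le_max_right _ _) hB0]
    calc eD f x₀ y ≤ eD f x₀ x + eD f x y := eD_tri f _ _ _
      _ ≤ _ := add_le_add h2 (hB x y hxS hy (by rw [dist_comm]; exact hyx))
  have hMB : 0 ≤ max M1 0 + B := add_nonneg (le_max_right _ _) hB0
  refine ⟨(max M1 0 + B) + (max M1 0 + B), by linarith, fun x y hx hy => ?_⟩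
  rw [ENNReal.ofReal_add hMB hMB]
  calc eD f x y ≤ eD f x x₀ + eD f x₀ y := eD_tri f _ _ _
    _ = eD f x₀ x + eD f x₀ y := by rw [eD_comm f x x₀]
    _ ≤ _ := add_le_add (hM x hx) (hM y hy)
theorem gc3_ne {f : E → ℝ} (hf : Surf f) {x y : E} (hx : f x = 0) (hy : f y = 0) :
    eD f x y ≠ ⊤ := by
  obtain ⟨M, _, hM⟩ := eD_bdd hf
  exact ne_top_of_le_ne_top ENNReal.ofReal_ne_top (hM x y hx hy)
theorem eD_eq {f : E → ℝ} (hf : Surf f) {x y : E} (hx : f x = 0) (hy : f y = 0) :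
    eD f x y = ENNReal.ofReal (D f x y) :=
  (ENNReal.ofReal_toReal (gc3_ne hf hx hy)).symm
theorem D_nonneg (f : E → ℝ) (x y : E) : 0 ≤ D f x y := ENNReal.toReal_nonneg
theorem D_self {f : E → ℝ} {x : E} (hx : f x = 0) : D f x x = 0 := by
  unfold D
  rw [gc3_self hx, ENNReal.toReal_zero]
theorem D_comm (f : E → ℝ) (x y : E) : D f x y = D f y x := by
  unfold D
  rw [eD_comm]
theorem D_tri {f : E → ℝ} (hf : Surf f) {x y z : E} (hx : f x = 0) (hy : f y = 0) (hz : f z = 0) :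
    D f x z ≤ D f x y + D f y z := by
  unfold D
  rw [← ENNReal.toReal_add (gc3_ne hf hx hy) (gc3_ne hf hy hz)]
  exact ENNReal.toReal_mono (ENNReal.add_ne_top.mpr ⟨gc3_ne hf hx hy, gc3_ne hf hy hz⟩) (eD_tri f _ _ _)
theorem D_ge {f : E → ℝ} (hf : Surf f) {x y : E} (hx : f x = 0) (hy : f y = 0) :
    ‖x - y‖ ≤ D f x y :=
  (ENNReal.ofReal_le_iff_le_toReal (gc3_ne hf hx hy)).mp (eD_ge f x y)
theorem D_bdd {f : E → ℝ} (hf : Surf f) : ∃ M : ℝ, 0 ≤ M ∧ ∀ x y, f x = 0 → f y = 0 → D f x y ≤ M := by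
  obtain ⟨M, hM0, hM⟩ := eD_bdd hf
  exact ⟨M, hM0, fun x y hx hy => ENNReal.toReal_le_of_le_ofReal hM0 (hM x y hx hy)⟩

end Pool.Agent.GR.GC3
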