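import Pool.Agent.GR.Defs
import Pool.Agent.GR.GC3
import Pool.Agent.GR.GC2

set_option autoImplicit false
open Set Filter Topology MeasureTheory
open scoped Gradient RealInnerProductSpace ContDiff


namespace Pool.Agent.GR.GB2
open Pool.Agent.GR
open Pool.Agent.GR.GC3 (D_nonneg D_comm D_self)
open Pool.Agent.GR.GC2 (eD_comm)




/-! ## TARGET (prove this) -/

theorem UT_TT {f : E → ℝ} {p : E × E} (hp : p ∈ UT f) : p ∈ TT f ∧ ‖p.2‖ ≤ 2 := by
  obtain ⟨h1, h2, h3⟩ := hp
  exact ⟨⟨h1, h2⟩, by rw [h3]; norm_num⟩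

theorem G_UT {f : E → ℝ} {G : ℝ → E × E → E × E} (hG : GFlow f G) {p : E × E} (hp : p ∈ UT f)
    (t : ℝ) : G t p ∈ UT f := by
  obtain ⟨h1, h2⟩ := UT_TT hp
  have h3 := hG.mem p h1 h2 t
  have h4 := hG.norm p h1 h2 t
  exact ⟨h3.1, h3.2, by rw [h4]; exact hp.2.2⟩

theorem G_neg {f : E → ℝ} {G : ℝ → E × E → E × E} (hG : GFlow f G) {x u : E} (hp : (x, u) ∈ UT f)
    (t : ℝ) : G t (x, -u) = ((G (-t) (x, u)).1, -(G (-t) (x, u)).2) := by
  obtain ⟨h1, h2⟩ := UT_TT hp
  have h := hG.scale (x, u) h1 (-1) h2 (by simpa using h2) t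
  simpa using h

theorem G_inj {f : E → ℝ} {G : ℝ → E × E → E × E} (hG : GFlow f G) {p q : E × E} {t : ℝ}
    (h : G t p = G t q) : p = q := by
  have h1 : G (-t) (G t p) = p := by
    rw [← hG.add, neg_add_cancel, hG.zero]
  have h2 : G (-t) (G t q) = q := by
    rw [← hG.add, neg_add_cancel, hG.zero]
  rw [← h1, h, h2]

theorem G_lip {f : E → ℝ} {G : ℝ → E × E → E × E} (hG : GFlow f G) {p : E × E} (hp : p ∈ UT f)
    (s t : ℝ) : ‖(G s p).1 - (G t p).1‖ ≤ |s - t| := by
  obtain ⟨h1, h2⟩ := UT_TT hp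
  have h := Convex.norm_image_sub_le_of_norm_hasDerivWithin_le
    (f := fun t => (G t p).1) (f' := fun t => (G t p).2) (s := Set.univ) (C := 1) (x := t) (y := s)
    (fun x _ => (hG.pos p h1 h2 x).hasDerivWithinAt)
    (fun x _ => by
      rw [hG.norm p h1 h2 x, hp.2.2]) convex_univ (Set.mem_univ _) (Set.mem_univ _)
  simpa [Real.norm_eq_abs] using h

theorem D_G_le_aux {f : E → ℝ} {G : ℝ → E × E → E × E} (hG : GFlow f G) {p : E × E}
    (hp : p ∈ UT f) (s t : ℝ) (hst : s ≤ t) : D f (G s p).1 (G t p).1 ≤ t - s := by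
  obtain ⟨h1, h2⟩ := UT_TT hp
  have hn : 0 ≤ t - s := by linarith
  set γ : ℝ → E := fun r => (G (s + r * (t - s)) p).1 with hγ
  have hcont : Continuous γ := by
    have hc : Continuous (fun t => (G t p).1) :=
      continuous_iff_continuousAt.mpr fun x => (hG.pos p h1 h2 x).continuousAt
    exact hc.comp (by fun_prop)
  have hcurve : Curve f γ (G s p).1 (G t p).1 := by
    refine ⟨hcont.continuousOn, ?_, ?_, ?_⟩
    · simp [hγ]
    · simp [hγ]
    · intro r _
      exact (hG.mem p h1 h2 _).1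
  have hlip : LipschitzWith (Real.toNNReal (t - s)) γ := by
    refine LipschitzWith.of_dist_le_mul fun a b => ?_
    rw [dist_eq_norm, Real.coe_toNNReal _ hn, Real.dist_eq]
    have h := G_lip hG hp (s + a * (t - s)) (s + b * (t - s))
    refine h.trans (le_of_eq ?_)
    rw [show s + a * (t - s) - (s + b * (t - s)) = (t - s) * (a - b) by ring, abs_mul,
      abs_of_nonneg hn]
  have hvar : eVariationOn γ (Icc 0 1) ≤ ENNReal.ofReal (t - s) := by
    have h3 := LipschitzOnWith.comp_eVariationOn_le (f := γ) (g := (id : ℝ → ℝ))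
      (s := Icc (0:ℝ) 1) (t := Set.univ) (C := Real.toNNReal (t - s))
      (hlip.lipschitzOnWith) (fun _ _ => Set.mem_univ _)
    have h4 : eVariationOn (id : ℝ → ℝ) (Icc (0:ℝ) 1) ≤ ENNReal.ofReal (1 - 0) := by
      have := (monotone_id.monotoneOn (Icc (0:ℝ) 1)).eVariationOn_le
        (Set.left_mem_Icc.mpr zero_le_one) (Set.right_mem_Icc.mpr zero_le_one)
      simpa using this
    simp only [Function.comp_id, id] at h3
    refine h3.trans ?_
    calc _ ≤ (Real.toNNReal (t - s) : ENNReal) * ENNReal.ofReal (1 - 0) := by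
            gcongr
      _ = ENNReal.ofReal (t - s) := by
            simp [ENNReal.ofReal]
  have hD : eD f (G s p).1 (G t p).1 ≤ ENNReal.ofReal (t - s) := by
    unfold eD
    exact (iInf₂_le γ hcurve).trans hvar
  unfold D
  exact ENNReal.toReal_le_of_le_ofReal hn hD

theorem D_G_le {f : E → ℝ} {G : ℝ → E × E → E × E} (hf : Surf f) (hG : GFlow f G) {p : E × E}
    (hp : p ∈ UT f) (s t : ℝ) : D f (G s p).1 (G t p).1 ≤ |s - t| := by
  rcases le_total s t with h | h
  · rw [abs_sub_comm, abs_of_nonneg (by linarith)]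
    exact D_G_le_aux hG hp s t h
  · rw [abs_of_nonneg (by linarith), D_comm]
    exact D_G_le_aux hG hp t s h

end Pool.Agent.GR.GB2
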