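import Pool.Agent.GR.Defs
import Pool.Agent.GR.GC1
import Pool.Agent.GR.GC2
import Pool.Agent.GR.GC3

set_option autoImplicit false
open Set Filter Topology MeasureTheory
open scoped Gradient RealInnerProductSpace ContDiff


namespace Pool.Agent.GR.GC4
open Pool.Agent.GR
open Pool.Agent.GR.GC1 (eD_local)
open Pool.Agent.GR.GC2 (eD_tri eD_comm eD_ge)
open Pool.Agent.GR.GC3 (eD_bdd eD_eq D_nonneg D_self D_comm D_tri D_ge D_bdd)




/-! ## TARGET (prove this) -/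

theorem D_up {f : E → ℝ} (hf : Surf f) : ∃ C : ℝ, 0 ≤ C ∧ ∀ x y, f x = 0 → f y = 0 →
    D f x y ≤ ‖x - y‖ * (1 + C * ‖x - y‖) := by
  obtain ⟨C0, hC0, δ, hδ, hloc⟩ := eD_local hf
  obtain ⟨M, hM, hMb⟩ := D_bdd hf
  refine ⟨C0 + M / δ ^ 2, by positivity, ?_⟩
  intro x y hx hy
  have hn : 0 ≤ ‖x - y‖ := norm_nonneg _
  rcases le_or_gt ‖x - y‖ δ with h | h
  · have h1 := hloc x y hx hy h
    rw [eD_eq hf hx hy] at h1
    have h2 : 0 ≤ ‖x - y‖ * (1 + C0 * ‖x - y‖) := by positivity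
    have h3 := (ENNReal.ofReal_le_ofReal_iff h2).mp h1
    have h4 : 0 ≤ ‖x - y‖ * (M / δ ^ 2 * ‖x - y‖) := by positivity
    calc D f x y ≤ ‖x - y‖ * (1 + C0 * ‖x - y‖) := h3
      _ ≤ ‖x - y‖ * (1 + C0 * ‖x - y‖) + ‖x - y‖ * (M / δ ^ 2 * ‖x - y‖) := by linarith
      _ = ‖x - y‖ * (1 + (C0 + M / δ ^ 2) * ‖x - y‖) := by ring
  · have h1 := hMb x y hx hy
    have h2 : M ≤ M / δ ^ 2 * ‖x - y‖ ^ 2 := by
      have h3 : δ ^ 2 ≤ ‖x - y‖ ^ 2 := by
        apply pow_le_pow_left₀ hδ.le h.le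
      calc M = M / δ ^ 2 * δ ^ 2 := by field_simp
        _ ≤ M / δ ^ 2 * ‖x - y‖ ^ 2 := by
          apply mul_le_mul_of_nonneg_left h3
          positivity
    have h4 : 0 ≤ ‖x - y‖ * (1 + C0 * ‖x - y‖) := by positivity
    calc D f x y ≤ M / δ ^ 2 * ‖x - y‖ ^ 2 := h1.trans h2
      _ ≤ M / δ ^ 2 * ‖x - y‖ ^ 2 + ‖x - y‖ * (1 + C0 * ‖x - y‖) := by linarith
      _ = ‖x - y‖ * (1 + (C0 + M / δ ^ 2) * ‖x - y‖) := by ring
theorem D_cont {f : E → ℝ} (hf : Surf f) :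
    ContinuousOn (fun p : E × E => D f p.1 p.2) ({x | f x = 0} ×ˢ {x | f x = 0}) := by
  obtain ⟨C, hC, hup⟩ := D_up hf
  rintro ⟨x, y⟩ ⟨hx, hy⟩
  simp only [mem_setOf_eq] at hx hy
  unfold ContinuousWithinAt
  rw [tendsto_iff_dist_tendsto_zero]
  have hg : Tendsto (fun q : E × E => ‖q.1 - x‖ * (1 + C * ‖q.1 - x‖) + ‖q.2 - y‖ * (1 + C * ‖q.2 - y‖))
      (𝓝[{x | f x = 0} ×ˢ {x | f x = 0}] (x, y)) (𝓝 0) := by
    have hc : Continuous (fun q : E × E =>
        ‖q.1 - x‖ * (1 + C * ‖q.1 - x‖) + ‖q.2 - y‖ * (1 + C * ‖q.2 - y‖)) := by fun_prop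
    have h := (hc.tendsto (x, y)).mono_left (nhdsWithin_le_nhds (s := {x | f x = 0} ×ˢ {x | f x = 0}))
    simpa using h
  refine squeeze_zero' (Eventually.of_forall fun _ => dist_nonneg) ?_ hg
  filter_upwards [self_mem_nhdsWithin] with q hq
  obtain ⟨q1, q2⟩ := q
  obtain ⟨hq1, hq2⟩ := hq
  simp only [mem_setOf_eq] at hq1 hq2
  simp only
  rw [Real.dist_eq, abs_le]
  have e1 := hup q1 x hq1 hx
  have e2 := hup q2 y hq2 hy
  have t1 := D_tri hf hq1 hx hq2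
  have t2 := D_tri hf hx hy hq2
  have t3 := D_tri hf hx hq1 hy
  have t4 := D_tri hf hq1 hq2 hy
  have c1 := D_comm f q1 x
  have c2 := D_comm f q2 y
  constructor <;> linarith
theorem D_le_curve {f : E → ℝ} (hf : Surf f) {σ : ℝ → E} {a b : ℝ} (hab : a ≤ b)
    (hσ : ∀ t ∈ Icc a b, f (σ t) = 0) (hc : ContinuousOn σ (Icc a b)) {φ : ℝ → ℝ}
    (h : ∀ s ∈ Icc a b, ∀ t ∈ Icc a b, s ≤ t → ‖σ t - σ s‖ ≤ φ t - φ s) :
    D f (σ a) (σ b) ≤ φ b - φ a := by
  have ha : a ∈ Icc a b := ⟨le_rfl, hab⟩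
  have hb : b ∈ Icc a b := ⟨hab, le_rfl⟩
  have hmono : ∀ s ∈ Icc a b, ∀ t ∈ Icc a b, s ≤ t → φ s ≤ φ t := by
    intro s hs t ht hst
    have := h s hs t ht hst
    have h0 := norm_nonneg (σ t - σ s)
    linarith
  have hpos : 0 ≤ φ b - φ a := by
    have := hmono a ha b hb hab
    linarith
  have hmap : ∀ r ∈ Icc (0 : ℝ) 1, a + r * (b - a) ∈ Icc a b := by
    intro r hr
    have h1 : 0 ≤ b - a := by linarith
    constructor
    · have := mul_nonneg hr.1 h1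
      linarith
    · have := mul_le_mul_of_nonneg_right hr.2 h1
      linarith
  have hcurve : Curve f (fun r => σ (a + r * (b - a))) (σ a) (σ b) := by
    refine ⟨?_, ?_, ?_, ?_⟩
    · refine hc.comp (by fun_prop) ?_
      intro r hr
      exact hmap r hr
    · simp
    · simp
    · intro t ht
      exact hσ _ (hmap t ht)
  have hle : eD f (σ a) (σ b) ≤ eVariationOn (fun r => σ (a + r * (b - a))) (Icc 0 1) := by
    exact iInf₂_le (f := fun (γ : ℝ → E) (_ : Curve f γ (σ a) (σ b)) => eVariationOn γ (Icc 0 1)) _ hcurve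
  have hvar : eVariationOn (fun r => σ (a + r * (b - a))) (Icc 0 1) ≤ ENNReal.ofReal (φ b - φ a) := by
    unfold eVariationOn
    refine iSup_le ?_
    rintro ⟨n, u, hu, hmem⟩
    simp only
    have hstep : ∀ i ∈ Finset.range n, edist (σ (a + u (i + 1) * (b - a))) (σ (a + u i * (b - a))) ≤
        ENNReal.ofReal (φ (a + u (i + 1) * (b - a)) - φ (a + u i * (b - a))) := by
      intro i _
      rw [edist_dist, dist_eq_norm]
      apply ENNReal.ofReal_le_ofReal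
      apply h _ (hmap _ (hmem i)) _ (hmap _ (hmem (i + 1)))
      have h1 : 0 ≤ b - a := by linarith
      have h2 := hu (Nat.le_succ i)
      have := mul_le_mul_of_nonneg_right h2 h1
      simp only [Nat.succ_eq_add_one] at this
      linarith
    refine (Finset.sum_le_sum hstep).trans ?_
    rw [← ENNReal.ofReal_sum_of_nonneg]
    · rw [Finset.sum_range_sub (fun i => φ (a + u i * (b - a)))]
      apply ENNReal.ofReal_le_ofReal
      have h1 := hmono _ (hmap _ (hmem n)) b hb (hmap _ (hmem n)).2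
      have h2 := hmono a ha _ (hmap _ (hmem 0)) (hmap _ (hmem 0)).1
      linarith
    · intro i _
      have h1 : 0 ≤ b - a := by linarith
      have h2 := hu (Nat.le_succ i)
      have h3 := mul_le_mul_of_nonneg_right h2 h1
      simp only [Nat.succ_eq_add_one] at h3
      have := hmono _ (hmap _ (hmem i)) _ (hmap _ (hmem (i + 1))) (by linarith)
      linarith
  have hfin := hle.trans hvar
  rw [eD_eq hf (hσ a ha) (hσ b hb)] at hfin
  exact (ENNReal.ofReal_le_ofReal_iff hpos).mp hfin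

end Pool.Agent.GR.GC4
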