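import Pool.Agent.GR.Defs
import Pool.Agent.GR.GC3
import Pool.Agent.GR.GC4
import Pool.Agent.GR.GC2
import Pool.Agent.GR.GA3

set_option autoImplicit false
open Set Filter Topology MeasureTheory
open scoped Gradient RealInnerProductSpace ContDiff


namespace Pool.Agent.GR.GC5
open Pool.Agent.GR
open Pool.Agent.GR.GC3 (eD_eq D_nonneg D_self D_comm D_tri D_ge)
open Pool.Agent.GR.GC4 (D_cont D_le_curve)
open Pool.Agent.GR.GC2 (eD_tri eD_comm eD_ge)
open Pool.Agent.GR.GA3 (S_compact)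




/-! ## TARGET (prove this) -/

theorem mid_eD_le {f : E → ℝ} {γ : ℝ → E} {x y : E} (h : Curve f γ x y) :
    eD f x y ≤ eVariationOn γ (Icc 0 1) := iInf₂_le γ h

theorem mid_approx {f : E → ℝ} (hf : Surf f) {x y : E} (hx : f x = 0) (hy : f y = 0) (ε : ℝ)
    (hε : 0 < ε) :
    ∃ m, f m = 0 ∧ D f x m = D f m y ∧ D f x m + D f m y ≤ D f x y + ε := by
  have hD0 := D_nonneg f x y
  have h1 : eD f x y < ENNReal.ofReal (D f x y + ε) := by
    rw [eD_eq hf hx hy]
    exact (ENNReal.ofReal_lt_ofReal_iff (by linarith)).2 (by linarith)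
  unfold eD at h1
  obtain ⟨γ, h2⟩ := iInf_lt_iff.1 h1
  obtain ⟨hγ, h3⟩ := iInf_lt_iff.1 h2
  obtain ⟨hc, h0, h1', hS⟩ := hγ
  have hcont : ContinuousOn (fun t => D f x (γ t) - D f (γ t) y) (Icc 0 1) := by
    have a1 : ContinuousOn (fun t => D f x (γ t)) (Icc 0 1) :=
      (D_cont hf).comp (f := fun t => (x, γ t)) (continuousOn_const.prodMk hc)
        (fun t ht => ⟨hx, hS t ht⟩)
    have a2 : ContinuousOn (fun t => D f (γ t) y) (Icc 0 1) :=
      (D_cont hf).comp (f := fun t => (γ t, y)) (hc.prodMk continuousOn_const)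
        (fun t ht => ⟨hS t ht, hy⟩)
    exact a1.sub a2
  have hivt := intermediate_value_Icc (zero_le_one (α := ℝ)) hcont
  have hmem : (0 : ℝ) ∈ Icc (D f x (γ 0) - D f (γ 0) y) (D f x (γ 1) - D f (γ 1) y) := by
    rw [h0, h1', D_self hx, D_self hy]
    constructor <;> linarith
  obtain ⟨t, ht, hht⟩ := hivt hmem
  refine ⟨γ t, hS t ht, by linarith [show D f x (γ t) - D f (γ t) y = 0 from hht], ?_⟩
  have hfm := hS t ht
  have b1 : eD f x (γ t) ≤ eVariationOn γ (Icc 0 t) := by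
    have hφ : MonotoneOn (fun s : ℝ => t * s) (Icc 0 1) := fun a _ b _ hab =>
      mul_le_mul_of_nonneg_left hab ht.1
    have hm : MapsTo (fun s : ℝ => t * s) (Icc 0 1) (Icc 0 t) := by
      intro s hs
      exact ⟨mul_nonneg ht.1 hs.1, by nlinarith [hs.2, ht.1]⟩
    have hm' : MapsTo (fun s : ℝ => t * s) (Icc 0 1) (Icc 0 1) := fun s hs =>
      ⟨(hm hs).1, (hm hs).2.trans ht.2⟩
    have hcur : Curve f (γ ∘ fun s : ℝ => t * s) x (γ t) := by
      refine ⟨hc.comp (by fun_prop) hm', ?_, ?_, ?_⟩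
      · simp [h0]
      · simp
      · intro s hs
        exact hS _ (hm' hs)
    exact (mid_eD_le hcur).trans (eVariationOn.comp_le_of_monotoneOn γ _ hφ hm)
  have b2 : eD f (γ t) y ≤ eVariationOn γ (Icc t 1) := by
    have ht1 : 0 ≤ 1 - t := by linarith [ht.2]
    have hφ : MonotoneOn (fun s : ℝ => t + (1 - t) * s) (Icc 0 1) := fun a _ b _ hab => by
      have := mul_le_mul_of_nonneg_left hab ht1
      simp only
      linarith
    have hm : MapsTo (fun s : ℝ => t + (1 - t) * s) (Icc 0 1) (Icc t 1) := by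
      intro s hs
      have := mul_nonneg ht1 hs.1
      exact ⟨by simp only; linarith, by simp only; nlinarith [hs.2, ht1]⟩
    have hm' : MapsTo (fun s : ℝ => t + (1 - t) * s) (Icc 0 1) (Icc 0 1) := fun s hs =>
      ⟨ht.1.trans (hm hs).1, (hm hs).2⟩
    have hcur : Curve f (γ ∘ fun s : ℝ => t + (1 - t) * s) (γ t) y := by
      refine ⟨hc.comp (by fun_prop) hm', ?_, ?_, ?_⟩
      · simp
      · simp [h1']
      · intro s hs
        exact hS _ (hm' hs)
    exact (mid_eD_le hcur).trans (eVariationOn.comp_le_of_monotoneOn γ _ hφ hm)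
  have b3 : eVariationOn γ (Icc 0 t) + eVariationOn γ (Icc t 1) = eVariationOn γ (Icc 0 1) := by
    have := eVariationOn.Icc_add_Icc γ (s := univ) ht.1 ht.2 (mem_univ t)
    simpa using this
  have b4 : eD f x (γ t) + eD f (γ t) y ≤ ENNReal.ofReal (D f x y + ε) :=
    (add_le_add b1 b2).trans (b3.le.trans h3.le)
  rw [eD_eq hf hx hfm, eD_eq hf hfm hy, ← ENNReal.ofReal_add (D_nonneg _ _ _) (D_nonneg _ _ _)] at b4
  exact (ENNReal.ofReal_le_ofReal_iff (by linarith)).1 b4

theorem midpt {f : E → ℝ} (hf : Surf f) {x y : E} (hx : f x = 0) (hy : f y = 0) :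
    ∃ m, f m = 0 ∧ D f x m = D f x y / 2 ∧ D f m y = D f x y / 2 := by
  have hε : ∀ n : ℕ, (0 : ℝ) < 1 / ((n : ℝ) + 1) := fun n => by positivity
  choose m hm1 hm2 hm3 using fun n : ℕ => mid_approx hf hx hy _ (hε n)
  obtain ⟨z, hz, φ, hφ, hlim⟩ := (S_compact hf).tendsto_subseq (x := m) (fun n => hm1 n)
  have hz' : f z = 0 := hz
  have hlimw : Tendsto (m ∘ φ) atTop (𝓝[{x | f x = 0}] z) :=
    tendsto_nhdsWithin_iff.2 ⟨hlim, Eventually.of_forall (fun n => hm1 (φ n))⟩
  have c1 : ContinuousOn (fun w => D f x w) {w | f w = 0} :=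
    (D_cont hf).comp (f := fun w => (x, w)) (continuousOn_const.prodMk continuousOn_id)
      (fun w hw => ⟨hx, hw⟩)
  have c2 : ContinuousOn (fun w => D f w y) {w | f w = 0} :=
    (D_cont hf).comp (f := fun w => (w, y)) (continuousOn_id.prodMk continuousOn_const)
      (fun w hw => ⟨hw, hy⟩)
  have l1 : Tendsto (fun n => D f x (m (φ n))) atTop (𝓝 (D f x z)) := (c1 z hz).tendsto.comp hlimw
  have l2 : Tendsto (fun n => D f (m (φ n)) y) atTop (𝓝 (D f z y)) := (c2 z hz).tendsto.comp hlimw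
  have e1 : D f x z = D f z y := by
    refine tendsto_nhds_unique l1 ?_
    have : (fun n => D f x (m (φ n))) = fun n => D f (m (φ n)) y := funext fun n => hm2 (φ n)
    rw [this]
    exact l2
  have e2 : D f x z + D f z y ≤ D f x y := by
    have l3 : Tendsto (fun n => D f x y + 1 / (((φ n : ℕ) : ℝ) + 1)) atTop (𝓝 (D f x y + 0)) :=
      tendsto_const_nhds.add (tendsto_one_div_add_atTop_nhds_zero_nat.comp hφ.tendsto_atTop)
    rw [add_zero] at l3
    exact le_of_tendsto_of_tendsto' (l1.add l2) l3 (fun n => hm3 (φ n))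
  have e3 := D_tri hf hx hz' hy
  refine ⟨z, hz', ?_, ?_⟩ <;> linarith

end Pool.Agent.GR.GC5
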