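import Pool.Agent.GR.Defs
import Pool.Agent.GR.GC3
import Pool.Agent.GR.GC4
import Pool.Agent.GR.GC2

set_option autoImplicit false
open Set Filter Topology MeasureTheory
open scoped Gradient RealInnerProductSpace ContDiff


namespace Pool.Agent.GR.GC6
open Pool.Agent.GR
open Pool.Agent.GR.GC3 (eD_eq D_nonneg D_self D_comm D_tri D_ge)
open Pool.Agent.GR.GC4 (D_cont D_le_curve)
open Pool.Agent.GR.GC2 (eD_tri eD_comm eD_ge)




/-! ## TARGET (prove this) -/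

theorem eD_piece {f : E → ℝ} {γ : ℝ → E} {x y : E} (hγ : Curve f γ x y) {s t : ℝ}
    (hs : 0 ≤ s) (hst : s ≤ t) (ht : t ≤ 1) : eD f (γ s) (γ t) ≤ eVariationOn γ (Icc s t) := by
  obtain ⟨hc, h0, h1, hf⟩ := hγ
  have hmap : MapsTo (fun u : ℝ => s + u * (t - s)) (Icc 0 1) (Icc s t) := by
    intro u hu
    have h2 : 0 ≤ u * (t - s) := mul_nonneg hu.1 (by linarith)
    have h3 : u * (t - s) ≤ 1 * (t - s) := mul_le_mul_of_nonneg_right hu.2 (by linarith)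
    constructor
    · show s ≤ s + u * (t - s)
      linarith
    · show s + u * (t - s) ≤ t
      linarith
  have hsub : Icc s t ⊆ Icc (0 : ℝ) 1 := Icc_subset_Icc hs ht
  have hC : Curve f (γ ∘ fun u : ℝ => s + u * (t - s)) (γ s) (γ t) := by
    refine ⟨?_, ?_, ?_, ?_⟩
    · exact (hc.mono hsub).comp (by fun_prop) hmap
    · simp
    · simp
    · intro u hu
      exact hf _ (hsub (hmap hu))
  have hmono : MonotoneOn (fun u : ℝ => s + u * (t - s)) (Icc 0 1) := by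
    intro a _ b _ hab
    have := mul_le_mul_of_nonneg_right hab (sub_nonneg.2 hst)
    show s + a * (t - s) ≤ s + b * (t - s)
    linarith
  have h5 : eD f (γ s) (γ t) ≤ eVariationOn (γ ∘ fun u : ℝ => s + u * (t - s)) (Icc 0 1) := by
    unfold eD
    exact iInf_le_of_le _ (iInf_le_of_le hC le_rfl)
  exact h5.trans (eVariationOn.comp_le_of_monotoneOn γ _ hmono hmap)

theorem shortest_struct {f : E → ℝ} (hf : Surf f) {γ : ℝ → E} {x y : E} (hγ : Curve f γ x y)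
    (hmin : eVariationOn γ (Icc 0 1) ≤ eD f x y) :
    ∃ σ : ℝ → E, σ 0 = x ∧ σ (D f x y) = y ∧ (∀ t ∈ Icc 0 (D f x y), f (σ t) = 0) ∧
      (∀ s ∈ Icc 0 (D f x y), ∀ t ∈ Icc 0 (D f x y), D f (σ s) (σ t) = |s - t|) ∧
      σ '' Icc 0 (D f x y) = γ '' Icc 0 1 := by
  have h01 : (0 : ℝ) ∈ Icc (0 : ℝ) 1 := ⟨le_rfl, zero_le_one⟩
  have h11 : (1 : ℝ) ∈ Icc (0 : ℝ) 1 := ⟨zero_le_one, le_rfl⟩
  have hc := hγ.1
  have h0 : γ 0 = x := hγ.2.1
  have h1 : γ 1 = y := hγ.2.2.1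
  have hfg := hγ.2.2.2
  have hx : f x = 0 := by rw [← h0]; exact hfg 0 h01
  have hy : f y = 0 := by rw [← h1]; exact hfg 1 h11
  obtain ⟨ℓ, hℓ⟩ : ∃ ℓ : ℝ, ℓ = D f x y := ⟨_, rfl⟩
  have hℓ0 : 0 ≤ ℓ := hℓ ▸ D_nonneg f x y
  have hsum : ∀ s t : ℝ, 0 ≤ s → s ≤ t → t ≤ 1 →
      D f x (γ s) + D f (γ s) (γ t) + D f (γ t) y = ℓ := by
    intro s t hs hst ht
    have hfs := hfg s ⟨hs, hst.trans ht⟩
    have hft := hfg t ⟨hs.trans hst, ht⟩
    have e1 := eD_piece hγ le_rfl hs (hst.trans ht)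
    have e2 := eD_piece hγ hs hst ht
    have e3 := eD_piece hγ (hs.trans hst) ht le_rfl
    rw [h0, eD_eq hf hx hfs] at e1
    rw [eD_eq hf hfs hft] at e2
    rw [h1, eD_eq hf hft hy] at e3
    have hadd1 := eVariationOn.Icc_add_Icc γ (s := univ) hst ht (mem_univ _)
    have hadd2 := eVariationOn.Icc_add_Icc γ (s := univ) hs (hst.trans ht) (mem_univ _)
    simp only [univ_inter] at hadd1 hadd2
    have htot : ENNReal.ofReal (D f x (γ s) + D f (γ s) (γ t) + D f (γ t) y) ≤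
        ENNReal.ofReal ℓ := by
      rw [ENNReal.ofReal_add (add_nonneg (D_nonneg _ _ _) (D_nonneg _ _ _)) (D_nonneg _ _ _),
        ENNReal.ofReal_add (D_nonneg _ _ _) (D_nonneg _ _ _), add_assoc]
      calc _ ≤ eVariationOn γ (Icc 0 s) + (eVariationOn γ (Icc s t) + eVariationOn γ (Icc t 1)) :=
            add_le_add e1 (add_le_add e2 e3)
        _ = eVariationOn γ (Icc 0 1) := by rw [hadd1, hadd2]
        _ ≤ eD f x y := hmin
        _ = ENNReal.ofReal ℓ := by rw [hℓ, ← eD_eq hf hx hy]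
    have hle := (ENNReal.ofReal_le_ofReal_iff hℓ0).1 htot
    have t1 := D_tri hf hx hft hy
    have t2 := D_tri hf hx hfs hft
    linarith
  have hone : ∀ t ∈ Icc (0 : ℝ) 1, D f x (γ t) + D f (γ t) y = ℓ := by
    intro t ht
    have := hsum t t ht.1 le_rfl ht.2
    rw [D_self (hfg t ht)] at this
    linarith
  have hdiff : ∀ a ∈ Icc (0 : ℝ) 1, ∀ b ∈ Icc (0 : ℝ) 1,
      D f (γ a) (γ b) = |D f x (γ a) - D f x (γ b)| := by
    have haux : ∀ a ∈ Icc (0 : ℝ) 1, ∀ b ∈ Icc (0 : ℝ) 1, a ≤ b →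
        D f (γ a) (γ b) = |D f x (γ a) - D f x (γ b)| := by
      intro a ha b hb hab
      have e1 := hsum a b ha.1 hab hb.2
      have e2 := hone b hb
      have e3 := D_nonneg f (γ a) (γ b)
      rw [abs_sub_comm, abs_of_nonneg (by linarith)]
      linarith
    intro a ha b hb
    rcases le_total a b with h | h
    · exact haux a ha b hb h
    · rw [D_comm, haux b hb a ha h, abs_sub_comm]
  have heq : ∀ p q : E, f p = 0 → f q = 0 → D f p q = 0 → p = q := by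
    intro p q hp hq h
    have := D_ge hf hp hq
    rw [h] at this
    exact sub_eq_zero.1 (norm_le_zero_iff.1 this)
  have hLc : ContinuousOn (fun t => D f x (γ t)) (Icc 0 1) := by
    have hp : ContinuousOn (fun t : ℝ => (x, γ t)) (Icc 0 1) := continuousOn_const.prodMk hc
    have hmm : MapsTo (fun t : ℝ => (x, γ t)) (Icc 0 1)
        ({x | f x = 0} ×ˢ {x | f x = 0}) := fun t ht => ⟨hx, hfg t ht⟩
    have hcc := ContinuousOn.comp (D_cont hf) hp hmm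
    refine hcc.congr ?_
    intro t ht
    rfl
  have hL0 : D f x (γ 0) = 0 := by rw [h0, D_self hx]
  have hL1 : D f x (γ 1) = ℓ := by rw [h1, hℓ]
  have hivt := intermediate_value_Icc (zero_le_one' ℝ) hLc
  simp only [hL0, hL1] at hivt
  have hch : ∀ r : ℝ, ∃ t : ℝ, r ∈ Icc 0 ℓ → t ∈ Icc (0 : ℝ) 1 ∧ D f x (γ t) = r := by
    intro r
    by_cases hr : r ∈ Icc 0 ℓ
    · obtain ⟨t, ht, htr⟩ := hivt hr
      exact ⟨t, fun _ => ⟨ht, htr⟩⟩
    · exact ⟨0, fun h => absurd h hr⟩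
  choose τ hτ using hch
  rw [← hℓ]
  have hm0 : (0 : ℝ) ∈ Icc 0 ℓ := ⟨le_rfl, hℓ0⟩
  have hmℓ : ℓ ∈ Icc 0 ℓ := ⟨hℓ0, le_rfl⟩
  refine ⟨fun r => γ (τ r), ?_, ?_, ?_, ?_, ?_⟩
  · obtain ⟨h2, h3⟩ := hτ 0 hm0
    exact (heq x _ hx (hfg _ h2) h3).symm
  · obtain ⟨h2, h3⟩ := hτ ℓ hmℓ
    refine heq _ y (hfg _ h2) hy ?_
    have := hone _ h2
    rw [h3] at this
    linarith
  · intro t ht
    exact hfg _ (hτ t ht).1
  · intro s hs t ht
    show D f (γ (τ s)) (γ (τ t)) = |s - t|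
    rw [hdiff _ (hτ s hs).1 _ (hτ t ht).1, (hτ s hs).2, (hτ t ht).2]
  · apply Subset.antisymm
    · rintro z ⟨r, hr, rfl⟩
      exact ⟨τ r, (hτ r hr).1, rfl⟩
    · rintro z ⟨t, ht, rfl⟩
      have hLt : D f x (γ t) ∈ Icc 0 ℓ := by
        refine ⟨D_nonneg _ _ _, ?_⟩
        have := hone t ht
        have := D_nonneg f (γ t) y
        linarith
      refine ⟨D f x (γ t), hLt, ?_⟩
      obtain ⟨h2, h3⟩ := hτ _ hLt
      refine heq _ _ (hfg _ h2) (hfg _ ht) ?_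
      rw [hdiff _ h2 _ ht, h3, sub_self, abs_zero]
theorem var_le {σ : ℝ → E} {l : ℝ} (hl : 0 ≤ l)
    (h : ∀ s ∈ Icc 0 l, ∀ t ∈ Icc 0 l, ‖σ s - σ t‖ ≤ |s - t|) :
    eVariationOn (fun t => σ (l * t)) (Icc 0 1) ≤ ENNReal.ofReal l := by
  have hL : LipschitzOnWith 1 σ (Icc 0 l) := by
    apply LipschitzOnWith.of_dist_le_mul
    intro a ha b hb
    rw [dist_eq_norm, Real.dist_eq, NNReal.coe_one, one_mul]
    exact h a ha b hb
  have hmap : MapsTo (fun t : ℝ => l * t) (Icc 0 1) (Icc 0 l) := by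
    intro t ht
    exact ⟨mul_nonneg hl ht.1, by nlinarith [ht.2]⟩
  have h1 := hL.comp_eVariationOn_le hmap
  have hmono : MonotoneOn (fun t : ℝ => l * t) (Icc 0 1) :=
    fun a _ b _ hab => mul_le_mul_of_nonneg_left hab hl
  have h2 := hmono.eVariationOn_le (a := 0) (b := 1) ⟨le_rfl, zero_le_one⟩ ⟨zero_le_one, le_rfl⟩
  rw [inter_self] at h2
  refine h1.trans ?_
  rw [ENNReal.coe_one, one_mul]
  refine h2.trans ?_
  simp

end Pool.Agent.GR.GC6
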