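import Pool.Agent.GR.Defs
import Pool.Agent.GR.GC3
import Pool.Agent.GR.GB2
import Pool.Agent.GR.GC4

set_option autoImplicit false
open Set Filter Topology MeasureTheory
open scoped Gradient RealInnerProductSpace ContDiff


namespace Pool.Agent.GR.GE1
open Pool.Agent.GR
open Pool.Agent.GR.GC3 (D_nonneg D_comm D_tri)
open Pool.Agent.GR.GB2 (D_G_le G_UT G_inj)
open Pool.Agent.GR.GC4 (D_up)




/-! ## TARGET (prove this) -/

theorem corner {f : E → ℝ} {G : ℝ → E × E → E × E} (hf : Surf f) (hG : GFlow f G) {x u v : E}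
    (hu : (x, u) ∈ UT f) (hv : (x, v) ∈ UT f) {r : ℝ} (hr : 0 < r)
    (h : ∀ ε ∈ Ioo 0 r, 2 * ε ≤ D f (G (-ε) (x, u)).1 (G ε (x, v)).1) : u = v := by
  have hun : ‖u‖ = 1 := hu.2.2
  have hvn : ‖v‖ = 1 := hv.2.2
  have hu2 : ‖((x, u) : E × E).2‖ ≤ 2 := by
    show ‖u‖ ≤ 2
    rw [hun]
    norm_num
  have hv2 : ‖((x, v) : E × E).2‖ ≤ 2 := by
    show ‖v‖ ≤ 2
    rw [hvn]
    norm_num
  have huT : ((x, u) : E × E) ∈ TT f := ⟨hu.1, hu.2.1⟩
  have hvT : ((x, v) : E × E) ∈ TT f := ⟨hv.1, hv.2.1⟩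
  have da : HasDerivAt (fun t => (G (-t) (x, u)).1) (-u) 0 := by
    have h1 := hG.pos (x, u) huT hu2 (-0)
    have h2 : HasDerivAt (fun t : ℝ => -t) (-1) 0 := hasDerivAt_neg' 0
    have h3 := HasDerivAt.scomp (0 : ℝ) h1 h2
    have h4 : (-1 : ℝ) • (G (-0) (x, u)).2 = -u := by
      rw [neg_zero, hG.zero, neg_smul, one_smul]
    rw [h4] at h3
    exact h3
  have db : HasDerivAt (fun t => (G t (x, v)).1) v 0 := by
    have h1 := hG.pos (x, v) hvT hv2 0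
    rw [hG.zero] at h1
    exact h1
  obtain ⟨φ, hφ⟩ : ∃ φ : ℝ → E, φ = fun t => (G t (x, v)).1 - (G (-t) (x, u)).1 := ⟨_, rfl⟩
  have dφ : HasDerivAt φ (v + u) 0 := by
    have h1 := db.sub da
    rw [sub_neg_eq_add] at h1
    rw [hφ]
    exact h1
  have hφ0 : φ 0 = 0 := by
    rw [hφ]
    simp only [neg_zero]
    rw [hG.zero, hG.zero]
    exact sub_self _
  obtain ⟨C, hC, hCD⟩ := D_up hf
  have l1 := dφ.tendsto_slope_zero_right
  have l2 : Tendsto (fun t => ‖φ t‖) (𝓝[>] 0) (𝓝 0) := by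
    have h1 : Tendsto φ (𝓝 0) (𝓝 (φ 0)) := dφ.continuousAt
    have h2 := (h1.mono_left nhdsWithin_le_nhds : Tendsto φ (𝓝[>] 0) (𝓝 (φ 0))).norm
    rw [hφ0, norm_zero] at h2
    exact h2
  have l3 : Tendsto (fun t : ℝ => ‖t⁻¹ • (φ (0 + t) - φ 0)‖ * (1 + C * ‖φ t‖)) (𝓝[>] 0)
      (𝓝 (‖v + u‖ * (1 + C * 0))) := l1.norm.mul (tendsto_const_nhds.add (l2.const_mul C))
  rw [mul_zero, add_zero, mul_one] at l3
  have h2 : 2 ≤ ‖v + u‖ := by
    refine ge_of_tendsto l3 ?_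
    have hI : Ioo (0 : ℝ) r ∈ 𝓝[>] (0 : ℝ) := Ioo_mem_nhdsGT hr
    filter_upwards [hI] with t ht
    have ht0 : 0 < t := ht.1
    have e1 := h t ht
    have e2 := hCD (G (-t) (x, u)).1 (G t (x, v)).1 (G_UT hG hu (-t)).1 (G_UT hG hv t).1
    have e3 : ‖(G (-t) (x, u)).1 - (G t (x, v)).1‖ = ‖φ t‖ := by
      rw [hφ, norm_sub_rev]
    rw [e3] at e2
    have e4 : ‖t⁻¹ • (φ (0 + t) - φ 0)‖ = t⁻¹ * ‖φ t‖ := by
      rw [hφ0, sub_zero, zero_add, norm_smul, norm_inv, Real.norm_of_nonneg ht0.le]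
    rw [e4]
    have e5 : 2 * t ≤ ‖φ t‖ * (1 + C * ‖φ t‖) := e1.trans e2
    have e6 : 2 = t⁻¹ * (2 * t) := by field_simp
    calc (2 : ℝ) = t⁻¹ * (2 * t) := e6
      _ ≤ t⁻¹ * (‖φ t‖ * (1 + C * ‖φ t‖)) := mul_le_mul_of_nonneg_left e5 (by positivity)
      _ = t⁻¹ * ‖φ t‖ * (1 + C * ‖φ t‖) := by ring
  have h3 := parallelogram_law_with_norm ℝ v u
  rw [hun, hvn] at h3
  have h4 : ‖v - u‖ * ‖v - u‖ ≤ 0 := by nlinarith
  have h5 : ‖v - u‖ = 0 := by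
    have := norm_nonneg (v - u)
    nlinarith
  exact (sub_eq_zero.1 (norm_eq_zero.1 h5)).symm
theorem broken {f : E → ℝ} {G : ℝ → E × E → E × E} (hf : Surf f) (hG : GFlow f G) {x u y v : E}
    {s t : ℝ} (hu : (x, u) ∈ UT f) (hs : 0 < s) (ht : 0 < t) (hy : (G s (x, u)).1 = y)
    (hv : (y, v) ∈ UT f) (hD : s + t ≤ D f x (G t (y, v)).1) :
    G s (x, u) = (y, v) ∧ G (s + t) (x, u) = G t (y, v) := by
  obtain ⟨u', hu'⟩ : ∃ u', u' = (G s (x, u)).2 := ⟨_, rfl⟩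
  have hGs : G s (x, u) = (y, u') := by
    rw [hu', ← hy]
  have hyu : (y, u') ∈ UT f := by
    rw [← hGs]
    exact G_UT hG hu s
  have huv : u' = v := by
    apply corner hf hG hyu hv (lt_min hs ht)
    intro ε hε
    have hε0 : 0 < ε := hε.1
    have hεs : ε < s := hε.2.trans_le (min_le_left _ _)
    have hεt : ε < t := hε.2.trans_le (min_le_right _ _)
    have e1 : G (-ε) (y, u') = G (-ε + s) (x, u) := by
      rw [hG.add, hGs]
    rw [e1]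
    have h1 : D f x (G (-ε + s) (x, u)).1 ≤ s - ε := by
      have h2 := D_G_le hf hG hu 0 (-ε + s)
      rw [hG.zero] at h2
      refine h2.trans (le_of_eq ?_)
      rw [abs_of_nonpos (by linarith)]
      ring
    have h2 : D f (G ε (y, v)).1 (G t (y, v)).1 ≤ t - ε := by
      refine (D_G_le hf hG hv ε t).trans (le_of_eq ?_)
      rw [abs_of_nonpos (by linarith)]
      ring
    have h3 := D_tri hf (x := x) (y := (G (-ε + s) (x, u)).1) (z := (G t (y, v)).1) hu.1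
      (G_UT hG hu _).1 (G_UT hG hv _).1
    have h4 := D_tri hf (x := (G (-ε + s) (x, u)).1) (y := (G ε (y, v)).1)
      (z := (G t (y, v)).1) (G_UT hG hu _).1 (G_UT hG hv _).1 (G_UT hG hv _).1
    linarith
  rw [huv] at hGs
  refine ⟨hGs, ?_⟩
  rw [add_comm, hG.add, hGs]

end Pool.Agent.GR.GE1
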