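import Pool.Agent.GR.Defs
import Pool.Agent.GR.GC5
import Pool.Agent.GR.GC3

set_option autoImplicit false
open Set Filter Topology MeasureTheory
open scoped Gradient RealInnerProductSpace ContDiff


namespace Pool.Agent.GR.GE2
open Pool.Agent.GR
open Pool.Agent.GR.GC5 (midpt)
open Pool.Agent.GR.GC3 (D_nonneg D_comm D_tri D_self)




/-! ## TARGET (prove this) -/

theorem chain {f : E → ℝ} (hf : Surf f) {x y : E} (hx : f x = 0) (hy : f y = 0) (n : ℕ) :
    ∃ z : ℕ → E, z 0 = x ∧ z (2 ^ n) = y ∧ (∀ i, f (z i) = 0) ∧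
      ∀ i < 2 ^ n, D f (z i) (z (i + 1)) = D f x y / 2 ^ n := by
  classical
  induction n generalizing x y with
  | zero =>
    refine ⟨fun i => if i = 0 then x else y, by simp, by simp, ?_, ?_⟩
    · intro i
      dsimp only
      split_ifs
      · exact hx
      · exact hy
    · intro i hi
      have hi0 : i = 0 := by
        rw [pow_zero] at hi
        omega
      subst hi0
      simp
  | succ n ih =>
    obtain ⟨m, hm, h1, h2⟩ := midpt hf hx hy
    obtain ⟨z1, a1, b1, c1, d1⟩ := ih hx hm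
    obtain ⟨z2, a2, b2, c2, d2⟩ := ih hm hy
    have hp : 0 < 2 ^ n := Nat.two_pow_pos n
    have hpp : 2 ^ (n + 1) = 2 ^ n + 2 ^ n := by rw [pow_succ]; ring
    refine ⟨fun i => if i ≤ 2 ^ n then z1 i else z2 (i - 2 ^ n), ?_, ?_, ?_, ?_⟩
    · simp [a1]
    · have h3 : ¬ (2 ^ (n + 1) ≤ 2 ^ n) := by omega
      have h4 : 2 ^ (n + 1) - 2 ^ n = 2 ^ n := by omega
      simp only [if_neg h3, h4]
      exact b2
    · intro i
      dsimp only
      split_ifs
      · exact c1 i
      · exact c2 _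
    · intro i hi
      dsimp only
      have hD1 : D f x m / 2 ^ n = D f x y / 2 ^ (n + 1) := by
        rw [h1, pow_succ]
        field_simp
      have hD2 : D f m y / 2 ^ n = D f x y / 2 ^ (n + 1) := by
        rw [h2, pow_succ]
        field_simp
      rcases lt_trichotomy i (2 ^ n) with h | h | h
      · have e1 : i ≤ 2 ^ n := h.le
        have e2 : i + 1 ≤ 2 ^ n := h
        rw [if_pos e1, if_pos e2, d1 i h, hD1]
      · have e1 : i ≤ 2 ^ n := h.le
        have e2 : ¬ (i + 1 ≤ 2 ^ n) := by omega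
        have e3 : i + 1 - 2 ^ n = 0 + 1 := by omega
        rw [if_pos e1, if_neg e2, e3, h, b1, ← a2, d2 0 hp, hD2]
      · have e1 : ¬ (i ≤ 2 ^ n) := by omega
        have e2 : ¬ (i + 1 ≤ 2 ^ n) := by omega
        have e3 : i + 1 - 2 ^ n = (i - 2 ^ n) + 1 := by omega
        have e4 : i - 2 ^ n < 2 ^ n := by omega
        rw [if_neg e1, if_neg e2, e3, d2 _ e4, hD2]

end Pool.Agent.GR.GE2
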