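import Pool.Agent.GR.Defs
import Pool.Agent.GR.GE1
import Pool.Agent.GR.GC3
import Pool.Agent.GR.GB2

set_option autoImplicit false
open Set Filter Topology MeasureTheory
open scoped Gradient RealInnerProductSpace ContDiff


namespace Pool.Agent.GR.GE3
open Pool.Agent.GR
open Pool.Agent.GR.GE1 (broken)
open Pool.Agent.GR.GC3 (D_nonneg D_comm D_tri)
open Pool.Agent.GR.GB2 (D_G_le G_UT G_inj)




/-! ## TARGET (prove this) -/

theorem D_mono {f : E → ℝ} {G : ℝ → E × E → E × E} (hf : Surf f) (hG : GFlow f G)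
    {p : E × E} {s t : ℝ} (hp : p ∈ UT f) (hs : 0 ≤ s) (hst : s ≤ t)
    (hD : D f p.1 (G t p).1 = t) : D f p.1 (G s p).1 = s := by
  have h1 : D f p.1 (G s p).1 ≤ s := by
    have h := D_G_le hf hG hp 0 s
    rw [hG.zero p, zero_sub, abs_neg, abs_of_nonneg hs] at h
    exact h
  have h2 : D f (G s p).1 (G t p).1 ≤ t - s := by
    have h := D_G_le hf hG hp s t
    rw [abs_sub_comm, abs_of_nonneg (by linarith)] at h
    exact h
  have h3 := D_tri hf (x := p.1) (y := (G s p).1) (z := (G t p).1) hp.1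
    (G_UT hG hp s).1 (G_UT hG hp t).1
  linarith
theorem unique_before {f : E → ℝ} {G : ℝ → E × E → E × E} (hf : Surf f) (hG : GFlow f G)
    {x u w : E} {s s' t : ℝ} (hu : (x, u) ∈ UT f) (hw : (x, w) ∈ UT f) (hs : 0 < s) (hst : s < t)
    (hD : D f x (G t (x, u)).1 = t) (hs' : D f x (G s' (x, w)).1 = s')
    (h : (G s (x, u)).1 = (G s' (x, w)).1) : s = s' ∧ u = w := by
  have h1 : D f x (G s (x, u)).1 = s := D_mono hf hG hu hs.le hst.le hD
  have h2 : s = s' := by rw [← h1, h, hs']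
  refine ⟨h2, ?_⟩
  rw [← h2] at h
  have hv : ((G s (x, u)).1, (G s (x, u)).2) ∈ UT f := G_UT hG hu s
  have hfl : G (t - s) (G s (x, u)) = G t (x, u) := by
    rw [← hG.add]
    congr 1
    ring
  have hb := broken hf hG (x := x) (u := w) (y := (G s (x, u)).1) (v := (G s (x, u)).2)
    (s := s) (t := t - s) hw hs (by linarith) h.symm hv (by
      show s + (t - s) ≤ D f x (G (t - s) (G s (x, u))).1
      rw [hfl, hD]
      linarith)
  have h3 : G s (x, w) = G s (x, u) := hb.1
  have h4 := G_inj hG h3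
  exact (congrArg Prod.snd h4).symm

end Pool.Agent.GR.GE3
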