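import Pool.Agent.GR.Defs
import Pool.Agent.GR.GA1
import Pool.Agent.GR.GA6
import Pool.Agent.GR.GA7
import Pool.Agent.GR.GB2

set_option autoImplicit false
open Set Filter Topology MeasureTheory
open scoped Gradient RealInnerProductSpace ContDiff


namespace Pool.Agent.GR.GL1
open Pool.Agent.GR
open Pool.Agent.GR.GA1 (N_smooth N_norm)
open Pool.Agent.GR.GA6 (cr_smooth cr_norm)
open Pool.Agent.GR.GA7 (rot_UT rot_zero rot_rot rot_deriv cr_rot perp_UT)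
open Pool.Agent.GR.GB2 (G_UT)




/-! ## TARGET (prove this) -/

theorem aux_chain {G : ℝ → E × E → E × E}
    (hs : ContDiff ℝ ((⊤ : ℕ∞) : WithTop ℕ∞) (fun q : ℝ × (E × E) => G q.1 q.2))
    (x : E) (t : ℝ) (c : ℝ → E) (c' : E) (θ : ℝ) (hc : HasDerivAt c c' θ) :
    HasDerivAt (fun θ => (G t (x, c θ)).1) (fderiv ℝ (fun v => (G t (x, v)).1) (c θ) c') θ ∧
    HasDerivAt (fun θ => (G t (x, c θ)).2) (fderiv ℝ (fun v => (G t (x, v)).2) (c θ) c') θ := by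
  have h0 : ContDiff ℝ ((⊤ : ℕ∞) : WithTop ℕ∞) (fun v : E => G t (x, v)) :=
    hs.comp (contDiff_const.prodMk (contDiff_const.prodMk contDiff_id))
  have h1 : Differentiable ℝ (fun v : E => (G t (x, v)).1) := h0.fst.differentiable (by simp)
  have h2 : Differentiable ℝ (fun v : E => (G t (x, v)).2) := h0.snd.differentiable (by simp)
  exact ⟨((h1 (c θ)).hasFDerivAt).comp_hasDerivAt θ hc,
    ((h2 (c θ)).hasFDerivAt).comp_hasDerivAt θ hc⟩

theorem J_eq_curve {f : E → ℝ} {G : ℝ → E × E → E × E} (hf : Surf f) (hG : GFlow f G) {x u : E}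
    (hp : (x, u) ∈ UT f) (t θ : ℝ) :
    HasDerivAt (fun θ => (G t (x, rot f x u θ)).1)
      (fderiv ℝ (fun v => (G t (x, v)).1) (rot f x u θ) (cr (N f x) (rot f x u θ))) θ := by
  rw [cr_rot hf hp θ]
  exact (aux_chain hG.smooth x t (fun θ => rot f x u θ) _ θ (rot_deriv f x u θ)).1

theorem aux_mixed (Φ : ℝ × ℝ → E) (hΦ : ContDiff ℝ ((⊤ : ℕ∞) : WithTop ℕ∞) Φ) (t θ : ℝ) :
    HasDerivAt (fun t => Φ (t, θ)) (fderiv ℝ Φ (t, θ) (1, 0)) t ∧
    HasDerivAt (fun θ => Φ (t, θ)) (fderiv ℝ Φ (t, θ) (0, 1)) θ ∧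
    HasDerivAt (fun t => fderiv ℝ Φ (t, θ) (0, 1))
      (fderiv ℝ (fderiv ℝ Φ) (t, θ) (1, 0) (0, 1)) t ∧
    HasDerivAt (fun θ => fderiv ℝ Φ (t, θ) (1, 0))
      (fderiv ℝ (fderiv ℝ Φ) (t, θ) (0, 1) (1, 0)) θ ∧
    fderiv ℝ (fderiv ℝ Φ) (t, θ) (1, 0) (0, 1) = fderiv ℝ (fderiv ℝ Φ) (t, θ) (0, 1) (1, 0) := by
  have hd : Differentiable ℝ Φ := hΦ.differentiable (by simp)
  have hd2 : Differentiable ℝ (fderiv ℝ Φ) := by
    have hle : ((1 : WithTop ℕ∞) + 1) ≤ ((⊤ : ℕ∞) : WithTop ℕ∞) := by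
      exact WithTop.coe_le_coe.2 (le_top : ((1 : ℕ∞) + 1) ≤ ⊤)
    have : ContDiff ℝ 1 (fderiv ℝ Φ) := hΦ.fderiv_right hle
    exact this.differentiable (by norm_num)
  have e1 : HasDerivAt (fun t : ℝ => (t, θ)) ((1 : ℝ), (0 : ℝ)) t :=
    (hasDerivAt_id t).prodMk (hasDerivAt_const t θ)
  have e2 : HasDerivAt (fun θ : ℝ => (t, θ)) ((0 : ℝ), (1 : ℝ)) θ :=
    (hasDerivAt_const θ t).prodMk (hasDerivAt_id θ)
  refine ⟨?_, ?_, ?_, ?_, ?_⟩
  · exact ((hd (t, θ)).hasFDerivAt).comp_hasDerivAt t e1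
  · exact ((hd (t, θ)).hasFDerivAt).comp_hasDerivAt θ e2
  · have h := ((hd2 (t, θ)).hasFDerivAt).comp_hasDerivAt t e1
    have h' := h.clm_apply (hasDerivAt_const t ((0 : ℝ), (1 : ℝ)))
    simpa using h'
  · have h := ((hd2 (t, θ)).hasFDerivAt).comp_hasDerivAt θ e2
    have h' := h.clm_apply (hasDerivAt_const θ ((1 : ℝ), (0 : ℝ)))
    simpa using h'
  · have h : IsSymmSndFDerivAt ℝ Φ (t, θ) := by
      refine ContDiffAt.isSymmSndFDerivAt (n := ((⊤ : ℕ∞) : WithTop ℕ∞)) hΦ.contDiffAt ?_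
      rw [minSmoothness_of_isRCLikeNormedField]
      exact WithTop.coe_le_coe.2 (le_top : (2 : ℕ∞) ≤ ⊤)
    exact h (1, 0) (0, 1)

theorem jac_deriv {f : E → ℝ} {G : ℝ → E × E → E × E} (hf : Surf f) (hG : GFlow f G) {p : E × E}
    (hp : p ∈ UT f) (t : ℝ) :
    HasDerivAt (fun t => fderiv ℝ (fun v => (G t (p.1, v)).1) p.2 (cr (N f p.1) p.2))
      (fderiv ℝ (fun v => (G t (p.1, v)).2) p.2 (cr (N f p.1) p.2)) t := by
  obtain ⟨x, u⟩ := p
  simp only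
  have hc : ContDiff ℝ ((⊤ : ℕ∞) : WithTop ℕ∞) (fun θ => rot f x u θ) := by
    unfold rot
    exact (Real.contDiff_cos.smul contDiff_const).add (Real.contDiff_sin.smul contDiff_const)
  have hΦ : ContDiff ℝ ((⊤ : ℕ∞) : WithTop ℕ∞)
      (fun q : ℝ × ℝ => (G q.1 (x, rot f x u q.2)).1) :=
    (hG.smooth.comp (contDiff_fst.prodMk (contDiff_const.prodMk (hc.comp contDiff_snd)))).fst
  have key : ∀ s θ, fderiv ℝ (fun q : ℝ × ℝ => (G q.1 (x, rot f x u q.2)).1) (s, θ) (1, 0) =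
      (G s (x, rot f x u θ)).2 := by
    intro s θ
    have h1 := (aux_mixed _ hΦ s θ).1
    have hm := rot_UT hf hp θ
    have h2 := hG.pos (x, rot f x u θ) ⟨hm.1, hm.2.1⟩ (by rw [hm.2.2]; norm_num) s
    exact h1.unique h2
  have key2 : ∀ s, fderiv ℝ (fun q : ℝ × ℝ => (G q.1 (x, rot f x u q.2)).1) (s, 0) (0, 1) =
      fderiv ℝ (fun v => (G s (x, v)).1) u (cr (N f x) u) := by
    intro s
    have h1 := (aux_mixed _ hΦ s 0).2.1
    have h2 := J_eq_curve hf hG hp s 0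
    rw [rot_zero] at h2
    exact h1.unique h2
  have h3 := (aux_mixed _ hΦ t 0).2.2.1
  have h4 := (aux_mixed _ hΦ t 0).2.2.2.1
  have h5 := (aux_mixed _ hΦ t 0).2.2.2.2
  simp only [key2] at h3
  simp only [key] at h4
  rw [h5] at h3
  have h6 := (aux_chain hG.smooth x t (fun θ => rot f x u θ) _ 0 (rot_deriv f x u 0)).2
  have h7 := h4.unique h6
  rw [h7] at h3
  rw [← cr_rot hf hp 0, rot_zero] at h3
  exact h3

end Pool.Agent.GR.GL1
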