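import Pool.Agent.GR.Defs
import Pool.Agent.GR.GL1
import Pool.Agent.GR.GA1
import Pool.Agent.GR.GA6
import Pool.Agent.GR.GA7
import Pool.Agent.GR.GB2

set_option autoImplicit false
open Set Filter Topology MeasureTheory
open scoped Gradient RealInnerProductSpace ContDiff


namespace Pool.Agent.GR.GL2
open Pool.Agent.GR
open Pool.Agent.GR.GL1 (J_eq_curve jac_deriv)
open Pool.Agent.GR.GA1 (grad_ne fderiv_eq N_smooth N_norm)
open Pool.Agent.GR.GA6 (cr_smooth cr_norm cr_inner_left cr_inner_right frame)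
open Pool.Agent.GR.GA7 (rot_UT rot_zero rot_rot rot_deriv cr_rot perp_UT)
open Pool.Agent.GR.GB2 (G_UT)




/-! ## TARGET (prove this) -/

theorem UT_TT {f : E → ℝ} {p : E × E} (hp : p ∈ UT f) : p ∈ TT f ∧ ‖p.2‖ ≤ 2 :=
  ⟨⟨hp.1, hp.2.1⟩, by rw [hp.2.2]; norm_num⟩

theorem jac_vec_normal {f : E → ℝ} {G : ℝ → E × E → E × E} (hf : Surf f) (hG : GFlow f G)
    {p : E × E} (hp : p ∈ UT f) (t : ℝ) :
    ⟪N f (G t p).1, fderiv ℝ (fun v => (G t (p.1, v)).1) p.2 (cr (N f p.1) p.2)⟫ = 0 := by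
  obtain ⟨x, u⟩ := p
  have h1 := J_eq_curve hf hG hp t 0
  rw [rot_zero] at h1
  have hfx : f (G t (x, u)).1 = 0 := (G_UT hG hp t).1
  have hd : HasFDerivAt f (fderiv ℝ f (G t (x, u)).1) (G t (x, rot f x u 0)).1 := by
    rw [rot_zero]
    exact ((hf.smooth.differentiable (by simp)) _).hasFDerivAt
  have h2 := hd.comp_hasDerivAt (0 : ℝ) h1
  have h3 : (f ∘ fun θ => (G t (x, rot f x u θ)).1) = fun _ => (0 : ℝ) := by
    funext θ
    exact (G_UT hG (rot_UT hf hp θ) t).1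
  rw [h3] at h2
  have h4 := h2.unique (hasDerivAt_const (0 : ℝ) (0 : ℝ))
  rw [fderiv_eq hf hfx] at h4
  have h5 : ‖∇ f (G t (x, u)).1‖ ≠ 0 := norm_ne_zero_iff.mpr (grad_ne hf hfx)
  exact (mul_eq_zero.mp h4).resolve_left h5

theorem jac_vec_vel {f : E → ℝ} {G : ℝ → E × E → E × E} (hf : Surf f) (hG : GFlow f G)
    {p : E × E} (hp : p ∈ UT f) (t : ℝ) :
    ⟪fderiv ℝ (fun v => (G t (p.1, v)).2) p.2 (cr (N f p.1) p.2), (G t p).2⟫ = 0 := by
  obtain ⟨x, u⟩ := p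
  have hs : Differentiable ℝ (fun v => (G t (x, v)).2) := by
    have h := hG.smooth.differentiable (by simp)
    have h2 : Differentiable ℝ (fun v : E => ((t, (x, v)) : ℝ × (E × E))) := by fun_prop
    exact (h.comp h2).snd
  have hr := rot_deriv f x u 0
  have hd : HasFDerivAt (fun v => (G t (x, v)).2) (fderiv ℝ (fun v => (G t (x, v)).2) u)
      (rot f x u 0) := by
    rw [rot_zero]; exact (hs u).hasFDerivAt
  have h1 := hd.comp_hasDerivAt (0 : ℝ) hr
  have h2 : -Real.sin 0 • u + Real.cos 0 • cr (N f x) u = cr (N f x) u := by simp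
  rw [h2] at h1
  have h3 := h1.inner ℝ h1
  have h4 : (fun θ => ⟪((fun v => (G t (x, v)).2) ∘ fun θ => rot f x u θ) θ,
      ((fun v => (G t (x, v)).2) ∘ fun θ => rot f x u θ) θ⟫) = fun _ => (1 : ℝ) := by
    funext θ
    have := (G_UT hG (rot_UT hf hp θ) t).2.2
    simp only [Function.comp]
    rw [real_inner_self_eq_norm_sq, this]; norm_num
  rw [h4] at h3
  have h5 := h3.unique (hasDerivAt_const (0 : ℝ) (1 : ℝ))
  simp only [Function.comp, rot_zero] at h5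
  rw [real_inner_comm] at h5
  show ⟪fderiv ℝ (fun v => (G t (x, v)).2) u (cr (N f x) u), (G t (x, u)).2⟫ = 0
  linarith

theorem jac_vec_tan {f : E → ℝ} {G : ℝ → E × E → E × E} (hf : Surf f) (hG : GFlow f G)
    {p : E × E} (hp : p ∈ UT f) (t : ℝ) :
    ⟪fderiv ℝ (fun v => (G t (p.1, v)).1) p.2 (cr (N f p.1) p.2), (G t p).2⟫ = 0 := by
  obtain ⟨hT, hn⟩ := UT_TT hp
  have hder : ∀ s : ℝ, HasDerivAt (fun s =>
      ⟪fderiv ℝ (fun v => (G s (p.1, v)).1) p.2 (cr (N f p.1) p.2), (G s p).2⟫) 0 s := by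
    intro s
    have h1 := (jac_deriv hf hG hp s).inner ℝ (hG.vel p hT hn s)
    rw [jac_vec_vel hf hG hp s, inner_smul_right, real_inner_comm (N f (G s p).1),
      jac_vec_normal hf hG hp s, mul_zero, zero_add] at h1
    exact h1
  have hc : ∀ s, ⟪fderiv ℝ (fun v => (G s (p.1, v)).1) p.2 (cr (N f p.1) p.2), (G s p).2⟫ =
      ⟪fderiv ℝ (fun v => (G 0 (p.1, v)).1) p.2 (cr (N f p.1) p.2), (G 0 p).2⟫ := by
    intro s
    exact is_const_of_deriv_eq_zero (fun s => (hder s).differentiableAt)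
      (fun s => (hder s).deriv) s 0
  rw [hc t]
  have h0 : (fun v => (G 0 (p.1, v)).1) = fun _ : E => p.1 := by
    funext v; rw [hG.zero]
  rw [h0]
  simp

theorem jac_vec {f : E → ℝ} {G : ℝ → E × E → E × E} (hf : Surf f) (hG : GFlow f G) {p : E × E}
    (hp : p ∈ UT f) (t : ℝ) :
    fderiv ℝ (fun v => (G t (p.1, v)).1) p.2 (cr (N f p.1) p.2) =
      J f G p t • cr (N f (G t p).1) (G t p).2 := by
  have hG1 := G_UT hG hp t
  have h := frame (N_norm hf hG1.1) hG1.2.2 hG1.2.1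
    (fderiv ℝ (fun v => (G t (p.1, v)).1) p.2 (cr (N f p.1) p.2))
  rw [jac_vec_normal hf hG hp t, real_inner_comm (_ : E) (G t p).2, jac_vec_tan hf hG hp t] at h
  rw [zero_smul, zero_smul, zero_add, zero_add] at h
  rw [h]
  unfold J
  rw [real_inner_comm]

end Pool.Agent.GR.GL2
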