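import Pool.Agent.GR.Defs
import Pool.Agent.GR.GA2
import Pool.Agent.GR.GA8
import Pool.Agent.GR.GA1
import Pool.Agent.GR.GA6
import Pool.Agent.GR.GA7
import Pool.Agent.GR.GB2

set_option autoImplicit false
open Set Filter Topology MeasureTheory
open scoped Gradient RealInnerProductSpace ContDiff


namespace Pool.Agent.GR.GL3
open Pool.Agent.GR
open Pool.Agent.GR.GA2 (A_normal A_symm)
open Pool.Agent.GR.GA8 (A_eq)
open Pool.Agent.GR.GA1 (N_smooth N_norm)
open Pool.Agent.GR.GA6 (cr_smooth cr_norm cr_inner_left cr_inner_right cr_add cr_smul cr_cr frame)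
open Pool.Agent.GR.GA7 (perp_UT)
open Pool.Agent.GR.GB2 (G_UT)




/-! ## TARGET (prove this) -/

theorem l3_inner (a b : E) : ⟪a, b⟫ = a 0 * b 0 + a 1 * b 1 + a 2 * b 2 := by
  simp only [PiLp.inner_apply, Fin.sum_univ_three]
  simp [mul_comm]

theorem l3_self (a : E) : cr a a = 0 := by
  ext i
  fin_cases i <;> simp [cr] <;> ring

theorem l3_add_left (a b c : E) : cr (a + b) c = cr a c + cr b c := by
  ext i
  fin_cases i <;> simp [cr] <;> ring

theorem l3_smul_left (c : ℝ) (a b : E) : cr (c • a) b = c • cr a b := by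
  ext i
  fin_cases i <;> simp [cr] <;> ring

theorem l3_triple (a b : E) : cr (cr a b) b = ⟪a, b⟫ • b - ⟪b, b⟫ • a := by
  rw [l3_inner, l3_inner]
  ext i
  fin_cases i <;> simp [cr] <;> ring

theorem l3_cr_deriv {a b : ℝ → E} {a' b' : E} {t : ℝ} (ha : HasDerivAt a a' t)
    (hb : HasDerivAt b b' t) :
    HasDerivAt (fun t => cr (a t) (b t)) (cr a' (b t) + cr (a t) b') t := by
  have hc : ∀ (c : ℝ → E) (c' : E), HasDerivAt c c' t → ∀ i : Fin 3, HasDerivAt (fun t => c t i) (c' i) t := by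
    intro c c' h i
    exact (PiLp.hasFDerivAt_apply (𝕜 := ℝ) 2 (c t) i).comp_hasDerivAt t h
  have a0 := hc a a' ha 0
  have a1 := hc a a' ha 1
  have a2 := hc a a' ha 2
  have b0 := hc b b' hb 0
  have b1 := hc b b' hb 1
  have b2 := hc b b' hb 2
  have hpi : HasDerivAt (fun t => (![a t 1 * b t 2 - a t 2 * b t 1, a t 2 * b t 0 - a t 0 * b t 2,
      a t 0 * b t 1 - a t 1 * b t 0] : Fin 3 → ℝ))
      ![a' 1 * b t 2 + a t 1 * b' 2 - (a' 2 * b t 1 + a t 2 * b' 1),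
        a' 2 * b t 0 + a t 2 * b' 0 - (a' 0 * b t 2 + a t 0 * b' 2),
        a' 0 * b t 1 + a t 0 * b' 1 - (a' 1 * b t 0 + a t 1 * b' 0)] t := by
    rw [hasDerivAt_pi]
    intro i
    fin_cases i
    · exact (a1.mul b2).sub (a2.mul b1)
    · exact (a2.mul b0).sub (a0.mul b2)
    · exact (a0.mul b1).sub (a1.mul b0)
  have h := (PiLp.hasFDerivAt_toLp (𝕜 := ℝ) (E := fun _ : Fin 3 => ℝ) 2 _).comp_hasDerivAt t hpi
  have he : cr a' (b t) + cr (a t) b' = WithLp.toLp 2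
      ![a' 1 * b t 2 + a t 1 * b' 2 - (a' 2 * b t 1 + a t 2 * b' 1),
        a' 2 * b t 0 + a t 2 * b' 0 - (a' 0 * b t 2 + a t 0 * b' 2),
        a' 0 * b t 1 + a t 0 * b' 1 - (a' 1 * b t 0 + a t 1 * b' 0)] := by
    ext i
    fin_cases i <;> simp [cr] <;> ring
  rw [he]
  exact h

theorem l3_pos {f : E → ℝ} {G : ℝ → E × E → E × E} (hG : GFlow f G) {p : E × E}
    (hp : p ∈ UT f) (t : ℝ) : HasDerivAt (fun t => (G t p).1) (G t p).2 t :=
  hG.pos p ⟨hp.1, hp.2.1⟩ (by rw [hp.2.2]; norm_num) t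

theorem l3_vel {f : E → ℝ} {G : ℝ → E × E → E × E} (hG : GFlow f G) {p : E × E}
    (hp : p ∈ UT f) (t : ℝ) : HasDerivAt (fun t => (G t p).2)
    (-(A f (G t p).1 (G t p).2 (G t p).2) • N f (G t p).1) t :=
  hG.vel p ⟨hp.1, hp.2.1⟩ (by rw [hp.2.2]; norm_num) t

theorem l3_N_deriv {f : E → ℝ} {G : ℝ → E × E → E × E} (hf : Surf f) (hG : GFlow f G) {p : E × E}
    (hp : p ∈ UT f) (t : ℝ) :
    HasDerivAt (fun t => N f (G t p).1)
      (A f (G t p).1 (G t p).2 (G t p).2 • (G t p).2 +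
        A f (G t p).1 (G t p).2 (cr (N f (G t p).1) (G t p).2) • cr (N f (G t p).1) (G t p).2) t := by
  have hU : G t p ∈ UT f := G_UT hG hp t
  have hx : f (G t p).1 = 0 := hU.1
  have hd : DifferentiableAt ℝ (N f) (G t p).1 := (N_smooth hf hx).differentiableAt (by simp)
  have h := hd.hasFDerivAt.comp_hasDerivAt t (l3_pos hG hp t)
  have hU' : ((G t p).1, (G t p).2) ∈ UT f := hU
  rw [A_eq hf hU'] at h
  exact h

theorem nu_deriv {f : E → ℝ} {G : ℝ → E × E → E × E} (hf : Surf f) (hG : GFlow f G) {p : E × E}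
    (hp : p ∈ UT f) (t : ℝ) :
    HasDerivAt (fun t => cr (N f (G t p).1) (G t p).2)
      (-(A f (G t p).1 (G t p).2 (cr (N f (G t p).1) (G t p).2)) • N f (G t p).1) t := by
  have hU : G t p ∈ UT f := G_UT hG hp t
  have h := l3_cr_deriv (l3_N_deriv hf hG hp t) (l3_vel hG hp t)
  convert h using 1
  have hi : ⟪N f (G t p).1, (G t p).2⟫ = 0 := hU.2.1
  have hn : ⟪(G t p).2, (G t p).2⟫ = 1 := by
    rw [real_inner_self_eq_norm_sq, hU.2.2]; norm_num
  rw [l3_add_left, l3_smul_left, l3_smul_left, l3_self, l3_triple, hi, hn, cr_smul, l3_self]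
  simp

theorem N_deriv {f : E → ℝ} {G : ℝ → E × E → E × E} (hf : Surf f) (hG : GFlow f G) {p : E × E}
    (hp : p ∈ UT f) (t : ℝ) :
    HasDerivAt (fun t => N f (G t p).1)
      (A f (G t p).1 (G t p).2 (G t p).2 • (G t p).2 +
        A f (G t p).1 (G t p).2 (cr (N f (G t p).1) (G t p).2) • cr (N f (G t p).1) (G t p).2) t :=
  l3_N_deriv hf hG hp t

end Pool.Agent.GR.GL3
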