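import Pool.Agent.GR.Defs
import Pool.Agent.GR.GL2
import Pool.Agent.GR.GL1
import Pool.Agent.GR.GL3
import Pool.Agent.GR.GA1
import Pool.Agent.GR.GA2
import Pool.Agent.GR.GA8
import Pool.Agent.GR.GA6
import Pool.Agent.GR.GA7
import Pool.Agent.GR.GB2

set_option autoImplicit false
open Set Filter Topology MeasureTheory
open scoped Gradient RealInnerProductSpace ContDiff


namespace Pool.Agent.GR.GL4
open Pool.Agent.GR
open Pool.Agent.GR.GL2 (jac_vec)
open Pool.Agent.GR.GL1 (jac_deriv J_eq_curve)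
open Pool.Agent.GR.GL3 (nu_deriv N_deriv)
open Pool.Agent.GR.GA1 (grad_ne fderiv_eq N_smooth N_norm)
open Pool.Agent.GR.GA2 (A_symm A_normal)
open Pool.Agent.GR.GA8 (A_eq K_eq)
open Pool.Agent.GR.GA6 (cr_norm cr_inner_left cr_inner_right cr_smooth frame)
open Pool.Agent.GR.GA7 (rot_UT rot_zero rot_deriv cr_rot perp_UT)
open Pool.Agent.GR.GB2 (G_UT)




/-! ## TARGET (prove this) -/

theorem gl4_key1 {f : E → ℝ} {G : ℝ → E × E → E × E} (hf : Surf f) (hG : GFlow f G) {p : E × E}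
    (hp : p ∈ UT f) (t : ℝ) :
    HasDerivAt (fun s => J f G p s)
      ⟪fderiv ℝ (fun v => (G t (p.1, v)).2) p.2 (cr (N f p.1) p.2),
        cr (N f (G t p).1) (G t p).2⟫ t := by
  have h := (jac_deriv hf hG hp t).inner ℝ (nu_deriv hf hG hp t)
  rw [jac_vec hf hG hp t] at h
  have e : ⟪J f G p t • cr (N f (G t p).1) (G t p).2,
      -(A f (G t p).1 (G t p).2 (cr (N f (G t p).1) (G t p).2)) • N f (G t p).1⟫ = 0 := by
    rw [inner_smul_left, inner_smul_right, cr_inner_left]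
    simp
  rw [e, zero_add] at h
  exact h

theorem gl4_rot_smooth (f : E → ℝ) (x u : E) : ContDiff ℝ ∞ (fun θ : ℝ => rot f x u θ) := by
  unfold rot
  exact (Real.contDiff_cos.smul contDiff_const).add (Real.contDiff_sin.smul contDiff_const)

theorem gl4_Phi_smooth {f : E → ℝ} {G : ℝ → E × E → E × E} (hG : GFlow f G) (x u : E) :
    ContDiff ℝ ∞ (fun q : ℝ × ℝ => (G q.1 (x, rot f x u q.2)).2) := by
  have h1 : ContDiff ℝ ∞ (fun q : ℝ × ℝ => (q.1, (x, rot f x u q.2))) :=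
    contDiff_fst.prodMk (contDiff_const.prodMk ((gl4_rot_smooth f x u).comp contDiff_snd))
  exact contDiff_snd.comp (hG.smooth.comp h1)

theorem gl4_line1 {F : Type*} [NormedAddCommGroup F] [NormedSpace ℝ F] {Φ : ℝ × ℝ → F}
    {L : ℝ × ℝ →L[ℝ] F} {t θ : ℝ} (h : HasFDerivAt Φ L (t, θ)) :
    HasDerivAt (fun s => Φ (s, θ)) (L (1, 0)) t := by
  have h1 : HasDerivAt (fun s : ℝ => (s, θ)) ((1 : ℝ), (0 : ℝ)) t :=
    (hasDerivAt_id t).prodMk (hasDerivAt_const t θ)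
  exact h.comp_hasDerivAt t h1

theorem gl4_line2 {F : Type*} [NormedAddCommGroup F] [NormedSpace ℝ F] {Φ : ℝ × ℝ → F}
    {L : ℝ × ℝ →L[ℝ] F} {t θ : ℝ} (h : HasFDerivAt Φ L (t, θ)) :
    HasDerivAt (fun s => Φ (t, s)) (L (0, 1)) θ := by
  have h1 : HasDerivAt (fun s : ℝ => (t, s)) ((0 : ℝ), (1 : ℝ)) θ :=
    (hasDerivAt_const θ t).prodMk (hasDerivAt_id θ)
  exact h.comp_hasDerivAt θ h1

theorem gl4_Y {f : E → ℝ} {G : ℝ → E × E → E × E} (hf : Surf f) (hG : GFlow f G) {x u : E}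
    (t : ℝ) :
    fderiv ℝ (fun v => (G t (x, v)).2) u (cr (N f x) u) =
      fderiv ℝ (fun q : ℝ × ℝ => (G q.1 (x, rot f x u q.2)).2) (t, 0) (0, 1) := by
  have h1 := gl4_line2 (((gl4_Phi_smooth hG x u).differentiable (by simp)) (t, 0)).hasFDerivAt
  have h2 : ContDiff ℝ ∞ (fun v : E => (G t (x, v)).2) :=
    contDiff_snd.comp (hG.smooth.comp (contDiff_const.prodMk (contDiff_const.prodMk contDiff_id)))
  have h3 := ((h2.differentiable (by simp)) (rot f x u 0)).hasFDerivAt.comp_hasDerivAt (0 : ℝ)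
    (rot_deriv f x u 0)
  have h4 := h3.unique h1
  rw [← h4, rot_zero]
  simp

theorem gl4_Phi_t {f : E → ℝ} {G : ℝ → E × E → E × E} (hf : Surf f) (hG : GFlow f G) {x u : E}
    (hp : (x, u) ∈ UT f) (t θ : ℝ) :
    fderiv ℝ (fun q : ℝ × ℝ => (G q.1 (x, rot f x u q.2)).2) (t, θ) (1, 0) =
      -(A f (G t (x, rot f x u θ)).1 (G t (x, rot f x u θ)).2 (G t (x, rot f x u θ)).2) •
        N f (G t (x, rot f x u θ)).1 := by
  have h1 := gl4_line1 (((gl4_Phi_smooth hG x u).differentiable (by simp)) (t, θ)).hasFDerivAt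
  have hu := rot_UT hf hp θ
  have h2 := hG.vel (x, rot f x u θ) ⟨hu.1, hu.2.1⟩ (by rw [hu.2.2]; norm_num) t
  exact h1.unique h2

theorem gl4_Y_deriv {f : E → ℝ} {G : ℝ → E × E → E × E} (hf : Surf f) (hG : GFlow f G) {x u : E}
    (hp : (x, u) ∈ UT f) (t : ℝ) :
    ∃ Z : E, HasDerivAt (fun t => fderiv ℝ (fun v => (G t (x, v)).2) u (cr (N f x) u)) Z t ∧
      ⟪Z, cr (N f (G t (x, u)).1) (G t (x, u)).2⟫ =
        -(A f (G t (x, u)).1 (G t (x, u)).2 (G t (x, u)).2 * (J f G (x, u) t *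
          A f (G t (x, u)).1 (cr (N f (G t (x, u)).1) (G t (x, u)).2)
            (cr (N f (G t (x, u)).1) (G t (x, u)).2))) := by
  set Φ : ℝ × ℝ → E := fun q : ℝ × ℝ => (G q.1 (x, rot f x u q.2)).2 with hΦ
  have hs : ContDiff ℝ ∞ Φ := gl4_Phi_smooth hG x u
  have hD : ContDiff ℝ ∞ (fderiv ℝ Φ) := hs.fderiv_right (by simp)
  have hDd := ((hD.differentiable (by simp)) (t, 0)).hasFDerivAt
  have hsym : IsSymmSndFDerivAt ℝ Φ (t, 0) :=
    hs.contDiffAt.isSymmSndFDerivAt (by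
      rw [minSmoothness_of_isRCLikeNormedField]
      exact WithTop.coe_le_coe.2 (le_top : (2 : ℕ∞) ≤ ⊤))
  have e1 : HasDerivAt (fun s => fderiv ℝ Φ (s, 0) (0, 1))
      (fderiv ℝ (fderiv ℝ Φ) (t, 0) (1, 0) (0, 1)) t := by
    have := (gl4_line1 hDd).clm_apply (hasDerivAt_const t ((0 : ℝ), (1 : ℝ)))
    simpa using this
  have e2 : HasDerivAt (fun s => fderiv ℝ Φ (t, s) (1, 0))
      (fderiv ℝ (fderiv ℝ Φ) (t, 0) (0, 1) (1, 0)) 0 := by
    have := (gl4_line2 hDd).clm_apply (hasDerivAt_const (0 : ℝ) ((1 : ℝ), (0 : ℝ)))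
    simpa using this
  rw [hsym.eq (0, 1) (1, 0)] at e2
  set Z := fderiv ℝ (fderiv ℝ Φ) (t, 0) (1, 0) (0, 1) with hZ
  refine ⟨Z, ?_, ?_⟩
  · have : (fun t => fderiv ℝ (fun v => (G t (x, v)).2) u (cr (N f x) u)) =
        fun s => fderiv ℝ Φ (s, 0) (0, 1) := by
      funext s
      exact gl4_Y hf hG s
    rw [this]; exact e1
  · -- the derivative of the normal along the variation
    have hg := G_UT hG hp t
    have hM : HasDerivAt (fun θ => N f (G t (x, rot f x u θ)).1)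
        (fderiv ℝ (N f) (G t (x, u)).1 (fderiv ℝ (fun v => (G t (x, v)).1) u (cr (N f x) u))) 0 := by
      have h1 := J_eq_curve hf hG hp t 0
      rw [rot_zero] at h1
      have h2 := ((N_smooth hf hg.1).differentiableAt (by simp)).hasFDerivAt
      have h3 : (G t (x, rot f x u 0)).1 = (G t (x, u)).1 := by rw [rot_zero]
      rw [← h3] at h2 ⊢
      exact h2.comp_hasDerivAt (0 : ℝ) h1
    have hN : ∀ θ, ‖N f (G t (x, rot f x u θ)).1‖ = 1 := fun θ =>
      N_norm hf (G_UT hG (rot_UT hf hp θ) t).1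
    have hα : ∀ θ, A f (G t (x, rot f x u θ)).1 (G t (x, rot f x u θ)).2
        (G t (x, rot f x u θ)).2 =
        -⟪fderiv ℝ Φ (t, θ) (1, 0), N f (G t (x, rot f x u θ)).1⟫ := by
      intro θ
      rw [gl4_Phi_t hf hG hp t θ, inner_smul_left, real_inner_self_eq_norm_sq, hN]
      simp
    have e3 := (e2.inner ℝ hM).neg
    obtain ⟨α', e4⟩ : ∃ α', HasDerivAt (fun θ => A f (G t (x, rot f x u θ)).1 (G t (x, rot f x u θ)).2
        (G t (x, rot f x u θ)).2) α' 0 := by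
      have : (fun θ => A f (G t (x, rot f x u θ)).1 (G t (x, rot f x u θ)).2
        (G t (x, rot f x u θ)).2) = fun θ => -⟪fderiv ℝ Φ (t, θ) (1, 0), N f (G t (x, rot f x u θ)).1⟫ :=
        funext hα
      rw [this]; exact ⟨_, e3⟩
    have e5 := (e4.neg.smul hM)
    have e6 : (fun s => fderiv ℝ Φ (t, s) (1, 0)) = fun θ =>
        -(A f (G t (x, rot f x u θ)).1 (G t (x, rot f x u θ)).2 (G t (x, rot f x u θ)).2) •
        N f (G t (x, rot f x u θ)).1 := funext fun θ => gl4_Phi_t hf hG hp t θ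
    rw [e6] at e2
    have e7 := e2.unique e5
    simp only [Pi.neg_apply, rot_zero] at e7
    rw [e7]
    rw [inner_add_left, inner_smul_left, inner_smul_left, real_inner_comm (cr _ _) (N f _),
      cr_inner_left, jac_vec hf hG hp t, map_smul]
    simp only [A, inner_smul_left, conj_trivial, mul_zero, add_zero]
    ring

theorem J_zero {f : E → ℝ} {G : ℝ → E × E → E × E} (hf : Surf f) (hG : GFlow f G) {p : E × E}
    (hp : p ∈ UT f) : J f G p 0 = 0 := by
  unfold J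
  have : (fun v => (G 0 (p.1, v)).1) = fun _ => p.1 := by
    funext v
    rw [hG.zero]
  rw [this]
  simp
theorem J_deriv {f : E → ℝ} {G : ℝ → E × E → E × E} (hf : Surf f) (hG : GFlow f G) {p : E × E}
    (hp : p ∈ UT f) (t : ℝ) : HasDerivAt (fun s => J f G p s) (deriv (fun s => J f G p s) t) t :=
  (gl4_key1 hf hG hp t).differentiableAt.hasDerivAt
theorem J_deriv_zero {f : E → ℝ} {G : ℝ → E × E → E × E} (hf : Surf f) (hG : GFlow f G) {p : E × E}
    (hp : p ∈ UT f) : deriv (fun s => J f G p s) 0 = 1 := by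
  rw [(gl4_key1 hf hG hp 0).deriv]
  have : (fun v => (G 0 (p.1, v)).2) = fun v => v := by
    funext v
    rw [hG.zero]
  rw [this, hG.zero, fderiv_id']
  show ⟪cr (N f p.1) p.2, cr (N f p.1) p.2⟫ = 1
  rw [real_inner_self_eq_norm_sq, cr_norm (N_norm hf hp.1) hp.2.2 hp.2.1]
  norm_num
theorem J_ode {f : E → ℝ} {G : ℝ → E × E → E × E} (hf : Surf f) (hG : GFlow f G) {p : E × E}
    (hp : p ∈ UT f) (t : ℝ) :
    HasDerivAt (deriv (fun s => J f G p s)) (-(K f (G t p).1 * J f G p t)) t := by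
  obtain ⟨x, u⟩ := p
  have h0 : deriv (fun s => J f G (x, u) s) = fun t =>
      ⟪fderiv ℝ (fun v => (G t (x, v)).2) u (cr (N f x) u),
        cr (N f (G t (x, u)).1) (G t (x, u)).2⟫ := by
    funext t
    exact (gl4_key1 hf hG hp t).deriv
  rw [h0]
  obtain ⟨Z, hZ, hZν⟩ := gl4_Y_deriv hf hG hp t
  have h1 := hZ.inner ℝ (nu_deriv hf hG hp t)
  have hg := G_UT hG hp t
  have hNn := N_norm hf hg.1
  -- ⟪X, N⟫ = 0
  have hXN : ∀ s, ⟪fderiv ℝ (fun v => (G s (x, v)).1) u (cr (N f x) u), N f (G s (x, u)).1⟫ = 0 := by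
    intro s
    have := jac_vec hf hG hp s
    simp only at this
    rw [this, inner_smul_left, cr_inner_left, mul_zero]
  have h2 := (jac_deriv hf hG hp t).inner ℝ (N_deriv hf hG hp t)
  simp only [hXN] at h2
  have h3 := h2.unique (hasDerivAt_const t (0 : ℝ))
  rw [jac_vec hf hG hp t] at h3
  have hcc : ⟪cr (N f (G t (x, u)).1) (G t (x, u)).2, cr (N f (G t (x, u)).1) (G t (x, u)).2⟫ = 1 := by
    rw [real_inner_self_eq_norm_sq, cr_norm hNn hg.2.2 hg.2.1]; norm_num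
  rw [inner_smul_left, inner_add_right, inner_smul_right, inner_smul_right, cr_inner_right, hcc] at h3
  simp only [mul_zero, zero_add, mul_one, conj_trivial] at h3
  have h4 : ⟪fderiv ℝ (fun v => (G t (x, v)).2) u (cr (N f x) u), N f (G t (x, u)).1⟫ =
      -(J f G (x, u) t * A f (G t (x, u)).1 (G t (x, u)).2 (cr (N f (G t (x, u)).1) (G t (x, u)).2)) := by
    linarith
  rw [hZν, inner_smul_right, h4] at h1
  rw [K_eq hf hg]
  refine h1.congr_deriv ?_
  ring

end Pool.Agent.GR.GL4
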