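import Pool.Agent.GR.Defs
import Pool.Agent.GR.GL2
import Pool.Agent.GR.GL1
import Pool.Agent.GR.GA1
import Pool.Agent.GR.GA6
import Pool.Agent.GR.GA7
import Pool.Agent.GR.GB2

set_option autoImplicit false
open Set Filter Topology MeasureTheory
open scoped Gradient RealInnerProductSpace ContDiff


namespace Pool.Agent.GR.GL5
open Pool.Agent.GR
open Pool.Agent.GR.GL2 (jac_vec)
open Pool.Agent.GR.GL1 (J_eq_curve)
open Pool.Agent.GR.GA1 (N_smooth N_norm)
open Pool.Agent.GR.GA6 (cr_smooth cr_norm)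
open Pool.Agent.GR.GA7 (rot_UT rot_zero rot_rot rot_deriv cr_rot perp_UT)
open Pool.Agent.GR.GB2 (G_UT)




/-! ## TARGET (prove this) -/

theorem j19935_rot (f : E → ℝ) (x u : E) : ContDiff ℝ ∞ (fun θ : ℝ => rot f x u θ) := by
  unfold rot
  exact (Real.contDiff_cos.smul contDiff_const).add (Real.contDiff_sin.smul contDiff_const)

theorem F_deriv {f : E → ℝ} {G : ℝ → E × E → E × E} (hf : Surf f) (hG : GFlow f G) {x u : E}
    (hp : (x, u) ∈ UT f) (t θ : ℝ) :
    HasDerivAt (fun θ => (G t (x, rot f x u θ)).1)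
      (J f G (x, rot f x u θ) t •
        cr (N f (G t (x, rot f x u θ)).1) (G t (x, rot f x u θ)).2) θ :=
  (J_eq_curve hf hG hp t θ).congr_deriv
    (jac_vec hf hG (p := (x, rot f x u θ)) (rot_UT hf hp θ) t)

theorem F_smooth {f : E → ℝ} {G : ℝ → E × E → E × E} (hG : GFlow f G) (x u : E) :
    ContDiff ℝ ∞ (fun q : ℝ × ℝ => G q.1 (x, rot f x u q.2)) := by
  have h1 : ContDiff ℝ ∞ (fun q : ℝ × ℝ => (q.1, (x, rot f x u q.2))) :=
    contDiff_fst.prodMk (contDiff_const.prodMk ((j19935_rot f x u).comp contDiff_snd))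
  exact hG.smooth.comp h1

theorem J_smooth {f : E → ℝ} {G : ℝ → E × E → E × E} (hf : Surf f) (hG : GFlow f G) {x u : E}
    (hp : (x, u) ∈ UT f) : ContDiff ℝ ∞ (fun q : ℝ × ℝ => J f G (x, rot f x u q.2) q.1) := by
  have hrot : ContDiff ℝ ∞ (fun q : ℝ × ℝ => rot f x u q.2) :=
    (j19935_rot f x u).comp contDiff_snd
  have h1 : ContDiff ℝ ∞ (fun q : ℝ × ℝ =>
      fderiv ℝ (fun v => (G q.1 (x, v)).1) (rot f x u q.2)) := by
    refine ContDiff.fderiv (m := ∞) (f := fun (q : ℝ × ℝ) (v : E) => (G q.1 (x, v)).1) ?_ hrot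
      (by simp)
    have h2 : ContDiff ℝ ∞ (fun p : (ℝ × ℝ) × E => (p.1.1, (x, p.2))) :=
      (contDiff_fst.comp contDiff_fst).prodMk (contDiff_const.prodMk contDiff_snd)
    exact (contDiff_fst.comp (hG.smooth.comp h2))
  have h3 : ContDiff ℝ ∞ (fun q : ℝ × ℝ => cr (N f x) (rot f x u q.2)) :=
    cr_smooth.comp (contDiff_const.prodMk hrot)
  have hF := F_smooth hG x u
  have h4 : ContDiff ℝ ∞ (fun q : ℝ × ℝ => N f (G q.1 (x, rot f x u q.2)).1) := by
    rw [contDiff_iff_contDiffAt]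
    intro q
    have h5 : f (G q.1 (x, rot f x u q.2)).1 = 0 := (G_UT hG (rot_UT hf hp q.2) q.1).1
    exact ContDiffAt.comp (g := N f) (f := fun q : ℝ × ℝ => (G q.1 (x, rot f x u q.2)).1) q
      (N_smooth hf h5) ((contDiff_fst.comp hF).contDiffAt)
  have h6 : ContDiff ℝ ∞ (fun q : ℝ × ℝ =>
      cr (N f (G q.1 (x, rot f x u q.2)).1) (G q.1 (x, rot f x u q.2)).2) :=
    cr_smooth.comp (h4.prodMk (contDiff_snd.comp hF))
  exact (h1.clm_apply h3).inner ℝ h6

theorem J_cont {f : E → ℝ} {G : ℝ → E × E → E × E} (hf : Surf f) (hG : GFlow f G) :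
    ContinuousOn (fun q : ℝ × (E × E) => J f G q.2 q.1) (univ ×ˢ UT f) := by
  intro q hq
  refine ContinuousAt.continuousWithinAt ?_
  have hUT : q.2 ∈ UT f := hq.2
  have h1 : ContDiff ℝ ∞ (fun q : ℝ × (E × E) =>
      fderiv ℝ (fun v => (G q.1 (q.2.1, v)).1) q.2.2) := by
    refine ContDiff.fderiv (m := ∞) (f := fun (q : ℝ × (E × E)) (v : E) => (G q.1 (q.2.1, v)).1)
      ?_ (contDiff_snd.comp contDiff_snd) (by simp)
    have h2 : ContDiff ℝ ∞ (fun p : (ℝ × (E × E)) × E => (p.1.1, (p.1.2.1, p.2))) :=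
      (contDiff_fst.comp contDiff_fst).prodMk
        ((contDiff_fst.comp (contDiff_snd.comp contDiff_fst)).prodMk contDiff_snd)
    exact (contDiff_fst.comp (hG.smooth.comp h2))
  have h1c : ContinuousAt (fun q : ℝ × (E × E) =>
      fderiv ℝ (fun v => (G q.1 (q.2.1, v)).1) q.2.2) q := h1.continuous.continuousAt
  have hN : ContinuousAt (fun q : ℝ × (E × E) => N f q.2.1) q := by
    have h3 : ContinuousAt (N f) q.2.1 := (N_smooth hf hUT.1).continuousAt
    exact ContinuousAt.comp (f := fun q : ℝ × (E × E) => q.2.1) h3 (by fun_prop)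
  have hcr : Continuous (fun p : E × E => cr p.1 p.2) := cr_smooth.continuous
  have h4 : ContinuousAt (fun q : ℝ × (E × E) => cr (N f q.2.1) q.2.2) q :=
    hcr.continuousAt.comp (f := fun q : ℝ × (E × E) => (N f q.2.1, q.2.2))
      (hN.prodMk (by fun_prop))
  have hGc : Continuous (fun q : ℝ × (E × E) => G q.1 q.2) := hG.smooth.continuous
  have hNG : ContinuousAt (fun q : ℝ × (E × E) => N f (G q.1 q.2).1) q := by
    have h5 : ContinuousAt (N f) (G q.1 q.2).1 := (N_smooth hf (G_UT hG hUT q.1).1).continuousAt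
    exact ContinuousAt.comp (f := fun q : ℝ × (E × E) => (G q.1 q.2).1) h5
      (continuous_fst.comp hGc).continuousAt
  have h6 : ContinuousAt (fun q : ℝ × (E × E) => cr (N f (G q.1 q.2).1) (G q.1 q.2).2) q :=
    hcr.continuousAt.comp (f := fun q : ℝ × (E × E) => (N f (G q.1 q.2).1, (G q.1 q.2).2))
      (hNG.prodMk (continuous_snd.comp hGc).continuousAt)
  exact ContinuousAt.inner (𝕜 := ℝ) (h1c.clm_apply h4) h6

end Pool.Agent.GR.GL5
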