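import Pool.Agent.GR.Defs
import Pool.Agent.GR.GL4
import Pool.Agent.GR.GL5
import Pool.Agent.GR.GA8
import Pool.Agent.GR.GA2
import Pool.Agent.GR.GA3
import Pool.Agent.GR.GB2
import Pool.Agent.GR.GA7
import Pool.Agent.GR.GA1

set_option autoImplicit false
open Set Filter Topology MeasureTheory
open scoped Gradient RealInnerProductSpace ContDiff


namespace Pool.Agent.GR.GL6
open Pool.Agent.GR
open Pool.Agent.GR.GL4 (J_zero J_deriv J_deriv_zero J_ode)
open Pool.Agent.GR.GL5 (J_cont)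
open Pool.Agent.GR.GA8 (K_smooth K_eq)
open Pool.Agent.GR.GA2 (A_symm A_nonneg)
open Pool.Agent.GR.GA3 (S_compact UT_compact exists_UT)
open Pool.Agent.GR.GB2 (G_UT G_neg)
open Pool.Agent.GR.GA7 (perp_UT)
open Pool.Agent.GR.GA1 (N_norm)




theorem GL6_K_bdd {f : E → ℝ} (hf : Surf f) :
    ∃ C : ℝ, 0 ≤ C ∧ ∀ x, f x = 0 → 0 ≤ K f x ∧ K f x ≤ C := by
  have hc : ContinuousOn (K f) {x | f x = 0} :=
    fun x hx => (K_smooth hf hx).continuousAt.continuousWithinAt
  obtain ⟨C, hC⟩ := (S_compact hf).exists_bound_of_continuousOn hc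
  refine ⟨|C|, abs_nonneg C, ?_⟩
  intro x hx
  constructor
  · obtain ⟨u, hu⟩ := exists_UT hf hx
    have hw := perp_UT hf hu
    rw [K_eq hf hu]
    generalize cr (N f x) u = w at hw ⊢
    have h1 : ⟪N f x, u⟫ = 0 := hu.2.1
    have h2 : ⟪N f x, w⟫ = 0 := hw.2.1
    have hquad : ∀ s : ℝ, 0 ≤ A f x w w * (s * s) + (2 * A f x u w) * s + A f x u u := by
      intro s
      have h3 := A_nonneg hf (v := u + s • w) hx (by
        rw [inner_add_right, inner_smul_right, h1, h2]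
        ring)
      have h4 : A f x (u + s • w) (u + s • w) =
          A f x w w * (s * s) + (2 * A f x u w) * s + A f x u u := by
        have h5 := A_symm hf hx h2 h1
        unfold A at h5 ⊢
        rw [map_add, map_smul, inner_add_left, inner_add_right, inner_add_right, inner_smul_left,
          inner_smul_left, inner_smul_right, inner_smul_right, h5]
        simp only [conj_trivial]
        ring
      rw [h4] at h3
      exact h3
    have h6 := discrim_le_zero hquad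
    unfold discrim at h6
    nlinarith
  · have h3 := hC x hx
    rw [Real.norm_eq_abs] at h3
    exact (le_abs_self _).trans (h3.trans (le_abs_self C))

theorem GL6_bound (M t : ℝ) (j j1 j2 : ℝ → ℝ) (h1 : ∀ s, HasDerivAt j (j1 s) s)
    (h2 : ∀ s, HasDerivAt j1 (j2 s) s) (h0 : j 0 = 0) (h10 : j1 0 = 1)
    (hM : ∀ s ∈ Icc (0:ℝ) 1, -M ≤ j2 s) (ht : t ∈ Icc (0:ℝ) 1) :
    t - M / 2 * t ^ 2 ≤ j t := by
  have hd1 : ∀ s, HasDerivAt (fun s => j1 s + M * s) (j2 s + M * 1) s :=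
    fun s => (h2 s).add ((hasDerivAt_id s).const_mul M)
  have hm1 : MonotoneOn (fun s => j1 s + M * s) (Icc (0:ℝ) 1) := by
    apply monotoneOn_of_deriv_nonneg (convex_Icc 0 1)
    · exact fun s _ => (hd1 s).continuousAt.continuousWithinAt
    · exact fun s _ => (hd1 s).differentiableAt.differentiableWithinAt
    · intro s hs
      rw [interior_Icc] at hs
      rw [(hd1 s).deriv]
      have := hM s (Ioo_subset_Icc_self hs)
      linarith
  have hge : ∀ s ∈ Icc (0:ℝ) 1, 1 - M * s ≤ j1 s := by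
    intro s hs
    have h3 := hm1 (left_mem_Icc.mpr zero_le_one) hs hs.1
    have h4 : j1 0 + M * 0 ≤ j1 s + M * s := h3
    rw [h10] at h4
    linarith
  have hd2 : ∀ s, HasDerivAt (fun s => j s - (s - M / 2 * s ^ 2))
      (j1 s - (1 - M / 2 * (2 * s))) s := by
    intro s
    have h3 : HasDerivAt (fun s : ℝ => s ^ 2) (2 * s) s := by
      simpa using hasDerivAt_pow 2 s
    exact (h1 s).sub ((hasDerivAt_id s).sub (h3.const_mul (M / 2)))
  have hm2 : MonotoneOn (fun s => j s - (s - M / 2 * s ^ 2)) (Icc (0:ℝ) 1) := by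
    apply monotoneOn_of_deriv_nonneg (convex_Icc 0 1)
    · exact fun s _ => (hd2 s).continuousAt.continuousWithinAt
    · exact fun s _ => (hd2 s).differentiableAt.differentiableWithinAt
    · intro s hs
      rw [interior_Icc] at hs
      rw [(hd2 s).deriv]
      have := hge s (Ioo_subset_Icc_self hs)
      linarith
  have h3 := hm2 (left_mem_Icc.mpr zero_le_one) ht ht.1
  have h4 : j 0 - (0 - M / 2 * 0 ^ 2) ≤ j t - (t - M / 2 * t ^ 2) := h3
  rw [h0] at h4
  linarith

theorem GL6_unique (C : ℝ) (hC : 0 ≤ C) (κ j j1 : ℝ → ℝ) (hκ : ∀ s, 0 ≤ κ s ∧ κ s ≤ C)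
    (h1 : ∀ s, HasDerivAt j (j1 s) s) (h2 : ∀ s, HasDerivAt j1 (-(κ s * j s)) s) (t : ℝ)
    (h0 : j t = 0) (h10 : j1 t = 0) : ∀ s, j1 s = 0 := by
  have key : (fun s => (j s, j1 s)) = fun _ => ((0:ℝ), (0:ℝ)) := by
    apply ODE_solution_unique_univ (v := fun s x => ((x.2 : ℝ), -(κ s * x.1)))
      (s := fun _ => Set.univ) (K := Real.toNNReal (max 1 C)) (t₀ := t)
    · intro s
      apply LipschitzWith.lipschitzOnWith
      apply LipschitzWith.of_dist_le_mul
      intro x y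
      have hmax : (0:ℝ) ≤ max 1 C := le_trans zero_le_one (le_max_left _ _)
      rw [Real.coe_toNNReal _ hmax, Prod.dist_eq, Prod.dist_eq]
      apply max_le
      · show dist x.2 y.2 ≤ _
        calc dist x.2 y.2 ≤ max (dist x.1 y.1) (dist x.2 y.2) := le_max_right _ _
          _ = 1 * max (dist x.1 y.1) (dist x.2 y.2) := (one_mul _).symm
          _ ≤ max 1 C * max (dist x.1 y.1) (dist x.2 y.2) :=
              mul_le_mul_of_nonneg_right (le_max_left _ _)
                (le_trans dist_nonneg (le_max_left _ _))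
      · show dist (-(κ s * x.1)) (-(κ s * y.1)) ≤ _
        rw [Real.dist_eq]
        have h3 : -(κ s * x.1) - -(κ s * y.1) = -(κ s * (x.1 - y.1)) := by ring
        rw [h3, abs_neg, abs_mul, abs_of_nonneg (hκ s).1, ← Real.dist_eq]
        exact mul_le_mul ((hκ s).2.trans (le_max_right _ _)) (le_max_left _ _) dist_nonneg hmax
    · intro s
      exact ⟨(h1 s).prodMk (h2 s), Set.mem_univ _⟩
    · intro s
      refine ⟨?_, Set.mem_univ _⟩
      have h3 : (((0:ℝ), (0:ℝ)).2, -(κ s * ((0:ℝ), (0:ℝ)).1)) = ((0:ℝ), (0:ℝ)) := by simp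
      show HasDerivAt (fun _ => ((0:ℝ), (0:ℝ))) (((0:ℝ), (0:ℝ)).2, -(κ s * ((0:ℝ), (0:ℝ)).1)) s
      rw [h3]
      exact hasDerivAt_const s _
    · show (j t, j1 t) = (0, 0)
      rw [h0, h10]
  intro s
  exact congrArg Prod.snd (congrFun key s)

theorem GL6_wronski (κ a a1 b b1 : ℝ → ℝ) (t : ℝ) (ha : ∀ s, HasDerivAt a (a1 s) s)
    (ha1 : ∀ s, HasDerivAt a1 (-(κ s * a s)) s) (hb : ∀ s, HasDerivAt b (b1 s) s)
    (hb1 : ∀ s, HasDerivAt b1 (-(κ (t - s) * b s)) s) (ha0 : a 0 = 0) (ha10 : a1 0 = 1)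
    (hb0 : b 0 = 0) (hb10 : b1 0 = 1) : b t = a t := by
  have hbt : ∀ s, HasDerivAt (fun s => b (t - s)) (-b1 (t - s)) s := by
    intro s
    have h1 : HasDerivAt (fun s => b (t - s)) (b1 (t - s) * -1) s :=
      (hb (t - s)).comp s ((hasDerivAt_id s).const_sub t)
    exact h1.congr_deriv (by ring)
  have hb1t : ∀ s, HasDerivAt (fun s => b1 (t - s)) (κ s * b (t - s)) s := by
    intro s
    have h1 : HasDerivAt (fun s => b1 (t - s)) (-(κ (t - (t - s)) * b (t - s)) * -1) s :=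
      (hb1 (t - s)).comp s ((hasDerivAt_id s).const_sub t)
    have h2 : t - (t - s) = s := by ring
    rw [h2] at h1
    exact h1.congr_deriv (by ring)
  have hW : ∀ s, HasDerivAt (fun s => a s * b1 (t - s) + a1 s * b (t - s)) 0 s := by
    intro s
    have h1 := ((ha s).mul (hb1t s)).add ((ha1 s).mul (hbt s))
    refine h1.congr_deriv ?_
    ring
  have hconst := is_const_of_deriv_eq_zero (f := fun s => a s * b1 (t - s) + a1 s * b (t - s))
    (fun s => (hW s).differentiableAt) (fun s => (hW s).deriv) 0 t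
  have h2 : a 0 * b1 (t - 0) + a1 0 * b (t - 0) = a t * b1 (t - t) + a1 t * b (t - t) := hconst
  rw [sub_zero, sub_self, ha0, ha10, hb0, hb10] at h2
  linarith

/-! ## TARGET (prove this) -/

theorem J_pos_small {f : E → ℝ} {G : ℝ → E × E → E × E} (hf : Surf f) (hG : GFlow f G) :
    ∃ ρ > 0, ∀ p ∈ UT f, ∀ t ∈ Ioc 0 ρ, 0 < J f G p t := by
  obtain ⟨C, hC0, hC⟩ := GL6_K_bdd hf
  have hcomp : IsCompact ((Icc (0:ℝ) 1) ×ˢ UT f) := isCompact_Icc.prod (UT_compact hf)
  have hJc : ContinuousOn (fun q : ℝ × (E × E) => J f G q.2 q.1) (Icc (0:ℝ) 1 ×ˢ UT f) :=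
    (J_cont hf hG).mono (prod_mono (subset_univ _) le_rfl)
  obtain ⟨B, hB⟩ := hcomp.exists_bound_of_continuousOn hJc
  obtain ⟨M, hM⟩ : ∃ M, M = C * |B| := ⟨_, rfl⟩
  have hM0 : 0 ≤ M := by
    rw [hM]
    exact mul_nonneg hC0 (abs_nonneg _)
  have hM1 : 0 < M + 1 := by linarith
  refine ⟨min 1 (1 / (M + 1)), lt_min one_pos (div_pos one_pos hM1), ?_⟩
  intro p hp t ht
  have ht1 : t ≤ 1 := ht.2.trans (min_le_left _ _)
  have ht2 : t ≤ 1 / (M + 1) := ht.2.trans (min_le_right _ _)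
  have hbd := GL6_bound M t (fun s => J f G p s) (deriv (fun s => J f G p s))
    (fun s => -(K f (G s p).1 * J f G p s)) (J_deriv hf hG hp) (J_ode hf hG hp)
    (J_zero hf hG hp) (J_deriv_zero hf hG hp) (by
      intro s hs
      have h1 := hB (s, p) ⟨hs, hp⟩
      have h2 := hC (G s p).1 (G_UT hG hp s).1
      rw [Real.norm_eq_abs] at h1
      have h3 : K f (G s p).1 * J f G p s ≤ C * |B| :=
        calc K f (G s p).1 * J f G p s ≤ |K f (G s p).1 * J f G p s| := le_abs_self _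
          _ = |K f (G s p).1| * |J f G p s| := abs_mul _ _
          _ ≤ C * |B| := mul_le_mul (by rw [abs_of_nonneg h2.1]; exact h2.2)
              (h1.trans (le_abs_self B)) (abs_nonneg _) hC0
      show -M ≤ -(K f (G s p).1 * J f G p s)
      rw [hM]
      linarith) ⟨ht.1.le, ht1⟩
  have h4 : t * (M + 1) ≤ 1 := by
    rwa [le_div_iff₀ hM1] at ht2
  have h5 : 0 < t := ht.1
  have h6 : 0 < t - M / 2 * t ^ 2 := by
    nlinarith [mul_nonneg hM0 h5.le]
  exact h6.trans_le hbd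
theorem J_simple {f : E → ℝ} {G : ℝ → E × E → E × E} (hf : Surf f) (hG : GFlow f G) {p : E × E}
    (hp : p ∈ UT f) {t : ℝ} (h : J f G p t = 0) : deriv (fun s => J f G p s) t ≠ 0 := by
  intro h1
  obtain ⟨C, hC0, hC⟩ := GL6_K_bdd hf
  have h2 := GL6_unique C hC0 (fun s => K f (G s p).1) (fun s => J f G p s)
    (deriv (fun s => J f G p s)) (fun s => hC _ (G_UT hG hp s).1) (J_deriv hf hG hp)
    (J_ode hf hG hp) t h h1 0
  rw [J_deriv_zero hf hG hp] at h2
  exact one_ne_zero h2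
theorem J_symm {f : E → ℝ} {G : ℝ → E × E → E × E} (hf : Surf f) (hG : GFlow f G) {p : E × E}
    (hp : p ∈ UT f) (t : ℝ) : J f G ((G t p).1, -(G t p).2) t = J f G p t := by
  have hGt := G_UT hG hp t
  have hq : ((G t p).1, -(G t p).2) ∈ UT f := by
    obtain ⟨h1, h2, h3⟩ := hGt
    refine ⟨h1, ?_, ?_⟩
    · show ⟪N f (G t p).1, -(G t p).2⟫ = 0
      rw [inner_neg_right, h2, neg_zero]
    · show ‖-(G t p).2‖ = 1
      rw [norm_neg, h3]
  have hpos : ∀ s, (G s ((G t p).1, -(G t p).2)).1 = (G (t - s) p).1 := by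
    intro s
    have h1 := G_neg hG (x := (G t p).1) (u := (G t p).2) hGt s
    rw [h1]
    show (G (-s) ((G t p).1, (G t p).2)).1 = (G (t - s) p).1
    have h2 : t - s = -s + t := by ring
    rw [h2, hG.add]
  refine GL6_wronski (fun s => K f (G s p).1) (fun s => J f G p s) (deriv (fun s => J f G p s))
    (fun s => J f G ((G t p).1, -(G t p).2) s)
    (deriv (fun s => J f G ((G t p).1, -(G t p).2) s)) t (J_deriv hf hG hp) (J_ode hf hG hp)
    (J_deriv hf hG hq) ?_ (J_zero hf hG hp) (J_deriv_zero hf hG hp) (J_zero hf hG hq)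
    (J_deriv_zero hf hG hq)
  intro s
  have h1 := J_ode hf hG hq s
  rw [hpos] at h1
  exact h1
theorem K_bdd {f : E → ℝ} (hf : Surf f) : ∃ C : ℝ, 0 ≤ C ∧ ∀ x, f x = 0 → 0 ≤ K f x ∧ K f x ≤ C := by
  exact GL6_K_bdd hf

end Pool.Agent.GR.GL6
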