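import Pool.Agent.GR.Defs
import Pool.Agent.GR.GA2
import Pool.Agent.GR.GA1
import Pool.Agent.GR.GA3

set_option autoImplicit false
open Set Filter Topology MeasureTheory
open scoped Gradient RealInnerProductSpace ContDiff


namespace Pool.Agent.GR.GX1
open Pool.Agent.GR
open Pool.Agent.GR.GA2 (supp)
open Pool.Agent.GR.GA1 (grad_ne N_smooth N_norm)
open Pool.Agent.GR.GA3 (S_compact)




/-! ## TARGET (prove this) -/

theorem normal_seg_inner {f : E → ℝ} (hf : Surf f) {a b : E} (ha : f a = 0) (hb : f b = 0)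
    (h : ‖N f a - N f b‖ < 1 / 2) : 0 < ⟪N f a, N f b⟫ := by
  have h1 := norm_sub_sq_real (N f a) (N f b)
  rw [N_norm hf ha, N_norm hf hb] at h1
  have h2 : ‖N f a - N f b‖ ^ 2 < (1 / 2) ^ 2 := pow_lt_pow_left₀ h (norm_nonneg _) (by norm_num)
  nlinarith

theorem normal_seg {f : E → ℝ} (hf : Surf f) : ∃ δ > 0, ∀ x y z, ∀ c : ℝ, f x = 0 → f y = 0 → f z = 0 →
    ‖y - x‖ < δ → ‖z - x‖ < δ → y - z = c • N f x → y = z := by
  have hcont : ContinuousOn (N f) {x | f x = 0} := fun x hx =>
    (N_smooth hf hx).continuousAt.continuousWithinAt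
  have huc := (S_compact hf).uniformContinuousOn_of_continuous hcont
  rw [Metric.uniformContinuousOn_iff] at huc
  obtain ⟨δ, hδ, h⟩ := huc (1 / 2) (by norm_num)
  refine ⟨δ, hδ, ?_⟩
  intro x y z c hx hy hz hyx hzx hc
  have h1 : 0 < ⟪N f z, N f x⟫ := by
    apply normal_seg_inner hf hz hx
    have := h z hz x hx (by rw [dist_eq_norm]; exact hzx)
    rwa [dist_eq_norm] at this
  have h2 : 0 < ⟪N f y, N f x⟫ := by
    apply normal_seg_inner hf hy hx
    have := h y hy x hx (by rw [dist_eq_norm]; exact hyx)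
    rwa [dist_eq_norm] at this
  have h3 := supp hf hz (y := y) hy.le
  rw [hc, real_inner_smul_right] at h3
  have h4 := supp hf hy (y := z) hz.le
  rw [← neg_sub, hc, inner_neg_right, real_inner_smul_right] at h4
  have h5 : c ≤ 0 := by
    by_contra hcon
    push Not at hcon
    have := mul_pos hcon h1
    linarith
  have h6 : 0 ≤ c := by
    by_contra hcon
    push Not at hcon
    have := mul_pos (neg_pos.2 hcon) h2
    linarith
  have h7 : c = 0 := le_antisymm h5 h6
  rw [h7, zero_smul] at hc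
  exact sub_eq_zero.1 hc

end Pool.Agent.GR.GX1
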