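import Pool.Agent.GR.Defs
import Pool.Agent.GR.GA1
import Pool.Agent.GR.GA3
import Pool.Agent.GR.GB2

set_option autoImplicit false
open Set Filter Topology MeasureTheory
open scoped Gradient RealInnerProductSpace ContDiff


namespace Pool.Agent.GR.GX2
open Pool.Agent.GR
open Pool.Agent.GR.GA1 (grad_ne N_smooth N_norm)
open Pool.Agent.GR.GA3 (S_compact)
open Pool.Agent.GR.GB2 (G_UT)




/-! ## TARGET (prove this) -/

/-- first component of the time one map -/
noncomputable def X2F (G : ℝ → E × E → E × E) (p : E × E) : E := (G 1 p).1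

theorem X2F_smooth {f : E → ℝ} {G : ℝ → E × E → E × E} (hG : GFlow f G) : ContDiff ℝ ∞ (X2F G) := by
  have h1 : ContDiff ℝ ∞ (fun p : E × E => G 1 p) :=
    hG.smooth.comp ((contDiff_const (c := (1 : ℝ))).prodMk contDiff_id)
  exact contDiff_fst.comp h1

/-- rank one operator -/
noncomputable def X2n (n : E) : E →L[ℝ] E := (innerSL ℝ n).smulRight n

theorem X2n_apply (n v : E) : X2n n v = ⟪n, v⟫ • n := by
  simp [X2n]

theorem X2n_cont : Continuous X2n := by
  have h : Continuous fun n : E => ContinuousLinearMap.smulRightL ℝ E E (innerSL ℝ n) n := by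
    exact ((ContinuousLinearMap.smulRightL ℝ E E).continuous.comp (innerSL ℝ).continuous).clm_apply
      continuous_id
  exact h

/-- partial derivative in the second variable -/
noncomputable def X2D (G : ℝ → E × E → E × E) (p : E × E) : E →L[ℝ] E :=
  (fderiv ℝ (X2F G) p).comp (ContinuousLinearMap.inr ℝ E E)

theorem X2D_cont {f : E → ℝ} {G : ℝ → E × E → E × E} (hG : GFlow f G) : Continuous (X2D G) := by
  have h1 : Continuous (fderiv ℝ (X2F G)) := (X2F_smooth hG).continuous_fderiv (by simp)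
  exact h1.clm_comp continuous_const

/-- derivative of the extended exponential map -/
noncomputable def X2Psi (G : ℝ → E × E → E × E) (c : (E × E) × E) : E →L[ℝ] E :=
  (X2D G (c.1.1, c.2 - ⟪c.1.2, c.2⟫ • c.1.2)).comp (ContinuousLinearMap.id ℝ E - X2n c.1.2) +
    X2n c.1.2

theorem X2Psi_cont {f : E → ℝ} {G : ℝ → E × E → E × E} (hG : GFlow f G) :
    Continuous (X2Psi G) := by
  unfold X2Psi
  have h1 : Continuous fun c : (E × E) × E => X2n c.1.2 :=
    X2n_cont.comp (continuous_snd.comp continuous_fst)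
  have h2 : Continuous fun c : (E × E) × E => X2D G (c.1.1, c.2 - ⟪c.1.2, c.2⟫ • c.1.2) := by
    apply (X2D_cont hG).comp
    fun_prop
  exact (h2.clm_comp (continuous_const.sub h1)).add h1

theorem X2_deriv {f : E → ℝ} {G : ℝ → E × E → E × E} (hG : GFlow f G) (x n v : E) :
    HasFDerivAt (fun v : E => (G 1 (x, v - ⟪n, v⟫ • n)).1 + ⟪n, v⟫ • n) (X2Psi G ((x, n), v)) v := by
  have hF : HasFDerivAt (X2F G) (fderiv ℝ (X2F G) (x, v - ⟪n, v⟫ • n)) (x, v - ⟪n, v⟫ • n) :=
    ((X2F_smooth hG).differentiable (by simp)).differentiableAt.hasFDerivAt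
  have hn : HasFDerivAt (fun v : E => ⟪n, v⟫ • n) (X2n n) v := by
    have h := (X2n n).hasFDerivAt (x := v)
    have e : (fun v : E => ⟪n, v⟫ • n) = fun v => X2n n v := by
      funext v
      rw [X2n_apply]
    rw [e]
    exact h
  have hP : HasFDerivAt (fun v : E => v - ⟪n, v⟫ • n) (ContinuousLinearMap.id ℝ E - X2n n) v :=
    (hasFDerivAt_id v).sub hn
  have hx : HasFDerivAt (fun v : E => (x, v - ⟪n, v⟫ • n))
      ((ContinuousLinearMap.inr ℝ E E).comp (ContinuousLinearMap.id ℝ E - X2n n)) v := by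
    have h := (hasFDerivAt_const x v).prodMk hP
    refine h.congr_fderiv ?_
    ext w <;> simp
  have h := (hF.comp v hx).add hn
  exact h

theorem X2_tan {f : E → ℝ} {G : ℝ → E × E → E × E} (hG : GFlow f G) {x u : E} (hx : f x = 0)
    (hu : ⟪N f x, u⟫ = 0) (hn : ‖u‖ ≤ 2) : X2D G (x, 0) u = u := by
  have hp : ((x, u) : E × E) ∈ TT f := ⟨hx, hu⟩
  have h1 : HasDerivAt (fun t : ℝ => (G t (x, u)).1) u 0 := by
    have h := hG.pos (x, u) hp hn 0
    rw [hG.zero] at h
    exact h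
  have hc : HasDerivAt (fun t : ℝ => ((x, t • u) : E × E)) ((0, u) : E × E) 0 := by
    have ha : HasDerivAt (fun t : ℝ => t • u) u 0 := by
      have := (hasDerivAt_id (0 : ℝ)).smul_const u
      simpa using this
    exact (hasDerivAt_const (0 : ℝ) x).prodMk ha
  have hF : HasFDerivAt (X2F G) (fderiv ℝ (X2F G) (x, (0 : ℝ) • u)) (x, (0 : ℝ) • u) :=
    ((X2F_smooth hG).differentiable (by simp)).differentiableAt.hasFDerivAt
  have h2 : HasDerivAt (fun t : ℝ => X2F G (x, t • u)) (fderiv ℝ (X2F G) (x, (0 : ℝ) • u) (0, u)) 0 := by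
    have h2' := HasFDerivAt.comp_hasDerivAt (l := X2F G) (f := fun t : ℝ => ((x, t • u) : E × E))
      (0 : ℝ) hF hc
    exact h2'
  have h3 : (fun t : ℝ => X2F G (x, t • u)) =ᶠ[𝓝 0] fun t : ℝ => (G t (x, u)).1 := by
    have h4 : Metric.ball (0 : ℝ) 1 ∈ 𝓝 (0 : ℝ) := Metric.ball_mem_nhds _ one_pos
    filter_upwards [h4] with t ht
    rw [Metric.mem_ball, dist_zero_right, Real.norm_eq_abs] at ht
    have h5 : ‖t • u‖ ≤ 2 := by
      rw [norm_smul, Real.norm_eq_abs]
      have := abs_nonneg t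
      have := norm_nonneg u
      nlinarith
    have h6 := hG.scale (x, u) hp t hn h5 1
    change (G 1 (x, t • u)).1 = _
    rw [h6, mul_one]
  have h7 := (h3.hasDerivAt_iff.mp h2).unique h1
  rw [zero_smul] at h7
  exact h7

theorem X2Psi_zero {f : E → ℝ} {G : ℝ → E × E → E × E} (hf : Surf f) (hG : GFlow f G) {x : E}
    (hx : f x = 0) : X2Psi G ((x, N f x), 0) = ContinuousLinearMap.id ℝ E := by
  have hN := N_norm hf hx
  have key : ∀ u : E, ⟪N f x, u⟫ = 0 → X2D G (x, 0) u = u := by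
    intro u hu
    have hpos : 0 < ‖u‖ + 1 := by positivity
    have h1 := X2_tan hG (u := (‖u‖ + 1)⁻¹ • u) hx (by rw [real_inner_smul_right, hu, mul_zero]) (by
      rw [norm_smul, norm_inv, Real.norm_of_nonneg hpos.le, inv_mul_le_iff₀ hpos]
      linarith [norm_nonneg u])
    rw [map_smul] at h1
    have h2 := congrArg (fun y => (‖u‖ + 1) • y) h1
    simpa [smul_smul, hpos.ne'] using h2
  apply ContinuousLinearMap.ext
  intro w
  have h3 : ⟪N f x, w - ⟪N f x, w⟫ • N f x⟫ = 0 := by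
    rw [inner_sub_right, real_inner_smul_right, real_inner_self_eq_norm_sq, hN]
    ring
  have h4 := key _ h3
  simp only [X2Psi, ContinuousLinearMap.add_apply, ContinuousLinearMap.comp_apply,
    ContinuousLinearMap.sub_apply, ContinuousLinearMap.id_apply, X2n_apply, inner_zero_right,
    zero_smul, sub_zero]
  rw [h4, sub_add_cancel]

theorem exp_near {f : E → ℝ} {G : ℝ → E × E → E × E} (hf : Surf f) (hG : GFlow f G) :
    ∃ ρ > 0, ρ ≤ 1 ∧ ∀ x, f x = 0 → ∀ v ∈ Metric.closedBall (0 : E) ρ, ∀ w ∈ Metric.closedBall (0 : E) ρ,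
      ‖((G 1 (x, v - ⟪N f x, v⟫ • N f x)).1 + ⟪N f x, v⟫ • N f x) -
        ((G 1 (x, w - ⟪N f x, w⟫ • N f x)).1 + ⟪N f x, w⟫ • N f x) - (v - w)‖ ≤ ‖v - w‖ / 2 := by
  have hC : IsCompact ((fun x : E => (x, N f x)) '' {x | f x = 0}) := by
    apply (S_compact hf).image_of_continuousOn
    intro x hx
    exact (continuousAt_id.prodMk (N_smooth hf hx).continuousAt).continuousWithinAt
  have hU : IsOpen {c : (E × E) × E | ‖X2Psi G c - ContinuousLinearMap.id ℝ E‖ < 1 / 2} :=
    isOpen_lt ((X2Psi_cont hG).sub continuous_const).norm continuous_const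
  obtain ⟨u, v, hu, hv, hCu, h0v, huv⟩ := generalized_tube_lemma hC (isCompact_singleton (x := (0 : E)))
    hU (by
      rintro ⟨c, w⟩ ⟨⟨x, hx, rfl⟩, hw⟩
      rw [Set.mem_singleton_iff] at hw
      subst hw
      change ‖X2Psi G ((x, N f x), 0) - ContinuousLinearMap.id ℝ E‖ < 1 / 2
      rw [X2Psi_zero hf hG hx, sub_self, norm_zero]
      norm_num)
  obtain ⟨ε, hε, hball⟩ := Metric.isOpen_iff.mp hv 0 (h0v rfl)
  refine ⟨min 1 (ε / 2), by positivity, min_le_left _ _, ?_⟩
  intro x hx a ha b hb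
  have hbd : ∀ y ∈ Metric.closedBall (0 : E) (min 1 (ε / 2)),
      ‖X2Psi G ((x, N f x), y) - ContinuousLinearMap.id ℝ E‖ ≤ 1 / 2 := by
    intro y hy
    have h1 : ((x, N f x), y) ∈ u ×ˢ v := by
      refine ⟨hCu ⟨x, hx, rfl⟩, hball ?_⟩
      rw [Metric.mem_closedBall] at hy
      rw [Metric.mem_ball]
      have := min_le_right 1 (ε / 2)
      linarith
    have h2 : ‖X2Psi G ((x, N f x), y) - ContinuousLinearMap.id ℝ E‖ < 1 / 2 := huv h1
    exact h2.le
  have h := Convex.norm_image_sub_le_of_norm_hasFDerivWithin_le'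
    (f := fun v : E => (G 1 (x, v - ⟪N f x, v⟫ • N f x)).1 + ⟪N f x, v⟫ • N f x)
    (f' := fun y => X2Psi G ((x, N f x), y)) (φ := ContinuousLinearMap.id ℝ E) (C := 1 / 2)
    (s := Metric.closedBall (0 : E) (min 1 (ε / 2)))
    (fun y _ => (X2_deriv hG x (N f x) y).hasFDerivWithinAt) hbd (convex_closedBall _ _) hb ha
  refine h.trans (le_of_eq ?_)
  ring

end Pool.Agent.GR.GX2
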