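import Pool.Agent.GR.Defs
import Pool.Agent.GR.GX2
import Pool.Agent.GR.GX1
import Pool.Agent.GR.GA1
import Pool.Agent.GR.GA3

set_option autoImplicit false
open Set Filter Topology MeasureTheory
open scoped Gradient RealInnerProductSpace ContDiff


namespace Pool.Agent.GR.GX3
open Pool.Agent.GR
open Pool.Agent.GR.GX2 (exp_near)
open Pool.Agent.GR.GX1 (normal_seg)
open Pool.Agent.GR.GA1 (N_norm)
open Pool.Agent.GR.GA3 (S_compact exists_UT)




/-! ## TARGET (prove this) -/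

theorem pp_g {f : E → ℝ} {G : ℝ → E × E → E × E} (hG : GFlow f G) {x u : E}
    (hu : (x, u) ∈ UT f) {s : ℝ} (hs0 : 0 ≤ s) (hs : s ≤ 2) :
    (G 1 (x, s • u - ⟪N f x, s • u⟫ • N f x)).1 + ⟪N f x, s • u⟫ • N f x = (G s (x, u)).1 := by
  obtain ⟨h1, h2, h3⟩ := hu
  simp only at h1 h2 h3
  have e1 : ⟪N f x, s • u⟫ = 0 := by rw [real_inner_smul_right, h2, mul_zero]
  rw [e1, zero_smul, sub_zero, add_zero]
  have h4 := hG.scale (x, u) ⟨h1, h2⟩ s (by rw [h3]; norm_num)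
    (by rw [norm_smul, h3, Real.norm_eq_abs, abs_of_nonneg hs0]; linarith) 1
  rw [h4, mul_one]

theorem pp_fix (g : E → E) (y : E) (ρ : ℝ) (hρ : 0 < ρ)
    (hg : ∀ v ∈ Metric.closedBall (0 : E) ρ, ∀ w ∈ Metric.closedBall (0 : E) ρ,
      ‖g v - g w - (v - w)‖ ≤ ‖v - w‖ / 2) (hy : ‖y - g 0‖ ≤ ρ / 2) :
    ∃ v ∈ Metric.closedBall (0 : E) ρ, g v = y := by
  have hmaps : MapsTo (fun v => v - g v + y) (Metric.closedBall (0 : E) ρ)
      (Metric.closedBall (0 : E) ρ) := by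
    intro v hv
    have h1 := hg v hv 0 (Metric.mem_closedBall_self hρ.le)
    rw [sub_zero] at h1
    have hv' : ‖v‖ ≤ ρ := by simpa using hv
    rw [mem_closedBall_zero_iff]
    have e1 : v - g v + y = (y - g 0) - (g v - g 0 - v) := by abel
    show ‖v - g v + y‖ ≤ ρ
    rw [e1]
    refine (norm_sub_le _ _).trans ?_
    linarith
  have hcon : ContractingWith (1 / 2 : NNReal)
      (hmaps.restrict (fun v => v - g v + y) (Metric.closedBall (0 : E) ρ)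
        (Metric.closedBall (0 : E) ρ)) := by
    refine ⟨by rw [← NNReal.coe_lt_coe]; norm_num, ?_⟩
    refine LipschitzWith.of_dist_le_mul (fun v w => ?_)
    rw [Subtype.dist_eq, Subtype.dist_eq]
    show dist (v.1 - g v.1 + y) (w.1 - g w.1 + y) ≤ _
    rw [dist_eq_norm, dist_eq_norm]
    have h1 := hg v.1 v.2 w.1 w.2
    have e1 : v.1 - g v.1 + y - (w.1 - g w.1 + y) = -(g v.1 - g w.1 - (v.1 - w.1)) := by abel
    rw [e1, norm_neg]
    refine h1.trans (le_of_eq ?_)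
    have e2 : ((1 / 2 : NNReal) : ℝ) = 1 / 2 := by norm_num
    rw [e2]; ring
  obtain ⟨v, hv, hfix, _⟩ := hcon.exists_fixedPoint' Metric.isClosed_closedBall.isComplete hmaps
    (Metric.mem_closedBall_self hρ.le) (edist_ne_top _ _)
  refine ⟨v, hv, ?_⟩
  have h1 : v - g v + y = v := hfix
  have h2 : y - g v = 0 := by
    have : y - g v = (v - g v + y) - v := by abel
    rw [this, h1, sub_self]
  exact (sub_eq_zero.1 h2).symm

theorem polar_inj {f : E → ℝ} {G : ℝ → E × E → E × E} (hf : Surf f) (hG : GFlow f G) :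
    ∃ ρ > 0, ∀ x u w s t, (x, u) ∈ UT f → (x, w) ∈ UT f → s ∈ Icc 0 ρ → t ∈ Icc 0 ρ →
      (G s (x, u)).1 = (G t (x, w)).1 → s = t ∧ (0 < s → u = w) := by
  obtain ⟨ρ, hρ, hρ1, hnear⟩ := exp_near hf hG
  refine ⟨ρ, hρ, ?_⟩
  intro x u w s t hu hw hs ht heq
  have hu3 : ‖u‖ = 1 := hu.2.2
  have hw3 : ‖w‖ = 1 := hw.2.2
  have hsu : s • u ∈ Metric.closedBall (0 : E) ρ := by
    rw [mem_closedBall_zero_iff, norm_smul, hu3, Real.norm_eq_abs, abs_of_nonneg hs.1, mul_one]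
    exact hs.2
  have htw : t • w ∈ Metric.closedBall (0 : E) ρ := by
    rw [mem_closedBall_zero_iff, norm_smul, hw3, Real.norm_eq_abs, abs_of_nonneg ht.1, mul_one]
    exact ht.2
  have h1 := hnear x hu.1 (s • u) hsu (t • w) htw
  rw [pp_g hG hu hs.1 (by linarith [hs.2]), pp_g hG hw ht.1 (by linarith [ht.2]), heq, sub_self,
    zero_sub, norm_neg] at h1
  have h2 : ‖s • u - t • w‖ = 0 := by
    have := norm_nonneg (s • u - t • w)
    linarith
  have h3 : s • u = t • w := sub_eq_zero.1 (norm_eq_zero.1 h2)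
  have h4 : s = t := by
    have h5 : ‖s • u‖ = ‖t • w‖ := by rw [h3]
    rw [norm_smul, norm_smul, hu3, hw3, Real.norm_eq_abs, Real.norm_eq_abs,
      abs_of_nonneg hs.1, abs_of_nonneg ht.1, mul_one, mul_one] at h5
    exact h5
  refine ⟨h4, fun hs0 => ?_⟩
  rw [← h4] at h3
  exact smul_right_injective E hs0.ne' h3

theorem polar_surj {f : E → ℝ} {G : ℝ → E × E → E × E} (hf : Surf f) (hG : GFlow f G) :
    ∀ ρ > 0, ∃ δ > 0, ∀ x y, f x = 0 → f y = 0 → ‖y - x‖ < δ →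
      ∃ u s, (x, u) ∈ UT f ∧ 0 ≤ s ∧ s < ρ ∧ (G s (x, u)).1 = y := by
  intro ρ hρ
  obtain ⟨ρ0, hρ0, hρ1, hnear⟩ := exp_near hf hG
  obtain ⟨δ0, hδ0, hseg⟩ := normal_seg hf
  obtain ⟨r, hr⟩ : ∃ r, r = min ρ0 (min (ρ / 2) (δ0 / 4)) := ⟨_, rfl⟩
  have hrpos : 0 < r := by rw [hr]; positivity
  have hr0 : r ≤ ρ0 := by rw [hr]; exact min_le_left _ _
  have hr1 : r ≤ ρ / 2 := by rw [hr]; exact (min_le_right _ _).trans (min_le_left _ _)
  have hr2 : r ≤ δ0 / 4 := by rw [hr]; exact (min_le_right _ _).trans (min_le_right _ _)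
  refine ⟨r / 2, by positivity, ?_⟩
  intro x y hx hy hyx
  obtain ⟨u0, hu0⟩ := exists_UT hf hx
  have hN := N_norm hf hx
  obtain ⟨g, hg⟩ : ∃ g : E → E, g = fun v => (G 1 (x, v - ⟪N f x, v⟫ • N f x)).1 +
    ⟪N f x, v⟫ • N f x := ⟨_, rfl⟩
  have hgv : ∀ v, g v = (G 1 (x, v - ⟪N f x, v⟫ • N f x)).1 + ⟪N f x, v⟫ • N f x := by
    intro v; rw [hg]
  have hg0 : g 0 = x := by
    have h1 := pp_g hG hu0 (le_refl 0) (by norm_num)
    rw [zero_smul] at h1
    rw [hgv, h1, hG.zero]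
  have hgn : ∀ v ∈ Metric.closedBall (0 : E) r, ∀ w ∈ Metric.closedBall (0 : E) r,
      ‖g v - g w - (v - w)‖ ≤ ‖v - w‖ / 2 := by
    intro v hv w hw
    rw [hgv, hgv]
    exact hnear x hx v (Metric.closedBall_subset_closedBall hr0 hv) w
      (Metric.closedBall_subset_closedBall hr0 hw)
  obtain ⟨v, hv, hvy⟩ := pp_fix g y r hrpos hgn (by rw [hg0]; exact hyx.le)
  obtain ⟨p, hp⟩ : ∃ p, p = v - ⟪N f x, v⟫ • N f x := ⟨_, rfl⟩
  have hNp : ⟪N f x, p⟫ = 0 := by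
    rw [hp, inner_sub_right, real_inner_smul_right, real_inner_self_eq_norm_sq, hN]
    ring
  have hpv : ‖p‖ ≤ ‖v‖ := by
    have h1 : v = p + ⟪N f x, v⟫ • N f x := by rw [hp]; abel
    have h2 : ‖v‖ ^ 2 = ‖p‖ ^ 2 + ‖⟪N f x, v⟫ • N f x‖ ^ 2 := by
      have h3 := norm_add_sq_real p (⟪N f x, v⟫ • N f x)
      rw [← h1, real_inner_smul_right, real_inner_comm (N f x) p, hNp] at h3
      linarith
    exact le_of_sq_le_sq (by nlinarith [sq_nonneg ‖⟪N f x, v⟫ • N f x‖]) (norm_nonneg _)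
  have hvr : ‖v‖ ≤ r := by simpa using hv
  have hpr : ‖p‖ ≤ r := hpv.trans hvr
  have hgp : g p = (G 1 (x, p)).1 := by
    rw [hgv, hNp, zero_smul, sub_zero, add_zero]
  have hz : f (g p) = 0 := by
    rw [hgp]
    exact (hG.mem (x, p) ⟨hx, hNp⟩ (by simp only; linarith) 1).1
  have hyz : y - g p = ⟪N f x, v⟫ • N f x := by
    rw [← hvy, hgp, hgv v, ← hp]
    abel
  have hzx : ‖g p - x‖ < δ0 := by
    have h1 := hgn p (by rw [mem_closedBall_zero_iff]; exact hpr) 0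
      (Metric.mem_closedBall_self hrpos.le)
    rw [hg0, sub_zero] at h1
    have h2 : g p - x = (g p - x - p) + p := by abel
    rw [h2]
    refine lt_of_le_of_lt (norm_add_le _ _) ?_
    linarith
  have hyp : y = g p := hseg x y (g p) _ hx hy hz (by linarith) hzx hyz
  by_cases hp0 : p = 0
  · refine ⟨u0, 0, hu0, le_refl 0, hρ, ?_⟩
    rw [hG.zero, hyp, hp0, hg0]
  · have hpn : 0 < ‖p‖ := norm_pos_iff.2 hp0
    have hu : (x, ‖p‖⁻¹ • p) ∈ UT f := by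
      refine ⟨hx, ?_, ?_⟩
      · show ⟪N f x, ‖p‖⁻¹ • p⟫ = 0
        rw [real_inner_smul_right, hNp, mul_zero]
      · show ‖‖p‖⁻¹ • p‖ = 1
        rw [norm_smul, norm_inv, norm_norm]
        exact inv_mul_cancel₀ hpn.ne'
    refine ⟨‖p‖⁻¹ • p, ‖p‖, hu, norm_nonneg _, by linarith, ?_⟩
    have h1 := pp_g hG hu (norm_nonneg p) (by linarith)
    rw [smul_smul, mul_inv_cancel₀ hpn.ne', one_smul, ← hgv p] at h1
    rw [← h1, ← hyp]

end Pool.Agent.GR.GX3
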