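import Pool.Agent.GR.Defs
import Pool.Agent.GR.GL2
import Pool.Agent.GR.GL1
import Pool.Agent.GR.GL5
import Pool.Agent.GR.GA1
import Pool.Agent.GR.GA6
import Pool.Agent.GR.GA7
import Pool.Agent.GR.GB2
import Pool.Agent.GR.GA3

set_option autoImplicit false
open Set Filter Topology MeasureTheory
open scoped Gradient RealInnerProductSpace ContDiff


namespace Pool.Agent.GR.GX4
open Pool.Agent.GR
open Pool.Agent.GR.GL2 (jac_vec)
open Pool.Agent.GR.GL1 (J_eq_curve)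
open Pool.Agent.GR.GL5 (F_deriv F_smooth J_cont)
open Pool.Agent.GR.GA1 (N_norm)
open Pool.Agent.GR.GA6 (cr_norm cr_inner_left cr_inner_right)
open Pool.Agent.GR.GA7 (rot_UT rot_zero rot_rot rot_surj rot_deriv cr_rot)
open Pool.Agent.GR.GB2 (G_UT)
open Pool.Agent.GR.GA3 (UT_compact S_compact)




/-! ## TARGET (prove this) -/

theorem pl_N_cont {f : E → ℝ} (hf : Surf f) : ContinuousOn (N f) {x | f x = 0} := by
  have hg : Continuous (fun x => ∇ f x) := by
    have h1 : Continuous (fun x => fderiv ℝ f x) := hf.smooth.continuous_fderiv (by simp)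
    exact (InnerProductSpace.toDual ℝ E).symm.continuous.comp h1
  unfold N
  refine ContinuousOn.smul (ContinuousOn.inv₀ hg.norm.continuousOn ?_) hg.continuousOn
  intro x hx h0
  have h1 := N_norm hf hx
  unfold N at h1
  rw [norm_eq_zero] at h0
  rw [h0] at h1
  simp at h1

theorem pl_cr_cont : Continuous (fun p : E × E => cr p.1 p.2) := by
  unfold cr
  refine (PiLp.continuous_toLp 2 _).comp ?_
  refine continuous_pi ?_
  intro i
  fin_cases i <;> simp <;> fun_prop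

theorem pl_R_cont {f : E → ℝ} (hf : Surf f) :
    ContinuousOn (fun q : (E × E) × ℝ => (q.1.1, rot f q.1.1 q.1.2 q.2)) (UT f ×ˢ univ) := by
  have hN : ContinuousOn (fun q : (E × E) × ℝ => N f q.1.1) (UT f ×ˢ univ) := by
    refine (pl_N_cont hf).comp (by fun_prop) ?_
    intro q hq
    exact hq.1.1
  have h2 : ContinuousOn (fun q : (E × E) × ℝ => q.1.2) (UT f ×ˢ univ) := by fun_prop
  have hcr : ContinuousOn (fun q : (E × E) × ℝ => cr (N f q.1.1) q.1.2) (UT f ×ˢ univ) :=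
    pl_cr_cont.comp_continuousOn (hN.prodMk h2)
  refine ContinuousOn.prodMk (by fun_prop) ?_
  unfold rot
  have h3 : ContinuousOn (fun q : (E × E) × ℝ => Real.cos q.2 • q.1.2) (UT f ×ˢ univ) := by
    fun_prop
  have h4 : ContinuousOn (fun q : (E × E) × ℝ => Real.sin q.2) (UT f ×ˢ univ) := by
    fun_prop
  exact h3.add (h4.smul hcr)

theorem pl_T_cont {f : E → ℝ} {G : ℝ → E × E → E × E} (hf : Surf f) (hG : GFlow f G) :
    ContinuousOn (fun q : (E × E) × (ℝ × ℝ) => (G q.2.1 (q.1.1, rot f q.1.1 q.1.2 q.2.2)))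
      (UT f ×ˢ univ) := by
  have hR : ContinuousOn (fun q : (E × E) × (ℝ × ℝ) => (q.1.1, rot f q.1.1 q.1.2 q.2.2))
      (UT f ×ˢ univ) := by
    refine (pl_R_cont hf).comp (f := fun q : (E × E) × (ℝ × ℝ) => ((q.1, q.2.2) : (E × E) × ℝ))
      (by fun_prop) ?_
    intro q hq
    exact ⟨hq.1, mem_univ _⟩
  exact hG.smooth.continuous.comp_continuousOn
    (ContinuousOn.prodMk (by fun_prop) hR)

theorem pl_V_cont {f : E → ℝ} {G : ℝ → E × E → E × E} (hf : Surf f) (hG : GFlow f G) :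
    ContinuousOn (fun q : (E × E) × (ℝ × ℝ) =>
      J f G (q.1.1, rot f q.1.1 q.1.2 q.2.2) q.2.1 •
        cr (N f (G q.2.1 (q.1.1, rot f q.1.1 q.1.2 q.2.2)).1)
          (G q.2.1 (q.1.1, rot f q.1.1 q.1.2 q.2.2)).2)
      (UT f ×ˢ univ) := by
  have hR : ContinuousOn (fun q : (E × E) × (ℝ × ℝ) => (q.1.1, rot f q.1.1 q.1.2 q.2.2))
      (UT f ×ˢ univ) := by
    refine (pl_R_cont hf).comp (f := fun q : (E × E) × (ℝ × ℝ) => ((q.1, q.2.2) : (E × E) × ℝ))
      (by fun_prop) ?_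
    intro q hq
    exact ⟨hq.1, mem_univ _⟩
  have hT := pl_T_cont hf hG
  have hmem : ∀ q ∈ (UT f ×ˢ (univ : Set (ℝ × ℝ))),
      ((q.1.1, rot f q.1.1 q.1.2 q.2.2) : E × E) ∈ UT f := by
    intro q hq
    exact rot_UT hf (x := q.1.1) (u := q.1.2) hq.1 q.2.2
  have hJ1 : ContinuousOn (fun q : (E × E) × (ℝ × ℝ) =>
      J f G (q.1.1, rot f q.1.1 q.1.2 q.2.2) q.2.1) (UT f ×ˢ univ) := by
    refine (J_cont hf hG).comp (f := fun q : (E × E) × (ℝ × ℝ) =>
      ((q.2.1, (q.1.1, rot f q.1.1 q.1.2 q.2.2)) : ℝ × (E × E)))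
      (ContinuousOn.prodMk (by fun_prop) hR) ?_
    intro q hq
    exact ⟨mem_univ _, hmem q hq⟩
  have hN : ContinuousOn (fun q : (E × E) × (ℝ × ℝ) =>
      N f (G q.2.1 (q.1.1, rot f q.1.1 q.1.2 q.2.2)).1) (UT f ×ˢ univ) := by
    refine (pl_N_cont hf).comp hT.fst ?_
    intro q hq
    exact (G_UT hG (hmem q hq) q.2.1).1
  exact hJ1.smul (pl_cr_cont.comp_continuousOn (hN.prodMk hT.snd))

/-- first order expansion, uniformly -/
theorem pl_expand {f : E → ℝ} {G : ℝ → E × E → E × E} (hf : Surf f) (hG : GFlow f G) {ρ δ : ℝ}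
    {c : ℝ} (hc : 0 < c) :
    ∃ r > 0, r ≤ 1 ∧ ∀ x u s t θ, (x, u) ∈ UT f → s ∈ Icc δ ρ → t ∈ Icc δ ρ → |t - s| < r →
      |θ| < r →
      ‖(G t (x, rot f x u θ)).1 - (G s (x, u)).1 - (t - s) • (G s (x, u)).2
        - θ • (J f G (x, u) s • cr (N f (G s (x, u)).1) (G s (x, u)).2)‖
        ≤ c * (|t - s| + |θ|) := by
  have hK : IsCompact (UT f ×ˢ (Icc δ ρ ×ˢ Icc (-1 : ℝ) 1)) :=
    (UT_compact hf).prod (isCompact_Icc.prod isCompact_Icc)
  have hsub : (UT f ×ˢ (Icc δ ρ ×ˢ Icc (-1 : ℝ) 1)) ⊆ UT f ×ˢ (univ : Set (ℝ × ℝ)) :=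
    prod_mono_right (subset_univ _)
  have hU1 := hK.uniformContinuousOn_of_continuous ((pl_T_cont hf hG).mono hsub).snd
  have hU2 := hK.uniformContinuousOn_of_continuous ((pl_V_cont hf hG).mono hsub)
  rw [Metric.uniformContinuousOn_iff] at hU1 hU2
  obtain ⟨r1, hr1, h1⟩ := hU1 c hc
  obtain ⟨r2, hr2, h2⟩ := hU2 c hc
  refine ⟨min (min r1 r2) 1, by positivity, min_le_right _ _, ?_⟩
  intro x u s t θ hp hs ht hst hθ
  have hst1 : |t - s| < r1 := lt_of_lt_of_le hst ((min_le_left _ _).trans (min_le_left _ _))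
  have hst2 : |t - s| < r2 := lt_of_lt_of_le hst ((min_le_left _ _).trans (min_le_right _ _))
  have hθ1 : |θ| < r1 := lt_of_lt_of_le hθ ((min_le_left _ _).trans (min_le_left _ _))
  have hθ2 : |θ| < r2 := lt_of_lt_of_le hθ ((min_le_left _ _).trans (min_le_right _ _))
  have hθ3 : |θ| < 1 := lt_of_lt_of_le hθ (min_le_right _ _)
  have hθI : θ ∈ Icc (-1 : ℝ) 1 := ⟨by linarith [(abs_lt.mp hθ3).1], (abs_lt.mp hθ3).2.le⟩
  have h0I : (0 : ℝ) ∈ Icc (-1 : ℝ) 1 := ⟨by norm_num, by norm_num⟩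
  -- first part
  have hA : ‖((G t (x, rot f x u θ)).1 - t • (G s (x, u)).2)
      - ((G s (x, rot f x u θ)).1 - s • (G s (x, u)).2)‖ ≤ c * ‖t - s‖ := by
    have hpθ := rot_UT hf hp θ
    apply Convex.norm_image_sub_le_of_norm_hasDerivWithin_le
      (f := fun τ => (G τ (x, rot f x u θ)).1 - τ • (G s (x, u)).2)
      (f' := fun τ => (G τ (x, rot f x u θ)).2 - (G s (x, u)).2) (s := uIcc s t)
    · intro τ _
      have h3 := hG.pos (x, rot f x u θ) ⟨hpθ.1, hpθ.2.1⟩ (by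
        show ‖rot f x u θ‖ ≤ 2
        have := hpθ.2.2
        change ‖rot f x u θ‖ = 1 at this
        linarith) τ
      have h4 : HasDerivAt (fun τ : ℝ => τ • (G s (x, u)).2) (G s (x, u)).2 τ := by
        simpa using (hasDerivAt_id τ).smul_const (G s (x, u)).2
      exact (h3.sub h4).hasDerivWithinAt
    · intro τ hτ
      have hτI : τ ∈ Icc δ ρ := (uIcc_subset_Icc hs ht) hτ
      have h3 := h1 ((x, u), (τ, θ)) ⟨hp, hτI, hθI⟩ ((x, u), (s, 0)) ⟨hp, hs, h0I⟩ (by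
        show max (dist ((x, u) : E × E) (x, u)) (max (dist τ s) (dist θ 0)) < r1
        rw [dist_self, Real.dist_eq, Real.dist_eq, sub_zero]
        refine max_lt hr1 (max_lt ?_ hθ1)
        refine lt_of_le_of_lt ?_ hst1
        exact abs_sub_left_of_mem_uIcc hτ)
      simp only [rot_zero] at h3
      rw [dist_eq_norm] at h3
      exact h3.le
    · exact convex_uIcc s t
    · exact left_mem_uIcc
    · exact right_mem_uIcc
  have hB : ‖((G s (x, rot f x u θ)).1 - θ • (J f G (x, u) s • cr (N f (G s (x, u)).1) (G s (x, u)).2))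
      - ((G s (x, rot f x u 0)).1 - (0 : ℝ) • (J f G (x, u) s • cr (N f (G s (x, u)).1) (G s (x, u)).2))‖
      ≤ c * ‖θ - 0‖ := by
    apply Convex.norm_image_sub_le_of_norm_hasDerivWithin_le
      (f := fun φ => (G s (x, rot f x u φ)).1
        - φ • (J f G (x, u) s • cr (N f (G s (x, u)).1) (G s (x, u)).2))
      (f' := fun φ => J f G (x, rot f x u φ) s •
        cr (N f (G s (x, rot f x u φ)).1) (G s (x, rot f x u φ)).2
          - (J f G (x, u) s • cr (N f (G s (x, u)).1) (G s (x, u)).2)) (s := uIcc 0 θ)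
    · intro φ _
      have h3 := F_deriv hf hG hp s φ
      have h4 : HasDerivAt (fun τ : ℝ => τ • (J f G (x, u) s • cr (N f (G s (x, u)).1) (G s (x, u)).2))
          (J f G (x, u) s • cr (N f (G s (x, u)).1) (G s (x, u)).2) φ := by
        simpa using (hasDerivAt_id φ).smul_const
          (J f G (x, u) s • cr (N f (G s (x, u)).1) (G s (x, u)).2)
      exact (h3.sub h4).hasDerivWithinAt
    · intro φ hφ
      have hφI : φ ∈ Icc (-1 : ℝ) 1 := (uIcc_subset_Icc h0I hθI) hφ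
      have hφ0 : |φ| ≤ |θ| := by
        have := abs_sub_left_of_mem_uIcc hφ
        simpa using this
      have h3 := h2 ((x, u), (s, φ)) ⟨hp, hs, hφI⟩ ((x, u), (s, 0)) ⟨hp, hs, h0I⟩ (by
        show max (dist ((x, u) : E × E) (x, u)) (max (dist s s) (dist φ 0)) < r2
        rw [dist_self, dist_self, Real.dist_eq, sub_zero]
        exact max_lt hr2 (max_lt hr2 (lt_of_le_of_lt hφ0 hθ2)))
      simp only [rot_zero] at h3
      rw [dist_eq_norm] at h3
      exact h3.le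
    · exact convex_uIcc 0 θ
    · exact left_mem_uIcc
    · exact right_mem_uIcc
  rw [rot_zero, zero_smul, sub_zero, sub_zero] at hB
  have heq : (G t (x, rot f x u θ)).1 - (G s (x, u)).1 - (t - s) • (G s (x, u)).2
        - θ • (J f G (x, u) s • cr (N f (G s (x, u)).1) (G s (x, u)).2)
      = (((G t (x, rot f x u θ)).1 - t • (G s (x, u)).2)
      - ((G s (x, rot f x u θ)).1 - s • (G s (x, u)).2))
      + (((G s (x, rot f x u θ)).1 - θ • (J f G (x, u) s • cr (N f (G s (x, u)).1) (G s (x, u)).2))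
      - (G s (x, u)).1) := by
    rw [sub_smul]
    abel
  rw [heq]
  refine (norm_add_le _ _).trans ?_
  rw [Real.norm_eq_abs] at hA hB
  linarith

/-- nearby points come from nearby parameters -/
theorem pl_near {f : E → ℝ} {G : ℝ → E × E → E × E} (hf : Surf f) (hG : GFlow f G) {ρ : ℝ}
    (hinj : ∀ x u w s t, (x, u) ∈ UT f → (x, w) ∈ UT f → s ∈ Icc 0 ρ → t ∈ Icc 0 ρ →
      (G s (x, u)).1 = (G t (x, w)).1 → s = t ∧ (0 < s → u = w))
    {δ r : ℝ} (hδ : 0 < δ) (hr : 0 < r) (hr1 : r ≤ 1) :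
    ∃ η > 0, ∀ x u w s t, (x, u) ∈ UT f → (x, w) ∈ UT f → s ∈ Icc δ ρ → t ∈ Icc δ ρ →
      ‖(G s (x, u)).1 - (G t (x, w)).1‖ < η →
      |t - s| < r ∧ ∃ θ, |θ| < r ∧ w = rot f x u θ := by
  have hpi := Real.pi_gt_three
  set C : Set ((E × E) × ((E × E) × (ℝ × ℝ))) :=
    (UT f ×ˢ (UT f ×ˢ (Icc δ ρ ×ˢ Icc δ ρ))) ∩
      {q | q.1.1 = q.2.1.1 ∧ (r ≤ |q.2.2.2 - q.2.2.1| ∨ ⟪q.1.2, q.2.1.2⟫ ≤ Real.cos r)} with hC
  have hCc : IsCompact C := by
    refine IsCompact.inter_right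
      ((UT_compact hf).prod ((UT_compact hf).prod (isCompact_Icc.prod isCompact_Icc))) ?_
    have h1 : IsClosed {q : (E × E) × ((E × E) × (ℝ × ℝ)) | q.1.1 = q.2.1.1} :=
      isClosed_eq (by fun_prop) (by fun_prop)
    have h2 : IsClosed {q : (E × E) × ((E × E) × (ℝ × ℝ)) | r ≤ |q.2.2.2 - q.2.2.1|} :=
      isClosed_le (by fun_prop) (by fun_prop)
    have h3 : IsClosed {q : (E × E) × ((E × E) × (ℝ × ℝ)) | ⟪q.1.2, q.2.1.2⟫ ≤ Real.cos r} :=
      isClosed_le (by fun_prop) (by fun_prop)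
    exact h1.inter (h2.union h3)
  have hcont : Continuous (fun q : (E × E) × ((E × E) × (ℝ × ℝ)) =>
      ‖(G q.2.2.1 q.1).1 - (G q.2.2.2 q.2.1).1‖) := by
    have hGc := hG.smooth.continuous
    have h1 : Continuous (fun q : (E × E) × ((E × E) × (ℝ × ℝ)) => G q.2.2.1 q.1) :=
      hGc.comp (f := fun q : (E × E) × ((E × E) × (ℝ × ℝ)) => ((q.2.2.1, q.1) : ℝ × (E × E)))
        (by fun_prop)
    have h2 : Continuous (fun q : (E × E) × ((E × E) × (ℝ × ℝ)) => G q.2.2.2 q.2.1) :=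
      hGc.comp (f := fun q : (E × E) × ((E × E) × (ℝ × ℝ)) => ((q.2.2.2, q.2.1) : ℝ × (E × E)))
        (by fun_prop)
    exact (h1.fst.sub h2.fst).norm
  obtain ⟨η, hη, hηC⟩ := hCc.exists_forall_le' (f := fun q : (E × E) × ((E × E) × (ℝ × ℝ)) =>
      ‖(G q.2.2.1 q.1).1 - (G q.2.2.2 q.2.1).1‖) (a := 0) hcont.continuousOn (by
    rintro ⟨⟨x, u⟩, ⟨x', w⟩, ⟨s, t⟩⟩ ⟨⟨hp, hp', hs, ht⟩, hxx, hor⟩
    simp only at hp hp' hs ht hxx hor
    subst hxx
    show 0 < ‖(G s (x, u)).1 - (G t (x, w)).1‖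
    rw [norm_pos_iff, sub_ne_zero]
    intro heq
    obtain ⟨h1, h2⟩ := hinj x u w s t hp hp' ⟨hδ.le.trans hs.1, hs.2⟩ ⟨hδ.le.trans ht.1, ht.2⟩ heq
    have h3 := h2 (lt_of_lt_of_le hδ hs.1)
    rcases hor with h | h
    · rw [h1, sub_self, abs_zero] at h
      linarith
    · rw [h3, real_inner_self_eq_norm_sq] at h
      have h4 : ‖w‖ = 1 := hp'.2.2
      rw [h4] at h
      have h5 : Real.cos r < 1 := by
        have := Real.cos_lt_cos_of_nonneg_of_le_pi (le_refl 0) (by linarith) hr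
        rwa [Real.cos_zero] at this
      linarith)
  refine ⟨η, hη, ?_⟩
  intro x u w s t hp hp' hs ht hlt
  have hnot : ((x, u), ((x, w), (s, t))) ∉ C := by
    intro hmem
    have := hηC _ hmem
    simp only at this
    linarith
  have hnot2 : ¬ (r ≤ |t - s| ∨ ⟪u, w⟫ ≤ Real.cos r) := by
    intro h
    exact hnot ⟨⟨hp, hp', hs, ht⟩, rfl, h⟩
  push Not at hnot2
  refine ⟨hnot2.1, ?_⟩
  obtain ⟨θ, hθ, hw⟩ := rot_surj hf hp hp'
  have hcos : ⟪u, w⟫ = Real.cos θ := by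
    rw [hw]
    unfold rot
    rw [inner_add_right, inner_smul_right, inner_smul_right, real_inner_self_eq_norm_sq,
      real_inner_comm, cr_inner_right]
    have h4 : ‖u‖ = 1 := hp.2.2
    rw [h4]
    ring
  have hc2 := hnot2.2
  rw [hcos] at hc2
  rcases le_total θ Real.pi with h | h
  · refine ⟨θ, ?_, hw⟩
    rw [abs_of_nonneg hθ.1]
    by_contra hcon
    push Not at hcon
    have := Real.cos_le_cos_of_nonneg_of_le_pi hr.le h hcon
    linarith
  · refine ⟨θ - 2 * Real.pi, ?_, ?_⟩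
    · rw [abs_of_nonpos (by linarith [hθ.2])]
      by_contra hcon
      push Not at hcon
      have h5 := Real.cos_le_cos_of_nonneg_of_le_pi hr.le (by linarith) hcon
      rw [Real.cos_neg, Real.cos_sub_two_pi] at h5
      linarith
    · rw [hw]
      unfold rot
      rw [Real.cos_sub_two_pi, Real.sin_sub_two_pi]

theorem polar_lower {f : E → ℝ} {G : ℝ → E × E → E × E} (hf : Surf f) (hG : GFlow f G) {ρ : ℝ}
    (hinj : ∀ x u w s t, (x, u) ∈ UT f → (x, w) ∈ UT f → s ∈ Icc 0 ρ → t ∈ Icc 0 ρ →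
      (G s (x, u)).1 = (G t (x, w)).1 → s = t ∧ (0 < s → u = w))
    (hJ : ∀ p ∈ UT f, ∀ t ∈ Ioc 0 ρ, 0 < J f G p t) {δ ε : ℝ} (hδ : 0 < δ) (hε : 0 < ε) :
    ∃ η > 0, ∀ x u w s t, (x, u) ∈ UT f → (x, w) ∈ UT f → s ∈ Icc δ ρ → t ∈ Icc δ ρ →
      ‖(G s (x, u)).1 - (G t (x, w)).1‖ < η →
      |s - t| ≤ (1 + ε) * ‖(G s (x, u)).1 - (G t (x, w)).1‖ := by
  -- lower bound for J
  have hKc : IsCompact (Icc δ ρ ×ˢ UT f) := isCompact_Icc.prod (UT_compact hf)
  obtain ⟨j0, hj0, hjle⟩ := hKc.exists_forall_le' (f := fun q : ℝ × (E × E) => J f G q.2 q.1)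
    (a := 0) ((J_cont hf hG).mono (prod_mono_left (subset_univ _))) (by
      rintro ⟨s, p⟩ ⟨hs, hp⟩
      exact hJ p hp s ⟨lt_of_lt_of_le hδ hs.1, hs.2⟩)
  set j : ℝ := min j0 1 with hj
  have hjpos : 0 < j := by positivity
  have hj1 : j ≤ 1 := min_le_right _ _
  set c : ℝ := min (j / 4) (j * ε / 4) with hcdef
  have hcpos : 0 < c := by positivity
  have hc1 : c ≤ j / 4 := min_le_left _ _
  have hc2 : c ≤ j * ε / 4 := min_le_right _ _
  obtain ⟨r, hr, hr1, hexp⟩ := pl_expand hf hG (ρ := ρ) (δ := δ) hcpos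
  obtain ⟨η, hη, hnear⟩ := pl_near hf hG hinj hδ hr hr1
  refine ⟨η, hη, ?_⟩
  intro x u w s t hp hp' hs ht hlt
  obtain ⟨hst, θ, hθ, hw⟩ := hnear x u w s t hp hp' hs ht hlt
  have hmain := hexp x u s t θ hp hs ht hst hθ
  rw [← hw] at hmain
  have hq := G_UT hG hp s
  set q : E × E := G s (x, u) with hqdef
  set ν : E := cr (N f q.1) q.2 with hν
  have hT1 : ‖q.2‖ = 1 := hq.2.2
  have hN1 : ‖N f q.1‖ = 1 := N_norm hf hq.1
  have hν1 : ‖ν‖ = 1 := cr_norm hN1 hT1 hq.2.1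
  have hνT : ⟪ν, q.2⟫ = 0 := cr_inner_right _ _
  have hJ0 : j ≤ J f G (x, u) s := (min_le_left _ _).trans (hjle (s, (x, u)) ⟨hs, hp⟩)
  set D' : E := (G t (x, w)).1 - q.1 with hD'
  set e : E := D' - (t - s) • q.2 - θ • (J f G (x, u) s • ν) with he
  have hDnorm : ‖q.1 - (G t (x, w)).1‖ = ‖D'‖ := by
    rw [hD', norm_sub_rev]
  rw [hDnorm, abs_sub_comm s t]
  have hDe : D' = (t - s) • q.2 + θ • (J f G (x, u) s • ν) + e := by
    rw [he]
    abel
  have h1 : |t - s| ≤ ‖D'‖ + ‖e‖ := by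
    have h2 : ⟪D', q.2⟫ = (t - s) + ⟪e, q.2⟫ := by
      conv_lhs => rw [hDe]
      rw [inner_add_left, inner_add_left, real_inner_smul_left, real_inner_smul_left,
        real_inner_smul_left, hνT, real_inner_self_eq_norm_sq, hT1]
      ring
    have h3 : t - s = ⟪D', q.2⟫ - ⟪e, q.2⟫ := by linarith
    rw [h3]
    refine (abs_sub _ _).trans ?_
    have h4 := abs_real_inner_le_norm D' q.2
    have h5 := abs_real_inner_le_norm e q.2
    rw [hT1, mul_one] at h4 h5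
    linarith
  have h2 : |θ| * J f G (x, u) s ≤ ‖D'‖ + ‖e‖ := by
    have h2 : ⟪D', ν⟫ = θ * J f G (x, u) s + ⟪e, ν⟫ := by
      conv_lhs => rw [hDe]
      rw [inner_add_left, inner_add_left, real_inner_smul_left, real_inner_smul_left,
        real_inner_smul_left, real_inner_self_eq_norm_sq, hν1, real_inner_comm, hνT]
      ring
    have h3 : θ * J f G (x, u) s = ⟪D', ν⟫ - ⟪e, ν⟫ := by linarith
    have h6 : |θ| * J f G (x, u) s = |θ * J f G (x, u) s| := by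
      rw [abs_mul, abs_of_pos (lt_of_lt_of_le hjpos hJ0)]
    rw [h6, h3]
    refine (abs_sub _ _).trans ?_
    have h4 := abs_real_inner_le_norm D' ν
    have h5 := abs_real_inner_le_norm e ν
    rw [hν1, mul_one] at h4 h5
    linarith
  have hSnn : 0 ≤ |t - s| + |θ| := by positivity
  have h3 : j * (|t - s| + |θ|) ≤ 2 * ‖D'‖ + 2 * ‖e‖ := by
    have h4 : j * |t - s| ≤ |t - s| := by
      have := mul_le_mul_of_nonneg_right hj1 (abs_nonneg (t - s))
      linarith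
    have h5 : j * |θ| ≤ |θ| * J f G (x, u) s := by
      rw [mul_comm]
      exact mul_le_mul_of_nonneg_left hJ0 (abs_nonneg θ)
    linarith
  have h4 : c * (|t - s| + |θ|) ≤ j / 4 * (|t - s| + |θ|) :=
    mul_le_mul_of_nonneg_right hc1 hSnn
  have h5 : j / 2 * (|t - s| + |θ|) ≤ 2 * ‖D'‖ := by linarith
  have h6 : ‖e‖ ≤ ε * ‖D'‖ := by
    calc ‖e‖ ≤ c * (|t - s| + |θ|) := hmain
      _ ≤ j * ε / 4 * (|t - s| + |θ|) := mul_le_mul_of_nonneg_right hc2 hSnn
      _ = ε / 2 * (j / 2 * (|t - s| + |θ|)) := by ring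
      _ ≤ ε / 2 * (2 * ‖D'‖) := mul_le_mul_of_nonneg_left h5 (by positivity)
      _ = ε * ‖D'‖ := by ring
  linarith

end Pool.Agent.GR.GX4
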