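import Pool.Agent.GR.Defs
import Pool.Agent.GR.GX4
import Pool.Agent.GR.GB2
import Pool.Agent.GR.GA3
import Pool.Agent.GR.GC3

set_option autoImplicit false
open Set Filter Topology MeasureTheory
open scoped Gradient RealInnerProductSpace ContDiff


namespace Pool.Agent.GR.GX5
open Pool.Agent.GR
open Pool.Agent.GR.GX4 (polar_lower)
open Pool.Agent.GR.GB2 (G_UT)
open Pool.Agent.GR.GA3 (UT_compact S_compact)
open Pool.Agent.GR.GC3 (D_nonneg)




/-! ## TARGET (prove this) -/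

theorem len_lower_core {r : ℝ → ℝ} {γ : ℝ → E} {t δ' ε : ℝ} (hγc : ContinuousOn γ (Icc 0 1))
    (hrc : ContinuousOn r (Icc 0 1)) (hr0 : r 0 = 0) (hr1 : r 1 = t)
    (hδ' : 0 < δ') (hδt : δ' < t) (hε : 0 < ε)
    (hloc : ∃ η > 0, ∀ a ∈ Icc (0:ℝ) 1, ∀ b ∈ Icc (0:ℝ) 1, δ' ≤ r a → δ' ≤ r b →
      ‖γ a - γ b‖ < η → |r a - r b| ≤ (1 + ε) * ‖γ a - γ b‖)
    (hV : eVariationOn γ (Icc 0 1) ≠ ⊤) :
    t - δ' ≤ (1 + ε) * (eVariationOn γ (Icc 0 1)).toReal := by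
  obtain ⟨η, hη, hloc⟩ := hloc
  -- the last time
  have hScl : IsClosed (Icc (0:ℝ) 1 ∩ r ⁻¹' Iic δ') :=
    hrc.preimage_isClosed_of_isClosed isClosed_Icc isClosed_Iic
  have hSc : IsCompact (Icc (0:ℝ) 1 ∩ r ⁻¹' Iic δ') :=
    isCompact_Icc.of_isClosed_subset hScl inter_subset_left
  have hSne : (Icc (0:ℝ) 1 ∩ r ⁻¹' Iic δ').Nonempty :=
    ⟨0, ⟨le_refl _, zero_le_one⟩, by show r 0 ≤ δ'; rw [hr0]; exact hδ'.le⟩
  obtain ⟨τ₀, hτ₀, hgr⟩ := hSc.exists_isGreatest hSne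
  obtain ⟨⟨h0, h1⟩, hrτ⟩ := hτ₀
  have hrτ' : r τ₀ ≤ δ' := hrτ
  have hsub : Icc τ₀ 1 ⊆ Icc (0:ℝ) 1 := Icc_subset_Icc_left h0
  obtain ⟨c, hc, hrc'⟩ := intermediate_value_Icc h1 (hrc.mono hsub)
    (show δ' ∈ Icc (r τ₀) (r 1) from ⟨hrτ', by rw [hr1]; exact hδt.le⟩)
  have hcτ : c = τ₀ := le_antisymm (hgr ⟨hsub hc, by show r c ≤ δ'; rw [hrc']⟩) hc.1
  rw [hcτ] at hrc'
  have hge : ∀ a ∈ Icc τ₀ 1, δ' ≤ r a := by
    intro a ha
    by_contra hlt
    push Not at hlt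
    have h2 : a ≤ τ₀ := hgr ⟨hsub ha, hlt.le⟩
    have h3 : a = τ₀ := le_antisymm h2 ha.1
    rw [h3, hrc'] at hlt
    exact lt_irrefl _ hlt
  -- uniform continuity
  have huc := isCompact_Icc.uniformContinuousOn_of_continuous hγc
  rw [Metric.uniformContinuousOn_iff] at huc
  obtain ⟨κ, hκ, huc⟩ := huc η hη
  obtain ⟨n, hn⟩ := exists_nat_gt (1 / κ)
  have hn0 : (0:ℝ) < n := lt_trans (by positivity) hn
  have hnκ : 1 / (n:ℝ) < κ := by
    rw [div_lt_iff₀ hn0]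
    rw [div_lt_iff₀ hκ] at hn
    linarith
  let a : ℕ → ℝ := fun i => τ₀ + i * ((1 - τ₀) / n)
  have hstep : 0 ≤ (1 - τ₀) / n := div_nonneg (by linarith) hn0.le
  have hamem : ∀ i, i ≤ n → a i ∈ Icc τ₀ 1 := by
    intro i hi
    have hi' : (i:ℝ) ≤ n := by exact_mod_cast hi
    constructor
    · have : 0 ≤ (i:ℝ) * ((1 - τ₀) / n) := by positivity
      simp only [a]; linarith
    · have : (i:ℝ) * ((1 - τ₀) / n) ≤ n * ((1 - τ₀) / n) :=
        mul_le_mul_of_nonneg_right hi' hstep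
      rw [mul_div_cancel₀ _ hn0.ne'] at this
      simp only [a]; linarith
  have hamono : MonotoneOn a (Iic n) := by
    intro i _ j _ hij
    have : (i:ℝ) ≤ j := by exact_mod_cast hij
    have := mul_le_mul_of_nonneg_right this hstep
    simp only [a]; linarith
  have hsum : ∑ i ∈ Finset.range n, dist (γ (a (i + 1))) (γ (a i))
      ≤ (eVariationOn γ (Icc 0 1)).toReal := by
    have h2 := eVariationOn.sum_le_of_monotoneOn_Iic (f := γ) (s := Icc (0:ℝ) 1) (n := n)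
      (u := a) hamono (fun i hi => hsub (hamem i hi))
    have h3 : ∑ i ∈ Finset.range n, edist (γ (a (i + 1))) (γ (a i))
        = ENNReal.ofReal (∑ i ∈ Finset.range n, dist (γ (a (i + 1))) (γ (a i))) := by
      rw [ENNReal.ofReal_sum_of_nonneg (fun i _ => dist_nonneg)]
      exact Finset.sum_congr rfl fun i _ => edist_dist _ _
    rw [h3] at h2
    exact (ENNReal.ofReal_le_iff_le_toReal hV).mp h2
  have htel : ∑ i ∈ Finset.range n, (r (a (i + 1)) - r (a i)) = t - δ' := by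
    rw [Finset.sum_range_sub (fun i => r (a i))]
    have e0 : a 0 = τ₀ := by simp [a]
    have en : a n = 1 := by
      simp only [a]
      rw [mul_div_cancel₀ _ hn0.ne']; ring
    rw [e0, en, hrc', hr1]
  rw [← htel]
  refine le_trans ?_ (mul_le_mul_of_nonneg_left hsum (by linarith))
  rw [Finset.mul_sum]
  refine Finset.sum_le_sum fun i hi => ?_
  have hi' : i < n := Finset.mem_range.mp hi
  have m1 := hamem (i + 1) (by omega)
  have m2 := hamem i (by omega)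
  have hd : dist (a (i + 1)) (a i) < κ := by
    rw [Real.dist_eq]
    have e : a (i + 1) - a i = (1 - τ₀) / n := by
      simp only [a]; push_cast; ring
    rw [e, abs_of_nonneg hstep]
    refine lt_of_le_of_lt ?_ hnκ
    exact div_le_div_of_nonneg_right (by linarith) hn0.le
  have h4 := huc _ (hsub m1) _ (hsub m2) hd
  rw [dist_eq_norm] at h4 ⊢
  have h5 := hloc _ (hsub m1) _ (hsub m2) (hge _ m1) (hge _ m2) h4
  exact (le_abs_self _).trans h5

theorem len_lower {f : E → ℝ} {G : ℝ → E × E → E × E} (hf : Surf f) (hG : GFlow f G) {ρ δ : ℝ}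
    (hρ : 0 < ρ) (hδ : 0 < δ)
    (hinj : ∀ x u w s t, (x, u) ∈ UT f → (x, w) ∈ UT f → s ∈ Icc 0 ρ → t ∈ Icc 0 ρ →
      (G s (x, u)).1 = (G t (x, w)).1 → s = t ∧ (0 < s → u = w))
    (hJ : ∀ p ∈ UT f, ∀ t ∈ Ioc 0 ρ, 0 < J f G p t)
    (hsurj : ∀ x y, f x = 0 → f y = 0 → ‖y - x‖ < δ →
      ∃ u s, (x, u) ∈ UT f ∧ 0 ≤ s ∧ s < ρ ∧ (G s (x, u)).1 = y)
    {x u : E} (hu : (x, u) ∈ UT f) {t : ℝ} (ht : t ∈ Icc 0 ρ) {γ : ℝ → E}
    (hγ : Curve f γ x (G t (x, u)).1) :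
    ENNReal.ofReal (min t δ) ≤ eVariationOn γ (Icc 0 1) := by
  obtain ⟨hγc, hγ0, hγ1, hγf⟩ := hγ
  have hfx : f x = 0 := hu.1
  by_cases hfar : ∃ τ ∈ Icc (0:ℝ) 1, δ ≤ ‖γ τ - x‖
  · obtain ⟨τ, hτ, hd⟩ := hfar
    have h1 := eVariationOn.edist_le γ (s := Icc (0:ℝ) 1) hτ
      (show (0:ℝ) ∈ Icc (0:ℝ) 1 from ⟨le_refl _, zero_le_one⟩)
    refine le_trans ?_ h1
    rw [edist_dist, hγ0, dist_eq_norm]
    exact ENNReal.ofReal_le_ofReal ((min_le_right _ _).trans hd)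
  push Not at hfar
  by_cases hV : eVariationOn γ (Icc 0 1) = ⊤
  · rw [hV]; exact le_top
  rcases eq_or_lt_of_le ht.1 with ht0 | ht0
  · rw [← ht0, min_eq_left hδ.le]; simp
  -- polar coordinates
  have hex : ∀ τ : ℝ, ∃ (w : E) (s : ℝ), τ ∈ Icc (0:ℝ) 1 →
      ((x, w) ∈ UT f ∧ 0 ≤ s ∧ s < ρ ∧ (G s (x, w)).1 = γ τ) := by
    intro τ
    by_cases hτ : τ ∈ Icc (0:ℝ) 1
    · obtain ⟨w, s, h1, h2, h3, h4⟩ := hsurj x (γ τ) hfx (hγf τ hτ) (hfar τ hτ)
      exact ⟨w, s, fun _ => ⟨h1, h2, h3, h4⟩⟩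
    · exact ⟨0, 0, fun h => absurd h hτ⟩
  choose w r hwr using hex
  have huniq : ∀ τ ∈ Icc (0:ℝ) 1, ∀ v s, (x, v) ∈ UT f → s ∈ Icc 0 ρ →
      (G s (x, v)).1 = γ τ → s = r τ := by
    intro τ hτ v s hv hs he
    obtain ⟨h1, h2, h3, h4⟩ := hwr τ hτ
    exact (hinj x v (w τ) s (r τ) hv h1 hs ⟨h2, h3.le⟩ (he.trans h4.symm)).1
  have hr0 : r 0 = 0 := by
    refine (huniq 0 ⟨le_refl _, zero_le_one⟩ u 0 hu ⟨le_refl _, hρ.le⟩ ?_).symm
    rw [hG.zero, hγ0]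
  have hr1 : r 1 = t := by
    exact (huniq 1 ⟨zero_le_one, le_refl _⟩ u t hu ht hγ1.symm).symm
  -- continuity
  have hGc : Continuous (fun q : ℝ × (E × E) => G q.1 q.2) := hG.smooth.continuous
  have hUc : IsCompact {v : E | (x, v) ∈ UT f} := by
    have h1 := UT_compact hf
    have h2 : {v : E | (x, v) ∈ UT f} = (fun v : E => (x, v)) ⁻¹' UT f := rfl
    have hcl : IsClosed {v : E | (x, v) ∈ UT f} := by
      rw [h2]
      exact h1.isClosed.preimage (by fun_prop)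
    refine (isCompact_closedBall (0:E) 1).of_isClosed_subset hcl ?_
    intro v hv
    rw [mem_closedBall_zero_iff]
    exact hv.2.2.le
  have hrc : ContinuousOn r (Icc 0 1) := by
    intro τ hτ
    rw [ContinuousWithinAt, tendsto_iff_seq_tendsto]
    intro τs hτs
    rw [tendsto_nhdsWithin_iff] at hτs
    obtain ⟨hτs1, hτs2⟩ := hτs
    apply tendsto_of_subseq_tendsto
    intro ns hns
    -- all terms eventually in the interval
    have hev : ∀ᶠ n in atTop, τs (ns n) ∈ Icc (0:ℝ) 1 := hns.eventually hτs2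
    obtain ⟨N0, hN0⟩ := eventually_atTop.mp hev
    let σ : ℕ → ℝ := fun n => τs (ns (n + N0))
    have hσ : ∀ n, σ n ∈ Icc (0:ℝ) 1 := fun n => hN0 _ (by omega)
    have hK : IsCompact (Icc (0:ℝ) ρ ×ˢ {v : E | (x, v) ∈ UT f}) := isCompact_Icc.prod hUc
    obtain ⟨⟨s, v⟩, hsv, φ, hφ, hlim⟩ := hK.tendsto_subseq
      (x := fun n => (r (σ n), w (σ n))) (fun n => by
        obtain ⟨h1, h2, h3, h4⟩ := hwr (σ n) (hσ n)
        exact ⟨⟨h2, h3.le⟩, h1⟩)
    refine ⟨fun n => φ n + N0, ?_⟩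
    have hlim1 : Tendsto (fun n => r (σ (φ n))) atTop (𝓝 s) :=
      (continuous_fst.tendsto _).comp hlim
    have hlim2 : Tendsto (fun n => w (σ (φ n))) atTop (𝓝 v) :=
      (continuous_snd.tendsto _).comp hlim
    have hA : Tendsto (fun n => (G (r (σ (φ n))) (x, w (σ (φ n)))).1) atTop
        (𝓝 (G s (x, v)).1) := by
      have h1 : Tendsto (fun n => ((r (σ (φ n)), (x, w (σ (φ n)))) : ℝ × (E × E))) atTop
          (𝓝 (s, (x, v))) := hlim1.prodMk_nhds (tendsto_const_nhds.prodMk_nhds hlim2)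
      exact ((continuous_fst.comp hGc).tendsto _).comp h1
    have hB : Tendsto (fun n => γ (σ (φ n))) atTop (𝓝 (γ τ)) := by
      have h1 : Tendsto (fun n => σ (φ n)) atTop (𝓝[Icc 0 1] τ) := by
        rw [tendsto_nhdsWithin_iff]
        refine ⟨?_, Eventually.of_forall fun n => hσ _⟩
        have h2 : Tendsto (fun n => φ n + N0) atTop atTop :=
          (Filter.tendsto_add_atTop_nat N0).comp hφ.tendsto_atTop
        exact hτs1.comp (hns.comp h2)
      exact (hγc τ hτ).tendsto.comp h1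
    have hAB : (fun n => (G (r (σ (φ n))) (x, w (σ (φ n)))).1) = fun n => γ (σ (φ n)) := by
      funext n
      exact (hwr (σ (φ n)) (hσ _)).2.2.2
    rw [hAB] at hA
    have he := tendsto_nhds_unique hA hB
    have hs := huniq τ hτ v s hsv.2 hsv.1 he
    rw [← hs]
    exact hlim1
  have key : ∀ δ' ε : ℝ, 0 < δ' → δ' < t → 0 < ε →
      t - δ' ≤ (1 + ε) * (eVariationOn γ (Icc 0 1)).toReal := by
    intro δ' ε hδ' hδt hε
    apply len_lower_core hγc hrc hr0 hr1 hδ' hδt hε _ hV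
    obtain ⟨η, hη, hpl⟩ := polar_lower hf hG hinj hJ hδ' hε
    refine ⟨η, hη, fun a ha b hb hra hrb hab => ?_⟩
    obtain ⟨a1, a2, a3, a4⟩ := hwr a ha
    obtain ⟨b1, b2, b3, b4⟩ := hwr b hb
    have := hpl x (w a) (w b) (r a) (r b) a1 b1 ⟨hra, a3.le⟩ ⟨hrb, b3.le⟩
      (by rw [a4, b4]; exact hab)
    rwa [a4, b4] at this
  set V := (eVariationOn γ (Icc 0 1)).toReal with hVdef
  have hV0 : 0 ≤ V := ENNReal.toReal_nonneg
  have htV : t ≤ V := by
    by_contra hc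
    push Not at hc
    have h1 := key (min (t / 2) ((t - V) / 4)) ((t - V) / (4 * (V + 1)))
      (lt_min (by linarith) (by linarith)) (lt_of_le_of_lt (min_le_left _ _) (by linarith))
      (div_pos (by linarith) (by linarith))
    have h2 : min (t / 2) ((t - V) / 4) ≤ (t - V) / 4 := min_le_right _ _
    have h3 : (t - V) / (4 * (V + 1)) * V ≤ (t - V) / 4 := by
      rw [div_mul_eq_mul_div, div_le_div_iff₀ (by linarith) (by norm_num)]
      nlinarith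
    nlinarith
  calc ENNReal.ofReal (min t δ) ≤ ENNReal.ofReal V :=
        ENNReal.ofReal_le_ofReal ((min_le_left _ _).trans htV)
    _ = eVariationOn γ (Icc 0 1) := ENNReal.ofReal_toReal hV

end Pool.Agent.GR.GX5
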