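import Pool.Agent.GR.Defs
import Pool.Agent.GR.GX3
import Pool.Agent.GR.GL6
import Pool.Agent.GR.GX5
import Pool.Agent.GR.GC3
import Pool.Agent.GR.GB2

set_option autoImplicit false
open Set Filter Topology MeasureTheory
open scoped Gradient RealInnerProductSpace ContDiff


namespace Pool.Agent.GR.GX6
open Pool.Agent.GR
open Pool.Agent.GR.GX3 (polar_inj polar_surj)
open Pool.Agent.GR.GL6 (J_pos_small)
open Pool.Agent.GR.GX5 (len_lower)
open Pool.Agent.GR.GC3 (eD_eq D_nonneg D_ge D_comm D_self)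
open Pool.Agent.GR.GB2 (D_G_le G_UT)




/-! ## TARGET (prove this) -/

theorem local_struct {f : E → ℝ} {G : ℝ → E × E → E × E} (hf : Surf f) (hG : GFlow f G) :
    ∃ ρ > 0, (∀ x u w s t, (x, u) ∈ UT f → (x, w) ∈ UT f → s ∈ Ioc 0 ρ → t ∈ Ioc 0 ρ →
      (G s (x, u)).1 = (G t (x, w)).1 → s = t ∧ u = w) ∧
      (∀ p ∈ UT f, ∀ t ∈ Icc 0 ρ, D f p.1 (G t p).1 = t) ∧
      (∀ x y, f x = 0 → f y = 0 → x ≠ y → D f x y ≤ ρ →
        ∃ u, (x, u) ∈ UT f ∧ (G (D f x y) (x, u)).1 = y) := by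
  obtain ⟨ρa, ha, inja⟩ := polar_inj hf hG
  obtain ⟨ρb, hb, Jb⟩ := J_pos_small hf hG
  have hρ₁ : 0 < min ρa ρb := lt_min ha hb
  obtain ⟨δ₁, hδ₁, surj⟩ := polar_surj hf hG (min ρa ρb) hρ₁
  have inj : ∀ x u w s t, (x, u) ∈ UT f → (x, w) ∈ UT f → s ∈ Icc 0 (min ρa ρb) →
      t ∈ Icc 0 (min ρa ρb) → (G s (x, u)).1 = (G t (x, w)).1 → s = t ∧ (0 < s → u = w) :=
    fun x u w s t h1 h2 h3 h4 h5 => inja x u w s t h1 h2 ⟨h3.1, h3.2.trans (min_le_left _ _)⟩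
      ⟨h4.1, h4.2.trans (min_le_left _ _)⟩ h5
  have Jp : ∀ p ∈ UT f, ∀ t ∈ Ioc 0 (min ρa ρb), 0 < J f G p t :=
    fun p hp t ht => Jb p hp t ⟨ht.1, ht.2.trans (min_le_right _ _)⟩
  generalize hρd : min ρa ρb = ρ₁ at hρ₁ surj inj Jp
  have lower : ∀ x u t, (x, u) ∈ UT f → t ∈ Icc 0 ρ₁ → min t δ₁ ≤ D f x (G t (x, u)).1 := by
    intro x u t hu ht
    have hx : f x = 0 := hu.1
    have hy : f (G t (x, u)).1 = 0 := (G_UT hG hu t).1
    have h1 : ENNReal.ofReal (min t δ₁) ≤ eD f x (G t (x, u)).1 := by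
      unfold eD
      refine le_iInf fun γ => le_iInf fun hγ => ?_
      exact len_lower hf hG hρ₁ hδ₁ inj Jp surj hu ht hγ
    rw [eD_eq hf hx hy, ENNReal.ofReal_le_ofReal_iff (D_nonneg f _ _)] at h1
    exact h1
  have upper : ∀ x u t, (x, u) ∈ UT f → 0 ≤ t → D f x (G t (x, u)).1 ≤ t := by
    intro x u t hu ht
    have h1 := D_G_le hf hG hu 0 t
    rw [hG.zero, zero_sub, abs_neg, abs_of_nonneg ht] at h1
    exact h1
  have hm1 : min ρ₁ δ₁ ≤ ρ₁ := min_le_left _ _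
  have hm2 : min ρ₁ δ₁ ≤ δ₁ := min_le_right _ _
  have hm0 : 0 < min ρ₁ δ₁ := lt_min hρ₁ hδ₁
  refine ⟨min ρ₁ δ₁ / 2, by positivity, ?_, ?_, ?_⟩
  · intro x u w s t hu hw hs ht h
    have h1 := inj x u w s t hu hw ⟨hs.1.le, by linarith [hs.2]⟩ ⟨ht.1.le, by linarith [ht.2]⟩ h
    exact ⟨h1.1, h1.2 hs.1⟩
  · rintro ⟨x, u⟩ hp t ht
    have h1 := lower x u t hp ⟨ht.1, by linarith [ht.2]⟩
    have h2 := upper x u t hp ht.1
    have h3 : min t δ₁ = t := min_eq_left (by linarith [ht.2])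
    rw [h3] at h1
    exact le_antisymm h2 h1
  · intro x y hx hy hxy hD
    have h1 := D_ge hf hx hy
    have h2 : ‖y - x‖ < δ₁ := by
      rw [norm_sub_rev]
      linarith
    obtain ⟨u, s, hu, hs0, hs1, hs⟩ := surj x y hx hy h2
    have h3 := lower x u s hu ⟨hs0, hs1.le⟩
    have h4 := upper x u s hu hs0
    rw [hs] at h3 h4
    have h5 : s ≤ D f x y := by
      rcases min_choice s δ₁ with h6 | h6
      · rw [h6] at h3; exact h3
      · rw [h6] at h3; linarith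
    have h7 : D f x y = s := le_antisymm h4 h5
    exact ⟨u, hu, by rw [h7]; exact hs⟩

end Pool.Agent.GR.GX6
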