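import Pool.Agent.GR.Defs
import Pool.Agent.GR.GE2
import Pool.Agent.GR.GX6
import Pool.Agent.GR.GE1
import Pool.Agent.GR.GC3
import Pool.Agent.GR.GB2

set_option autoImplicit false
open Set Filter Topology MeasureTheory
open scoped Gradient RealInnerProductSpace ContDiff


namespace Pool.Agent.GR.GE4
open Pool.Agent.GR
open Pool.Agent.GR.GE2 (chain)
open Pool.Agent.GR.GX6 (local_struct)
open Pool.Agent.GR.GE1 (broken)
open Pool.Agent.GR.GC3 (D_nonneg D_comm D_tri D_self D_ge)
open Pool.Agent.GR.GB2 (D_G_le G_UT)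




/-! ## TARGET (prove this) -/

theorem exists_dir {f : E → ℝ} {G : ℝ → E × E → E × E} (hf : Surf f) (hG : GFlow f G) {x y : E}
    (hx : f x = 0) (hy : f y = 0) (hne : x ≠ y) :
    ∃ u, (x, u) ∈ UT f ∧ (G (D f x y) (x, u)).1 = y := by
  obtain ⟨ρ, hρ, -, -, hloc⟩ := local_struct hf hG
  have hl : 0 < D f x y := by
    have h1 := D_ge hf hx hy
    have h2 : 0 < ‖x - y‖ := norm_pos_iff.2 (sub_ne_zero.2 hne)
    linarith
  obtain ⟨n, hn⟩ := pow_unbounded_of_one_lt (D f x y / ρ) (by norm_num : (1 : ℝ) < 2)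
  obtain ⟨z, z0, z1, zf, zD⟩ := chain hf hx hy n
  obtain ⟨δ, hδ⟩ : ∃ δ, δ = D f x y / 2 ^ n := ⟨_, rfl⟩
  have h2n : (0 : ℝ) < 2 ^ n := by positivity
  have hδ0 : 0 < δ := by rw [hδ]; positivity
  have hδρ : δ ≤ ρ := by
    rw [hδ, div_le_iff₀ h2n]
    rw [div_lt_iff₀ hρ] at hn
    linarith
  have hδl : 2 ^ n * δ = D f x y := by
    rw [hδ]
    field_simp
  rw [← hδ] at zD
  have hle : ∀ i j, i + j ≤ 2 ^ n → D f (z i) (z (i + j)) ≤ j * δ := by
    intro i j
    induction j with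
    | zero =>
      intro _
      rw [add_zero, D_self (zf i)]
      simp
    | succ j ih =>
      intro hij
      have h1 := ih (by omega)
      have h2 := D_tri hf (zf i) (zf (i + j)) (zf (i + j + 1))
      have h3 := zD (i + j) (by omega)
      rw [← add_assoc]
      push_cast
      linarith
  have heq : ∀ i ≤ 2 ^ n, D f x (z i) = i * δ := by
    intro i hi
    apply le_antisymm
    · have h1 := hle 0 i (by omega)
      rw [zero_add, z0] at h1
      exact h1
    · have h1 := hle i (2 ^ n - i) (by omega)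
      have h2 := D_tri hf hx (zf i) hy
      rw [show i + (2 ^ n - i) = 2 ^ n by omega, z1] at h1
      have h3 : ((2 ^ n - i : ℕ) : ℝ) = 2 ^ n - i := by
        rw [Nat.cast_sub hi]
        push_cast
        ring
      rw [h3] at h1
      nlinarith
  have hv : ∀ i < 2 ^ n, ∃ v, (z i, v) ∈ UT f ∧ (G δ (z i, v)).1 = z (i + 1) := by
    intro i hi
    have hzz : z i ≠ z (i + 1) := by
      intro h
      have h1 := zD i hi
      rw [← h, D_self (zf i)] at h1
      linarith
    obtain ⟨u, hu, hGu⟩ := hloc (z i) (z (i + 1)) (zf i) (zf (i + 1)) hzz (by rw [zD i hi]; exact hδρ)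
    rw [zD i hi] at hGu
    exact ⟨u, hu, hGu⟩
  have hpos : 0 < 2 ^ n := by positivity
  obtain ⟨v0, hv0, hGv0⟩ := hv 0 hpos
  rw [z0] at hv0 hGv0
  have hind : ∀ i : ℕ, i + 1 ≤ 2 ^ n → (G (((i + 1 : ℕ) : ℝ) * δ) (x, v0)).1 = z (i + 1) := by
    intro i
    induction i with
    | zero =>
      intro _
      simpa using hGv0
    | succ i ih =>
      intro hi
      have h1 := ih (by omega)
      obtain ⟨v, hv1, hv2⟩ := hv (i + 1) (by omega)
      have h3 := broken hf hG (x := x) (u := v0) (y := z (i + 1)) (v := v)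
        (s := ((i + 1 : ℕ) : ℝ) * δ) (t := δ) hv0 (by positivity) hδ0 h1 hv1 (by
          rw [hv2, heq (i + 1 + 1) hi]
          push_cast
          linarith)
      have h4 := h3.2
      have e : (((i + 1 + 1 : ℕ) : ℝ)) * δ = ((i + 1 : ℕ) : ℝ) * δ + δ := by
        push_cast
        ring
      rw [e, h4, hv2]
  refine ⟨v0, hv0, ?_⟩
  have h5 := hind (2 ^ n - 1) (by omega)
  rw [show 2 ^ n - 1 + 1 = 2 ^ n by omega, z1] at h5
  have e : (((2 ^ n : ℕ) : ℝ)) * δ = D f x y := by
    push_cast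
    exact hδl
  rw [e] at h5
  exact h5

end Pool.Agent.GR.GE4
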