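import Pool.Agent.GR.Defs
import Pool.Agent.GR.GE4
import Pool.Agent.GR.GX6
import Pool.Agent.GR.GE1
import Pool.Agent.GR.GC3
import Pool.Agent.GR.GB2

set_option autoImplicit false
open Set Filter Topology MeasureTheory
open scoped Gradient RealInnerProductSpace ContDiff


namespace Pool.Agent.GR.GE5
open Pool.Agent.GR
open Pool.Agent.GR.GE4 (exists_dir)
open Pool.Agent.GR.GX6 (local_struct)
open Pool.Agent.GR.GE1 (broken)
open Pool.Agent.GR.GC3 (D_nonneg D_comm D_tri D_self D_ge)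
open Pool.Agent.GR.GB2 (D_G_le G_UT)




/-! ## TARGET (prove this) -/

theorem geod_of_metric {f : E → ℝ} {G : ℝ → E × E → E × E} (hf : Surf f) (hG : GFlow f G)
    {σ : ℝ → E} {l : ℝ} (hl : 0 < l) (hS : ∀ t ∈ Icc 0 l, f (σ t) = 0)
    (h : ∀ s ∈ Icc 0 l, ∀ t ∈ Icc 0 l, D f (σ s) (σ t) = |s - t|) :
    ∃ u, (σ 0, u) ∈ UT f ∧ ∀ t ∈ Icc 0 l, (G t (σ 0, u)).1 = σ t := by
  obtain ⟨ρ, hρ, inj, -, -⟩ := local_struct hf hG
  have hdir : ∀ a b, 0 ≤ a → a < b → b ≤ l → ∃ v, (σ a, v) ∈ UT f ∧ (G (b - a) (σ a, v)).1 = σ b := by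
    intro a b ha hab hb
    have ha' : a ∈ Icc 0 l := ⟨ha, by linarith⟩
    have hb' : b ∈ Icc 0 l := ⟨by linarith, hb⟩
    have hD : D f (σ a) (σ b) = b - a := by
      rw [h a ha' b hb', abs_sub_comm, abs_of_pos (by linarith)]
    have hne : σ a ≠ σ b := by
      intro he
      rw [he, D_self (hS b hb')] at hD
      linarith
    obtain ⟨v, hv, hv'⟩ := exists_dir hf hG (hS a ha') (hS b hb') hne
    rw [hD] at hv'
    exact ⟨v, hv, hv'⟩
  have h0l : (0:ℝ) ∈ Icc 0 l := ⟨le_rfl, hl.le⟩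
  have hD0 : ∀ t ∈ Icc 0 l, D f (σ 0) (σ t) = t := by
    intro t ht
    rw [h 0 h0l t ht, zero_sub, abs_neg, abs_of_nonneg ht.1]
  obtain ⟨r, hr0, hrl, hrρ⟩ : ∃ r, 0 < r ∧ r ≤ l ∧ r ≤ ρ :=
    ⟨min ρ l, lt_min hρ hl, min_le_right _ _, min_le_left _ _⟩
  obtain ⟨u, hu, hur⟩ := hdir 0 r le_rfl hr0 hrl
  rw [sub_zero] at hur
  refine ⟨u, hu, ?_⟩
  intro t ht
  rcases eq_or_lt_of_le ht.1 with h0 | h0
  · rw [← h0, hG.zero]
  rcases lt_trichotomy t r with htr | htr | htr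
  · obtain ⟨w, hw, hwt⟩ := hdir 0 t le_rfl h0 ht.2
    rw [sub_zero] at hwt
    obtain ⟨v, hv, hvr⟩ := hdir t r h0.le htr hrl
    have hb := broken hf hG hw h0 (by linarith : 0 < r - t) hwt hv
      (by rw [hvr, hD0 r ⟨hr0.le, hrl⟩]; linarith)
    have hb2 : (G r (σ 0, w)).1 = σ r := by
      have := hb.2
      rw [show t + (r - t) = r by ring] at this
      rw [this]
      exact hvr
    have := (inj (σ 0) w u r r hw hu ⟨hr0, hrρ⟩ ⟨hr0, hrρ⟩ (hb2.trans hur.symm)).2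
    rw [← this]
    exact hwt
  · rw [htr]
    exact hur
  · obtain ⟨v, hv, hvt⟩ := hdir r t hr0.le htr ht.2
    have hb := broken hf hG hu hr0 (by linarith : 0 < t - r) hur hv
      (by rw [hvt, hD0 t ht]; linarith)
    have := hb.2
    rw [show r + (t - r) = t by ring] at this
    rw [this]
    exact hvt

end Pool.Agent.GR.GE5
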