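import Pool.Agent.GR.Defs
import Pool.Agent.GR.GE5
import Pool.Agent.GR.GE3
import Pool.Agent.GR.GC6
import Pool.Agent.GR.GC3
import Pool.Agent.GR.GC2
import Pool.Agent.GR.GB2

set_option autoImplicit false
open Set Filter Topology MeasureTheory
open scoped Gradient RealInnerProductSpace ContDiff


namespace Pool.Agent.GR.GE6
open Pool.Agent.GR
open Pool.Agent.GR.GE5 (geod_of_metric)
open Pool.Agent.GR.GE3 (unique_before D_mono)
open Pool.Agent.GR.GC6 (shortest_struct var_le)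
open Pool.Agent.GR.GC3 (eD_eq D_nonneg D_comm D_tri D_self D_ge)
open Pool.Agent.GR.GC2 (eD_comm)
open Pool.Agent.GR.GB2 (D_G_le G_UT G_lip)




/-! ## TARGET (prove this) -/

theorem dir_sub_or_inf {f : E → ℝ} {G : ℝ → E × E → E × E} (hf : Surf f) (hG : GFlow f G)
    (hM : PropM f) {x y : E} (hx : f x = 0) (hy : f y = 0) (hne : x ≠ y) :
    (Dir f G x y).Subsingleton ∨ (Dir f G x y).Infinite := by
  obtain ⟨l, hl⟩ : ∃ l, l = D f x y := ⟨_, rfl⟩
  have hlpos : 0 < l := by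
    have h1 := D_ge hf hx hy
    have h2 : 0 < ‖x - y‖ := norm_pos_iff.mpr (sub_ne_zero.mpr hne)
    rw [hl]
    linarith
  obtain ⟨Au, hAu⟩ : ∃ Au : E → Set E,
      Au = fun u => (fun t => (G (l * t) (x, u)).1) '' Icc (0 : ℝ) 1 := ⟨_, rfl⟩
  have hDir : ∀ u ∈ Dir f G x y, (x, u) ∈ UT f ∧ (G l (x, u)).1 = y := by
    intro u hu
    rw [hl]
    exact hu
  obtain ⟨𝒜, h𝒜⟩ : ∃ 𝒜 : Set (Set E), 𝒜 = {A | ∃ γ : ℝ → E,
            ContinuousOn γ (Set.Icc 0 1) ∧ γ 0 = x ∧ γ 1 = y ∧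
            (∀ t ∈ Set.Icc (0:ℝ) 1, f (γ t) = 0) ∧
            (∀ δ : ℝ → E,
              ContinuousOn δ (Set.Icc 0 1) → δ 0 = x → δ 1 = y →
              (∀ t ∈ Set.Icc (0:ℝ) 1, f (δ t) = 0) →
              eVariationOn γ (Set.Icc 0 1) ≤ eVariationOn δ (Set.Icc 0 1)) ∧
            γ '' Set.Icc 0 1 = A} := ⟨_, rfl⟩
  -- every direction gives a member
  have c1 : ∀ u ∈ Dir f G x y, Au u ∈ 𝒜 := by
    intro u hu
    obtain ⟨hu1, hu2⟩ := hDir u hu
    rw [h𝒜, hAu]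
    refine ⟨fun t => (G (l * t) (x, u)).1, ?_, ?_, ?_, ?_, ?_, rfl⟩
    · have h1 : Continuous (fun q : ℝ × (E × E) => G q.1 q.2) := hG.smooth.continuous
      have h2 : Continuous (fun t : ℝ => (G (l * t) (x, u)).1) :=
        (h1.comp ((continuous_const.mul continuous_id).prodMk continuous_const)).fst
      exact h2.continuousOn
    · simp only [mul_zero, hG.zero]
    · simp only [mul_one, hu2]
    · intro t _
      exact (G_UT hG hu1 (l * t)).1
    · intro δ hδ hδ0 hδ1 hδs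
      have h1 := var_le (σ := fun t => (G t (x, u)).1) hlpos.le
        (fun s _ t _ => G_lip hG hu1 s t)
      refine h1.trans ?_
      rw [hl, ← eD_eq hf hx hy]
      exact iInf₂_le δ ⟨hδ, hδ0, hδ1, hδs⟩
  -- injectivity
  have c2 : ∀ u ∈ Dir f G x y, ∀ w ∈ Dir f G x y, Au u = Au w → u = w := by
    intro u hu w hw huw
    obtain ⟨hu1, hu2⟩ := hDir u hu
    obtain ⟨hw1, hw2⟩ := hDir w hw
    have h1 : (G (l * (1 / 2)) (x, u)).1 ∈ Au u := by
      rw [hAu]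
      exact ⟨1 / 2, ⟨by norm_num, by norm_num⟩, rfl⟩
    rw [huw, hAu] at h1
    obtain ⟨t', ht', heq⟩ := h1
    have heq' : (G (l * t') (x, w)).1 = (G (l * (1 / 2)) (x, u)).1 := heq
    have hDw : D f x (G l (x, w)).1 = l := by rw [hw2, hl]
    have hDu : D f x (G l (x, u)).1 = l := by rw [hu2, hl]
    have ht1 : 0 ≤ l * t' := mul_nonneg hlpos.le ht'.1
    have ht2 : l * t' ≤ l := by
      have := mul_le_mul_of_nonneg_left ht'.2 hlpos.le
      linarith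
    have h3 : D f x (G (l * t') (x, w)).1 = l * t' := D_mono hf hG (p := (x, w)) hw1 ht1 ht2 hDw
    exact (unique_before hf hG hu1 hw1 (s := l * (1 / 2)) (s' := l * t') (t := l) (by linarith)
      (by linarith) hDu h3 heq'.symm).2
  -- surjectivity
  have c3 : ∀ A ∈ 𝒜, ∃ u ∈ Dir f G x y, Au u = A := by
    intro A hA
    rw [h𝒜] at hA
    obtain ⟨γ, hγc, hγ0, hγ1, hγs, hγm, hγA⟩ := hA
    have hmin : eVariationOn γ (Icc 0 1) ≤ eD f x y :=
      le_iInf₂ fun δ hδ => hγm δ hδ.1 hδ.2.1 hδ.2.2.1 hδ.2.2.2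
    obtain ⟨σ, hσ0, hσ1, hσs, hσi, hσA⟩ := shortest_struct hf ⟨hγc, hγ0, hγ1, hγs⟩ hmin
    rw [← hl] at hσ1 hσs hσi hσA
    obtain ⟨u, hu1, hu2⟩ := geod_of_metric hf hG hlpos hσs hσi
    rw [hσ0] at hu1 hu2
    refine ⟨u, ⟨hu1, ?_⟩, ?_⟩
    · rw [← hl, hu2 l ⟨hlpos.le, le_rfl⟩, hσ1]
    · rw [← hγA, ← hσA, hAu]
      ext z
      constructor
      · rintro ⟨t, ht, rfl⟩
        have ht1 : 0 ≤ l * t := mul_nonneg hlpos.le ht.1
        have ht2 : l * t ≤ l := by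
          have := mul_le_mul_of_nonneg_left ht.2 hlpos.le
          linarith
        exact ⟨l * t, ⟨ht1, ht2⟩, (hu2 (l * t) ⟨ht1, ht2⟩).symm⟩
      · rintro ⟨t, ht, rfl⟩
        refine ⟨t / l, ⟨div_nonneg ht.1 hlpos.le, (div_le_one hlpos).mpr ht.2⟩, ?_⟩
        show (G (l * (t / l)) (x, u)).1 = σ t
        rw [mul_div_cancel₀ t hlpos.ne']
        exact hu2 t ht
  rcases hM x y hx hy 𝒜 h𝒜 with h | h
  · left
    intro u hu w hw
    exact c2 u hu w hw (h (c1 u hu) (c1 w hw))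
  · right
    refine Set.Infinite.of_image Au ?_
    refine h.mono ?_
    intro A hA
    obtain ⟨u, hu, huA⟩ := c3 A hA
    exact ⟨u, hu, huA⟩

end Pool.Agent.GR.GE6
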