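import Pool.Agent.GR.PD

set_option autoImplicit false
open Set Filter Topology MeasureTheory
open scoped Gradient RealInnerProductSpace ContDiff


namespace Pool.Agent.GR.GF1
open Pool.Agent.GR


variable {S : Set E} {d : E → E → ℝ} {x : E} {F : ℝ → ℝ → E} {I : ℝ → ℝ → ℝ} {n : ℝ → ℝ → E}

/-! ## TARGET (prove this) -/

theorem GF1_dxx (h : PD S d x F I n) : d x x = 0 := by
  have h1 := h.d_F 0 0 0
  rw [h.F_zero, sub_self, abs_zero] at h1
  exact le_antisymm h1 (h.d_nonneg x x)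

theorem GF1_bdd (h : PD S d x F I n) : ∃ M : ℝ, ∀ θ, ∀ t ∈ {t | 0 ≤ t ∧ d x (F t θ) = t},
    t ≤ M := by
  obtain ⟨M, hM⟩ := h.d_bdd
  refine ⟨M, ?_⟩
  rintro θ t ⟨_, ht⟩
  rw [← ht]
  exact hM x h.x_mem _ (h.F_mem t θ)

theorem GF1_zero (h : PD S d x F I n) (θ : ℝ) : (0 : ℝ) ∈ {t | 0 ≤ t ∧ d x (F t θ) = t} := by
  refine ⟨le_refl 0, ?_⟩
  rw [h.F_zero]
  exact GF1_dxx h

theorem GF1_cont (h : PD S d x F I n) (θ : ℝ) : Continuous fun t => d x (F t θ) := by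
  have h1 : Continuous fun t : ℝ => (x, F t θ) := by
    have h2 : Continuous fun t : ℝ => F t θ :=
      h.F_smooth.continuous.comp (continuous_id.prodMk continuous_const)
    exact continuous_const.prodMk h2
  exact h.d_cont.comp_continuous h1 (fun t => ⟨h.x_mem, h.F_mem t θ⟩)

theorem GF1_closed (h : PD S d x F I n) (θ : ℝ) :
    IsClosed {t | 0 ≤ t ∧ d x (F t θ) = t} :=
  (isClosed_le continuous_const continuous_id).inter (isClosed_eq (GF1_cont h θ) continuous_id)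

theorem GF1_down (h : PD S d x F I n) {s t θ : ℝ} (hs : 0 ≤ s) (hst : s ≤ t)
    (ht : d x (F t θ) = t) : d x (F s θ) = s := by
  have h1 : d x (F s θ) ≤ s := by
    have h2 := h.d_F 0 s θ
    rw [h.F_zero, zero_sub, abs_neg, abs_of_nonneg hs] at h2
    exact h2
  have h3 : d (F s θ) (F t θ) ≤ t - s := by
    have h4 := h.d_F s t θ
    rw [abs_sub_comm, abs_of_nonneg (sub_nonneg.2 hst)] at h4
    exact h4
  have h5 := h.d_tri x h.x_mem _ (h.F_mem s θ) _ (h.F_mem t θ)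
  rw [ht] at h5
  linarith

theorem cut_pos (h : PD S d x F I n) (θ : ℝ) : 0 < cut d x F θ := by
  obtain ⟨ρ, hρ, hs⟩ := h.small
  obtain ⟨M, hM⟩ := GF1_bdd h
  refine lt_of_lt_of_le hρ (le_csSup ⟨M, hM θ⟩ ?_)
  exact ⟨hρ.le, hs ρ ⟨hρ.le, le_refl ρ⟩ θ⟩
theorem cut_le (h : PD S d x F I n) : ∃ M : ℝ, ∀ θ, cut d x F θ ≤ M := by
  obtain ⟨M, hM⟩ := GF1_bdd h
  exact ⟨M, fun θ => csSup_le ⟨0, GF1_zero h θ⟩ (hM θ)⟩
theorem cut_iff (h : PD S d x F I n) {t θ : ℝ} (ht : 0 ≤ t) :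
    d x (F t θ) = t ↔ t ≤ cut d x F θ := by
  obtain ⟨M, hM⟩ := GF1_bdd h
  constructor
  · intro h1
    exact le_csSup ⟨M, hM θ⟩ ⟨ht, h1⟩
  · intro h1
    have h2 : cut d x F θ ∈ {t | 0 ≤ t ∧ d x (F t θ) = t} :=
      (GF1_closed h θ).csSup_mem ⟨0, GF1_zero h θ⟩ ⟨M, hM θ⟩
    exact GF1_down h ht h1 h2.2
theorem cut_per (h : PD S d x F I n) (θ : ℝ) (k : ℤ) : cut d x F (θ + k * (2 * Real.pi)) = cut d x F θ := by
  unfold cut
  simp only [h.F_per]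

end Pool.Agent.GR.GF1
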