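import Pool.Agent.GR.PD
import Pool.Agent.GR.GF1

set_option autoImplicit false
open Set Filter Topology MeasureTheory
open scoped Gradient RealInnerProductSpace ContDiff


namespace Pool.Agent.GR.GF2
open Pool.Agent.GR
open Pool.Agent.GR.GF1 (cut_pos cut_le cut_iff cut_per)


variable {S : Set E} {d : E → E → ℝ} {x : E} {F : ℝ → ℝ → E} {I : ℝ → ℝ → ℝ} {n : ℝ → ℝ → E}



/-! ## TARGET (prove this) -/

theorem cut_unique (h : PD S d x F I n) {s s' θ φ : ℝ} (hs : 0 < s) (hs1 : s < cut d x F θ)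
    (hs0 : 0 ≤ s') (hs' : s' ≤ cut d x F φ) (heq : F s θ = F s' φ) :
    s = s' ∧ ∃ k : ℤ, φ = θ + k * (2 * Real.pi) := by
  exact h.unique θ φ s s' (cut d x F θ) hs hs1 ((cut_iff h (cut_pos h θ).le).2 le_rfl)
    ((cut_iff h hs0).2 hs') heq
theorem cut_usc (h : PD S d x F I n) {u : ℕ → ℝ} {θ r : ℝ} (hu : Tendsto u atTop (𝓝 θ))
    (hr : Tendsto (fun k => cut d x F (u k)) atTop (𝓝 r)) : r ≤ cut d x F θ := by
  have hr0 : 0 ≤ r := ge_of_tendsto' hr (fun k => (cut_pos h (u k)).le)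
  rw [← cut_iff h hr0]
  have hd : ∀ k, d x (F (cut d x F (u k)) (u k)) = cut d x F (u k) :=
    fun k => (cut_iff h (cut_pos h (u k)).le).2 le_rfl
  have hF : Tendsto (fun k => F (cut d x F (u k)) (u k)) atTop (𝓝 (F r θ)) := by
    have h1 : Tendsto (fun k => (cut d x F (u k), u k)) atTop (𝓝 (r, θ)) := hr.prodMk_nhds hu
    exact (h.F_smooth.continuous.tendsto (r, θ)).comp h1
  have hc := h.d_cont (x, F r θ) ⟨h.x_mem, h.F_mem r θ⟩
  have h2 : Tendsto (fun k => (x, F (cut d x F (u k)) (u k))) atTop (𝓝[S ×ˢ S] (x, F r θ)) := by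
    rw [tendsto_nhdsWithin_iff]
    exact ⟨tendsto_const_nhds.prodMk_nhds hF,
      Filter.Eventually.of_forall (fun k => ⟨h.x_mem, h.F_mem _ _⟩)⟩
  have h3 : Tendsto (fun k => d x (F (cut d x F (u k)) (u k))) atTop (𝓝 (d x (F r θ))) :=
    hc.tendsto.comp h2
  have h4 : Tendsto (fun k => d x (F (cut d x F (u k)) (u k))) atTop (𝓝 r) :=
    hr.congr (fun k => (hd k).symm)
  exact tendsto_nhds_unique h3 h4
theorem loc_inj (h : PD S d x F I n) {t θ : ℝ} (hI : I t θ ≠ 0) :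
    ∃ ε > 0, ∀ s φ s' φ', |s - t| < ε → |s' - t| < ε → |φ - θ| < ε → |φ' - θ| < ε →
      F s φ = F s' φ' → s = s' ∧ φ = φ' := by
  have hst : HasStrictFDerivAt (fun q : ℝ × ℝ => F q.1 q.2)
      (fderiv ℝ (fun q : ℝ × ℝ => F q.1 q.2) (t, θ)) (t, θ) :=
    h.F_smooth.contDiffAt.hasStrictFDerivAt (by simp)
  set Φ' := fderiv ℝ (fun q : ℝ × ℝ => F q.1 q.2) (t, θ) with hΦ'
  have h10 : Φ' (1, 0) = deriv (fun s => F s θ) t := by
    have h1 : HasDerivAt (fun s : ℝ => (s, θ)) ((1 : ℝ), (0 : ℝ)) t :=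
      (hasDerivAt_id t).prodMk (hasDerivAt_const t θ)
    have hf : HasFDerivAt (fun q : ℝ × ℝ => F q.1 q.2) Φ' ((fun s : ℝ => (s, θ)) t) :=
      hst.hasFDerivAt
    have h2 : HasDerivAt ((fun q : ℝ × ℝ => F q.1 q.2) ∘ (fun s : ℝ => (s, θ))) (Φ' (1, 0)) t :=
      hf.comp_hasDerivAt t h1
    exact h2.deriv.symm
  have h01 : Φ' (0, 1) = I t θ • n t θ := by
    have h1 : HasDerivAt (fun s : ℝ => (t, s)) ((0 : ℝ), (1 : ℝ)) θ :=
      (hasDerivAt_const θ t).prodMk (hasDerivAt_id θ)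
    have hf : HasFDerivAt (fun q : ℝ × ℝ => F q.1 q.2) Φ' ((fun s : ℝ => (t, s)) θ) :=
      hst.hasFDerivAt
    have h2 : HasDerivAt ((fun q : ℝ × ℝ => F q.1 q.2) ∘ (fun s : ℝ => (t, s))) (Φ' (0, 1)) θ :=
      hf.comp_hasDerivAt θ h1
    exact h2.unique (h.F_θ t θ)
  have hab : ∀ a b : ℝ, Φ' (a, b) = a • Φ' (1, 0) + b • Φ' (0, 1) := by
    intro a b
    rw [← map_smul, ← map_smul, ← map_add]
    congr 1
    ext <;> simp
  have hker : (Φ' : ℝ × ℝ →ₗ[ℝ] E).ker = ⊥ := by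
    rw [LinearMap.ker_eq_bot']
    rintro ⟨a, b⟩ h0
    have h0' : a • deriv (fun s => F s θ) t + b • (I t θ • n t θ) = 0 := by
      rw [← h10, ← h01, ← hab]
      exact h0
    have hT := h.F_t t θ
    have hN := h.n_norm t θ
    have hTN := h.F_n t θ
    set T := deriv (fun s => F s θ) t with hTdef
    have i1 : ⟪T, a • T + b • (I t θ • n t θ)⟫ = a := by
      rw [inner_add_right, real_inner_smul_right, real_inner_smul_right, real_inner_smul_right,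
        hTN, real_inner_self_eq_norm_sq, hT]
      ring
    have i2 : ⟪n t θ, a • T + b • (I t θ • n t θ)⟫ = b * I t θ := by
      rw [inner_add_right, real_inner_smul_right, real_inner_smul_right, real_inner_smul_right,
        real_inner_comm, hTN, real_inner_self_eq_norm_sq, hN]
      ring
    rw [h0', inner_zero_right] at i1 i2
    have hb : b = 0 := by
      rcases mul_eq_zero.1 i2.symm with h5 | h5
      · exact h5
      · exact absurd h5 hI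
    rw [← i1, hb]
    rfl
  obtain ⟨Kc, hK0, hK⟩ := LinearMap.exists_antilipschitzWith (Φ' : ℝ × ℝ →ₗ[ℝ] E) hker
  have hbound : ∀ v : ℝ × ℝ, ‖v‖ ≤ Kc * ‖Φ' v‖ :=
    fun v => ContinuousLinearMap.bound_of_antilipschitz Φ' hK v
  have hK0' : (0 : ℝ) < Kc := by exact_mod_cast hK0
  have hlo := hst.isLittleO.def (c := (2 * (Kc : ℝ))⁻¹) (by positivity)
  obtain ⟨ε, hε, hball⟩ := Metric.eventually_nhds_iff.1 hlo
  refine ⟨ε, hε, ?_⟩
  intro s φ s' φ' hs hs' hφ hφ' heq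
  have hd : dist (((s, φ), (s', φ')) : (ℝ × ℝ) × (ℝ × ℝ)) ((t, θ), (t, θ)) < ε := by
    rw [Prod.dist_eq, Prod.dist_eq, Prod.dist_eq]
    simp only [Real.dist_eq]
    exact max_lt (max_lt hs hφ) (max_lt hs' hφ')
  have h1 := hball hd
  have e1 : F s φ - F s' φ' = 0 := sub_eq_zero.2 heq
  have h2 : ‖Φ' ((s, φ) - (s', φ'))‖ ≤ (2 * (Kc : ℝ))⁻¹ * ‖((s, φ) - (s', φ') : ℝ × ℝ)‖ := by
    have h3 : ‖F s φ - F s' φ' - Φ' ((s, φ) - (s', φ'))‖ ≤
        (2 * (Kc : ℝ))⁻¹ * ‖((s, φ) - (s', φ') : ℝ × ℝ)‖ := h1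
    rwa [e1, zero_sub, norm_neg] at h3
  have h4 := hbound ((s, φ) - (s', φ'))
  have h5 : ‖((s, φ) - (s', φ') : ℝ × ℝ)‖ ≤ (1 / 2) * ‖((s, φ) - (s', φ') : ℝ × ℝ)‖ := by
    calc ‖((s, φ) - (s', φ') : ℝ × ℝ)‖ ≤ Kc * ‖Φ' ((s, φ) - (s', φ'))‖ := h4
      _ ≤ Kc * ((2 * (Kc : ℝ))⁻¹ * ‖((s, φ) - (s', φ') : ℝ × ℝ)‖) :=
        mul_le_mul_of_nonneg_left h2 hK0'.le
      _ = (1 / 2) * ‖((s, φ) - (s', φ') : ℝ × ℝ)‖ := by
        field_simp
  have h6 : ‖((s, φ) - (s', φ') : ℝ × ℝ)‖ = 0 := by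
    have := norm_nonneg ((s, φ) - (s', φ') : ℝ × ℝ)
    linarith
  have h7 : ((s, φ) : ℝ × ℝ) = (s', φ') := sub_eq_zero.1 (norm_eq_zero.1 h6)
  exact ⟨congrArg Prod.fst h7, congrArg Prod.snd h7⟩

end Pool.Agent.GR.GF2
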