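import Pool.Agent.GR.PD
import Pool.Agent.GR.GF1
import Pool.Agent.GR.GF2

set_option autoImplicit false
open Set Filter Topology MeasureTheory
open scoped Gradient RealInnerProductSpace ContDiff


namespace Pool.Agent.GR.GF3
open Pool.Agent.GR
open Pool.Agent.GR.GF1 (cut_pos cut_le cut_iff cut_per)
open Pool.Agent.GR.GF2 (cut_unique cut_usc loc_inj)


variable {S : Set E} {d : E → E → ℝ} {x : E} {F : ℝ → ℝ → E} {I : ℝ → ℝ → ℝ} {n : ℝ → ℝ → E}



/-! ## TARGET (prove this) -/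

/-- if a minimising sequence argument fails the point is conjugate: near a nonconjugate point whose only
minimiser is θ, all neighbouring points are reached by minimising rays -/
theorem near_min (h : PD S d x F I n) {t θ : ℝ} (ht : 0 < t) (hd : d x (F t θ) = t)
    (hu : ∀ φ, F t φ = F t θ → ∃ k : ℤ, φ = θ + k * (2 * Real.pi)) (hI : I t θ ≠ 0) :
    ∃ ε > 0, ∀ s φ, |s - t| < ε → |φ - θ| < ε → d x (F s φ) = s := by
  by_contra hcon
  push Not at hcon
  have hex : ∀ k : ℕ, ∃ s φ, |s - t| < 1 / ((k : ℝ) + 1) ∧ |φ - θ| < 1 / ((k : ℝ) + 1) ∧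
      d x (F s φ) ≠ s := fun k => hcon _ (by positivity)
  choose s φ hs hφ hne using hex
  have hlim0 : ∀ (u : ℕ → ℝ) (c : ℝ), (∀ k : ℕ, |u k - c| < 1 / ((k : ℝ) + 1)) →
      Tendsto u atTop (𝓝 c) := by
    intro u c hu
    rw [tendsto_iff_norm_sub_tendsto_zero]
    exact squeeze_zero (fun k => norm_nonneg _) (fun k => (hu k).le)
      tendsto_one_div_add_atTop_nhds_zero_nat
  have hst := hlim0 s t hs
  have hφt := hlim0 φ θ hφ
  have hFc : Continuous (fun q : ℝ × ℝ => F q.1 q.2) := h.F_smooth.continuous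
  have hy : Tendsto (fun k => F (s k) (φ k)) atTop (𝓝 (F t θ)) :=
    (hFc.tendsto (t, θ)).comp (hst.prodMk_nhds hφt)
  have hxx : d x x = 0 := by
    have h1 := h.d_F 0 0 θ
    rw [h.F_zero] at h1
    simp only [sub_self, abs_zero] at h1
    exact le_antisymm h1 (h.d_nonneg _ _)
  have hdc : ∀ (u : ℕ → E) (y : E), (∀ k, u k ∈ S) → y ∈ S → Tendsto u atTop (𝓝 y) →
      Tendsto (fun k => d x (u k)) atTop (𝓝 (d x y)) := by
    intro u y hu hy hut
    have h1 := h.d_cont (x, y) ⟨h.x_mem, hy⟩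
    have h2 : Tendsto (fun k => ((x, u k) : E × E)) atTop (𝓝[S ×ˢ S] (x, y)) := by
      rw [tendsto_nhdsWithin_iff]
      exact ⟨tendsto_const_nhds.prodMk_nhds hut,
        Eventually.of_forall fun k => ⟨h.x_mem, hu k⟩⟩
    exact h1.tendsto.comp h2
  have hr : Tendsto (fun k => d x (F (s k) (φ k))) atTop (𝓝 t) := by
    have h1 := hdc _ _ (fun k => h.F_mem (s k) (φ k)) (h.F_mem t θ) hy
    rwa [hd] at h1
  have hex2 : ∀ k, ∃ a ∈ Icc (0:ℝ) (2 * Real.pi), F (s k) (φ k) ≠ x →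
      F (d x (F (s k) (φ k))) a = F (s k) (φ k) := by
    intro k
    by_cases hk : F (s k) (φ k) = x
    · exact ⟨0, ⟨le_rfl, by positivity⟩, fun h => absurd hk h⟩
    · obtain ⟨a, ha, hFa⟩ := h.min_exists _ (h.F_mem _ _) hk
      exact ⟨a, ⟨ha.1, ha.2.le⟩, fun _ => hFa⟩
  choose a haI haF using hex2
  obtain ⟨a0, ha0, ψ, hψ, hlim⟩ := isCompact_Icc.tendsto_subseq haI
  have hψt := hψ.tendsto_atTop
  have hnx : ∀ᶠ k in atTop, F (s k) (φ k) ≠ x := by
    have h1 : ∀ᶠ k in atTop, 0 < d x (F (s k) (φ k)) := hr.eventually (lt_mem_nhds ht)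
    filter_upwards [h1] with k hk h'
    rw [h', hxx] at hk
    exact lt_irrefl _ hk
  have hF1 : Tendsto (fun k => F (d x (F (s (ψ k)) (φ (ψ k)))) (a (ψ k))) atTop
      (𝓝 (F t a0)) :=
    (hFc.tendsto (t, a0)).comp ((hr.comp hψt).prodMk_nhds hlim)
  have hF2 : Tendsto (fun k => F (d x (F (s (ψ k)) (φ (ψ k)))) (a (ψ k))) atTop
      (𝓝 (F t θ)) := by
    refine (hy.comp hψt).congr' ?_
    filter_upwards [hψt.eventually hnx] with k hk
    exact (haF (ψ k) hk).symm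
  have heq : F t a0 = F t θ := tendsto_nhds_unique hF1 hF2
  obtain ⟨m, hm⟩ := hu a0 heq
  obtain ⟨ε, hε, hloc⟩ := loc_inj h hI
  have hclose : ∀ (u : ℕ → ℝ) (c : ℝ), Tendsto u atTop (𝓝 c) → ∀ᶠ k in atTop, |u k - c| < ε := by
    intro u c hu
    have := (Metric.tendsto_nhds.1 hu) ε hε
    filter_upwards [this] with k hk
    rwa [Real.dist_eq] at hk
  have e1 := hclose _ _ (hst.comp hψt)
  have e2 := hclose _ _ (hφt.comp hψt)
  have e3 := hclose _ _ (hr.comp hψt)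
  have e4 := hclose (fun k => a (ψ k) - m * (2 * Real.pi)) θ (by
    have h1 : Tendsto (fun k => a (ψ k) - m * (2 * Real.pi)) atTop
        (𝓝 (a0 - m * (2 * Real.pi))) := hlim.sub_const _
    have h2 : a0 - m * (2 * Real.pi) = θ := by rw [hm]; ring
    rwa [h2] at h1)
  obtain ⟨k, k1, k2, k3, k4, k5⟩ :=
    (e1.and (e2.and (e3.and (e4.and (hψt.eventually hnx))))).exists
  have hFe : F (s (ψ k)) (φ (ψ k)) =
      F (d x (F (s (ψ k)) (φ (ψ k)))) (a (ψ k) - m * (2 * Real.pi)) := by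
    have h1 := h.F_per (d x (F (s (ψ k)) (φ (ψ k)))) (a (ψ k) - m * (2 * Real.pi)) m
    rw [sub_add_cancel] at h1
    rw [← h1, haF (ψ k) k5]
  have := (hloc _ _ _ _ k1 k3 k2 k4 hFe).1
  exact hne _ this.symm
theorem no_conj (h : PD S d x F I n) {t θ : ℝ} (ht : 0 < t) (htc : t < cut d x F θ) : I t θ ≠ 0 := by
  intro h0
  have hIs : ContDiff ℝ ∞ (fun s => I s θ) :=
    h.I_smooth.comp (contDiff_id.prodMk contDiff_const)
  have hder : HasDerivAt (fun s => I s θ) (deriv (fun s => I s θ) t) t :=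
    ((hIs.differentiable (by simp)) t).hasDerivAt
  have hev : ∀ᶠ z in 𝓝[≠] t, I z θ ≠ 0 := hder.eventually_ne (h.I_simple t θ h0)
  have hev2 : ∀ᶠ z in 𝓝[>] t, I z θ ≠ 0 :=
    hev.filter_mono (nhdsWithin_mono _ fun z hz => (ne_of_gt hz))
  have hev3 : ∀ᶠ z in 𝓝[>] t, z ∈ Ioo t (cut d x F θ) := Ioo_mem_nhdsGT htc
  obtain ⟨t₂, ht2, ht2'⟩ := (hev2.and hev3).exists
  have ht2p : 0 < t₂ := ht.trans ht2'.1
  have hd2 : d x (F t₂ θ) = t₂ := (cut_iff h ht2p.le).2 ht2'.2.le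
  obtain ⟨ε₁, hε₁, hnear⟩ := near_min h ht2p hd2 (by
    intro φ hφ
    have h1 : d x (F t₂ φ) = t₂ := by rw [hφ, hd2]
    exact (cut_unique h ht2p ht2'.2 ht2p.le ((cut_iff h ht2p.le).1 h1) hφ.symm).2) ht2
  have hcut : ∀ φ, |φ - θ| < ε₁ → t₂ ≤ cut d x F φ := by
    intro φ hφ
    exact (cut_iff h ht2p.le).1 (hnear t₂ φ (by simpa using hε₁) hφ)
  obtain ⟨t₁, t', φ, h1, h2, h3, h4, h5⟩ := h.cross t θ ht h0 (min (min (t₂ - t) t) (min ε₁ 1))
    (lt_min (lt_min (sub_pos.2 ht2'.1) ht) (lt_min hε₁ one_pos))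
  have g1 := lt_of_lt_of_le h1 ((min_le_left _ _).trans (min_le_left _ _))
  have g1' := lt_of_lt_of_le h1 ((min_le_left _ _).trans (min_le_right _ _))
  have g2 := lt_of_lt_of_le h2 ((min_le_left _ _).trans (min_le_left _ _))
  have g2' := lt_of_lt_of_le h2 ((min_le_left _ _).trans (min_le_right _ _))
  have g4 := lt_of_lt_of_le h4 ((min_le_right _ _).trans (min_le_left _ _))
  have g4' := lt_of_lt_of_le h4 ((min_le_right _ _).trans (min_le_right _ _))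
  rw [abs_lt] at g1 g1' g2 g2'
  have hc := hcut φ g4
  obtain ⟨-, k, hk⟩ := cut_unique h (s := t') (s' := t₁) (θ := θ) (φ := φ) (by linarith)
    (by linarith [ht2'.2]) (by linarith) (by linarith) h5.symm
  have hk0 : k ≠ 0 := by
    rintro rfl
    apply h3
    rw [hk]
    simp
  have hk1 : (1 : ℝ) ≤ |(k : ℝ)| := by
    rw [← Int.cast_abs]
    exact_mod_cast Int.one_le_abs hk0
  have h6 : |φ - θ| = |(k : ℝ)| * (2 * Real.pi) := by
    rw [hk, add_sub_cancel_left, abs_mul, abs_of_pos (by positivity : (0:ℝ) < 2 * Real.pi)]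
  rw [h6] at g4'
  nlinarith [Real.pi_gt_three]
theorem I_pos (h : PD S d x F I n) {t θ : ℝ} (ht : 0 < t) (htc : t < cut d x F θ) : 0 < I t θ := by
  have hIs : ContDiff ℝ ∞ (fun s => I s θ) :=
    h.I_smooth.comp (contDiff_id.prodMk contDiff_const)
  have h1 := hasDerivAt_iff_tendsto_slope.1 (h.I_one θ)
  have h2 : ∀ᶠ s in 𝓝[≠] (0:ℝ), 0 < slope (fun t => I t θ) 0 s :=
    h1.eventually (lt_mem_nhds one_pos)
  have h3 : ∀ᶠ s in 𝓝[>] (0:ℝ), 0 < slope (fun t => I t θ) 0 s :=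
    h2.filter_mono (nhdsWithin_mono _ fun z hz => (ne_of_gt hz))
  have h4 : ∀ᶠ z in 𝓝[>] (0:ℝ), z ∈ Ioo 0 t := Ioo_mem_nhdsGT ht
  obtain ⟨s, hs1, hs2⟩ := (h3.and h4).exists
  have hs3 : 0 < I s θ := by
    rw [slope_def_field, h.I_zero, sub_zero, sub_zero] at hs1
    have := mul_pos hs1 hs2.1
    rwa [div_mul_cancel₀ _ hs2.1.ne'] at this
  by_contra hneg
  push Not at hneg
  obtain ⟨c, hc, hc0⟩ := intermediate_value_Icc' hs2.2.le hIs.continuous.continuousOn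
    (show (0:ℝ) ∈ Icc (I t θ) (I s θ) from ⟨hneg, hs3.le⟩)
  exact no_conj h (t := c) (θ := θ) (hs2.1.trans_le hc.1) (lt_of_le_of_lt hc.2 htc) hc0

end Pool.Agent.GR.GF3
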