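import Pool.Agent.GR.PD
import Pool.Agent.GR.GF1
import Pool.Agent.GR.GF2
import Pool.Agent.GR.GF3

set_option autoImplicit false
open Set Filter Topology MeasureTheory
open scoped Gradient RealInnerProductSpace ContDiff


namespace Pool.Agent.GR.GF4
open Pool.Agent.GR
open Pool.Agent.GR.GF1 (cut_pos cut_le cut_iff cut_per)
open Pool.Agent.GR.GF2 (cut_unique cut_usc loc_inj)
open Pool.Agent.GR.GF3 (near_min no_conj I_pos)


variable {S : Set E} {d : E → E → ℝ} {x : E} {F : ℝ → ℝ → E} {I : ℝ → ℝ → ℝ} {n : ℝ → ℝ → E}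



/-! ## TARGET (prove this) -/

theorem cut_cont (h : PD S d x F I n) : Continuous (cut d x F) := by
  rw [continuous_iff_continuousAt]
  intro θ
  refine tendsto_order.2 ⟨?_, ?_⟩
  · intro a ha
    obtain ⟨t, ht1, ht2⟩ := exists_between (max_lt ha (cut_pos h θ))
    have hat : a < t := (le_max_left _ _).trans_lt ht1
    have ht0 : 0 < t := (le_max_right _ _).trans_lt ht1
    have hd : d x (F t θ) = t := (cut_iff h ht0.le).2 ht2.le
    have hu : ∀ φ, F t φ = F t θ → ∃ k : ℤ, φ = θ + k * (2 * Real.pi) := by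
      intro φ hφ
      have h1 : t ≤ cut d x F φ := (cut_iff h ht0.le).1 (by rw [hφ, hd])
      exact (cut_unique h ht0 ht2 ht0.le h1 hφ.symm).2
    obtain ⟨ε, hε, hnm⟩ := near_min h ht0 hd hu (no_conj h ht0 ht2)
    filter_upwards [Metric.ball_mem_nhds θ hε] with φ hφ
    have h2 : |φ - θ| < ε := by
      rw [← Real.dist_eq]; exact hφ
    have h3 := hnm t φ (by rw [sub_self, abs_zero]; exact hε) h2
    exact hat.trans_le ((cut_iff h ht0.le).1 h3)
  · intro b hb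
    by_contra hcon
    have hfr : ∃ᶠ φ in 𝓝 θ, ¬ cut d x F φ < b := Filter.not_eventually.1 hcon
    obtain ⟨u, hu1, hu2⟩ := Filter.exists_seq_forall_of_frequently hfr
    obtain ⟨M, hM⟩ := cut_le h
    obtain ⟨r, hr, ψ, hψ, hψr⟩ := (isCompact_Icc (a := b) (b := M)).tendsto_subseq
      (x := fun k => cut d x F (u k)) (fun k => ⟨not_lt.1 (hu2 k), hM _⟩)
    have h1 := cut_usc h (hu1.comp hψ.tendsto_atTop) hψr
    exact absurd (hr.1.trans h1) (not_le.2 hb)

theorem gf_reduce (h : PD S d x F I n) (ℓ φ : ℝ) :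
    ∃ k : ℤ, φ + k * (2 * Real.pi) ∈ Ico 0 (2 * Real.pi) ∧
      F ℓ (φ + k * (2 * Real.pi)) = F ℓ φ := by
  have hpi : 0 < 2 * Real.pi := by positivity
  refine ⟨-⌊φ / (2 * Real.pi)⌋, ⟨?_, ?_⟩, h.F_per _ _ _⟩
  · have h1 := Int.floor_le (φ / (2 * Real.pi))
    rw [le_div_iff₀ hpi] at h1
    push_cast
    linarith
  · have h1 := Int.lt_floor_add_one (φ / (2 * Real.pi))
    rw [div_lt_iff₀ hpi] at h1
    push_cast
    linarith
theorem cut_conj (h : PD S d x F I n) (θ : ℝ) :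
    ∃ φ, I (cut d x F φ) φ = 0 ∧ F (cut d x F φ) φ = F (cut d x F θ) θ := by
  obtain ⟨ℓ, hℓ⟩ : ∃ ℓ, ℓ = cut d x F θ := ⟨_, rfl⟩
  obtain ⟨y, hy⟩ : ∃ y, y = F ℓ θ := ⟨_, rfl⟩
  have hℓ0 : 0 < ℓ := by rw [hℓ]; exact cut_pos h θ
  have hdy : d x y = ℓ := by
    rw [hy]; exact (cut_iff h hℓ0.le).2 hℓ.le
  have hdx : d x x = 0 := by
    have h1 := h.d_F 0 0 θ
    rw [h.F_zero, sub_self, abs_zero] at h1
    exact le_antisymm h1 (h.d_nonneg _ _)
  have hyx : y ≠ x := by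
    intro h1
    rw [h1, hdx] at hdy
    exact hℓ0.ne hdy
  have hyS : y ∈ S := by rw [hy]; exact h.F_mem _ _
  have hsuff : (∃ φ, F ℓ φ = y ∧ I ℓ φ = 0) →
      ∃ φ, I (cut d x F φ) φ = 0 ∧ F (cut d x F φ) φ = F (cut d x F θ) θ := by
    rintro ⟨φ, hφ1, hφ2⟩
    have h1 : ℓ ≤ cut d x F φ := (cut_iff h hℓ0.le).1 (by rw [hφ1, hdy])
    have h2 : cut d x F φ = ℓ := by
      refine le_antisymm (not_lt.1 fun h3 => ?_) h1
      exact no_conj h hℓ0 h3 hφ2
    exact ⟨φ, by rw [h2]; exact hφ2, by rw [h2, hφ1, hy, hℓ]⟩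
  apply hsuff
  have hFc : Continuous fun φ => F ℓ φ :=
    h.F_smooth.continuous.comp (continuous_const.prodMk continuous_id)
  rcases h.propM y hyS hyx with hT | hT
  · -- only one minimiser
    refine ⟨θ, hy.symm, ?_⟩
    by_contra hI
    have hu : ∀ φ, F ℓ φ = F ℓ θ → ∃ k : ℤ, φ = θ + k * (2 * Real.pi) := by
      intro φ hφ
      obtain ⟨k, hk1, hk2⟩ := gf_reduce h ℓ φ
      obtain ⟨m, hm1, hm2⟩ := gf_reduce h ℓ θ
      have h1 := hT (show φ + k * (2 * Real.pi) ∈ _ from ⟨hk1, by rw [hdy, hk2, hφ, hy]⟩)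
        (show θ + m * (2 * Real.pi) ∈ _ from ⟨hm1, by rw [hdy, hm2, hy]⟩)
      refine ⟨m - k, ?_⟩
      push_cast
      linarith
    obtain ⟨ε, hε, hnm⟩ := near_min h hℓ0 (by rw [← hy]; exact hdy) hu hI
    have h1 := hnm (ℓ + ε / 2) θ (by rw [add_sub_cancel_left, abs_of_pos (by positivity)]; linarith)
      (by rw [sub_self, abs_zero]; exact hε)
    have h2 := (cut_iff h (by positivity : (0 : ℝ) ≤ ℓ + ε / 2)).1 h1
    rw [← hℓ] at h2
    linarith
  · -- infinitely many minimisers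
    obtain ⟨φ, -, hφ⟩ := hT.exists_accPt_of_subset_isCompact
      (isCompact_Icc (a := (0 : ℝ)) (b := 2 * Real.pi)) (fun z hz => Ico_subset_Icc_self hz.1)
    rw [accPt_iff_nhds] at hφ
    have hφy : F ℓ φ = y := by
      have hcl : IsClosed {z | F ℓ z = y} := isClosed_eq hFc continuous_const
      have : φ ∈ closure {z | F ℓ z = y} := by
        rw [mem_closure_iff_nhds]
        intro V hV
        obtain ⟨z, ⟨hz1, hz2⟩, -⟩ := hφ V hV
        refine ⟨z, hz1, ?_⟩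
        have := hz2.2
        rwa [hdy] at this
      rwa [hcl.closure_eq] at this
    refine ⟨φ, hφy, ?_⟩
    by_contra hI
    obtain ⟨ε, hε, hli⟩ := loc_inj h hI
    obtain ⟨z, ⟨hz1, hz2⟩, hz3⟩ := hφ _ (Metric.ball_mem_nhds φ hε)
    have hz4 : |z - φ| < ε := by
      rw [← Real.dist_eq]; exact hz1
    have hz5 : F ℓ z = y := by
      have := hz2.2
      rwa [hdy] at this
    have h0 : |ℓ - ℓ| < ε := by rw [sub_self, abs_zero]; exact hε
    have h1 := (hli ℓ z ℓ φ h0 h0 hz4 (by rw [sub_self, abs_zero]; exact hε)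
      (by rw [hz5, hφy])).2
    exact hz3 h1

end Pool.Agent.GR.GF4
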