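import Pool.Agent.GR.PD
import Pool.Agent.GR.GF1
import Pool.Agent.GR.GF2
import Pool.Agent.GR.GF3

set_option autoImplicit false
open Set Filter Topology MeasureTheory
open scoped Gradient RealInnerProductSpace ContDiff


namespace Pool.Agent.GR.GF5
open Pool.Agent.GR
open Pool.Agent.GR.GF1 (cut_pos cut_le cut_iff cut_per)
open Pool.Agent.GR.GF2 (cut_unique cut_usc loc_inj)
open Pool.Agent.GR.GF3 (near_min no_conj I_pos)


variable {S : Set E} {d : E → E → ℝ} {x : E} {F : ℝ → ℝ → E} {I : ℝ → ℝ → ℝ} {n : ℝ → ℝ → E}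



/-! ## TARGET (prove this) -/

theorem j20341_fd (h : PD S d x F I n) (t θ : ℝ) :
    ∃ L : ℝ × ℝ →L[ℝ] E, HasFDerivAt (fun q : ℝ × ℝ => F q.1 q.2) L (t, θ) ∧
      L (1, 0) = deriv (fun s => F s θ) t ∧ L (0, 1) = I t θ • n t θ := by
  have h1 : DifferentiableAt ℝ (fun q : ℝ × ℝ => F q.1 q.2) (t, θ) :=
    (h.F_smooth.differentiable (by simp)) _
  refine ⟨_, h1.hasFDerivAt, ?_, ?_⟩
  · have h2 : HasDerivAt (fun s : ℝ => (s, θ)) ((1 : ℝ), (0 : ℝ)) t :=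
      (hasDerivAt_id t).prodMk (hasDerivAt_const t θ)
    have h3 : HasDerivAt (fun s : ℝ => F s θ)
        (fderiv ℝ (fun q : ℝ × ℝ => F q.1 q.2) (t, θ) (1, 0)) t :=
      HasFDerivAt.comp_hasDerivAt (f := fun s : ℝ => (s, θ)) t h1.hasFDerivAt h2
    exact h3.deriv.symm
  · have h2 : HasDerivAt (fun φ : ℝ => (t, φ)) ((0 : ℝ), (1 : ℝ)) θ :=
      (hasDerivAt_const θ t).prodMk (hasDerivAt_id θ)
    have h3 : HasDerivAt (fun φ : ℝ => F t φ)
        (fderiv ℝ (fun q : ℝ × ℝ => F q.1 q.2) (t, θ) (0, 1)) θ :=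
      HasFDerivAt.comp_hasDerivAt (f := fun φ : ℝ => (t, φ)) θ h1.hasFDerivAt h2
    exact h3.unique (h.F_θ t θ)

theorem j20341_c (h : PD S d x F I n) {τ : ℝ → ℝ} {τ' φ : ℝ} (hτ : HasDerivAt τ τ' φ)
    (hI : I (τ φ) φ = 0) :
    ∃ v : E, HasDerivAt (fun φ => F (τ φ) φ) v φ ∧ ‖v‖ = |τ'| := by
  obtain ⟨L, hL, h1, h2⟩ := j20341_fd h (τ φ) φ
  have h3 : HasDerivAt (fun φ => (τ φ, φ)) (τ', (1 : ℝ)) φ := hτ.prodMk (hasDerivAt_id φ)
  have h4 : HasDerivAt (fun φ => F (τ φ) φ) (L (τ', 1)) φ :=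
    HasFDerivAt.comp_hasDerivAt (f := fun φ : ℝ => (τ φ, φ)) φ hL h3
  refine ⟨_, h4, ?_⟩
  have h5 : L (τ', 1) = τ' • L (1, 0) + L (0, 1) := by
    rw [← map_smul, ← map_add]
    congr 1
    simp
  rw [h5, h1, h2, hI, zero_smul, add_zero, norm_smul, h.F_t, mul_one, Real.norm_eq_abs]

theorem j20341_mv (h : PD S d x F I n) {τ : ℝ → ℝ} {a b ε : ℝ}
    (hτ : ∀ φ ∈ Icc a b, HasDerivAt τ (deriv τ φ) φ) (hI : ∀ φ ∈ Icc a b, I (τ φ) φ = 0)
    (hε : ∀ φ ∈ Icc a b, |deriv τ φ| ≤ ε * deriv τ φ) :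
    ContinuousOn (fun φ => F (τ φ) φ) (Icc a b) ∧
    ∀ s ∈ Icc a b, ∀ t ∈ Icc a b, s ≤ t → ‖F (τ t) t - F (τ s) s‖ ≤ ε * τ t - ε * τ s := by
  have hc : ∀ φ ∈ Icc a b, HasDerivAt (fun φ => F (τ φ) φ) (deriv (fun φ => F (τ φ) φ) φ) φ ∧
      ‖deriv (fun φ => F (τ φ) φ) φ‖ ≤ ε * deriv τ φ := by
    intro φ hφ
    obtain ⟨v, hv, hv2⟩ := j20341_c h (hτ φ hφ) (hI φ hφ)
    rw [hv.deriv]
    exact ⟨hv, hv2.le.trans (hε φ hφ)⟩
  refine ⟨fun φ hφ => (hc φ hφ).1.continuousAt.continuousWithinAt, fun s hs t ht hst => ?_⟩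
  have hsub : Icc s t ⊆ Icc a b := Icc_subset_Icc hs.1 ht.2
  have key := image_norm_le_of_norm_deriv_right_le_deriv_boundary'
    (f := fun u => F (τ u) u - F (τ s) s) (a := s) (b := t)
    (f' := fun u => deriv (fun φ => F (τ φ) φ) u)
    (B := fun u => ε * τ u - ε * τ s) (B' := fun u => ε * deriv τ u) ?_ ?_ ?_ ?_ ?_ ?_
  · exact key (right_mem_Icc.2 hst)
  · intro u hu
    exact ((hc u (hsub hu)).1.continuousAt.continuousWithinAt).sub continuousWithinAt_const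
  · intro u hu
    exact ((hc u (hsub (Ico_subset_Icc_self hu))).1.sub_const _).hasDerivWithinAt
  · simp
  · intro u hu
    exact (((hτ u (hsub hu)).continuousAt.continuousWithinAt).const_mul _).sub
      continuousWithinAt_const
  · intro u hu
    exact (((hτ u (hsub (Ico_subset_Icc_self hu))).const_mul ε).sub_const _).hasDerivWithinAt
  · intro u hu
    exact (hc u (hsub (Ico_subset_Icc_self hu))).2

/-- the broken geodesic argument -/
theorem j20341_B (h : PD S d x F I n) {φ₀ φ : ℝ} {τ : ℝ → ℝ} (h0 : 0 < τ φ₀) (h1 : 0 < τ φ)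
    (hc : cut d x F φ₀ = τ φ₀) (hlt : τ φ < τ φ₀)
    (hd : d (F (τ φ) φ) (F (τ φ₀) φ₀) ≤ τ φ₀ - τ φ) : F (τ φ₀) φ = F (τ φ₀) φ₀ := by
  have e0 : d x (F (τ φ₀) φ₀) = τ φ₀ := (cut_iff h h0.le).2 hc.ge
  have e1 : d x (F (τ φ) φ) ≤ τ φ := by
    have := h.d_F 0 (τ φ) φ
    rw [h.F_zero, zero_sub, abs_neg, abs_of_pos h1] at this
    exact this
  have e2 := h.d_tri x h.x_mem (F (τ φ) φ) (h.F_mem _ _) (F (τ φ₀) φ₀) (h.F_mem _ _)
  have e3 : d (F (τ φ) φ) (F (τ φ₀) φ₀) = τ φ₀ - τ φ := by linarith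
  have e4 : F (τ φ) φ ≠ F (τ φ₀) φ₀ := by
    intro heq
    rw [heq] at e3
    have := h.d_F (τ φ₀) (τ φ₀) φ₀
    rw [sub_self, abs_zero] at this
    linarith
  have e5 := h.broken φ (τ φ) (F (τ φ₀) φ₀) h1 (h.F_mem _ _) e4 (by rw [e0, e3]; ring)
  rw [e0] at e5
  exact e5

/-- nearby ∂_t I does not vanish -/
theorem j20341_I (h : PD S d x F I n) {t θ : ℝ} (hI : I t θ = 0) :
    ∃ ε > 0, ∀ s φ, |s - t| < ε → |φ - θ| < ε → deriv (fun s => I s φ) s ≠ 0 := by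
  have hsm : ContDiff ℝ ∞ (fun q : ℝ × ℝ => I q.1 q.2) := h.I_smooth
  have h1 : ∀ s φ : ℝ, deriv (fun s => I s φ) s =
      fderiv ℝ (fun q : ℝ × ℝ => I q.1 q.2) (s, φ) (1, 0) := by
    intro s φ
    have h2 : HasDerivAt (fun s : ℝ => (s, φ)) ((1 : ℝ), (0 : ℝ)) s :=
      (hasDerivAt_id s).prodMk (hasDerivAt_const s φ)
    have h3 : HasDerivAt (fun s : ℝ => I s φ)
        (fderiv ℝ (fun q : ℝ × ℝ => I q.1 q.2) (s, φ) (1, 0)) s :=
      HasFDerivAt.comp_hasDerivAt (f := fun s : ℝ => (s, φ)) s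
        ((hsm.differentiable (by simp)) _).hasFDerivAt h2
    exact h3.deriv
  have h2 : Continuous (fun q : ℝ × ℝ => fderiv ℝ (fun q : ℝ × ℝ => I q.1 q.2) q (1, 0)) :=
    (hsm.continuous_fderiv (by simp)).clm_apply continuous_const
  have h3 := h.I_simple t θ hI
  rw [h1] at h3
  have h4 := h2.continuousAt.eventually_ne h3
  obtain ⟨ε, hε, h5⟩ := Metric.eventually_nhds_iff.1 h4
  refine ⟨ε, hε, fun s φ hs hφ => ?_⟩
  rw [h1]
  apply h5
  rw [Prod.dist_eq, Real.dist_eq, Real.dist_eq]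
  exact max_lt hs hφ

theorem j20341_end (h : PD S d x F I n) {φ₀ : ℝ} {τ : ℝ → ℝ} (hτ : ContinuousAt τ φ₀)
    (hI0 : I (τ φ₀) φ₀ = 0) (l : Filter ℝ) [l.NeBot] (hl : l ≤ 𝓝 φ₀) (U : Set ℝ)
    (hU : IsOpen U) (hUl : U ∈ l) (hIU : ∀ φ ∈ U, I (τ φ) φ = 0)
    (hlt : ∀ φ ∈ U, τ φ < τ φ₀) (hF : ∀ φ ∈ U, F (τ φ₀) φ = F (τ φ₀) φ₀) : False := by
  obtain ⟨ε, hε, hne⟩ := j20341_I h hI0
  have h1 : ∀ᶠ φ in l, |τ φ - τ φ₀| < ε := by
    have := (Metric.tendsto_nhds.1 hτ.tendsto ε hε)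
    exact hl this
  have h2 : ∀ᶠ φ in l, |φ - φ₀| < ε := hl (Metric.ball_mem_nhds φ₀ hε)
  obtain ⟨φ, hφU, hφ1, hφ2⟩ := (Filter.Eventually.and hUl (h1.and h2)).exists
  have h3 : I (τ φ₀) φ = 0 := by
    have h4 := h.F_θ (τ φ₀) φ
    have h5 : HasDerivAt (fun φ => F (τ φ₀) φ) 0 φ := by
      refine (hasDerivAt_const φ (F (τ φ₀) φ₀)).congr_of_eventuallyEq ?_
      filter_upwards [hU.mem_nhds hφU] with ψ hψ
      exact hF ψ hψ
    have h6 := h4.unique h5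
    rcases smul_eq_zero.1 h6 with h7 | h7
    · exact h7
    · exfalso
      have := h.n_norm (τ φ₀) φ
      rw [h7, norm_zero] at this
      exact zero_ne_one this
  have hcont : Continuous (fun s => I s φ) :=
    h.I_smooth.continuous.comp (continuous_id.prodMk continuous_const)
  obtain ⟨s, hs, hs2⟩ := exists_deriv_eq_zero (f := fun s => I s φ) (hlt φ hφU)
    hcont.continuousOn (by simp only [hIU φ hφU, h3])
  refine hne s φ ?_ hφ2 hs2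
  rw [abs_lt] at hφ1 ⊢
  constructor
  · linarith [hs.1, hφ1.1]
  · linarith [hs.2]

theorem envelope (h : PD S d x F I n) {φ₀ r : ℝ} {τ : ℝ → ℝ} (hr : 0 < r)
    (hτ : ContDiffOn ℝ 1 τ (Ioo (φ₀ - r) (φ₀ + r)))
    (hI : ∀ φ ∈ Ioo (φ₀ - r) (φ₀ + r), I (τ φ) φ = 0) (hpos : ∀ φ ∈ Ioo (φ₀ - r) (φ₀ + r), 0 < τ φ)
    (hc : cut d x F φ₀ = τ φ₀) : deriv τ φ₀ = 0 := by
  have hφ₀ : φ₀ ∈ Ioo (φ₀ - r) (φ₀ + r) := ⟨by linarith, by linarith⟩
  have hder : ∀ φ ∈ Ioo (φ₀ - r) (φ₀ + r), HasDerivAt τ (deriv τ φ) φ := by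
    intro φ hφ
    exact ((hτ.differentiableOn (by simp)).differentiableAt (isOpen_Ioo.mem_nhds hφ)).hasDerivAt
  have hcd : ContinuousAt (deriv τ) φ₀ :=
    (hτ.continuousOn_deriv_of_isOpen isOpen_Ioo le_rfl).continuousAt (isOpen_Ioo.mem_nhds hφ₀)
  have hτc : ContinuousAt τ φ₀ := (hder φ₀ hφ₀).continuousAt
  by_contra hne
  rcases lt_or_gt_of_ne hne with hneg | hpos'
  · -- τ' < 0
    have h1 : ∀ᶠ φ in 𝓝 φ₀, deriv τ φ < 0 := hcd.eventually_lt continuousAt_const hneg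
    obtain ⟨r₂, hr₂, h2⟩ := Metric.eventually_nhds_iff.1 h1
    set r₁ := min r r₂ with hr₁
    have hr₁0 : 0 < r₁ := lt_min hr hr₂
    have hsub : ∀ φ, φ₀ - r₁ < φ → φ < φ₀ + r₁ → φ ∈ Ioo (φ₀ - r) (φ₀ + r) ∧ deriv τ φ < 0 := by
      intro φ ha hb
      have h3 := min_le_left r r₂
      have h4 := min_le_right r r₂
      refine ⟨⟨by linarith, by linarith⟩, h2 ?_⟩
      rw [Real.dist_eq, abs_lt]
      constructor <;> linarith
    have hanti : ∀ φ ∈ Ioo φ₀ (φ₀ + r₁), τ φ < τ φ₀ := by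
      intro φ hφ
      have h3 : StrictAntiOn τ (Icc φ₀ φ) := by
        apply strictAntiOn_of_deriv_neg (convex_Icc _ _)
        · intro u hu
          exact (hder u (hsub u (by linarith [hu.1]) (by linarith [hu.2, hφ.2])).1).continuousAt.continuousWithinAt
        · intro u hu
          rw [interior_Icc] at hu
          exact (hsub u (by linarith [hu.1]) (by linarith [hu.2, hφ.2])).2
      exact h3 (left_mem_Icc.2 hφ.1.le) (right_mem_Icc.2 hφ.1.le) hφ.1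
    refine j20341_end h hτc (hI φ₀ hφ₀) (𝓝[>] φ₀) nhdsWithin_le_nhds (Ioo φ₀ (φ₀ + r₁)) isOpen_Ioo
      (Ioo_mem_nhdsGT (by linarith)) ?_ hanti ?_
    · intro φ hφ
      exact hI φ (hsub φ (by linarith [hφ.1]) hφ.2).1
    · intro φ hφ
      have hU := (hsub φ (by linarith [hφ.1]) hφ.2).1
      apply j20341_B h (hpos φ₀ hφ₀) (hpos φ hU) hc (hanti φ hφ)
      have hin : ∀ u ∈ Icc φ₀ φ, u ∈ Ioo (φ₀ - r) (φ₀ + r) ∧ deriv τ u < 0 := fun u hu =>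
        hsub u (by linarith [hu.1]) (by linarith [hu.2, hφ.2])
      obtain ⟨hco, hmv⟩ := j20341_mv h (τ := τ) (a := φ₀) (b := φ) (ε := -1)
        (fun u hu => hder u (hin u hu).1) (fun u hu => hI u (hin u hu).1)
        (fun u hu => by rw [abs_of_neg (hin u hu).2]; linarith)
      have h5 := h.d_curve (fun φ => F (τ φ) φ) φ₀ φ (fun u => -1 * τ u) hφ.1.le
        (fun u _ => h.F_mem _ _) hco hmv
      rw [h.d_comm]
      linarith
  · -- τ' > 0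
    have h1 : ∀ᶠ φ in 𝓝 φ₀, 0 < deriv τ φ := continuousAt_const.eventually_lt hcd hpos'
    obtain ⟨r₂, hr₂, h2⟩ := Metric.eventually_nhds_iff.1 h1
    set r₁ := min r r₂ with hr₁
    have hr₁0 : 0 < r₁ := lt_min hr hr₂
    have hsub : ∀ φ, φ₀ - r₁ < φ → φ < φ₀ + r₁ → φ ∈ Ioo (φ₀ - r) (φ₀ + r) ∧ 0 < deriv τ φ := by
      intro φ ha hb
      have h3 := min_le_left r r₂
      have h4 := min_le_right r r₂
      refine ⟨⟨by linarith, by linarith⟩, h2 ?_⟩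
      rw [Real.dist_eq, abs_lt]
      constructor <;> linarith
    have hmono : ∀ φ ∈ Ioo (φ₀ - r₁) φ₀, τ φ < τ φ₀ := by
      intro φ hφ
      have h3 : StrictMonoOn τ (Icc φ φ₀) := by
        apply strictMonoOn_of_deriv_pos (convex_Icc _ _)
        · intro u hu
          exact (hder u (hsub u (by linarith [hu.1, hφ.1]) (by linarith [hu.2])).1).continuousAt.continuousWithinAt
        · intro u hu
          rw [interior_Icc] at hu
          exact (hsub u (by linarith [hu.1, hφ.1]) (by linarith [hu.2])).2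
      exact h3 (left_mem_Icc.2 hφ.2.le) (right_mem_Icc.2 hφ.2.le) hφ.2
    refine j20341_end h hτc (hI φ₀ hφ₀) (𝓝[<] φ₀) nhdsWithin_le_nhds (Ioo (φ₀ - r₁) φ₀) isOpen_Ioo
      (Ioo_mem_nhdsLT (by linarith)) ?_ hmono ?_
    · intro φ hφ
      exact hI φ (hsub φ hφ.1 (by linarith [hφ.2])).1
    · intro φ hφ
      have hU := (hsub φ hφ.1 (by linarith [hφ.2])).1
      apply j20341_B h (hpos φ₀ hφ₀) (hpos φ hU) hc (hmono φ hφ)
      have hin : ∀ u ∈ Icc φ φ₀, u ∈ Ioo (φ₀ - r) (φ₀ + r) ∧ 0 < deriv τ u := fun u hu =>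
        hsub u (by linarith [hu.1, hφ.1]) (by linarith [hu.2])
      obtain ⟨hco, hmv⟩ := j20341_mv h (τ := τ) (a := φ) (b := φ₀) (ε := 1)
        (fun u hu => hder u (hin u hu).1) (fun u hu => hI u (hin u hu).1)
        (fun u hu => by rw [abs_of_pos (hin u hu).2]; linarith)
      have h5 := h.d_curve (fun φ => F (τ φ) φ) φ φ₀ (fun u => 1 * τ u) hφ.2.le
        (fun u _ => h.F_mem _ _) hco hmv
      linarith

end Pool.Agent.GR.GF5
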