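import Pool.Agent.GR.PD
import Pool.Agent.GR.GF1
import Pool.Agent.GR.GF2
import Pool.Agent.GR.GF3
import Pool.Agent.GR.GF4
import Pool.Agent.GR.GF5

set_option autoImplicit false
open Set Filter Topology MeasureTheory
open scoped Gradient RealInnerProductSpace ContDiff


namespace Pool.Agent.GR.GF6
open Pool.Agent.GR
open Pool.Agent.GR.GF1 (cut_pos cut_le cut_iff cut_per)
open Pool.Agent.GR.GF2 (cut_unique cut_usc loc_inj)
open Pool.Agent.GR.GF3 (near_min no_conj I_pos)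
open Pool.Agent.GR.GF4 (cut_cont cut_conj)
open Pool.Agent.GR.GF5 (envelope)


variable {S : Set E} {d : E → E → ℝ} {x : E} {F : ℝ → ℝ → E} {I : ℝ → ℝ → ℝ} {n : ℝ → ℝ → E}



/-! ## TARGET (prove this) -/

theorem sard_aux_inv (g : ℝ →L[ℝ] ℝ) (hg : g 1 ≠ 0) : g.IsInvertible := by
  refine ⟨ContinuousLinearEquiv.unitsEquivAut ℝ (Units.mk0 (g 1) hg), ?_⟩
  ext
  simp

theorem sard_aux_tau (h : PD S d x F I n) {φ₀ : ℝ} (h0 : I (cut d x F φ₀) φ₀ = 0) :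
    ∃ r > 0, ∃ τ : ℝ → ℝ, (∀ φ ∈ Ioo (φ₀ - r) (φ₀ + r), ContDiffAt ℝ 1 τ φ) ∧
      (∀ φ ∈ Ioo (φ₀ - r) (φ₀ + r), I (τ φ) φ = 0) ∧
      (∀ φ ∈ Ioo (φ₀ - r) (φ₀ + r), 0 < τ φ) ∧
      (∀ φ ∈ Ioo (φ₀ - r) (φ₀ + r), I (cut d x F φ) φ = 0 → τ φ = cut d x F φ) := by
  have hf : ContDiff ℝ 1 (fun q : ℝ × ℝ => I q.2 q.1) := by
    have h1 : ContDiff ℝ 1 (fun q : ℝ × ℝ => I q.1 q.2) := h.I_smooth.of_le (by exact_mod_cast le_top)
    exact h1.comp (contDiff_snd.prodMk contDiff_fst)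
  have cdf : ContDiffAt ℝ 1 (fun q : ℝ × ℝ => I q.2 q.1) (φ₀, cut d x F φ₀) := hf.contDiffAt
  have hder : fderiv ℝ (fun q : ℝ × ℝ => I q.2 q.1) (φ₀, cut d x F φ₀) (0, 1) =
      deriv (fun s => I s φ₀) (cut d x F φ₀) := by
    have h1 := (cdf.differentiableAt (by norm_num)).hasFDerivAt
    have h2 : HasDerivAt (fun s : ℝ => (φ₀, s)) ((0 : ℝ), (1 : ℝ)) (cut d x F φ₀) :=
      (hasDerivAt_const _ _).prodMk (hasDerivAt_id _)
    have h3 := HasFDerivAt.comp_hasDerivAt (cut d x F φ₀) h1 h2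
    exact h3.deriv.symm
  have if₂ : (fderiv ℝ (fun q : ℝ × ℝ => I q.2 q.1) (φ₀, cut d x F φ₀) ∘L .inr ℝ ℝ ℝ).IsInvertible := by
    apply sard_aux_inv
    simp only [ContinuousLinearMap.coe_comp, Function.comp_apply, ContinuousLinearMap.inr_apply]
    rw [hder]
    exact h.I_simple _ _ h0
  have e1 := cdf.eventually_apply_implicitFunction (by norm_num) if₂
  have e2 := cdf.eventually_apply_eq_iff_implicitFunction (by norm_num) if₂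
  have e3 := cdf.contDiffAt_implicitFunction (by norm_num) if₂
  have e4 := cdf.implicitFunction_apply_self (by norm_num) if₂
  obtain ⟨τ, hτ⟩ : ∃ τ, τ = cdf.implicitFunction (by norm_num) if₂ := ⟨_, rfl⟩
  rw [← hτ] at e1 e2 e3 e4
  simp only at e1 e2 e3 e4
  rw [h0] at e1
  have e5 : ∀ᶠ φ in 𝓝 φ₀, ContDiffAt ℝ 1 τ φ := e3.eventually (by norm_num)
  have e6 : ∀ᶠ φ in 𝓝 φ₀, 0 < τ φ := by
    have : Tendsto τ (𝓝 φ₀) (𝓝 (τ φ₀)) := e3.continuousAt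
    rw [e4] at this
    exact this.eventually (lt_mem_nhds (cut_pos h φ₀))
  have e7 : ∀ᶠ φ in 𝓝 φ₀, (I (cut d x F φ) φ = 0 → τ φ = cut d x F φ) := by
    have hc : Tendsto (fun φ => (φ, cut d x F φ)) (𝓝 φ₀) (𝓝 (φ₀, cut d x F φ₀)) :=
      (continuous_id.prodMk (cut_cont h)).continuousAt
    filter_upwards [hc.eventually e2] with φ hφ h1
    exact hφ.1 (h1.trans h0.symm)
  obtain ⟨r, hr, hr'⟩ := Metric.eventually_nhds_iff.1 (e1.and (e5.and (e6.and e7)))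
  have key : ∀ φ ∈ Ioo (φ₀ - r) (φ₀ + r), dist φ φ₀ < r := by
    intro φ hφ
    rw [Real.dist_eq, abs_lt]
    constructor <;> linarith [hφ.1, hφ.2]
  exact ⟨r, hr, τ, fun φ hφ => (hr' (key φ hφ)).2.1, fun φ hφ => (hr' (key φ hφ)).1,
    fun φ hφ => (hr' (key φ hφ)).2.2.1, fun φ hφ => (hr' (key φ hφ)).2.2.2⟩

theorem sard_aux_deriv (h : PD S d x F I n) (l : E →L[ℝ] ℝ) {τ : ℝ → ℝ} {φ : ℝ}
    (hτ : HasDerivAt τ 0 φ) (hI : I (τ φ) φ = 0) :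
    HasDerivAt (fun s => l (F (τ s) s)) 0 φ := by
  have hF : DifferentiableAt ℝ (fun q : ℝ × ℝ => F q.1 q.2) (τ φ, φ) :=
    (h.F_smooth.differentiable (by simp)) _
  have h1 := hF.hasFDerivAt
  have h2 : HasDerivAt (fun s : ℝ => (τ s, s)) ((0 : ℝ), (1 : ℝ)) φ :=
    hτ.prodMk (hasDerivAt_id _)
  have h3 : HasDerivAt (fun s : ℝ => F (τ s) s)
      (fderiv ℝ (fun q : ℝ × ℝ => F q.1 q.2) (τ φ, φ) (0, 1)) φ :=
    HasFDerivAt.comp_hasDerivAt (l := fun q : ℝ × ℝ => F q.1 q.2) (f := fun s : ℝ => (τ s, s)) φ h1 h2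
  have h4 : HasDerivAt (fun s : ℝ => (τ φ, s)) ((0 : ℝ), (1 : ℝ)) φ :=
    (hasDerivAt_const _ _).prodMk (hasDerivAt_id _)
  have h5 : HasDerivAt (fun s : ℝ => F (τ φ) s)
      (fderiv ℝ (fun q : ℝ × ℝ => F q.1 q.2) (τ φ, φ) (0, 1)) φ :=
    HasFDerivAt.comp_hasDerivAt (l := fun q : ℝ × ℝ => F q.1 q.2) (f := fun s : ℝ => (τ φ, s)) φ h1 h4
  have h6 := h5.unique (h.F_θ (τ φ) φ)
  rw [hI, zero_smul] at h6
  rw [h6] at h3
  have h7 : HasDerivAt (fun s => l (F (τ s) s)) (l 0) φ := l.hasFDerivAt.comp_hasDerivAt φ h3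
  rw [map_zero] at h7
  exact h7

theorem sard_local (h : PD S d x F I n) {φ₀ : ℝ} (h0 : I (cut d x F φ₀) φ₀ = 0) (l : E →L[ℝ] ℝ) :
    ∃ r > 0, volume ((fun φ => l (F (cut d x F φ) φ)) ''
      {φ | φ ∈ Ioo (φ₀ - r) (φ₀ + r) ∧ I (cut d x F φ) φ = 0}) = 0 := by
  obtain ⟨r, hr, τ, h1, h2, h3, h4⟩ := sard_aux_tau h h0
  refine ⟨r, hr, ?_⟩
  have himg : (fun φ => l (F (cut d x F φ) φ)) ''
      {φ | φ ∈ Ioo (φ₀ - r) (φ₀ + r) ∧ I (cut d x F φ) φ = 0} =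
      (fun φ => l (F (τ φ) φ)) '' {φ | φ ∈ Ioo (φ₀ - r) (φ₀ + r) ∧ I (cut d x F φ) φ = 0} := by
    refine image_congr fun φ hφ => ?_
    rw [h4 φ hφ.1 hφ.2]
  rw [himg]
  refine addHaar_image_eq_zero_of_det_fderivWithin_eq_zero (f' := fun _ => (0 : ℝ →L[ℝ] ℝ)) volume
    ?_ ?_
  · intro φ hφ
    have hc : τ φ = cut d x F φ := h4 φ hφ.1 hφ.2
    obtain ⟨r', hr', hsub⟩ : ∃ r' > 0, Ioo (φ - r') (φ + r') ⊆ Ioo (φ₀ - r) (φ₀ + r) := by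
      refine ⟨min (φ - (φ₀ - r)) (φ₀ + r - φ), ?_, ?_⟩
      · exact lt_min (by linarith [hφ.1.1]) (by linarith [hφ.1.2])
      · intro y hy
        have := min_le_left (φ - (φ₀ - r)) (φ₀ + r - φ)
        have := min_le_right (φ - (φ₀ - r)) (φ₀ + r - φ)
        exact ⟨by linarith [hy.1], by linarith [hy.2]⟩
    have hd : deriv τ φ = 0 := envelope h hr'
      (fun y hy => (h1 y (hsub hy)).contDiffWithinAt) (fun y hy => h2 y (hsub hy))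
      (fun y hy => h3 y (hsub hy)) hc.symm
    have hτ : HasDerivAt τ 0 φ := by
      rw [← hd]
      exact ((h1 φ hφ.1).differentiableAt (by norm_num)).hasDerivAt
    have := (sard_aux_deriv h l hτ (h2 φ hφ.1)).hasFDerivAt
    have h9 : (0 : ℝ →L[ℝ] ℝ) = ContinuousLinearMap.toSpanSingleton ℝ (0 : ℝ) := by
      ext; simp
    rw [h9]
    exact this.hasFDerivWithinAt
  · intro φ hφ
    simp

theorem sard_global (h : PD S d x F I n) (l : E →L[ℝ] ℝ) :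
    volume (range (fun φ => l (F (cut d x F φ) φ))) = 0 := by
  obtain ⟨Z, hZ⟩ : ∃ Z : Set ℝ, Z = {φ | I (cut d x F φ) φ = 0} := ⟨_, rfl⟩
  have hloc : ∀ φ : ℝ, ∃ r > 0, φ ∈ Z → volume ((fun φ => l (F (cut d x F φ) φ)) ''
      {y | y ∈ Ioo (φ - r) (φ + r) ∧ I (cut d x F y) y = 0}) = 0 := by
    intro φ
    by_cases hφ : φ ∈ Z
    · rw [hZ] at hφ
      obtain ⟨r, hr, hr'⟩ := sard_local h hφ l
      exact ⟨r, hr, fun _ => hr'⟩
    · exact ⟨1, one_pos, fun h => absurd h hφ⟩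
  choose r hr hr' using hloc
  obtain ⟨t, htZ, htc, hcov⟩ := TopologicalSpace.countable_cover_nhdsWithin
    (f := fun φ => Ioo (φ - r φ) (φ + r φ)) (s := Z) (fun φ _ =>
      mem_nhdsWithin_of_mem_nhds (Ioo_mem_nhds (by linarith [hr φ]) (by linarith [hr φ])))
  have hsub : range (fun φ => l (F (cut d x F φ) φ)) ⊆ ⋃ φ ∈ t, (fun φ => l (F (cut d x F φ) φ)) ''
      {y | y ∈ Ioo (φ - r φ) (φ + r φ) ∧ I (cut d x F y) y = 0} := by
    rintro _ ⟨θ, rfl⟩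
    obtain ⟨φ, hφ0, hφ⟩ := cut_conj h θ
    have hφZ : φ ∈ Z := by rw [hZ]; exact hφ0
    have := hcov hφZ
    simp only [mem_iUnion] at this ⊢
    obtain ⟨ψ, hψ, hmem⟩ := this
    refine ⟨ψ, hψ, φ, ⟨hmem, hφ0⟩, ?_⟩
    simp only
    rw [hφ]
  refine measure_mono_null hsub ?_
  rw [measure_biUnion_null_iff htc]
  exact fun φ hφ => hr' φ (htZ hφ)

end Pool.Agent.GR.GF6
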