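import Pool.Agent.GR.PD
import Pool.Agent.GR.GF1
import Pool.Agent.GR.GF2
import Pool.Agent.GR.GF3
import Pool.Agent.GR.GF4
import Pool.Agent.GR.GF5
import Pool.Agent.GR.GF6

set_option autoImplicit false
open Set Filter Topology MeasureTheory
open scoped Gradient RealInnerProductSpace ContDiff


namespace Pool.Agent.GR.GF7
open Pool.Agent.GR
open Pool.Agent.GR.GF1 (cut_pos cut_le cut_iff cut_per)
open Pool.Agent.GR.GF2 (cut_unique cut_usc loc_inj)
open Pool.Agent.GR.GF3 (near_min no_conj I_pos)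
open Pool.Agent.GR.GF4 (cut_cont cut_conj)
open Pool.Agent.GR.GF5 (envelope)
open Pool.Agent.GR.GF6 (sard_local sard_global)


variable {S : Set E} {d : E → E → ℝ} {x : E} {F : ℝ → ℝ → E} {I : ℝ → ℝ → ℝ} {n : ℝ → ℝ → E}



/-! ## TARGET (prove this) -/

theorem cut_const (h : PD S d x F I n) : ∃ L > 0, ∃ q ∈ S, (∀ θ, F L θ = q) ∧
    (∀ θ, ∀ t ∈ Icc 0 L, d x (F t θ) = t) ∧ (∀ θ, ∀ t ∈ Ioo 0 L, 0 < I t θ) ∧
    (∀ θ, I L θ = 0) := by
  have hcont : Continuous (fun φ => F (cut d x F φ) φ) := by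
    have h1 : Continuous (fun q : ℝ × ℝ => F q.1 q.2) := h.F_smooth.continuous
    exact h1.comp ((cut_cont h).prodMk continuous_id)
  have hl : ∀ (l : E →L[ℝ] ℝ) (φ : ℝ),
      l (F (cut d x F φ) φ) = l (F (cut d x F 0) 0) := by
    intro l φ
    have hpre : IsPreconnected (range (fun φ => l (F (cut d x F φ) φ))) :=
      isPreconnected_range (l.continuous.comp hcont)
    have hzero := sard_global h l
    have key : ∀ a ∈ range (fun φ => l (F (cut d x F φ) φ)),
        ∀ b ∈ range (fun φ => l (F (cut d x F φ) φ)), ¬ a < b := by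
      intro a ha b hb hab
      have hsub := hpre.Icc_subset ha hb
      have hm : volume (Icc a b) ≤ 0 := by
        rw [← hzero]
        exact measure_mono hsub
      rw [Real.volume_Icc, nonpos_iff_eq_zero, ENNReal.ofReal_eq_zero] at hm
      linarith
    have h1 := key _ ⟨φ, rfl⟩ _ ⟨0, rfl⟩
    have h2 := key _ ⟨0, rfl⟩ _ ⟨φ, rfl⟩
    simp only [not_lt] at h1 h2
    exact le_antisymm h2 h1
  have hq : ∀ φ, F (cut d x F φ) φ = F (cut d x F 0) 0 := by
    intro φ
    have h1 := hl (innerSL ℝ (F (cut d x F φ) φ - F (cut d x F 0) 0)) φ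
    simp only [innerSL_apply_apply] at h1
    have h2 : ⟪F (cut d x F φ) φ - F (cut d x F 0) 0,
        F (cut d x F φ) φ - F (cut d x F 0) 0⟫ = (0:ℝ) := by
      rw [inner_sub_right, h1, sub_self]
    rw [inner_self_eq_zero, sub_eq_zero] at h2
    exact h2
  have hcut : ∀ φ, d x (F (cut d x F φ) φ) = cut d x F φ := fun φ =>
    (cut_iff h (cut_pos h φ).le).2 le_rfl
  have hL : ∀ φ, cut d x F φ = cut d x F 0 := by
    intro φ
    rw [← hcut φ, hq φ, hcut 0]
  refine ⟨cut d x F 0, cut_pos h 0, F (cut d x F 0) 0, h.F_mem _ _, ?_, ?_, ?_, ?_⟩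
  · intro θ
    have := hq θ
    rw [hL θ] at this
    exact this
  · intro θ t ht
    exact (cut_iff h ht.1).2 (by rw [hL θ]; exact ht.2)
  · intro θ t ht
    exact I_pos h ht.1 (by rw [hL θ]; exact ht.2)
  · intro θ
    have h1 := h.F_θ (cut d x F 0) θ
    have h2 : (fun φ => F (cut d x F 0) φ) = fun _ => F (cut d x F 0) 0 := by
      funext φ
      have := hq φ
      rw [hL φ] at this
      exact this
    rw [h2] at h1
    have h3 := h1.unique (hasDerivAt_const θ (F (cut d x F 0) 0))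
    rw [smul_eq_zero] at h3
    rcases h3 with h3 | h3
    · exact h3
    · have h4 := h.n_norm (cut d x F 0) θ
      rw [h3, norm_zero] at h4
      norm_num at h4

end Pool.Agent.GR.GF7
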