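import Pool.Agent.GR.Defs
import Pool.Agent.GR.GA8
import Pool.Agent.GR.GA1
import Pool.Agent.GR.GA6
import Pool.Agent.GR.GA7
import Pool.Agent.GR.GB2
import Pool.Agent.GR.GL3

set_option autoImplicit false
open Set Filter Topology MeasureTheory
open scoped Gradient RealInnerProductSpace ContDiff


namespace Pool.Agent.GR.GG1
open Pool.Agent.GR
open Pool.Agent.GR.GA8 (A_eq)
open Pool.Agent.GR.GA1 (N_smooth N_norm)
open Pool.Agent.GR.GA6 (cr_smooth cr_norm cr_inner_left cr_inner_right frame)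
open Pool.Agent.GR.GA7 (perp_UT)
open Pool.Agent.GR.GB2 (G_UT)
open Pool.Agent.GR.GL3 (N_deriv nu_deriv)




/-! ## TARGET (prove this) -/

theorem cross_coords {f : E → ℝ} {G : ℝ → E × E → E × E} (hf : Surf f) (hG : GFlow f G) {p : E × E}
    (hp : p ∈ UT f) (t₀ : ℝ) : ∃ (s z w : E → ℝ), ContDiffAt ℝ ∞ s (G t₀ p).1 ∧
      ContDiffAt ℝ ∞ z (G t₀ p).1 ∧ ContDiffAt ℝ ∞ w (G t₀ p).1 ∧ s (G t₀ p).1 = t₀ ∧
      (∀ᶠ y in 𝓝 (G t₀ p).1, y = (G (s y) p).1 + z y • cr (N f (G (s y) p).1) (G (s y) p).2 +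
        w y • N f (G (s y) p).1) ∧
      (∀ᶠ q in 𝓝 ((t₀, 0, 0) : ℝ × ℝ × ℝ),
        s ((G q.1 p).1 + q.2.1 • cr (N f (G q.1 p).1) (G q.1 p).2 + q.2.2 • N f (G q.1 p).1) = q.1 ∧
        z ((G q.1 p).1 + q.2.1 • cr (N f (G q.1 p).1) (G q.1 p).2 + q.2.2 • N f (G q.1 p).1) = q.2.1 ∧
        w ((G q.1 p).1 + q.2.1 • cr (N f (G q.1 p).1) (G q.1 p).2 + q.2.2 • N f (G q.1 p).1) = q.2.2) := by
  have hUT := G_UT hG hp t₀
  obtain ⟨hf0, horth, hnorm⟩ := hUT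
  have hTTp : p ∈ TT f := ⟨hp.1, hp.2.1⟩
  have hp2 : ‖p.2‖ ≤ 2 := by rw [hp.2.2]; norm_num
  set T : E := (G t₀ p).2 with hT
  set Nn : E := N f (G t₀ p).1 with hNn
  set ν : E := cr Nn T with hν
  have hN1 : ‖Nn‖ = 1 := N_norm hf hf0
  have hT1 : ‖T‖ = 1 := hnorm
  have hNT : ⟪Nn, T⟫ = 0 := horth
  have hν1 : ‖ν‖ = 1 := cr_norm hN1 hT1 hNT
  have hνN : ⟪ν, Nn⟫ = 0 := cr_inner_left Nn T
  have hνT : ⟪ν, T⟫ = 0 := cr_inner_right Nn T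
  have hTN : ⟪T, Nn⟫ = 0 := by rw [real_inner_comm]; exact hNT
  have hNν : ⟪Nn, ν⟫ = 0 := by rw [real_inner_comm]; exact hνN
  have hTν : ⟪T, ν⟫ = 0 := by rw [real_inner_comm]; exact hνT
  have hTT : ⟪T, T⟫ = 1 := by rw [real_inner_self_eq_norm_sq, hT1]; norm_num
  have hNN : ⟪Nn, Nn⟫ = 1 := by rw [real_inner_self_eq_norm_sq, hN1]; norm_num
  have hνν : ⟪ν, ν⟫ = 1 := by rw [real_inner_self_eq_norm_sq, hν1]; norm_num
  let Ψ : ℝ × ℝ × ℝ → E := fun q =>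
    (G q.1 p).1 + q.2.1 • cr (N f (G q.1 p).1) (G q.1 p).2 + q.2.2 • N f (G q.1 p).1
  let q₀ : ℝ × ℝ × ℝ := (t₀, 0, 0)
  -- smoothness
  have hGs : ContDiff ℝ ∞ (fun q : ℝ × ℝ × ℝ => G q.1 p) := by
    have h1 : ContDiff ℝ ∞ (fun q : ℝ × ℝ × ℝ => ((q.1, p) : ℝ × (E × E))) :=
      contDiff_fst.prodMk contDiff_const
    exact hG.smooth.comp h1
  have hNs : ContDiffAt ℝ ∞ (fun q : ℝ × ℝ × ℝ => N f (G q.1 p).1) q₀ := by
    have h1 : ContDiffAt ℝ ∞ (N f) ((fun q : ℝ × ℝ × ℝ => (G q.1 p).1) q₀) := N_smooth hf hf0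
    exact ContDiffAt.comp (g := N f) (f := fun q : ℝ × ℝ × ℝ => (G q.1 p).1) q₀ h1
      (hGs.fst.contDiffAt)
  have hνs : ContDiffAt ℝ ∞ (fun q : ℝ × ℝ × ℝ => cr (N f (G q.1 p).1) (G q.1 p).2) q₀ := by
    have h1 : ContDiffAt ℝ ∞ (fun q : ℝ × ℝ × ℝ => ((N f (G q.1 p).1, (G q.1 p).2) : E × E)) q₀ :=
      hNs.prodMk hGs.snd.contDiffAt
    exact cr_smooth.contDiffAt.comp q₀ h1
  have hΨs : ContDiffAt ℝ ∞ Ψ q₀ := by
    refine (hGs.fst.contDiffAt.add ?_).add ?_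
    · exact (contDiff_snd.fst.contDiffAt).smul hνs
    · exact (contDiff_snd.snd.contDiffAt).smul hNs
  -- derivative
  let L : (ℝ × ℝ × ℝ) →L[ℝ] E :=
    (ContinuousLinearMap.fst ℝ ℝ (ℝ × ℝ)).smulRight T +
      ((ContinuousLinearMap.fst ℝ ℝ ℝ).comp (ContinuousLinearMap.snd ℝ ℝ (ℝ × ℝ))).smulRight ν +
      ((ContinuousLinearMap.snd ℝ ℝ ℝ).comp (ContinuousLinearMap.snd ℝ ℝ (ℝ × ℝ))).smulRight Nn
  let M : E →L[ℝ] (ℝ × ℝ × ℝ) := (innerSL ℝ T).prod ((innerSL ℝ ν).prod (innerSL ℝ Nn))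
  have hLapp : ∀ q : ℝ × ℝ × ℝ, L q = q.1 • T + q.2.1 • ν + q.2.2 • Nn := fun q => rfl
  have hMapp : ∀ v : E, M v = (⟪T, v⟫, ⟪ν, v⟫, ⟪Nn, v⟫) := fun v => rfl
  have hleft : Function.LeftInverse M L := by
    intro q
    rw [hLapp, hMapp]
    simp only [inner_add_right, inner_smul_right, hTT, hTν, hTN, hνT, hνν, hνN, hNT, hNν, hNN]
    simp
  have hright : Function.RightInverse M L := by
    intro v
    rw [hLapp, hMapp]
    have h := frame hN1 hT1 hNT v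
    simp only
    conv_rhs => rw [h]
    abel
  let Le : (ℝ × ℝ × ℝ) ≃L[ℝ] E := ContinuousLinearEquiv.equivOfInverse L M hleft hright
  have hLe : (Le : (ℝ × ℝ × ℝ) →L[ℝ] E) = L := by
    ext q
    all_goals rfl
  have hd : HasFDerivAt Ψ (Le : (ℝ × ℝ × ℝ) →L[ℝ] E) q₀ := by
    rw [hLe]
    have hg1 : HasDerivAt (fun t => (G t p).1) T (ContinuousLinearMap.fst ℝ ℝ (ℝ × ℝ) q₀) :=
      hG.pos p hTTp hp2 t₀
    have h1 := hg1.hasFDerivAt.comp q₀ (ContinuousLinearMap.fst ℝ ℝ (ℝ × ℝ)).hasFDerivAt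
    have hc2 := ((ContinuousLinearMap.fst ℝ ℝ ℝ).comp
      (ContinuousLinearMap.snd ℝ ℝ (ℝ × ℝ))).hasFDerivAt (x := q₀)
    have hc3 := ((ContinuousLinearMap.snd ℝ ℝ ℝ).comp
      (ContinuousLinearMap.snd ℝ ℝ (ℝ × ℝ))).hasFDerivAt (x := q₀)
    have hνd := (hνs.differentiableAt (by simp)).hasFDerivAt
    have hNd := (hNs.differentiableAt (by simp)).hasFDerivAt
    have h2 := hc2.smul hνd
    have h3 := hc3.smul hNd
    have h4 := (h1.add h2).add h3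
    refine h4.congr_fderiv ?_
    ext q
    all_goals simp [L, q₀, hν, hNn, hT]
  have h1n : (∞ : WithTop ℕ∞) ≠ 0 := by simp
  have hst : HasStrictFDerivAt Ψ (Le : (ℝ × ℝ × ℝ) →L[ℝ] E) q₀ := hΨs.hasStrictFDerivAt' hd h1n
  have hΨ0 : Ψ q₀ = (G t₀ p).1 := by simp [Ψ, q₀]
  have hsm := hΨs.to_localInverse hd h1n
  let Λ := hΨs.localInverse hd h1n
  have hsmΛ : ContDiffAt ℝ ∞ Λ (G t₀ p).1 := by rw [← hΨ0]; exact hsm
  refine ⟨fun y => (Λ y).1, fun y => (Λ y).2.1, fun y => (Λ y).2.2, hsmΛ.fst, hsmΛ.snd.fst,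
    hsmΛ.snd.snd, ?_, ?_, ?_⟩
  · have h := hΨs.localInverse_apply_image hd h1n
    rw [hΨ0] at h
    have h' : Λ (G t₀ p).1 = q₀ := h
    simp only [h', q₀]
  · have h := hst.eventually_right_inverse
    rw [hΨ0] at h
    filter_upwards [h] with y hy
    exact hy.symm
  · have h := hst.eventually_left_inverse
    filter_upwards [h] with q hq
    have hq' : Λ (Ψ q) = q := hq
    refine ⟨?_, ?_, ?_⟩
    · exact congrArg (fun r : ℝ × ℝ × ℝ => r.1) hq'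
    · exact congrArg (fun r : ℝ × ℝ × ℝ => r.2.1) hq'
    · exact congrArg (fun r : ℝ × ℝ × ℝ => r.2.2) hq'

end Pool.Agent.GR.GG1
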