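import Pool.Agent.GR.Defs
import Pool.Agent.GR.GG1
import Pool.Agent.GR.GX1
import Pool.Agent.GR.GL5
import Pool.Agent.GR.GL6
import Pool.Agent.GR.GL4
import Pool.Agent.GR.GA1
import Pool.Agent.GR.GA6
import Pool.Agent.GR.GA7
import Pool.Agent.GR.GB2

set_option autoImplicit false
open Set Filter Topology MeasureTheory
open scoped Gradient RealInnerProductSpace ContDiff


namespace Pool.Agent.GR.GG2
open Pool.Agent.GR
open Pool.Agent.GR.GG1 (cross_coords)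
open Pool.Agent.GR.GX1 (normal_seg)
open Pool.Agent.GR.GL5 (F_deriv F_smooth J_smooth)
open Pool.Agent.GR.GL6 (J_simple)
open Pool.Agent.GR.GL4 (J_deriv)
open Pool.Agent.GR.GA1 (N_smooth N_norm)
open Pool.Agent.GR.GA6 (cr_smooth cr_norm)
open Pool.Agent.GR.GA7 (rot_UT rot_zero rot_rot)
open Pool.Agent.GR.GB2 (G_UT)




/-! ## TARGET (prove this) -/

theorem cross_lemma_sign {g : ℝ → ℝ} {c a : ℝ} (h : HasDerivAt g c a) (h0 : g a = 0)
    (hc : c ≠ 0) :
    (∀ᶠ t in 𝓝[>] a, 0 < g t * c) ∧ (∀ᶠ t in 𝓝[<] a, g t * c < 0) := by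
  have h1 := hasDerivAt_iff_tendsto_slope.1 h
  have h2 : Tendsto (fun t => slope g a t * c) (𝓝[≠] a) (𝓝 (c * c)) := h1.mul_const c
  have h3 : ∀ᶠ t in 𝓝[≠] a, 0 < slope g a t * c :=
    h2.eventually (lt_mem_nhds (mul_self_pos.2 hc))
  constructor
  · have h4 : ∀ᶠ t in 𝓝[>] a, 0 < slope g a t * c :=
      h3.filter_mono (nhdsWithin_mono _ (fun t (ht : a < t) => ne_of_gt ht))
    filter_upwards [h4, self_mem_nhdsWithin] with t ht hta
    rw [slope_def_field, h0, sub_zero] at ht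
    have h6 : 0 < t - a := sub_pos.2 hta
    have h5 : g t * c = (g t / (t - a) * c) * (t - a) := by field_simp
    rw [h5]
    exact mul_pos ht h6
  · have h4 : ∀ᶠ t in 𝓝[<] a, 0 < slope g a t * c :=
      h3.filter_mono (nhdsWithin_mono _ (fun t (ht : t < a) => ne_of_lt ht))
    filter_upwards [h4, self_mem_nhdsWithin] with t ht hta
    rw [slope_def_field, h0, sub_zero] at ht
    have h6 : t - a < 0 := sub_neg.2 hta
    have h7 : t - a ≠ 0 := h6.ne
    have h5 : g t * c = (g t / (t - a) * c) * (t - a) := by field_simp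
    rw [h5]
    exact mul_neg_of_pos_of_neg ht h6

theorem cross_lemma {f : E → ℝ} {G : ℝ → E × E → E × E} (hf : Surf f) (hG : GFlow f G) {x u : E}
    (hp : (x, u) ∈ UT f) {t₀ θ₀ : ℝ} (ht : 0 < t₀) (hJ : J f G (x, rot f x u θ₀) t₀ = 0) {ε : ℝ}
    (hε : 0 < ε) : ∃ t t' θ, |t - t₀| < ε ∧ |t' - t₀| < ε ∧ θ ≠ θ₀ ∧ |θ - θ₀| < ε ∧
      (G t (x, rot f x u θ)).1 = (G t' (x, rot f x u θ₀)).1 := by
  obtain ⟨s, z, w, hs, hz, hw, hst, h1, h2⟩ := cross_coords hf hG (rot_UT hf hp θ₀) t₀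
  obtain ⟨δ, hδ, hns⟩ := normal_seg hf
  have hpU : (x, rot f x u θ₀) ∈ UT f := rot_UT hf hp θ₀
  have hF : Continuous (fun q : ℝ × ℝ => (G q.1 (x, rot f x u q.2)).1) :=
    (F_smooth hG x u).continuous.fst
  have hγ : Continuous (fun t : ℝ => (G t (x, rot f x u θ₀)).1) :=
    hF.comp (continuous_id.prodMk continuous_const)
  have hsc : Tendsto s (𝓝 (G t₀ (x, rot f x u θ₀)).1) (𝓝 t₀) := by
    have := hs.continuousAt
    rwa [ContinuousAt, hst] at this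
  have hP1 : ∀ᶠ y in 𝓝 (G t₀ (x, rot f x u θ₀)).1, |s y - t₀| < ε := by
    have := hsc.eventually (Metric.ball_mem_nhds t₀ hε)
    filter_upwards [this] with y hy
    simpa [Real.dist_eq] using hy
  have hP2 : ∀ᶠ y in 𝓝 (G t₀ (x, rot f x u θ₀)).1,
      ‖y - (G (s y) (x, rot f x u θ₀)).1‖ < δ := by
    have t1 : Tendsto (fun y => y - (G (s y) (x, rot f x u θ₀)).1)
        (𝓝 (G t₀ (x, rot f x u θ₀)).1)
        (𝓝 ((G t₀ (x, rot f x u θ₀)).1 - (G t₀ (x, rot f x u θ₀)).1)) :=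
      tendsto_id.sub ((hγ.tendsto t₀).comp hsc)
    have t2 := t1.norm
    rw [sub_self, norm_zero] at t2
    exact t2.eventually (gt_mem_nhds hδ)
  have hP3 : ∀ᶠ y in 𝓝 (G t₀ (x, rot f x u θ₀)).1, DifferentiableAt ℝ z y := by
    have h := (hz.of_le (show (1 : WithTop ℕ∞) ≤ ∞ by exact_mod_cast le_top)).eventually (by decide)
    filter_upwards [h] with y hy
    exact hy.differentiableAt (by norm_num)
  have hQ : ∀ᶠ q in 𝓝 ((t₀, θ₀) : ℝ × ℝ),
      ((G q.1 (x, rot f x u q.2)).1 =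
        (G (s (G q.1 (x, rot f x u q.2)).1) (x, rot f x u θ₀)).1 +
        z (G q.1 (x, rot f x u q.2)).1 •
          cr (N f (G (s (G q.1 (x, rot f x u q.2)).1) (x, rot f x u θ₀)).1)
            (G (s (G q.1 (x, rot f x u q.2)).1) (x, rot f x u θ₀)).2 +
        w (G q.1 (x, rot f x u q.2)).1 •
          N f (G (s (G q.1 (x, rot f x u q.2)).1) (x, rot f x u θ₀)).1) ∧
      |s (G q.1 (x, rot f x u q.2)).1 - t₀| < ε ∧
      ‖(G q.1 (x, rot f x u q.2)).1 -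
        (G (s (G q.1 (x, rot f x u q.2)).1) (x, rot f x u θ₀)).1‖ < δ ∧
      DifferentiableAt ℝ z (G q.1 (x, rot f x u q.2)).1 := by
    have hc : Tendsto (fun q : ℝ × ℝ => (G q.1 (x, rot f x u q.2)).1) (𝓝 (t₀, θ₀))
        (𝓝 (G t₀ (x, rot f x u θ₀)).1) := hF.tendsto (t₀, θ₀)
    exact hc.eventually (h1.and (hP1.and (hP2.and hP3)))
  obtain ⟨η, hη, hQ'⟩ := Metric.eventually_nhds_iff_ball.1 hQ
  have hQ2 : ∀ t θ, |t - t₀| < η → |θ - θ₀| < η → _ := fun t θ ht hθ => hQ' (t, θ) (by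
    rw [Metric.mem_ball, Prod.dist_eq, max_lt_iff]
    exact ⟨by simpa [Real.dist_eq] using ht, by simpa [Real.dist_eq] using hθ⟩)
  have h2' : ∀ᶠ t in 𝓝 t₀, ∀ᶠ q in 𝓝 ((t, 0, 0) : ℝ × ℝ × ℝ),
      z ((G q.1 (x, rot f x u θ₀)).1 +
        q.2.1 • cr (N f (G q.1 (x, rot f x u θ₀)).1) (G q.1 (x, rot f x u θ₀)).2 +
        q.2.2 • N f (G q.1 (x, rot f x u θ₀)).1) = q.2.1 := by
    have h3 := h2.eventually_nhds
    have hc : Tendsto (fun t : ℝ => ((t, 0, 0) : ℝ × ℝ × ℝ)) (𝓝 t₀) (𝓝 (t₀, 0, 0)) :=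
      (continuous_id.prodMk continuous_const).tendsto t₀
    filter_upwards [hc.eventually h3] with t ht
    filter_upwards [ht] with q hq
    exact hq.2.1
  have hder : ∀ t, |t - t₀| < η → (∀ᶠ q in 𝓝 ((t, 0, 0) : ℝ × ℝ × ℝ),
      z ((G q.1 (x, rot f x u θ₀)).1 +
        q.2.1 • cr (N f (G q.1 (x, rot f x u θ₀)).1) (G q.1 (x, rot f x u θ₀)).2 +
        q.2.2 • N f (G q.1 (x, rot f x u θ₀)).1) = q.2.1) →
      z (G t (x, rot f x u θ₀)).1 = 0 ∧
      HasDerivAt (fun θ => z (G t (x, rot f x u θ)).1) (J f G (x, rot f x u θ₀) t) θ₀ := by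
    intro t ht hR
    have hzd : DifferentiableAt ℝ z (G t (x, rot f x u θ₀)).1 :=
      (hQ2 t θ₀ ht (by simpa using hη)).2.2.2
    have hb : ∀ᶠ b in 𝓝 (0 : ℝ), z ((G t (x, rot f x u θ₀)).1 +
        b • cr (N f (G t (x, rot f x u θ₀)).1) (G t (x, rot f x u θ₀)).2) = b := by
      have hc : Tendsto (fun b : ℝ => ((t, b, 0) : ℝ × ℝ × ℝ)) (𝓝 0) (𝓝 (t, 0, 0)) :=
        (continuous_const.prodMk (continuous_id.prodMk continuous_const)).tendsto 0
      filter_upwards [hc.eventually hR] with b hb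
      simpa using hb
    have hz0 : z (G t (x, rot f x u θ₀)).1 = 0 := by
      have := hb.self_of_nhds
      simpa using this
    refine ⟨hz0, ?_⟩
    have hd1 : HasDerivAt (fun b : ℝ => z ((G t (x, rot f x u θ₀)).1 +
        b • cr (N f (G t (x, rot f x u θ₀)).1) (G t (x, rot f x u θ₀)).2))
        (fderiv ℝ z (G t (x, rot f x u θ₀)).1
          (cr (N f (G t (x, rot f x u θ₀)).1) (G t (x, rot f x u θ₀)).2)) 0 := by
      have hl : HasDerivAt (fun b : ℝ => (G t (x, rot f x u θ₀)).1 +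
        b • cr (N f (G t (x, rot f x u θ₀)).1) (G t (x, rot f x u θ₀)).2)
          (cr (N f (G t (x, rot f x u θ₀)).1) (G t (x, rot f x u θ₀)).2) 0 := by
        have := ((hasDerivAt_id (0 : ℝ)).smul_const
          (cr (N f (G t (x, rot f x u θ₀)).1) (G t (x, rot f x u θ₀)).2)).const_add
          (G t (x, rot f x u θ₀)).1
        simpa using this
      have hzd' : HasFDerivAt z (fderiv ℝ z (G t (x, rot f x u θ₀)).1)
          ((G t (x, rot f x u θ₀)).1 +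
          (0 : ℝ) • cr (N f (G t (x, rot f x u θ₀)).1) (G t (x, rot f x u θ₀)).2) := by
        rw [zero_smul, add_zero]
        exact hzd.hasFDerivAt
      exact hzd'.comp_hasDerivAt (0 : ℝ) hl
    have hd2 : HasDerivAt (fun b : ℝ => z ((G t (x, rot f x u θ₀)).1 +
        b • cr (N f (G t (x, rot f x u θ₀)).1) (G t (x, rot f x u θ₀)).2)) 1 0 :=
      (hasDerivAt_id (0 : ℝ)).congr_of_eventuallyEq hb
    have hone := hd1.unique hd2
    have hFd := F_deriv hf hG hp t θ₀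
    have := hzd.hasFDerivAt.comp_hasDerivAt θ₀ hFd
    rw [map_smul, hone, smul_eq_mul, mul_one] at this
    exact this
  have hJd := J_deriv hf hG hpU t₀
  obtain ⟨hJp, hJm⟩ := cross_lemma_sign hJd hJ (J_simple hf hG hpU hJ)
  set c := deriv (fun s => J f G (x, rot f x u θ₀) s) t₀ with hcdef
  have hcne : c ≠ 0 := J_simple hf hG hpU hJ
  have hnear : ∀ᶠ t in 𝓝 t₀, |t - t₀| < min η ε := by
    filter_upwards [Metric.ball_mem_nhds t₀ (lt_min hη hε)] with t ht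
    simpa [Real.dist_eq] using ht
  have hnearθ : ∀ᶠ θ in 𝓝 θ₀, |θ - θ₀| < min η ε := by
    filter_upwards [Metric.ball_mem_nhds θ₀ (lt_min hη hε)] with t ht
    simpa [Real.dist_eq] using ht
  obtain ⟨t₂, ⟨⟨h2a, h2b⟩, h2c⟩, h2d⟩ := (((hJp.and (hnear.filter_mono nhdsWithin_le_nhds)).and
    (h2'.filter_mono nhdsWithin_le_nhds)).and self_mem_nhdsWithin).exists
  obtain ⟨t₁, ⟨⟨h1a, h1b⟩, h1c⟩, h1d⟩ := (((hJm.and (hnear.filter_mono nhdsWithin_le_nhds)).and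
    (h2'.filter_mono nhdsWithin_le_nhds)).and self_mem_nhdsWithin).exists
  have h1d' : t₁ < t₀ := h1d
  have h2d' : t₀ < t₂ := h2d
  have hj1 : J f G (x, rot f x u θ₀) t₁ ≠ 0 := by
    intro h
    rw [h, zero_mul] at h1a
    exact lt_irrefl _ h1a
  have hj2 : J f G (x, rot f x u θ₀) t₂ ≠ 0 := by
    intro h
    rw [h, zero_mul] at h2a
    exact lt_irrefl _ h2a
  have hjj : J f G (x, rot f x u θ₀) t₁ * J f G (x, rot f x u θ₀) t₂ < 0 := by
    have h3 : (J f G (x, rot f x u θ₀) t₁ * c) * (J f G (x, rot f x u θ₀) t₂ * c) < 0 :=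
      mul_neg_of_neg_of_pos h1a h2a
    have h4 : (J f G (x, rot f x u θ₀) t₁ * c) * (J f G (x, rot f x u θ₀) t₂ * c) =
      (J f G (x, rot f x u θ₀) t₁ * J f G (x, rot f x u θ₀) t₂) * (c * c) := by ring
    rw [h4] at h3
    by_contra h5
    push Not at h5
    have h6 : 0 ≤ (J f G (x, rot f x u θ₀) t₁ * J f G (x, rot f x u θ₀) t₂) * (c * c) :=
      mul_nonneg h5 (mul_self_nonneg c)
    linarith
  obtain ⟨hz1, hd1⟩ := hder t₁ (h1b.trans_le (min_le_left _ _)) h1c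
  obtain ⟨hz2, hd2⟩ := hder t₂ (h2b.trans_le (min_le_left _ _)) h2c
  obtain ⟨hs1, -⟩ := cross_lemma_sign hd1 hz1 hj1
  obtain ⟨hs2, -⟩ := cross_lemma_sign hd2 hz2 hj2
  obtain ⟨θ, ⟨⟨hθ1, hθ2⟩, hθ3⟩, hθ4⟩ := (((hs1.and hs2).and
    (hnearθ.filter_mono nhdsWithin_le_nhds)).and self_mem_nhdsWithin).exists
  have hθ4' : θ₀ < θ := hθ4
  have hopp : z (G t₁ (x, rot f x u θ)).1 * z (G t₂ (x, rot f x u θ)).1 < 0 := by
    have h3 := mul_pos hθ1 hθ2
    have h4 : z (G t₁ (x, rot f x u θ)).1 * J f G (x, rot f x u θ₀) t₁ *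
      (z (G t₂ (x, rot f x u θ)).1 * J f G (x, rot f x u θ₀) t₂) =
      (z (G t₁ (x, rot f x u θ)).1 * z (G t₂ (x, rot f x u θ)).1) *
      (J f G (x, rot f x u θ₀) t₁ * J f G (x, rot f x u θ₀) t₂) := by ring
    rw [h4] at h3
    exact neg_of_mul_pos_left h3 hjj.le
  have hmem : ∀ t ∈ uIcc t₁ t₂, |t - t₀| < min η ε := by
    intro t ht
    rw [uIcc_of_le (h1d'.le.trans h2d'.le)] at ht
    rw [abs_lt] at h1b h2b ⊢
    constructor
    · linarith [ht.1, h1b.1]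
    · linarith [ht.2, h2b.2]
  have hθη : |θ - θ₀| < η := hθ3.trans_le (min_le_left _ _)
  have hcont : ContinuousOn (fun t => z (G t (x, rot f x u θ)).1) (uIcc t₁ t₂) := by
    intro t ht
    have hzc : ContinuousAt z (G t (x, rot f x u θ)).1 :=
      (hQ2 t θ ((hmem t ht).trans_le (min_le_left _ _)) hθη).2.2.2.continuousAt
    have hFc : ContinuousAt (fun t : ℝ => (G t (x, rot f x u θ)).1) t :=
      (hF.comp (continuous_id.prodMk continuous_const)).continuousAt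
    exact (ContinuousAt.comp (f := fun t : ℝ => (G t (x, rot f x u θ)).1) hzc hFc).continuousWithinAt
  have hIVT := intermediate_value_uIcc hcont
  have h0mem : (0 : ℝ) ∈ uIcc (z (G t₁ (x, rot f x u θ)).1) (z (G t₂ (x, rot f x u θ)).1) := by
    rw [mem_uIcc]
    rcases mul_neg_iff.1 hopp with h | h
    · right
      exact ⟨h.2.le, h.1.le⟩
    · left
      exact ⟨h.1.le, h.2.le⟩
  obtain ⟨t, htmem, ht0⟩ := hIVT h0mem
  have ht0' : z (G t (x, rot f x u θ)).1 = 0 := ht0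
  have htn := hmem t htmem
  obtain ⟨e1, e2, e3, e4⟩ := hQ2 t θ (htn.trans_le (min_le_left _ _)) hθη
  refine ⟨t, s (G t (x, rot f x u θ)).1, θ, htn.trans_le (min_le_right _ _), e2, hθ4'.ne',
    hθ3.trans_le (min_le_right _ _), ?_⟩
  refine hns (G (s (G t (x, rot f x u θ)).1) (x, rot f x u θ₀)).1 (G t (x, rot f x u θ)).1
    (G (s (G t (x, rot f x u θ)).1) (x, rot f x u θ₀)).1 (w (G t (x, rot f x u θ)).1)
    (G_UT hG hpU _).1 (G_UT hG (rot_UT hf hp θ) _).1 (G_UT hG hpU _).1 e3 (by simpa using hδ) ?_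
  have e5 := e1
  simp only [ht0', zero_smul, add_zero] at e5
  rw [sub_eq_iff_eq_add, add_comm]
  exact e5

end Pool.Agent.GR.GG2
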