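import Pool.Agent.GR.PD
import Pool.Agent.GR.GG2
import Pool.Agent.GR.GA3
import Pool.Agent.GR.GC3
import Pool.Agent.GR.GC4
import Pool.Agent.GR.GB2
import Pool.Agent.GR.GL5
import Pool.Agent.GR.GL4
import Pool.Agent.GR.GL6
import Pool.Agent.GR.GA6
import Pool.Agent.GR.GA7
import Pool.Agent.GR.GX6
import Pool.Agent.GR.GE4
import Pool.Agent.GR.GE3
import Pool.Agent.GR.GE1
import Pool.Agent.GR.GE6
import Pool.Agent.GR.GA1

set_option autoImplicit false
open Set Filter Topology MeasureTheory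
open scoped Gradient RealInnerProductSpace ContDiff


namespace Pool.Agent.GR.GG3
open Pool.Agent.GR
open Pool.Agent.GR.GG2 (cross_lemma)
open Pool.Agent.GR.GA3 (S_compact)
open Pool.Agent.GR.GC3 (D_nonneg D_ge D_self D_comm D_tri D_bdd)
open Pool.Agent.GR.GC4 (D_cont D_le_curve)
open Pool.Agent.GR.GB2 (D_G_le G_UT G_inj)
open Pool.Agent.GR.GL5 (F_deriv F_smooth J_smooth)
open Pool.Agent.GR.GL4 (J_zero J_deriv J_deriv_zero)
open Pool.Agent.GR.GL6 (J_simple)
open Pool.Agent.GR.GA6 (cr_norm cr_inner_left cr_inner_right)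
open Pool.Agent.GR.GA7 (rot_UT rot_zero rot_rot rot_eq_iff rot_surj)
open Pool.Agent.GR.GX6 (local_struct)
open Pool.Agent.GR.GE4 (exists_dir)
open Pool.Agent.GR.GE3 (unique_before D_mono)
open Pool.Agent.GR.GE1 (broken)
open Pool.Agent.GR.GE6 (dir_sub_or_inf)
open Pool.Agent.GR.GA1 (N_norm)




/-! ## TARGET (prove this) -/

theorem polar_data {f : E → ℝ} {G : ℝ → E × E → E × E} (hf : Surf f) (hG : GFlow f G)
    (hM : PropM f) {x u : E} (hp : (x, u) ∈ UT f) :
    PD {y | f y = 0} (D f) x (fun t θ => (G t (x, rot f x u θ)).1)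
      (fun t θ => J f G (x, rot f x u θ) t)
      (fun t θ => cr (N f (G t (x, rot f x u θ)).1) (G t (x, rot f x u θ)).2) := by
  have hR : ∀ θ, (x, rot f x u θ) ∈ UT f := fun θ => rot_UT hf hp θ
  have hT : ∀ θ, (x, rot f x u θ) ∈ TT f := fun θ => ⟨(hR θ).1, (hR θ).2.1⟩
  have hn : ∀ θ, ‖(x, rot f x u θ).2‖ ≤ 2 := fun θ => by rw [(hR θ).2.2]; norm_num
  have hx : f x = 0 := hp.1
  have hper : ∀ θ (k : ℤ), rot f x u (θ + k * (2 * Real.pi)) = rot f x u θ :=
    fun θ k => ((rot_eq_iff hf hp _ _).2 ⟨k, rfl⟩).symm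
  have hUT : ∀ t θ, G t (x, rot f x u θ) ∈ UT f := fun t θ => G_UT hG (hR θ) t
  have hmem : ∀ t θ, f (G t (x, rot f x u θ)).1 = 0 := fun t θ => (hUT t θ).1
  have hder : ∀ t θ, deriv (fun s => (G s (x, rot f x u θ)).1) t = (G t (x, rot f x u θ)).2 :=
    fun t θ => (hG.pos _ (hT θ) (hn θ) t).deriv
  have hnorm : ∀ t θ, ‖(G t (x, rot f x u θ)).2‖ = 1 := fun t θ => (hUT t θ).2.2
  have hex : ∀ y, f y = 0 → y ≠ x → ∃ θ ∈ Ico 0 (2 * Real.pi),
      (G (D f x y) (x, rot f x u θ)).1 = y := by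
    intro y hy hne
    obtain ⟨w, hw, hwy⟩ := exists_dir hf hG hx hy hne.symm
    obtain ⟨θ, hθ, h⟩ := rot_surj hf hp hw
    exact ⟨θ, hθ, by rw [← h]; exact hwy⟩
  have hDeq : ∀ y, f y = 0 → ∀ z, f z = 0 → D f y z = 0 → y = z := by
    intro y hy z hz h
    have h1 := D_ge hf hy hz
    rw [h] at h1
    have h2 : ‖y - z‖ = 0 := le_antisymm h1 (norm_nonneg _)
    exact sub_eq_zero.1 (norm_eq_zero.1 h2)
  refine
    { S_compact := S_compact hf
      x_mem := hx
      d_nonneg := D_nonneg f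
      d_eq := hDeq
      d_comm := D_comm f
      d_tri := fun a ha b hb c hc => D_tri hf ha hb hc
      d_bdd := ?_
      d_cont := D_cont hf
      d_curve := fun σ a b φ hab hσ hc h => D_le_curve hf hab hσ hc h
      F_mem := hmem
      F_zero := fun θ => by simp only [hG.zero]
      F_smooth := contDiff_fst.comp (F_smooth hG x u)
      I_smooth := J_smooth hf hG hp
      F_per := fun t θ k => by simp only [hper θ k]
      I_per := fun t θ k => by simp only [hper θ k]
      F_t := fun t θ => by rw [hder t θ]; exact hnorm t θ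
      F_n := fun t θ => by
        rw [hder t θ, real_inner_comm]; exact cr_inner_right _ _
      n_norm := fun t θ => cr_norm (N_norm hf (hmem t θ)) (hnorm t θ) (hUT t θ).2.1
      F_θ := fun t θ => F_deriv hf hG hp t θ
      I_zero := fun θ => J_zero hf hG (hR θ)
      I_one := fun θ => by
        have := J_deriv hf hG (hR θ) 0
        rwa [J_deriv_zero hf hG (hR θ)] at this
      I_simple := fun t θ h => J_simple hf hG (hR θ) h
      d_F := fun s t θ => D_G_le hf hG (hR θ) s t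
      small := ?_
      min_exists := hex
      unique := ?_
      broken := ?_
      propM := ?_
      cross := fun t₀ θ₀ ht hJ ε hε => cross_lemma hf hG hp ht hJ hε }
  · obtain ⟨M, -, hM'⟩ := D_bdd hf
    exact ⟨M, fun y hy z hz => hM' y z hy hz⟩
  · obtain ⟨ρ, hρ, -, h2, -⟩ := local_struct hf hG
    exact ⟨ρ, hρ, fun t ht θ => h2 _ (hR θ) t ht⟩
  · intro θ φ s s' t hs hst hD hs' h
    obtain ⟨h1, h2⟩ := unique_before hf hG (hR θ) (hR φ) hs hst hD hs' h
    exact ⟨h1, (rot_eq_iff hf hp θ φ).1 h2⟩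
  · intro θ s y hs hy hne hD
    obtain ⟨z, hz⟩ : ∃ z, z = (G s (x, rot f x u θ)).1 := ⟨_, rfl⟩
    have hzf : f z = 0 := by rw [hz]; exact hmem s θ
    change (G s (x, rot f x u θ)).1 ≠ y at hne
    change D f x y = s + D f (G s (x, rot f x u θ)).1 y at hD
    change (G (D f x y) (x, rot f x u θ)).1 = y
    rw [← hz] at hne hD
    obtain ⟨v, hv, hvy⟩ := exists_dir hf hG hzf hy hne
    have ht : 0 < D f z y := by
      refine lt_of_lt_of_le ?_ (D_ge hf hzf hy)
      exact norm_pos_iff.2 (sub_ne_zero.2 hne)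
    have h1 := (GE1.broken hf hG (hR θ) hs ht hz.symm hv (by rw [hvy, hD])).2
    rw [hD, h1, hvy]
  · intro y hy hne
    change {θ ∈ Ico 0 (2 * Real.pi) | (G (D f x y) (x, rot f x u θ)).1 = y}.Subsingleton ∨
      {θ ∈ Ico 0 (2 * Real.pi) | (G (D f x y) (x, rot f x u θ)).1 = y}.Infinite
    rcases dir_sub_or_inf hf hG hM hx hy (Ne.symm hne) with h | h
    · left
      intro θ hθ φ hφ
      have h1 : rot f x u θ = rot f x u φ := h ⟨hR θ, hθ.2⟩ ⟨hR φ, hφ.2⟩
      obtain ⟨k, hk⟩ := (rot_eq_iff hf hp θ φ).1 h1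
      have hpi := Real.pi_pos
      have hθ1 := hθ.1.1
      have hθ2 := hθ.1.2
      have hφ1 := hφ.1.1
      have hφ2 := hφ.1.2
      have hk0 : k = 0 := by
        by_contra hk0
        rcases lt_or_gt_of_ne hk0 with h | h
        · have h3 : (k : ℝ) ≤ -1 := by exact_mod_cast (by omega : k ≤ -1)
          nlinarith
        · have h3 : (1 : ℝ) ≤ k := by exact_mod_cast (by omega : 1 ≤ k)
          nlinarith
      rw [hk, hk0]; simp
    · right
      refine Set.Infinite.of_image (fun θ => rot f x u θ) (h.mono ?_)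
      rintro w ⟨hw, hwy⟩
      obtain ⟨θ, hθ, hwθ⟩ := rot_surj hf hp hw
      refine ⟨θ, ⟨hθ, ?_⟩, hwθ.symm⟩
      rw [← hwθ]; exact hwy

end Pool.Agent.GR.GG3
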