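import Pool.Agent.GR.PD
import Pool.Agent.GR.GG3
import Pool.Agent.GR.GF7
import Pool.Agent.GR.GA7
import Pool.Agent.GR.GA3
import Pool.Agent.GR.GC3

set_option autoImplicit false
open Set Filter Topology MeasureTheory
open scoped Gradient RealInnerProductSpace ContDiff


namespace Pool.Agent.GR.GG4
open Pool.Agent.GR
open Pool.Agent.GR.GG3 (polar_data)
open Pool.Agent.GR.GF7 (cut_const)
open Pool.Agent.GR.GA7 (rot_UT rot_zero rot_surj)
open Pool.Agent.GR.GA3 (exists_UT)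
open Pool.Agent.GR.GC3 (D_nonneg)


variable {S : Set E} {d : E → E → ℝ} {x : E} {F : ℝ → ℝ → E} {I : ℝ → ℝ → ℝ} {n : ℝ → ℝ → E}



/-! ## TARGET (prove this) -/

theorem cut_pt {f : E → ℝ} {G : ℝ → E × E → E × E} (hf : Surf f) (hG : GFlow f G)
    (hM : PropM f) {x : E} (hx : f x = 0) : ∃ L q, CutPt f G x L q := by
  obtain ⟨u₀, hu₀⟩ := exists_UT hf hx
  obtain ⟨L, hL, q, hq, h1, h2, h3, h4⟩ := cut_const (polar_data hf hG hM hu₀)
  refine ⟨L, q, hL, hq, fun u hu => ?_⟩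
  obtain ⟨θ, _, rfl⟩ := rot_surj hf hu₀ hu
  exact ⟨h1 θ, fun t ht => h2 θ t ht, fun t ht => h3 θ t ht, h4 θ⟩

end Pool.Agent.GR.GG4
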