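import Pool.Agent.GR.PD
import Pool.Agent.GR.GL6
import Pool.Agent.GR.GB2
import Pool.Agent.GR.GC3
import Pool.Agent.GR.GE3
import Pool.Agent.GR.GA3
import Pool.Agent.GR.GL4

set_option autoImplicit false
open Set Filter Topology MeasureTheory
open scoped Gradient RealInnerProductSpace ContDiff


namespace Pool.Agent.GR.GG5
open Pool.Agent.GR
open Pool.Agent.GR.GL6 (J_symm)
open Pool.Agent.GR.GB2 (G_neg G_UT G_inj D_G_le)
open Pool.Agent.GR.GC3 (D_comm D_nonneg D_self)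
open Pool.Agent.GR.GE3 (D_mono unique_before)
open Pool.Agent.GR.GA3 (exists_UT)
open Pool.Agent.GR.GL4 (J_zero)




/-! ## TARGET (prove this) -/

theorem UT_neg {f : E → ℝ} {x u : E} (h : (x, u) ∈ UT f) : (x, -u) ∈ UT f := by
  obtain ⟨h1, h2, h3⟩ := h
  refine ⟨h1, ?_, ?_⟩
  · show ⟪N f x, -u⟫ = 0
    rw [inner_neg_right]
    have : ⟪N f x, u⟫ = 0 := h2
    rw [this, neg_zero]
  · show ‖-u‖ = 1
    rw [norm_neg]
    exact h3

theorem G_back {f : E → ℝ} {G : ℝ → E × E → E × E} (hG : GFlow f G) {x u : E} {L : ℝ}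
    (hp : (x, u) ∈ UT f) (s : ℝ) :
    (G s ((G L (x, u)).1, -(G L (x, u)).2)).1 = (G (L - s) (x, u)).1 := by
  have h1 : ((G L (x, u)).1, (G L (x, u)).2) ∈ UT f := G_UT hG hp L
  rw [G_neg hG h1 s]
  show (G (-s) (G L (x, u))).1 = _
  rw [← hG.add, show -s + L = L - s by ring]

theorem cutPt_back {f : E → ℝ} {G : ℝ → E × E → E × E} (hf : Surf f) (hG : GFlow f G)
    (hC : ∀ x, f x = 0 → ∃ L q, CutPt f G x L q) {x q : E} {L : ℝ} (hx : f x = 0)
    (h : CutPt f G x L q) : CutPt f G q L x := by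
  obtain ⟨hL, hq, hall⟩ := h
  obtain ⟨L', q', h'⟩ := hC q hq
  obtain ⟨u, hu⟩ := exists_UT hf hx
  obtain ⟨hGL, hD, hJ, hJL⟩ := hall u hu
  have hv : ((G L (x, u)).1, (G L (x, u)).2) ∈ UT f := G_UT hG hu L
  have hback := fun s => G_back hG (L := L) hu s
  have hJs := J_symm hf hG hu L
  set v := (G L (x, u)).2 with hvdef
  rw [hGL] at hv hback hJs
  have hw : (q, -v) ∈ UT f := UT_neg hv
  have hLx : (G L (q, -v)).1 = x := by
    rw [hback, sub_self, hG.zero]
  have hDqx : D f q x = L := by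
    rw [D_comm]
    have := hD L ⟨hL.le, le_rfl⟩
    rwa [hGL] at this
  have hJ0 : J f G (q, -v) L = 0 := by
    rw [hJs, hJL]
  obtain ⟨hL', hq', hall'⟩ := h'
  obtain ⟨hG1, hD1, hJ1, hJL1⟩ := hall' _ hw
  obtain ⟨hG2, hD2, hJ2, hJL2⟩ := hall' _ hv
  have hLL : L' ≤ L := by
    by_contra hlt
    push Not at hlt
    have := hJ1 L ⟨hL, hlt⟩
    rw [hJ0] at this
    exact lt_irrefl _ this
  have hLL2 : L' = L := by
    rcases hLL.lt_or_eq with hlt | heq
    · exfalso
      have hDL : D f q (G L (q, -v)).1 = L := by rw [hLx]; exact hDqx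
      have := unique_before hf hG hw hv hL' hlt hDL (hD2 L' ⟨hL'.le, le_rfl⟩) (hG1.trans hG2.symm)
      have hv0 : v = 0 := by
        have h2 : -v = v := this.2
        have h3 : (2 : ℝ) • v = 0 := by
          rw [two_smul]
          nth_rewrite 1 [← h2]
          exact neg_add_cancel v
        exact (smul_eq_zero.mp h3).resolve_left (by norm_num)
      have h4 : ‖v‖ = 1 := hv.2.2
      rw [hv0, norm_zero] at h4
      exact zero_ne_one h4
    · exact heq
  have hqx : q' = x := by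
    rw [← hG1, hLL2, hLx]
  rw [hLL2, hqx] at hall'
  exact ⟨hL, hx, hall'⟩
theorem cutPt_dist {f : E → ℝ} {G : ℝ → E × E → E × E} (hf : Surf f) (hG : GFlow f G)
    (hC : ∀ x, f x = 0 → ∃ L q, CutPt f G x L q) {x q u : E} {L t : ℝ} (hu : (x, u) ∈ UT f)
    (h : CutPt f G x L q) (ht : t ∈ Icc L (2 * L)) : D f x (G t (x, u)).1 = 2 * L - t := by
  have hx : f x = 0 := hu.1
  have hb := cutPt_back hf hG hC hx h
  obtain ⟨hL, hq, hall⟩ := h
  obtain ⟨-, -, hallb⟩ := hb
  have hGL := (hall u hu).1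
  have hv : ((G L (x, u)).1, (G L (x, u)).2) ∈ UT f := G_UT hG hu L
  have hpair : G L (x, u) = (q, (G L (x, u)).2) := by
    rw [← hGL]
  set v := (G L (x, u)).2 with hvdef
  rw [hGL] at hv
  have hxb : (G L (q, v)).1 = x := (hallb v hv).1
  have hw : ((G L (q, v)).1, (G L (q, v)).2) ∈ UT f := G_UT hG hv L
  have hback := G_back hG (L := L) hv (L - (t - L))
  rw [hxb] at hw hback
  have h1 := (hall _ (UT_neg hw)).2.1 (L - (t - L)) ⟨by linarith [ht.2], by linarith [ht.1]⟩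
  rw [hback, sub_sub_cancel] at h1
  have h2 : G t (x, u) = G (t - L) (q, v) := by
    rw [← hpair, ← hG.add, sub_add_cancel]
  rw [h2, h1]
  ring

end Pool.Agent.GR.GG5
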