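import Pool.Agent.GR.PD
import Pool.Agent.GR.GG5
import Pool.Agent.GR.GL6
import Pool.Agent.GR.GB2
import Pool.Agent.GR.GC3
import Pool.Agent.GR.GE3
import Pool.Agent.GR.GE4
import Pool.Agent.GR.GA3

set_option autoImplicit false
open Set Filter Topology MeasureTheory
open scoped Gradient RealInnerProductSpace ContDiff


namespace Pool.Agent.GR.GG6
open Pool.Agent.GR
open Pool.Agent.GR.GG5 (cutPt_back cutPt_dist)
open Pool.Agent.GR.GL6 (J_symm)
open Pool.Agent.GR.GB2 (G_neg G_UT G_inj D_G_le)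
open Pool.Agent.GR.GC3 (D_comm D_nonneg D_self D_ge D_tri)
open Pool.Agent.GR.GE3 (D_mono unique_before)
open Pool.Agent.GR.GE4 (exists_dir)
open Pool.Agent.GR.GA3 (exists_UT)




/-! ## TARGET (prove this) -/

theorem G6_neg {f : E → ℝ} {x u : E} (h : (x, u) ∈ UT f) : (x, -u) ∈ UT f := by
  obtain ⟨h1, h2, h3⟩ := h
  refine ⟨h1, ?_, ?_⟩
  · change ⟪N f x, -u⟫ = 0
    rw [inner_neg_right]
    have : ⟪N f x, u⟫ = 0 := h2
    rw [this, neg_zero]
  · change ‖-u‖ = 1
    rw [norm_neg]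
    exact h3

theorem cutPt_near {f : E → ℝ} {G : ℝ → E × E → E × E} (hf : Surf f) (hG : GFlow f G)
    (hC : ∀ x, f x = 0 → ∃ L q, CutPt f G x L q) {x y q q' : E} {L L' : ℝ} (hx : f x = 0)
    (hy : f y = 0) (h : CutPt f G x L q) (h' : CutPt f G y L' q') (hxy : D f x y ≤ L / 2) :
    L' = L := by
  by_cases hne : x = y
  · subst hne
    obtain ⟨u, hu⟩ := exists_UT hf hx
    obtain ⟨-, -, c3, c4⟩ := h.2.2 u hu
    obtain ⟨-, -, d3, d4⟩ := h'.2.2 u hu
    rcases lt_trichotomy L' L with hl | hl | hl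
    · have := c3 L' ⟨h'.1, hl⟩
      rw [d4] at this
      exact absurd this (lt_irrefl _)
    · exact hl
    · have := d3 L ⟨h.1, hl⟩
      rw [c4] at this
      exact absurd this (lt_irrefl _)
  obtain ⟨u, hu, hus⟩ := exists_dir hf hG hx hy hne
  obtain ⟨s, hs⟩ : ∃ s, s = D f x y := ⟨_, rfl⟩
  rw [← hs] at hus hxy
  have hL := h.1
  have hL' := h'.1
  have hs0 : 0 < s := by
    have h1 := D_ge hf hx hy
    have h2 : 0 < ‖x - y‖ := norm_pos_iff.2 (sub_ne_zero.2 hne)
    rw [hs]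
    linarith
  obtain ⟨v, hv⟩ : ∃ v, v = (G s (x, u)).2 := ⟨_, rfl⟩
  have hyv : G s (x, u) = (y, v) := Prod.ext hus hv.symm
  have hyvU : (y, v) ∈ UT f := by
    rw [← hyv]
    exact G_UT hG hu s
  have hGt : ∀ t, G t (y, v) = G (t + s) (x, u) := by
    intro t
    rw [hG.add, hyv]
  have hmem : ∀ t, f (G t (x, u)).1 = 0 := fun t => (G_UT hG hu t).1
  have hx0 : (G 0 (x, u)).1 = x := by rw [hG.zero]
  have hy0 : (G 0 (y, v)).1 = y := by rw [hG.zero]
  obtain ⟨hq, hd, -, -⟩ := h.2.2 u hu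
  obtain ⟨hq', hd', -, -⟩ := h'.2.2 v hyvU
  -- step 1
  have hD1 : D f y (G (L - s) (y, v)).1 = L - s := by
    have e1 : (G (L - s) (y, v)).1 = q := by
      rw [hGt, sub_add_cancel, hq]
    have a1 : D f y (G (L - s) (y, v)).1 ≤ L - s := by
      have h1 := D_G_le hf hG hyvU 0 (L - s)
      rw [hy0, zero_sub, abs_neg, abs_of_nonneg (by linarith)] at h1
      exact h1
    have a2 : L - s ≤ D f y (G (L - s) (y, v)).1 := by
      rw [e1]
      have h1 := D_tri hf hx hy h.2.1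
      have h2 := hd L ⟨hL.le, le_rfl⟩
      rw [hq] at h2
      rw [h2, ← hs] at h1
      linarith
    exact le_antisymm a1 a2
  have s1 : L - s ≤ L' := by
    by_contra hcon
    push Not at hcon
    obtain ⟨t, ht⟩ : ∃ t, t = min (2 * L') (L - s) := ⟨_, rfl⟩
    have t1 : t ≤ 2 * L' := by rw [ht]; exact min_le_left _ _
    have t2 : t ≤ L - s := by rw [ht]; exact min_le_right _ _
    have t3 : L' < t := by rw [ht]; exact lt_min (by linarith) hcon
    have h1 := cutPt_dist hf hG hC hyvU h' (t := t) ⟨t3.le, t1⟩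
    have h2 := D_mono hf hG (p := (y, v)) hyvU (s := t) (t := L - s) (by linarith) t2 hD1
    change D f y (G t (y, v)).1 = t at h2
    rw [h1] at h2
    linarith
  -- step 2
  have s2 : L' ≤ L := by
    by_contra hcon
    push Not at hcon
    obtain ⟨a, ha⟩ : ∃ a, a = min (L - s) (L' - L) := ⟨_, rfl⟩
    have a1 : a ≤ L - s := by rw [ha]; exact min_le_left _ _
    have a2 : a ≤ L' - L := by rw [ha]; exact min_le_right _ _
    have a3 : 0 < a := by rw [ha]; exact lt_min (by linarith) (by linarith)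
    have h1 := hd' (L + a) ⟨by linarith, by linarith⟩
    rw [hGt] at h1
    have h2 := cutPt_dist hf hG hC hu h (t := L + a + s) ⟨by linarith, by linarith⟩
    have h3 := D_tri hf hy hx (hmem (L + a + s))
    rw [D_comm f y x, ← hs, h2, h1] at h3
    linarith
  -- step 3
  have q1 : (G (L' + s) (x, u)).1 = q' := by
    rw [← hGt, hq']
  have h1 := cutPt_dist hf hG hC hu h (t := L' + s) ⟨by linarith, by linarith⟩
  rw [q1] at h1
  obtain ⟨hq2, -, -, -⟩ := h'.2.2 (-v) (G6_neg hyvU)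
  rw [G_neg hG hyvU] at hq2
  simp only at hq2
  rw [hGt] at hq2
  have h2 := G_neg hG hu (L' - s)
  have e2 : -(L' - s) = -L' + s := by ring
  rw [e2] at h2
  have h3 : (G (L' - s) (x, -u)).1 = q' := by
    rw [h2]
    exact hq2
  obtain ⟨-, hd2, -, -⟩ := h.2.2 (-u) (G6_neg hu)
  have h4 := hd2 (L' - s) ⟨by linarith, by linarith⟩
  rw [h3] at h4
  rw [h4] at h1
  linarith

theorem cutPt_all {f : E → ℝ} {G : ℝ → E × E → E × E} (hf : Surf f) (hG : GFlow f G)
    (hC : ∀ x, f x = 0 → ∃ L q, CutPt f G x L q) {x y q q' : E} {L L' : ℝ} (hx : f x = 0)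
    (hy : f y = 0) (h : CutPt f G x L q) (h' : CutPt f G y L' q') :
    L' = L := by
  by_cases hne : x = y
  · apply cutPt_near hf hG hC hx hy h h'
    rw [← hne, D_self hx]
    linarith [h.1]
  obtain ⟨u, hu, hus⟩ := exists_dir hf hG hx hy hne
  obtain ⟨s, hs⟩ : ∃ s, s = D f x y := ⟨_, rfl⟩
  rw [← hs] at hus
  have hL := h.1
  have hs0 : 0 ≤ s := by rw [hs]; exact D_nonneg f x y
  have hx0 : (G 0 (x, u)).1 = x := by rw [hG.zero]
  have hDs : D f x (G s (x, u)).1 = s := by rw [hus, hs]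
  have hsL : s ≤ L := by
    by_contra hcon
    push Not at hcon
    obtain ⟨t, ht⟩ : ∃ t, t = min s (2 * L) := ⟨_, rfl⟩
    have t1 : t ≤ s := by rw [ht]; exact min_le_left _ _
    have t2 : t ≤ 2 * L := by rw [ht]; exact min_le_right _ _
    have t3 : L < t := by rw [ht]; exact lt_min hcon (by linarith)
    have h1 := cutPt_dist hf hG hC hu h (t := t) ⟨t3.le, t2⟩
    have h2 := D_mono hf hG (p := (x, u)) hu (s := t) (t := s) (by linarith) t1 hDs
    change D f x (G t (x, u)).1 = t at h2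
    rw [h1] at h2
    linarith
  obtain ⟨m, hm⟩ : ∃ m, m = (G (s / 2) (x, u)).1 := ⟨_, rfl⟩
  have hm0 : f m = 0 := by rw [hm]; exact (G_UT hG hu (s / 2)).1
  obtain ⟨Lm, qm, hLm⟩ := hC m hm0
  have d1 : D f x m ≤ L / 2 := by
    have h1 := D_G_le hf hG hu 0 (s / 2)
    rw [hx0, ← hm, zero_sub, abs_neg, abs_of_nonneg (by linarith)] at h1
    linarith
  have d2 : D f m y ≤ L / 2 := by
    have h1 := D_G_le hf hG hu (s / 2) s
    have e1 : s / 2 - s = -(s / 2) := by ring
    rw [hus, ← hm, e1, abs_neg, abs_of_nonneg (by linarith)] at h1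
    linarith
  have e1 : Lm = L := cutPt_near hf hG hC hx hm0 h hLm d1
  have e2 : L' = Lm := cutPt_near hf hG hC hm0 hy hLm h' (by rw [e1]; exact d2)
  rw [e2, e1]

end Pool.Agent.GR.GG6
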