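import Pool.Agent.GR.PD
import Pool.Agent.GR.GG5
import Pool.Agent.GR.GG6
import Pool.Agent.GR.GL6
import Pool.Agent.GR.GB2
import Pool.Agent.GR.GC3
import Pool.Agent.GR.GE3
import Pool.Agent.GR.GE4
import Pool.Agent.GR.GA3

set_option autoImplicit false
open Set Filter Topology MeasureTheory
open scoped Gradient RealInnerProductSpace ContDiff


namespace Pool.Agent.GR.GG7
open Pool.Agent.GR
open Pool.Agent.GR.GG5 (cutPt_back cutPt_dist)
open Pool.Agent.GR.GG6 (cutPt_all)
open Pool.Agent.GR.GL6 (J_symm)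
open Pool.Agent.GR.GB2 (G_neg G_UT G_inj D_G_le)
open Pool.Agent.GR.GC3 (D_comm D_nonneg D_self D_ge D_tri)
open Pool.Agent.GR.GE3 (D_mono unique_before)
open Pool.Agent.GR.GE4 (exists_dir)
open Pool.Agent.GR.GA3 (exists_UT S_nonempty)




/-! ## TARGET (prove this) -/

theorem blaschke {f : E → ℝ} {G : ℝ → E × E → E × E} (hf : Surf f) (hG : GFlow f G)
    (hC : ∀ x, f x = 0 → ∃ L q, CutPt f G x L q) : ∃ L q, Blaschke f G L q := by
  obtain ⟨x₀, hx₀⟩ := S_nonempty hf
  choose! Lf q hLq using hC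
  have hC' : ∀ x, f x = 0 → ∃ L q, CutPt f G x L q := fun x hx => ⟨Lf x, q x, hLq x hx⟩
  set L := Lf x₀ with hL
  have hcut : ∀ x, f x = 0 → CutPt f G x L (q x) := by
    intro x hx
    have h1 : Lf x = L := cutPt_all hf hG hC' hx₀ hx (hLq x₀ hx₀) (hLq x hx)
    rw [← h1]
    exact hLq x hx
  have Lpos : 0 < L := (hcut x₀ hx₀).1
  have hLmem : L ∈ Icc 0 L := ⟨Lpos.le, le_rfl⟩
  have anti : ∀ x u, (x, u) ∈ UT f → (G L (x, u)).1 = q x := fun x u hu =>
    ((hcut x hu.1).2.2 u hu).1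
  have dist : ∀ x u, (x, u) ∈ UT f → ∀ t ∈ Icc 0 L, D f x (G t (x, u)).1 = t := fun x u hu =>
    ((hcut x hu.1).2.2 u hu).2.1
  have Dq : ∀ x, f x = 0 → D f x (q x) = L := by
    intro x hx
    obtain ⟨u, hu⟩ := exists_UT hf hx
    rw [← anti x u hu]
    exact dist x u hu L hLmem
  refine ⟨L, q, ⟨Lpos, fun x hx => (hcut x hx).2.1, ?_, ?_, anti, ?_, ?_, ?_, ?_, ?_⟩⟩
  · intro x hx h
    have h1 := Dq x hx
    rw [h, D_self hx] at h1
    linarith
  · intro x hx
    have hqx : f (q x) = 0 := (hcut x hx).2.1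
    obtain ⟨w, hw⟩ := exists_UT hf hqx
    have h1 : (G L (q x, w)).1 = x := ((cutPt_back hf hG hC' hx (hcut x hx)).2.2 w hw).1
    have h2 : (G L (q x, w)).1 = q (q x) := anti (q x) w hw
    rw [← h2, h1]
  · intro x u w s t hu hw hs ht h
    have h1 := dist x w hw t ⟨ht.1.le, ht.2.le⟩
    exact unique_before hf hG hu hw hs.1 hs.2 (dist x u hu L hLmem) h1 h
  · intro x y hx hy hyx hyq
    obtain ⟨u, hu, huy⟩ := exists_dir hf hG hx hy (Ne.symm hyx)
    have hpos : 0 < D f x y := by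
      have h1 := D_ge hf hx hy
      have h2 : 0 < ‖x - y‖ := norm_pos_iff.2 (sub_ne_zero.2 (Ne.symm hyx))
      linarith
    have hle : D f x y ≤ L := by
      by_contra hlt
      push Not at hlt
      set t := min (D f x y) (2 * L) with ht
      have htL : L < t := lt_min hlt (by linarith)
      have hts : t ≤ D f x y := min_le_left _ _
      have ht2 : t ≤ 2 * L := min_le_right _ _
      have h1 : D f x (G t (x, u)).1 = t := by
        have := D_mono hf hG (p := (x, u)) (s := t) (t := D f x y) hu (by linarith) hts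
          (by simp only [huy])
        exact this
      have h2 : D f x (G t (x, u)).1 = 2 * L - t :=
        cutPt_dist hf hG hC' hu (hcut x hx) ⟨htL.le, ht2⟩
      linarith
    have hne : D f x y ≠ L := by
      intro h
      apply hyq
      rw [← anti x u hu, ← h, huy]
    exact ⟨u, D f x y, hu, ⟨hpos, lt_of_le_of_ne hle hne⟩, huy⟩
  · intro x u s hu hs
    have h1 := dist x u hu s ⟨hs.1.le, hs.2.le⟩
    constructor
    · intro h
      rw [h, D_self hu.1] at h1
      linarith [hs.1]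
    · intro h
      rw [h, Dq x hu.1] at h1
      linarith [hs.2]
  · rintro ⟨x, u⟩ hp t ht
    exact ((hcut x hp.1).2.2 u hp).2.2.1 t ht
  · rintro ⟨x, u⟩ hp
    exact ((hcut x hp.1).2.2 u hp).2.2.2

end Pool.Agent.GR.GG7
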