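import Mathlib

/-! Block H, one dimensional part: Jacobi equation with constant conjugate distance (jobs CC1-CC3 of helper14). -/

set_option autoImplicit false

open Set Filter Topology MeasureTheory
open scoped Gradient RealInnerProductSpace ContDiff

namespace Pool.Agent.GR

section CC1

theorem CC1_wron {k : ℝ → ℝ} {z z' w w' : ℝ → ℝ}
    (hz : ∀ t, HasDerivAt z (z' t) t) (hz' : ∀ t, HasDerivAt z' (-(k t * z t)) t)
    (hw : ∀ t, HasDerivAt w (w' t) t) (hw' : ∀ t, HasDerivAt w' (-(k t * w t)) t) (s t : ℝ) :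
    z s * w' s - z' s * w s = z t * w' t - z' t * w t := by
  have h : ∀ x, HasDerivAt (fun x => z x * w' x - z' x * w x) 0 x := by
    intro x
    have h1 := ((hz x).mul (hw' x)).sub ((hz' x).mul (hw x))
    refine h1.congr_deriv ?_
    ring
  exact is_const_of_deriv_eq_zero (fun x => (h x).differentiableAt) (fun x => (h x).deriv) s t

theorem CC1_shift {z z' : ℝ → ℝ} (hz : ∀ t, HasDerivAt z (z' t) t) (L t : ℝ) :
    HasDerivAt (fun t => z (t + L)) (z' (t + L)) t := by
  have h := (hz (t + L)).comp t ((hasDerivAt_id t).add_const L)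
  refine h.congr_deriv ?_
  simp

theorem CC1 {k : ℝ → ℝ} (hk : Continuous k) {L : ℝ} (hL : 0 < L) {Y Y' : ℝ → ℝ → ℝ}
    (h0 : ∀ s, Y s s = 0) (h1 : ∀ s, Y' s s = 1)
    (hY : ∀ s t, HasDerivAt (Y s) (Y' s t) t)
    (hY' : ∀ s t, HasDerivAt (Y' s) (-(k t * Y s t)) t)
    (hL0 : ∀ s, Y s (s + L) = 0) (hpos : ∀ s, ∀ t ∈ Ioo s (s + L), 0 < Y s t) :
    (∀ s, Y' s (s + L) = -1) ∧ ∀ t, k (t + L) = k t := by
  obtain ⟨c, hc⟩ : ∃ c, c = Y (-L / 2) 0 := ⟨_, rfl⟩
  obtain ⟨d, hd⟩ : ∃ d, d = Y' (-L / 2) 0 := ⟨_, rfl⟩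
  have hcpos : 0 < c := by
    rw [hc]
    exact hpos (-L / 2) 0 ⟨by linarith, by linarith⟩
  have hc0 : c ≠ 0 := hcpos.ne'
  obtain ⟨y2, hy2⟩ : ∃ f : ℝ → ℝ, f = Y 0 := ⟨_, rfl⟩
  obtain ⟨y2', hy2'⟩ : ∃ f : ℝ → ℝ, f = Y' 0 := ⟨_, rfl⟩
  obtain ⟨y1, hy1⟩ : ∃ f : ℝ → ℝ, f = fun t => (Y (-L / 2) t - d * Y 0 t) / c := ⟨_, rfl⟩
  obtain ⟨y1', hy1'⟩ : ∃ f : ℝ → ℝ, f = fun t => (Y' (-L / 2) t - d * Y' 0 t) / c := ⟨_, rfl⟩
  have d1 : ∀ t, HasDerivAt y1 (y1' t) t := by
    intro t
    rw [hy1, hy1']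
    exact ((hY (-L / 2) t).sub ((hY 0 t).const_mul d)).div_const c
  have d1' : ∀ t, HasDerivAt y1' (-(k t * y1 t)) t := by
    intro t
    rw [hy1, hy1']
    refine (((hY' (-L / 2) t).sub ((hY' 0 t).const_mul d)).div_const c).congr_deriv ?_
    field_simp
    ring
  have d2 : ∀ t, HasDerivAt y2 (y2' t) t := by
    intro t
    rw [hy2, hy2']
    exact hY 0 t
  have d2' : ∀ t, HasDerivAt y2' (-(k t * y2 t)) t := by
    intro t
    rw [hy2, hy2']
    exact hY' 0 t
  have v1 : y1 0 = 1 := by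
    rw [hy1]; simp only [h0, ← hc]; field_simp; ring
  have v1' : y1' 0 = 0 := by
    rw [hy1']; simp only [h1, ← hd]; simp
  have v2 : y2 0 = 0 := by rw [hy2]; exact h0 0
  have v2' : y2' 0 = 1 := by rw [hy2']; exact h1 0
  have W : ∀ t, y1 t * y2' t - y1' t * y2 t = 1 := by
    intro t
    rw [CC1_wron d1 d1' d2 d2' t 0, v1, v1', v2, v2']
    norm_num
  have A1 : ∀ s t, Y s t * y1' t - Y' s t * y1 t = - y1 s := by
    intro s t
    rw [CC1_wron (hY s) (hY' s) d1 d1' t s, h0, h1]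
    ring
  have A2 : ∀ s t, Y s t * y2' t - Y' s t * y2 t = - y2 s := by
    intro s t
    rw [CC1_wron (hY s) (hY' s) d2 d2' t s, h0, h1]
    ring
  have B : ∀ s t, Y s t = y1 s * y2 t - y2 s * y1 t := by
    intro s t
    linear_combination (-Y s t) * W t + y1 t * A2 s t - y2 t * A1 s t
  have B' : ∀ s t, Y' s t = y1 s * y2' t - y2 s * y1' t := by
    intro s t
    linear_combination (-Y' s t) * W t + y1' t * A2 s t - y2' t * A1 s t
  have C : ∀ s, y1 s * y2 (s + L) - y2 s * y1 (s + L) = 0 := by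
    intro s
    rw [← B, hL0]
  have e1 : ∀ s, y1 s = Y' s (s + L) * y1 (s + L) := by
    intro s
    rw [B']
    linear_combination (-y1 s) * W (s + L) - y1' (s + L) * C s
  have e2 : ∀ s, y2 s = Y' s (s + L) * y2 (s + L) := by
    intro s
    rw [B']
    linear_combination (-y2 s) * W (s + L) - y2' (s + L) * C s
  have D : ∀ s, Y' s (s + L) = y2' s * y1 (s + L) - y1' s * y2 (s + L) := by
    intro s
    have h2 : HasDerivAt (fun s => y1 s * y2 (s + L) - y2 s * y1 (s + L))
        (y1' s * y2 (s + L) + y1 s * y2' (s + L) - (y2' s * y1 (s + L) + y2 s * y1' (s + L))) s :=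
      ((d1 s).mul (CC1_shift d2 L s)).sub ((d2 s).mul (CC1_shift d1 L s))
    have h3 : HasDerivAt (fun _ : ℝ => (0 : ℝ)) 0 s := hasDerivAt_const s 0
    have h4 : (fun s => y1 s * y2 (s + L) - y2 s * y1 (s + L)) = fun _ : ℝ => (0 : ℝ) := by
      funext s; exact C s
    rw [h4] at h2
    have h5 := h3.unique h2
    rw [B']
    linarith
  have hsq : ∀ s, Y' s (s + L) ^ 2 = 1 := by
    intro s
    have h2 := D s
    have h3 := e1 s
    have h4 := e2 s
    have h5 := W s
    calc Y' s (s + L) ^ 2 = Y' s (s + L) * Y' s (s + L) := sq _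
      _ = Y' s (s + L) * (y2' s * y1 (s + L) - y1' s * y2 (s + L)) := by rw [← h2]
      _ = y2' s * (Y' s (s + L) * y1 (s + L)) - y1' s * (Y' s (s + L) * y2 (s + L)) := by ring
      _ = y2' s * y1 s - y1' s * y2 s := by rw [← h3, ← h4]
      _ = 1 := by linarith
  have hle : ∀ s, Y' s (s + L) ≤ 0 := by
    intro s
    have h2 : HasDerivWithinAt (Y s) (Y' s (s + L)) (Iio (s + L)) (s + L) :=
      (hY s (s + L)).hasDerivWithinAt
    rw [hasDerivWithinAt_iff_tendsto_slope' (by simp)] at h2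
    refine le_of_tendsto h2 ?_
    filter_upwards [Ioo_mem_nhdsLT (show s < s + L by linarith)] with t ht
    rw [slope_def_field, hL0, sub_zero]
    exact div_nonpos_of_nonneg_of_nonpos (hpos s t ht).le (by linarith [ht.2])
  have hm1 : ∀ s, Y' s (s + L) = -1 := by
    intro s
    rcases (show Y' s (s + L) = 1 ∨ Y' s (s + L) = -1 from by have h := hsq s; rw [← sub_eq_zero, show Y' s (s + L) ^ 2 - 1 = (Y' s (s + L) - 1) * (Y' s (s + L) + 1) by ring] at h; rcases mul_eq_zero.mp h with h | h; exact Or.inl (by linarith); exact Or.inr (by linarith)) with h | h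
    · have := hle s
      rw [h] at this
      linarith
    · exact h
  refine ⟨hm1, fun t => ?_⟩
  have p1 : ∀ s, y1 (s + L) = - y1 s := by
    intro s
    have := e1 s
    rw [hm1] at this
    linarith
  have p2 : ∀ s, y2 (s + L) = - y2 s := by
    intro s
    have := e2 s
    rw [hm1] at this
    linarith
  have per : ∀ z z' : ℝ → ℝ, (∀ t, HasDerivAt z (z' t) t) → (∀ t, HasDerivAt z' (-(k t * z t)) t) →
      (∀ s, z (s + L) = - z s) → (k (t + L) - k t) * z t = 0 := by
    intro z z' hz hz' hp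
    have q1 : ∀ s, z' (s + L) = - z' s := by
      intro s
      have h2 := CC1_shift hz L s
      have h3 : (fun t => z (t + L)) = fun t => - z t := funext hp
      rw [h3] at h2
      exact h2.unique (hz s).neg
    have h2 := CC1_shift hz' L t
    have h3 : (fun t => z' (t + L)) = fun t => - z' t := funext q1
    rw [h3] at h2
    have h4 := h2.unique (hz' t).neg
    rw [hp] at h4
    linarith
  have r1 := per y1 y1' d1 d1' p1
  have r2 := per y2 y2' d2 d2' p2
  have r3 : k (t + L) - k t = 0 := by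
    linear_combination (-(k (t + L) - k t)) * W t + y2' t * r1 - y1' t * r2
  linarith

end CC1

section CC2

theorem CC2_sin (L t : ℝ) : HasDerivAt (fun s => Real.sin (Real.pi * s / L))
    (Real.pi / L * Real.cos (Real.pi * t / L)) t := by
  have h1 : HasDerivAt (fun s : ℝ => Real.pi * s / L) (Real.pi / L) t := by
    have := ((hasDerivAt_id t).const_mul Real.pi).div_const L
    simpa using this
  have h2 := (Real.hasDerivAt_sin (Real.pi * t / L)).comp t h1
  rw [mul_comm]
  exact h2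

theorem CC2_cos (L t : ℝ) : HasDerivAt (fun s => Real.cos (Real.pi * s / L))
    (-(Real.pi / L * Real.sin (Real.pi * t / L))) t := by
  have h1 : HasDerivAt (fun s : ℝ => Real.pi * s / L) (Real.pi / L) t := by
    have := ((hasDerivAt_id t).const_mul Real.pi).div_const L
    simpa using this
  have h2 := (Real.hasDerivAt_cos (Real.pi * t / L)).comp t h1
  have h3 : -(Real.pi / L * Real.sin (Real.pi * t / L)) =
      -Real.sin (Real.pi * t / L) * (Real.pi / L) := by ring
  rw [h3]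
  exact h2

/-- quotient of two functions with simple zeros -/
theorem CC2_quot {f g : ℝ → ℝ} {f' g' a : ℝ} (hf : HasDerivAt f f' a) (hg : HasDerivAt g g' a)
    (hfa : f a = 0) (hga : g a = 0) (hg' : g' ≠ 0) :
    Tendsto (fun t => f t / g t) (𝓝[≠] a) (𝓝 (f' / g')) := by
  have h1 := hasDerivAt_iff_tendsto_slope.1 hf
  have h2 := hasDerivAt_iff_tendsto_slope.1 hg
  refine (h1.div h2 hg').congr' ?_
  filter_upwards [self_mem_nhdsWithin] with t ht
  have ht' : t - a ≠ 0 := sub_ne_zero.2 ht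
  simp only [Pi.div_apply, slope_def_field, hfa, hga, sub_zero]
  rw [div_div_div_cancel_right₀ ht']

theorem CC2_cont {φ y y' : ℝ → ℝ} {φa ya a : ℝ} (hφ : HasDerivAt φ φa a) (hy : HasDerivAt y ya a)
    (hφ0 : φ a = 0) (hy0 : y a = 0) (hya : ya ≠ 0) (hy' : ContinuousAt y' a) :
    ContinuousAt (fun t => φ t ^ 2 * y' t / y t) a := by
  rw [continuousAt_iff_punctured_nhds]
  have h1 := CC2_quot hφ hy hφ0 hy0 hya
  have h2 : Tendsto φ (𝓝[≠] a) (𝓝 0) := by
    have := hφ.continuousAt.tendsto.mono_left (nhdsWithin_le_nhds (s := {a}ᶜ))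
    rwa [hφ0] at this
  have h3 := hy'.tendsto.mono_left (nhdsWithin_le_nhds (s := {a}ᶜ))
  have h4 := (h2.mul h1).mul h3
  rw [hφ0]
  have h5 : (0:ℝ) ^ 2 * y' a / y a = 0 * (φa / ya) * y' a := by simp
  rw [h5]
  refine h4.congr fun t => ?_
  ring

theorem CC2_int (L : ℝ) (hL : 0 < L) :
    ∫ t in (0 : ℝ)..L, (Real.pi / L * Real.cos (Real.pi * t / L)) ^ 2 = Real.pi ^ 2 / (2 * L) := by
  have hd : ∀ t ∈ uIcc 0 L, HasDerivAt (fun s => Real.pi ^ 2 / (2 * L ^ 2) * s +
      Real.pi / (2 * L) * (Real.sin (Real.pi * s / L) * Real.cos (Real.pi * s / L)))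
      ((Real.pi / L * Real.cos (Real.pi * t / L)) ^ 2) t := by
    intro t _
    have h1 := ((hasDerivAt_id t).const_mul (Real.pi ^ 2 / (2 * L ^ 2))).add
      (((CC2_sin L t).mul (CC2_cos L t)).const_mul (Real.pi / (2 * L)))
    refine h1.congr_deriv ?_
    have h2 := Real.sin_sq_add_cos_sq (Real.pi * t / L)
    have h3 : Real.sin (Real.pi * t / L) ^ 2 = 1 - Real.cos (Real.pi * t / L) ^ 2 := by linarith
    field_simp
    linear_combination (-1 : ℝ) * h2
  have hc : Continuous (fun t : ℝ => (Real.pi / L * Real.cos (Real.pi * t / L)) ^ 2) := by fun_prop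
  rw [intervalIntegral.integral_eq_sub_of_hasDerivAt hd (hc.intervalIntegrable _ _)]
  have h4 : Real.pi * L / L = Real.pi := by field_simp
  rw [h4, Real.sin_pi]
  simp
  field_simp

theorem CC2 {k : ℝ → ℝ} (hk : Continuous k) {L : ℝ} (hL : 0 < L) {y y' : ℝ → ℝ}
    (hy : ∀ t, HasDerivAt y (y' t) t) (hy' : ∀ t, HasDerivAt y' (-(k t * y t)) t)
    (h0 : y 0 = 0) (hL0 : y L = 0) (hd0 : y' 0 = 1) (hdL : y' L = -1)
    (hpos : ∀ t ∈ Ioo 0 L, 0 < y t) :
    (∫ t in (0 : ℝ)..L, k t * Real.sin (Real.pi * t / L) ^ 2) ≤ Real.pi ^ 2 / (2 * L) ∧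
    ((∫ t in (0 : ℝ)..L, k t * Real.sin (Real.pi * t / L) ^ 2) = Real.pi ^ 2 / (2 * L) →
      ∀ t ∈ Icc 0 L, k t = (Real.pi / L) ^ 2) := by
  set φ : ℝ → ℝ := fun t => Real.sin (Real.pi * t / L) with hφd
  set ψ : ℝ → ℝ := fun t => Real.pi / L * Real.cos (Real.pi * t / L) with hψd
  have hφ : ∀ t, HasDerivAt φ (ψ t) t := fun t => CC2_sin L t
  have hψ : ∀ t, HasDerivAt ψ (-((Real.pi / L) ^ 2 * φ t)) t := by
    intro t
    refine ((CC2_cos L t).const_mul (Real.pi / L)).congr_deriv ?_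
    simp only [hφd]
    ring
  have hφc : Continuous φ := by simp only [hφd]; fun_prop
  have hψc : Continuous ψ := by simp only [hψd]; fun_prop
  have hφ0 : φ 0 = 0 := by simp [hφd]
  have hφL : φ L = 0 := by
    simp only [hφd]
    have h4 : Real.pi * L / L = Real.pi := by field_simp
    rw [h4, Real.sin_pi]
  set G : ℝ → ℝ := fun t => φ t ^ 2 * y' t / y t with hGd
  set F : ℝ → ℝ := fun t => ψ t ^ 2 - k t * φ t ^ 2 with hFd
  have hFc : Continuous F := by simp only [hFd]; fun_prop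
  set P : ℝ → ℝ := fun t => ∫ x in (0 : ℝ)..t, F x with hPd
  have hP : ∀ t, HasDerivAt P (F t) t := fun t => (hFc.integral_hasStrictDerivAt 0 t).hasDerivAt
  have hy'c : ∀ t, ContinuousAt y' t := fun t => (hy' t).continuousAt
  have hG : ∀ t ∈ Ioo 0 L, HasDerivAt G (F t - (ψ t - φ t * y' t / y t) ^ 2) t := by
    intro t ht
    have hyt := (hpos t ht).ne'
    have h1 := (((hφ t).pow 2).mul (hy' t)).div (hy t) hyt
    refine h1.congr_deriv ?_
    simp only [hFd]
    field_simp
    simp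
    ring
  set H : ℝ → ℝ := fun t => P t - G t with hHd
  have hH : ∀ t ∈ Ioo 0 L, HasDerivAt H ((ψ t - φ t * y' t / y t) ^ 2) t := by
    intro t ht
    refine ((hP t).sub (hG t ht)).congr_deriv ?_
    ring
  have hGc : ∀ t ∈ Icc 0 L, ContinuousAt G t := by
    intro t ht
    rcases eq_or_lt_of_le ht.1 with rfl | h1
    · exact CC2_cont (hφ 0) (hy 0) hφ0 h0 (by rw [hd0]; norm_num) (hy'c 0)
    · rcases eq_or_lt_of_le ht.2 with rfl | h2
      · exact CC2_cont (hφ t) (hy t) hφL hL0 (by rw [hdL]; norm_num) (hy'c t)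
      · exact (hG t ⟨h1, h2⟩).continuousAt
  have hHc : ContinuousOn H (Icc 0 L) := by
    intro t ht
    exact ((hP t).continuousAt.sub (hGc t ht)).continuousWithinAt
  have hmono : MonotoneOn H (Icc 0 L) := by
    refine monotoneOn_of_deriv_nonneg (convex_Icc 0 L) hHc ?_ ?_
    · rw [interior_Icc]
      intro t ht
      exact (hH t ht).differentiableAt.differentiableWithinAt
    · rw [interior_Icc]
      intro t ht
      rw [(hH t ht).deriv]
      positivity
  have hH0 : H 0 = 0 := by simp [hHd, hPd, hGd, hφ0]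
  have hHL : H L = P L := by simp [hHd, hGd, hφL]
  have hPL : P L = Real.pi ^ 2 / (2 * L) -
      ∫ t in (0 : ℝ)..L, k t * Real.sin (Real.pi * t / L) ^ 2 := by
    have h1 : Continuous (fun t => ψ t ^ 2) := by fun_prop
    have h2 : Continuous (fun t => k t * φ t ^ 2) := by fun_prop
    have h3 : P L = (∫ t in (0 : ℝ)..L, ψ t ^ 2) - ∫ t in (0 : ℝ)..L, k t * φ t ^ 2 := by
      simp only [hPd, hFd]
      exact intervalIntegral.integral_sub (h1.intervalIntegrable _ _) (h2.intervalIntegrable _ _)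
    rw [h3, CC2_int L hL]
  have h0m : (0 : ℝ) ∈ Icc 0 L := ⟨le_refl _, hL.le⟩
  have hLm : L ∈ Icc 0 L := ⟨hL.le, le_refl _⟩
  constructor
  · have := hmono h0m hLm hL.le
    rw [hH0, hHL, hPL] at this
    linarith
  · intro heq
    have hPL0 : P L = 0 := by rw [hPL, heq, sub_self]
    have hHz : ∀ t ∈ Icc 0 L, H t = 0 := by
      intro t ht
      refine le_antisymm ?_ ?_
      · have := hmono ht hLm ht.2
        rwa [hHL, hPL0] at this
      · have := hmono h0m ht ht.1
        rwa [hH0] at this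
    have hnear : ∀ t ∈ Ioo 0 L, ∀ᶠ s in 𝓝 t, s ∈ Ioo 0 L := fun t ht => isOpen_Ioo.mem_nhds ht
    have hW : ∀ t ∈ Ioo 0 L, ψ t * y t - φ t * y' t = 0 := by
      intro t ht
      have h1 : HasDerivAt H 0 t := by
        refine (hasDerivAt_const t (0 : ℝ)).congr_of_eventuallyEq ?_
        filter_upwards [hnear t ht] with s hs
        exact hHz s ⟨hs.1.le, hs.2.le⟩
      have h2 := (hH t ht).unique h1
      have h3 : ψ t - φ t * y' t / y t = 0 := by
        exact pow_eq_zero_iff (two_ne_zero) |>.1 h2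
      have hyt := (hpos t ht).ne'
      field_simp at h3
      linarith
    have hk1 : ∀ t ∈ Ioo 0 L, k t = (Real.pi / L) ^ 2 := by
      intro t ht
      have h1 : HasDerivAt (fun s => ψ s * y s - φ s * y' s) 0 t := by
        refine (hasDerivAt_const t (0 : ℝ)).congr_of_eventuallyEq ?_
        filter_upwards [hnear t ht] with s hs
        exact hW s hs
      have h2 := (((hψ t).mul (hy t)).sub ((hφ t).mul (hy' t))).unique h1
      have h3 : (k t - (Real.pi / L) ^ 2) * (φ t * y t) = 0 := by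
        linear_combination h2
      have hφp : 0 < φ t := by
        apply Real.sin_pos_of_pos_of_lt_pi
        · have := ht.1
          positivity
        · rw [div_lt_iff₀ hL]
          exact mul_lt_mul_of_pos_left ht.2 Real.pi_pos
      have h4 : φ t * y t ≠ 0 := (mul_pos hφp (hpos t ht)).ne'
      have h5 := (mul_eq_zero.1 h3).resolve_right h4
      linarith
    have hcl : Set.EqOn k (fun _ => (Real.pi / L) ^ 2) (closure (Ioo 0 L)) :=
      Set.EqOn.closure hk1 hk continuous_const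
    rw [closure_Ioo hL.ne] at hcl
    exact hcl

end CC2

section CC3
theorem CC3_sin {L : ℝ} (hL : 0 < L) :
    (∫ t in (0 : ℝ)..L, Real.sin (Real.pi * t / L) ^ 2) = L / 2 := by
  have h2 : Real.pi / L ≠ 0 := (div_pos Real.pi_pos hL).ne'
  have h4 : (∫ t in (0 : ℝ)..L, Real.sin (Real.pi * t / L) ^ 2)
      = ∫ t in (0 : ℝ)..L, (fun x => Real.sin x ^ 2) (Real.pi / L * t) := by
    congr 1
    funext t
    simp only
    congr 2
    ring
  rw [h4, intervalIntegral.integral_comp_mul_left (fun x => Real.sin x ^ 2) h2, integral_sin_sq]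
  have h3 : Real.pi / L * L = Real.pi := by field_simp
  rw [h3, mul_zero]
  simp only [Real.sin_zero, Real.sin_pi, smul_eq_mul]
  field_simp
  ring

theorem CC3 {k : ℝ → ℝ} (hk : Continuous k) {L : ℝ} (hL : 0 < L) {Y Y' : ℝ → ℝ → ℝ}
    (h0 : ∀ s, Y s s = 0) (h1 : ∀ s, Y' s s = 1)
    (hY : ∀ s t, HasDerivAt (Y s) (Y' s t) t)
    (hY' : ∀ s t, HasDerivAt (Y' s) (-(k t * Y s t)) t)
    (hL0 : ∀ s, Y s (s + L) = 0) (hpos : ∀ s, ∀ t ∈ Ioo s (s + L), 0 < Y s t) :
    (∫ t in (0 : ℝ)..L, k t) ≤ Real.pi ^ 2 / L ∧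
    ((∫ t in (0 : ℝ)..L, k t) = Real.pi ^ 2 / L → ∀ t, k t = (Real.pi / L) ^ 2) := by
  obtain ⟨c1, c2⟩ := CC1 hk hL h0 h1 hY hY' hL0 hpos
  have hper : Function.Periodic k L := c2
  have hCC := fun s : ℝ => CC2 (k := fun t => k (s + t)) (hk.comp (continuous_const.add continuous_id))
    hL (y := fun t => Y s (s + t)) (y' := fun t => Y' s (s + t))
    (fun t => (hY s (s + t)).comp_const_add s t) (fun t => (hY' s (s + t)).comp_const_add s t)
    (by simp only [add_zero, h0]) (hL0 s) (by simp only [add_zero, h1]) (c1 s)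
    (fun t ht => hpos s (s + t) ⟨by linarith [ht.1], by linarith [ht.2]⟩)
  have hcont : Continuous (Function.uncurry
      fun s t : ℝ => k (s + t) * Real.sin (Real.pi * t / L) ^ 2) := by
    have : Continuous fun p : ℝ × ℝ => k (p.1 + p.2) := hk.comp (continuous_fst.add continuous_snd)
    simp only [Function.uncurry_def]
    fun_prop
  have hF : Continuous fun s : ℝ => ∫ t in (0 : ℝ)..L, k (s + t) * Real.sin (Real.pi * t / L) ^ 2 :=
    intervalIntegral.continuous_parametric_intervalIntegral_of_continuous' hcont 0 L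
  have hswap : (∫ s in (0 : ℝ)..L, ∫ t in (0 : ℝ)..L, k (s + t) * Real.sin (Real.pi * t / L) ^ 2)
      = ∫ t in (0 : ℝ)..L, ∫ s in (0 : ℝ)..L, k (s + t) * Real.sin (Real.pi * t / L) ^ 2 := by
    apply intervalIntegral_intervalIntegral_swap
    apply IntegrableOn.mono_set (t := Icc 0 L ×ˢ Icc 0 L)
    · exact hcont.continuousOn.integrableOn_compact (isCompact_Icc.prod isCompact_Icc)
    · rw [uIoc_of_le hL.le]
      exact prod_mono Ioc_subset_Icc_self Ioc_subset_Icc_self
  have hinner : ∀ t : ℝ, (∫ s in (0 : ℝ)..L, k (s + t) * Real.sin (Real.pi * t / L) ^ 2)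
      = (∫ s in (0 : ℝ)..L, k s) * Real.sin (Real.pi * t / L) ^ 2 := by
    intro t
    rw [intervalIntegral.integral_mul_const, intervalIntegral.integral_comp_add_right, zero_add,
      add_comm L t, hper.intervalIntegral_add_eq t 0, zero_add]
  have htot : (∫ s in (0 : ℝ)..L, ∫ t in (0 : ℝ)..L, k (s + t) * Real.sin (Real.pi * t / L) ^ 2)
      = (∫ s in (0 : ℝ)..L, k s) * (L / 2) := by
    rw [hswap]
    simp_rw [hinner]
    rw [intervalIntegral.integral_const_mul, CC3_sin hL]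
  have hconst : (∫ _s in (0 : ℝ)..L, Real.pi ^ 2 / (2 * L)) = Real.pi ^ 2 / 2 := by
    rw [intervalIntegral.integral_const, smul_eq_mul, sub_zero]
    field_simp
  refine ⟨?_, ?_⟩
  · have hle : (∫ s in (0 : ℝ)..L, ∫ t in (0 : ℝ)..L, k (s + t) * Real.sin (Real.pi * t / L) ^ 2)
        ≤ ∫ _s in (0 : ℝ)..L, Real.pi ^ 2 / (2 * L) :=
      intervalIntegral.integral_mono_on hL.le (hF.intervalIntegrable _ _)
        (continuous_const.intervalIntegrable _ _) fun s _ => (hCC s).1
    rw [htot, hconst] at hle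
    rw [le_div_iff₀ hL]
    linarith
  · intro hI
    have heq : ∀ s ∈ Icc 0 L, Real.pi ^ 2 / (2 * L) ≤
        ∫ t in (0 : ℝ)..L, k (s + t) * Real.sin (Real.pi * t / L) ^ 2 := by
      by_contra hcon
      push Not at hcon
      obtain ⟨s, hs, hlt⟩ := hcon
      have := intervalIntegral.integral_lt_integral_of_continuousOn_of_le_of_exists_lt hL
        hF.continuousOn (continuous_const (y := Real.pi ^ 2 / (2 * L))).continuousOn
        (fun s _ => (hCC s).1) ⟨s, hs, hlt⟩
      rw [htot, hconst, hI] at this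
      have h3 : Real.pi ^ 2 / L * (L / 2) = Real.pi ^ 2 / 2 := by field_simp
      linarith
    have h5 := (hCC 0).2 (le_antisymm (hCC 0).1 (heq 0 ⟨le_refl _, hL.le⟩))
    intro t
    obtain ⟨t', ht', he⟩ := hper.exists_mem_Ico₀ hL t
    rw [he]
    have := h5 t' ⟨ht'.1, ht'.2.le⟩
    simpa using this

end CC3

end Pool.Agent.GR
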