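import Pool.Agent.GR.Defs
import Pool.Agent.GR.GL5

set_option autoImplicit false

open Set Filter Topology MeasureTheory
open scoped Gradient RealInnerProductSpace ContDiff ENNReal

namespace Pool.Agent.GR

theorem hm_grad_ne {f : E → ℝ} (hf : Surf f) {x : E} (hx : f x = 0) : ∇ f x ≠ 0 := by
  intro h
  apply hf.reg x hx
  rw [gradient, LinearIsometryEquiv.map_eq_zero_iff] at h
  exact h

theorem hm_N_norm {f : E → ℝ} (hf : Surf f) {x : E} (hx : f x = 0) : ‖N f x‖ = 1 := by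
  have h := norm_ne_zero_iff.mpr (hm_grad_ne hf hx)
  rw [N, norm_smul, norm_inv, norm_norm, inv_mul_cancel₀ h]

theorem hm_grad_contDiff {f : E → ℝ} (hf : Surf f) : ContDiff ℝ ((⊤ : ℕ∞) : WithTop ℕ∞) (∇ f) := by
  have h1 : ContDiff ℝ ((⊤ : ℕ∞) : WithTop ℕ∞) (fderiv ℝ f) := hf.smooth.fderiv_right (by simp)
  have h2 : (∇ f) = fun x => (InnerProductSpace.toDual ℝ E).symm (fderiv ℝ f x) := by
    funext x; rfl
  rw [h2]
  exact (InnerProductSpace.toDual ℝ E).symm.contDiff.comp h1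

theorem hm_N_contDiffAt {f : E → ℝ} (hf : Surf f) {x : E} (hx : f x = 0) :
    ContDiffAt ℝ ((⊤ : ℕ∞) : WithTop ℕ∞) (N f) x := by
  have h1 := (hm_grad_contDiff hf).contDiffAt (x := x)
  have h2 : ContDiffAt ℝ ((⊤ : ℕ∞) : WithTop ℕ∞) (fun x => ‖∇ f x‖) x := h1.norm ℝ (hm_grad_ne hf hx)
  exact (h2.inv (norm_ne_zero_iff.mpr (hm_grad_ne hf hx))).smul h1

theorem hm_N_le {f : E → ℝ} (hf : Surf f) {x : E} (hx : f x = 0) {z : E} (hz : f z ≤ 0) :
    ⟪N f x, z - x⟫ ≤ 0 := by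
  have hd : HasDerivAt (fun t : ℝ => f (x + t • (z - x))) ⟪∇ f x, z - x⟫ 0 := by
    have h1 : HasDerivAt (fun t : ℝ => x + t • (z - x)) (z - x) 0 := by
      simpa using ((hasDerivAt_id (0:ℝ)).smul_const (z - x)).const_add x
    have h2 : HasFDerivAt f (fderiv ℝ f x) (x + (0:ℝ) • (z - x)) := by
      simp only [zero_smul, add_zero]
      exact (hf.smooth.differentiable (by simp) x).hasFDerivAt
    have h3 := h2.comp_hasDerivAt (0:ℝ) h1
    have h4 : ⟪∇ f x, z - x⟫ = fderiv ℝ f x (z - x) := by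
      rw [gradient, InnerProductSpace.toDual_symm_apply]
    rw [h4]
    exact h3
  have hle : ⟪∇ f x, z - x⟫ ≤ 0 := by
    by_contra hcon
    push Not at hcon
    have h0 := (hasDerivAt_iff_tendsto_slope.mp hd).mono_left
      (nhdsWithin_mono (0:ℝ) (fun t (ht : 0 < t) => ne_of_gt ht) : 𝓝[>] (0:ℝ) ≤ 𝓝[≠] 0)
    have h1 : ∀ᶠ t in 𝓝[>] (0:ℝ), f (x + (0:ℝ) • (z - x)) < f (x + t • (z - x)) := by
      filter_upwards [h0.eventually_const_lt hcon, self_mem_nhdsWithin] with t ht ht0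
      have ht0' : (0:ℝ) < t := ht0
      rw [slope_def_field, sub_zero] at ht
      have := (div_pos_iff_of_pos_right ht0').mp ht
      linarith
    have h2 : ∀ᶠ t in 𝓝[>] (0:ℝ), t ∈ Ioo (0:ℝ) 1 := Ioo_mem_nhdsGT zero_lt_one
    obtain ⟨t, ht1, ht2⟩ := (h1.and h2).exists
    have h3 : x + t • (z - x) ∈ {x | f x ≤ 0} := by
      have := hf.convex (x := x) (y := z) (by simp [hx]) hz (a := 1 - t) (b := t)
        (by linarith [ht2.2]) ht2.1.le (by ring)
      convert this using 1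
      module
    have h4 : f (x + t • (z - x)) ≤ 0 := h3
    simp only [zero_smul, add_zero, hx] at ht1
    linarith
  rw [N, real_inner_smul_left]
  exact mul_nonpos_of_nonneg_of_nonpos (inv_nonneg.mpr (norm_nonneg _)) hle

theorem hm_foot_unique {f : E → ℝ} (hf : Surf f) {y z : E} (hy : f y = 0) (hz : f z = 0) {s t : ℝ}
    (hs : 0 < s) (ht : 0 < t) (h : y + s • N f y = z + t • N f z) : y = z ∧ s = t := by
  have h1 := hm_N_le hf hy hz.le
  have h2 := hm_N_le hf hz hy.le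
  have h3 : s • N f y = (z - y) + t • N f z := by
    have : s • N f y = (y + s • N f y) - y := by abel
    rw [this, h]; abel
  have h4 : s * ⟪N f y, z - y⟫ = ⟪z - y, z - y⟫ + t * ⟪N f z, z - y⟫ := by
    rw [← real_inner_smul_left, h3, inner_add_left, real_inner_smul_left]
  have h5 : ⟪N f z, y - z⟫ = -⟪N f z, z - y⟫ := by
    rw [← inner_neg_right, neg_sub]
  have h6 : ⟪z - y, z - y⟫ ≤ 0 := by
    rw [h5] at h2
    nlinarith [mul_nonneg hs.le (neg_nonneg.mpr h1)]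
  have h7 : z - y = 0 := by
    have := real_inner_self_nonneg (x := z - y)
    exact inner_self_eq_zero.mp (le_antisymm h6 this)
  have h8 : y = z := (sub_eq_zero.mp h7).symm
  refine ⟨h8, ?_⟩
  subst h8
  have h9 : s • N f y = t • N f y := by simpa using h
  have h10 := congrArg norm h9
  rw [norm_smul, norm_smul, hm_N_norm hf hy, mul_one, mul_one, Real.norm_of_nonneg hs.le,
    Real.norm_of_nonneg ht.le] at h10
  exact h10

theorem hm_inner (a b : E) : ⟪a, b⟫ = a 0 * b 0 + a 1 * b 1 + a 2 * b 2 := by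
  rw [PiLp.inner_apply, Fin.sum_univ_three]
  simp [mul_comm]

theorem hm_cr_left (a b : E) : ⟪cr a b, a⟫ = 0 := by
  rw [hm_inner, cr]
  simp
  ring

theorem hm_cr_right (a b : E) : ⟪cr a b, b⟫ = 0 := by
  rw [hm_inner, cr]
  simp
  ring

theorem hm_cr_self (a b : E) : ⟪cr a b, cr a b⟫ = ⟪a, a⟫ * ⟪b, b⟫ - ⟪a, b⟫ ^ 2 := by
  simp only [hm_inner, cr]
  simp
  ring

theorem hm_UT_iff {f : E → ℝ} {x u : E} : (x, u) ∈ UT f ↔ f x = 0 ∧ ⟪N f x, u⟫ = 0 ∧ ‖u‖ = 1 := Iff.rfl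

theorem hm_cr_norm {f : E → ℝ} (hf : Surf f) {x u : E} (h : (x, u) ∈ UT f) : ‖cr (N f x) u‖ = 1 := by
  obtain ⟨hx, h1, h2⟩ := hm_UT_iff.mp h
  have h3 := hm_cr_self (N f x) u
  rw [real_inner_self_eq_norm_sq, real_inner_self_eq_norm_sq, real_inner_self_eq_norm_sq, h1, h2,
    hm_N_norm hf hx] at h3
  have h4 := norm_nonneg (cr (N f x) u)
  nlinarith

theorem hm_rot_mem {f : E → ℝ} (hf : Surf f) {x u : E} (h : (x, u) ∈ UT f) (θ : ℝ) :
    (x, rot f x u θ) ∈ UT f := by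
  obtain ⟨hx, h1, h2⟩ := hm_UT_iff.mp h
  rw [hm_UT_iff]
  refine ⟨hx, ?_, ?_⟩
  · rw [rot, inner_add_right, real_inner_smul_right, real_inner_smul_right, h1,
      real_inner_comm, hm_cr_left]
    simp
  · have h3 : ⟪rot f x u θ, rot f x u θ⟫ = 1 := by
      rw [rot, real_inner_add_add_self, real_inner_smul_left, real_inner_smul_left,
        real_inner_smul_left, real_inner_smul_right, real_inner_smul_right, real_inner_smul_right,
        real_inner_self_eq_norm_sq, real_inner_self_eq_norm_sq, h2, hm_cr_norm hf h,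
        real_inner_comm, hm_cr_right]
      have := Real.cos_sq_add_sin_sq θ
      nlinarith
    rw [real_inner_self_eq_norm_sq] at h3
    have h4 := norm_nonneg (rot f x u θ)
    nlinarith

theorem hm_rot_inner {f : E → ℝ} (hf : Surf f) {x u : E} (h : (x, u) ∈ UT f) (θ : ℝ) :
    ⟪rot f x u θ, u⟫ = Real.cos θ ∧ ⟪rot f x u θ, cr (N f x) u⟫ = Real.sin θ := by
  obtain ⟨hx, h1, h2⟩ := hm_UT_iff.mp h
  constructor
  · rw [rot, inner_add_left, real_inner_smul_left, real_inner_smul_left, hm_cr_right,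
      real_inner_self_eq_norm_sq, h2]
    ring
  · rw [rot, inner_add_left, real_inner_smul_left, real_inner_smul_left, real_inner_comm, hm_cr_right,
      real_inner_self_eq_norm_sq, hm_cr_norm hf h]
    ring

theorem hm_rot_inj {f : E → ℝ} (hf : Surf f) {x u : E} (h : (x, u) ∈ UT f) {θ φ : ℝ}
    (hθ : θ ∈ Ico 0 (2 * Real.pi)) (hφ : φ ∈ Ico 0 (2 * Real.pi)) (he : rot f x u θ = rot f x u φ) :
    θ = φ := by
  have h1 := hm_rot_inner hf h θ
  have h2 := hm_rot_inner hf h φ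
  rw [he] at h1
  have hc : Real.cos θ = Real.cos φ := by rw [← h1.1, h2.1]
  have hs : Real.sin θ = Real.sin φ := by rw [← h1.2, h2.2]
  have h3 : (θ : Real.Angle) = φ := Real.Angle.cos_sin_inj hc hs
  rw [Real.Angle.angle_eq_iff_two_pi_dvd_sub] at h3
  obtain ⟨k, hk⟩ := h3
  have hpi := Real.pi_pos
  have hk1 : (k : ℝ) < 1 := by
    by_contra hcon
    push Not at hcon
    nlinarith [hθ.1, hθ.2, hφ.1, hφ.2]
  have hk2 : (-1 : ℝ) < k := by
    by_contra hcon
    push Not at hcon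
    nlinarith [hθ.1, hθ.2, hφ.1, hφ.2]
  have hk3 : k = 0 := by
    have h4 : k < 1 := by exact_mod_cast hk1
    have h5 : -1 < k := by exact_mod_cast hk2
    omega
  rw [hk3] at hk
  simp at hk
  linarith

/-- the moving frame -/
theorem hm_frame {f : E → ℝ} (hf : Surf f) {x u : E} (h : (x, u) ∈ UT f) :
    ∃ b : OrthonormalBasis (Fin 3) ℝ E, b 0 = u ∧ b 1 = cr (N f x) u ∧ b 2 = N f x := by
  obtain ⟨hx, h1, h2⟩ := hm_UT_iff.mp h
  have hon : Orthonormal ℝ ![u, cr (N f x) u, N f x] := by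
    constructor
    · intro i
      fin_cases i
      · exact h2
      · exact hm_cr_norm hf h
      · exact hm_N_norm hf hx
    · intro i j hij
      fin_cases i <;> fin_cases j <;> simp at hij ⊢
      · rw [real_inner_comm, hm_cr_right]
      · rw [real_inner_comm, h1]
      · exact hm_cr_right _ _
      · exact hm_cr_left _ _
      · exact h1
      · rw [real_inner_comm, hm_cr_left]
  have hcard : Fintype.card (Fin 3) = Module.finrank ℝ E := by simp
  let b0 := basisOfOrthonormalOfCardEqFinrank hon hcard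
  have hb0 : (b0 : Fin 3 → E) = ![u, cr (N f x) u, N f x] := coe_basisOfOrthonormalOfCardEqFinrank hon hcard
  have hon' : Orthonormal ℝ b0 := by rw [hb0]; exact hon
  refine ⟨b0.toOrthonormalBasis hon', ?_, ?_, ?_⟩ <;>
    rw [Module.Basis.coe_toOrthonormalBasis, hb0] <;> rfl

theorem hm_decomp3 {f : E → ℝ} (hf : Surf f) {x u : E} (h : (x, u) ∈ UT f) (v : E) :
    v = ⟪u, v⟫ • u + ⟪cr (N f x) u, v⟫ • cr (N f x) u + ⟪N f x, v⟫ • N f x := by
  obtain ⟨b, h0, h1, h2⟩ := hm_frame hf h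
  have := b.sum_repr' v
  rw [Fin.sum_univ_three, h0, h1, h2] at this
  exact this.symm

theorem hm_rot_surj {f : E → ℝ} (hf : Surf f) {x u w : E} (h : (x, u) ∈ UT f) (hw : (x, w) ∈ UT f) :
    ∃ θ ∈ Ico 0 (2 * Real.pi), rot f x u θ = w := by
  obtain ⟨hx, h1, h2⟩ := hm_UT_iff.mp h
  obtain ⟨_, h3, h4⟩ := hm_UT_iff.mp hw
  have h5 := hm_decomp3 hf h w
  rw [h3, zero_smul, add_zero] at h5
  have h6 : ⟪u, w⟫ ^ 2 + ⟪cr (N f x) u, w⟫ ^ 2 = 1 := by
    have h7 : ⟪w, w⟫ = 1 := by rw [real_inner_self_eq_norm_sq, h4]; norm_num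
    have h8 : ⟪w, w⟫ = ⟪u, w⟫ * ⟪u, w⟫ + ⟪cr (N f x) u, w⟫ * ⟪cr (N f x) u, w⟫ := by
      conv_lhs => rw [h5, inner_add_left, real_inner_smul_left, real_inner_smul_left]
      rw [← h5]
    rw [h7] at h8
    linarith
  set z : ℂ := ⟨⟪u, w⟫, ⟪cr (N f x) u, w⟫⟩ with hz
  have hznorm : ‖z‖ = 1 := by
    rw [Complex.norm_def, Complex.normSq_apply]
    rw [show z.re * z.re + z.im * z.im = 1 by simp only [hz]; linarith, Real.sqrt_one]
  have hz0 : z ≠ 0 := by
    intro h0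
    rw [h0] at hznorm
    simp at hznorm
  have hcos : Real.cos z.arg = ⟪u, w⟫ := by
    rw [Complex.cos_arg hz0, hznorm, div_one]
  have hsin : Real.sin z.arg = ⟪cr (N f x) u, w⟫ := by
    rw [Complex.sin_arg, hznorm, div_one]
  have hpi := Real.pi_pos
  have harg := Complex.arg_mem_Ioc z
  by_cases hpos : 0 ≤ z.arg
  · refine ⟨z.arg, ⟨hpos, by linarith [harg.2]⟩, ?_⟩
    rw [rot, hcos, hsin, ← h5]
  · push Not at hpos
    refine ⟨z.arg + 2 * Real.pi, ⟨by linarith [harg.1], by linarith⟩, ?_⟩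
    rw [rot, Real.cos_add_two_pi, Real.sin_add_two_pi, hcos, hsin, ← h5]


/-- block L -/
theorem hm_hasDerivAt_dir {f : E → ℝ} {G : ℝ → E × E → E × E} (hf : Surf f) (hG : GFlow f G) {x u : E}
    (hu : (x, u) ∈ UT f) (t θ : ℝ) :
    HasDerivAt (fun θ => (G t (x, rot f x u θ)).1)
      (J f G (x, rot f x u θ) t • cr (N f (G t (x, rot f x u θ)).1) (G t (x, rot f x u θ)).2) θ :=
  Pool.Agent.GR.GL5.F_deriv hf hG hu t θ

theorem hm_G_mem {f : E → ℝ} {G : ℝ → E × E → E × E} (hG : GFlow f G) {p : E × E}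
    (hp : p ∈ UT f) (t : ℝ) : G t p ∈ UT f := by
  have h1 : p ∈ TT f := ⟨hp.1, hp.2.1⟩
  have h2 : ‖p.2‖ ≤ 2 := by rw [hp.2.2]; norm_num
  have h3 := hG.mem p h1 h2 t
  exact ⟨h3.1, h3.2, by rw [hG.norm p h1 h2 t, hp.2.2]⟩

theorem hm_pos {f : E → ℝ} {G : ℝ → E × E → E × E} (hG : GFlow f G) {p : E × E}
    (hp : p ∈ UT f) (t : ℝ) : HasDerivAt (fun t => (G t p).1) (G t p).2 t := by
  have h1 : p ∈ TT f := ⟨hp.1, hp.2.1⟩
  have h2 : ‖p.2‖ ≤ 2 := by rw [hp.2.2]; norm_num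
  exact hG.pos p h1 h2 t

theorem hm_A_nonneg {f : E → ℝ} {G : ℝ → E × E → E × E} (hf : Surf f) (hG : GFlow f G) {x v : E}
    (hv : (x, v) ∈ UT f) : 0 ≤ ⟪fderiv ℝ (N f) x v, v⟫ := by
  have hx := hv.1
  have hc : HasDerivAt (fun t => (G t (x, v)).1) v 0 := by
    have := hm_pos hG hv 0
    rw [hG.zero] at this
    exact this
  have hc0 : (G 0 (x, v)).1 = x := by rw [hG.zero]
  have hN : HasDerivAt (fun t => N f (G t (x, v)).1) (fderiv ℝ (N f) x v) 0 := by
    have h1 : HasFDerivAt (N f) (fderiv ℝ (N f) x) ((fun t => (G t (x, v)).1) 0) := by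
      simp only [hc0]
      exact ((hm_N_contDiffAt hf hx).differentiableAt (by simp)).hasFDerivAt
    exact h1.comp_hasDerivAt (0:ℝ) hc
  have h1 := hasDerivAt_iff_tendsto_slope.mp hc
  have h2 := hasDerivAt_iff_tendsto_slope.mp hN
  have h3 := Filter.Tendsto.inner (𝕜 := ℝ) h2 h1
  refine ge_of_tendsto' h3 (fun t => ?_)
  rw [slope, slope, vsub_eq_sub, vsub_eq_sub, sub_zero, real_inner_smul_left, real_inner_smul_right, hc0,
    ← mul_assoc]
  apply mul_nonneg (mul_self_nonneg _)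
  have h4 : f (G t (x, v)).1 = 0 := (hm_G_mem hG hv t).1
  have h5 := hm_N_le hf hx h4.le
  have h6 := hm_N_le hf h4 hx.le
  rw [inner_sub_left]
  have h7 : ⟪N f (G t (x, v)).1, x - (G t (x, v)).1⟫ = -⟪N f (G t (x, v)).1, (G t (x, v)).1 - x⟫ := by
    rw [← inner_neg_right, neg_sub]
  linarith

theorem hm_A_nonneg' {f : E → ℝ} {G : ℝ → E × E → E × E} (hf : Surf f) (hG : GFlow f G) {x v : E}
    (hx : f x = 0) (hv : ⟪N f x, v⟫ = 0) : 0 ≤ ⟪fderiv ℝ (N f) x v, v⟫ := by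
  by_cases h0 : v = 0
  · subst h0; simp
  · have hn : ‖v‖ ≠ 0 := norm_ne_zero_iff.mpr h0
    have h1 : (x, ‖v‖⁻¹ • v) ∈ UT f := by
      refine ⟨hx, ?_, ?_⟩
      · change ⟪N f x, ‖v‖⁻¹ • v⟫ = 0
        rw [real_inner_smul_right, hv, mul_zero]
      · change ‖‖v‖⁻¹ • v‖ = 1
        rw [norm_smul, norm_inv, norm_norm, inv_mul_cancel₀ hn]
    have h2 := hm_A_nonneg hf hG h1
    rw [map_smul, real_inner_smul_left, real_inner_smul_right, ← mul_assoc] at h2
    have h3 : 0 < ‖v‖⁻¹ * ‖v‖⁻¹ := by positivity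
    exact (mul_nonneg_iff_of_pos_left h3).mp h2

/-- the linear map `I + s A` (identity on the normal) -/
noncomputable def hmT (f : E → ℝ) (y : E) (s : ℝ) : E →L[ℝ] E :=
  ContinuousLinearMap.id ℝ E + s • (fderiv ℝ (N f) y).comp
    (ContinuousLinearMap.id ℝ E - (innerSL ℝ (N f y)).smulRight (N f y))

theorem hmT_apply (f : E → ℝ) (y : E) (s : ℝ) (v : E) :
    hmT f y s v = v + s • fderiv ℝ (N f) y (v - ⟪N f y, v⟫ • N f y) := by
  simp [hmT]

theorem hmT_det_ne {f : E → ℝ} {G : ℝ → E × E → E × E} (hf : Surf f) (hG : GFlow f G) {y : E}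
    (hy : f y = 0) {s : ℝ} (hs : 0 ≤ s) : (hmT f y s).det ≠ 0 := by
  intro h0
  have h1 : (⊥ : Submodule ℝ E) < LinearMap.ker (hmT f y s : E →ₗ[ℝ] E) :=
    LinearMap.bot_lt_ker_of_det_eq_zero h0
  obtain ⟨v, hv, hv0⟩ := (Submodule.ne_bot_iff _).mp (ne_of_gt h1)
  apply hv0
  have hv1 : hmT f y s v = 0 := hv
  rw [hmT_apply] at hv1
  set w := v - ⟪N f y, v⟫ • N f y with hw
  have hN : ⟪N f y, N f y⟫ = 1 := by rw [real_inner_self_eq_norm_sq, hm_N_norm hf hy]; norm_num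
  have hwN : ⟪N f y, w⟫ = 0 := by
    rw [hw, inner_sub_right, real_inner_smul_right, hN, mul_one, sub_self]
  have h2 := hm_A_nonneg' hf hG hy hwN
  have h3 : ⟪v + s • fderiv ℝ (N f) y w, w⟫ = 0 := by rw [hv1, inner_zero_left]
  rw [inner_add_left, real_inner_smul_left] at h3
  have h4 : ⟪v, w⟫ = ⟪w, w⟫ := by
    have : v = w + ⟪N f y, v⟫ • N f y := by rw [hw]; abel
    conv_lhs => rw [this, inner_add_left, real_inner_smul_left, hwN, mul_zero, add_zero]
  rw [h4] at h3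
  have h5 : ⟪w, w⟫ = 0 := by
    have := real_inner_self_nonneg (x := w)
    nlinarith [mul_nonneg hs h2]
  have h6 : w = 0 := inner_self_eq_zero.mp h5
  rw [h6] at hv1
  simpa using hv1

/-- the linear map with columns `a b c` -/
noncomputable def hmC (a b c : E) : E →L[ℝ] E :=
  (EuclideanSpace.proj (0 : Fin 3) : E →L[ℝ] ℝ).smulRight a +
  (EuclideanSpace.proj (1 : Fin 3) : E →L[ℝ] ℝ).smulRight b +
  (EuclideanSpace.proj (2 : Fin 3) : E →L[ℝ] ℝ).smulRight c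

theorem hmC_apply (a b c v : E) : hmC a b c v = v 0 • a + v 1 • b + v 2 • c := by
  simp [hmC]

theorem hmC_det (a b c : E) : (hmC a b c).det = a 0 * (b 1 * c 2 - b 2 * c 1)
    - a 1 * (b 0 * c 2 - b 2 * c 0) + a 2 * (b 0 * c 1 - b 1 * c 0) := by
  rw [ContinuousLinearMap.det, ← LinearMap.det_toMatrix (EuclideanSpace.basisFun (Fin 3) ℝ).toBasis,
    Matrix.det_fin_three]
  simp only [LinearMap.toMatrix_apply, OrthonormalBasis.coe_toBasis, EuclideanSpace.basisFun_apply,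
    OrthonormalBasis.coe_toBasis_repr_apply, EuclideanSpace.basisFun_repr, ContinuousLinearMap.coe_coe,
    hmC_apply]
  simp
  ring

theorem hmC_det' (n a : E) (j : ℝ) : (hmC a (j • cr n a) n).det = j * (⟪n, n⟫ * ⟪a, a⟫ - ⟪n, a⟫ ^ 2) := by
  rw [hmC_det]
  simp only [hm_inner, cr]
  simp
  ring


variable {f : E → ℝ} {G : ℝ → E × E → E × E}

/-- polar coordinates as a map of two variables -/
noncomputable def hmPhi (f : E → ℝ) (G : ℝ → E × E → E × E) (x u : E) (r : ℝ × ℝ) : E :=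
  (G r.1 (x, rot f x u r.2)).1

theorem hm_state_contDiff (hG : GFlow f G) (x u : E) :
    ContDiff ℝ ((⊤ : ℕ∞) : WithTop ℕ∞) (fun r : ℝ × ℝ => G r.1 (x, rot f x u r.2)) := by
  have h1 : ContDiff ℝ ((⊤ : ℕ∞) : WithTop ℕ∞) (fun r : ℝ × ℝ => (r.1, (x, rot f x u r.2))) := by
    refine contDiff_fst.prodMk (contDiff_const.prodMk ?_)
    unfold rot
    exact ((Real.contDiff_cos.comp contDiff_snd).smul contDiff_const).add
      ((Real.contDiff_sin.comp contDiff_snd).smul contDiff_const)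
  exact hG.smooth.comp h1

theorem hmPhi_contDiff (hG : GFlow f G) (x u : E) :
    ContDiff ℝ ((⊤ : ℕ∞) : WithTop ℕ∞) (hmPhi f G x u) :=
  contDiff_fst.comp (hm_state_contDiff hG x u)

theorem hmPhi_mem (hf : Surf f) (hG : GFlow f G) {x u : E} (hu : (x, u) ∈ UT f) (r : ℝ × ℝ) :
    f (hmPhi f G x u r) = 0 := (hm_G_mem hG (hm_rot_mem hf hu r.2) r.1).1

/-- velocity -/
noncomputable def hmV (f : E → ℝ) (G : ℝ → E × E → E × E) (x u : E) (r : ℝ × ℝ) : E :=
  (G r.1 (x, rot f x u r.2)).2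

theorem hmPhi_fderiv (hf : Surf f) (hG : GFlow f G) {x u : E} (hu : (x, u) ∈ UT f) (r : ℝ × ℝ) (a b : ℝ) :
    fderiv ℝ (hmPhi f G x u) r (a, b) = a • hmV f G x u r +
      b • (J f G (x, rot f x u r.2) r.1 • cr (N f (hmPhi f G x u r)) (hmV f G x u r)) := by
  have hd : HasFDerivAt (hmPhi f G x u) (fderiv ℝ (hmPhi f G x u) r) r :=
    ((hmPhi_contDiff hG x u).differentiable (by simp) r).hasFDerivAt
  have h1 : fderiv ℝ (hmPhi f G x u) r (1, 0) = hmV f G x u r := by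
    have h2 : HasDerivAt (fun t : ℝ => ((t, r.2) : ℝ × ℝ)) (1, 0) r.1 :=
      (hasDerivAt_id r.1).prodMk (hasDerivAt_const _ _)
    have h3 := HasFDerivAt.comp_hasDerivAt (f := fun t : ℝ => ((t, r.2) : ℝ × ℝ)) r.1 hd h2
    have h4 : HasDerivAt (fun t => (G t (x, rot f x u r.2)).1) (G r.1 (x, rot f x u r.2)).2 r.1 :=
      hm_pos hG (hm_rot_mem hf hu r.2) r.1
    exact h3.unique h4
  have h2 : fderiv ℝ (hmPhi f G x u) r (0, 1) =
      J f G (x, rot f x u r.2) r.1 • cr (N f (hmPhi f G x u r)) (hmV f G x u r) := by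
    have h2 : HasDerivAt (fun t : ℝ => ((r.1, t) : ℝ × ℝ)) (0, 1) r.2 :=
      (hasDerivAt_const _ _).prodMk (hasDerivAt_id r.2)
    have h3 := HasFDerivAt.comp_hasDerivAt (f := fun t : ℝ => ((r.1, t) : ℝ × ℝ)) r.2 hd h2
    have h4 := hm_hasDerivAt_dir hf hG hu r.1 r.2
    exact h3.unique h4
  have h3 : ((a, b) : ℝ × ℝ) = a • (1, 0) + b • (0, 1) := by simp
  rw [h3, map_add, map_smul, map_smul, h1, h2]

/-- the tube coordinates -/
noncomputable def hmP (f : E → ℝ) (G : ℝ → E × E → E × E) (x u : E) (r : E) : E :=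
  hmPhi f G x u (r 0, r 1) + r 2 • N f (hmPhi f G x u (r 0, r 1))

theorem hmP_hasFDerivAt (hf : Surf f) (hG : GFlow f G) {x u : E} (hu : (x, u) ∈ UT f) (r : E) :
    HasFDerivAt (hmP f G x u) ((hmT f (hmPhi f G x u (r 0, r 1)) (r 2)).comp
      (hmC (hmV f G x u (r 0, r 1)) (J f G (x, rot f x u (r 1)) (r 0) •
        cr (N f (hmPhi f G x u (r 0, r 1))) (hmV f G x u (r 0, r 1))) (N f (hmPhi f G x u (r 0, r 1))))) r := by
  set y := hmPhi f G x u (r 0, r 1) with hy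
  have hyS : f y = 0 := hmPhi_mem hf hG hu _
  have hπ : HasFDerivAt (fun r : E => ((r 0, r 1) : ℝ × ℝ))
      ((EuclideanSpace.proj (0 : Fin 3) : E →L[ℝ] ℝ).prod (EuclideanSpace.proj (1 : Fin 3) : E →L[ℝ] ℝ)) r :=
    ContinuousLinearMap.hasFDerivAt
      ((EuclideanSpace.proj (0 : Fin 3) : E →L[ℝ] ℝ).prod (EuclideanSpace.proj (1 : Fin 3) : E →L[ℝ] ℝ))
  have hd : HasFDerivAt (hmPhi f G x u) (fderiv ℝ (hmPhi f G x u) (r 0, r 1)) (r 0, r 1) :=
    ((hmPhi_contDiff hG x u).differentiable (by simp) _).hasFDerivAt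
  have hF := HasFDerivAt.comp (f := fun r : E => ((r 0, r 1) : ℝ × ℝ)) r hd hπ
  have hN : HasFDerivAt (N f) (fderiv ℝ (N f) y) y :=
    ((hm_N_contDiffAt hf hyS).differentiableAt (by simp)).hasFDerivAt
  have hNF := HasFDerivAt.comp (f := hmPhi f G x u ∘ fun r : E => ((r 0, r 1) : ℝ × ℝ)) r hN hF
  have h2 : HasFDerivAt (fun r : E => r 2) (EuclideanSpace.proj (2 : Fin 3) : E →L[ℝ] ℝ) r :=
    ContinuousLinearMap.hasFDerivAt (EuclideanSpace.proj (2 : Fin 3) : E →L[ℝ] ℝ)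
  have hall := hF.add (h2.smul hNF)
  refine hall.congr_fderiv ?_
  have hV := hm_G_mem hG (hm_rot_mem hf hu (r 1)) (r 0)
  have hVN : ⟪N f y, hmV f G x u (r 0, r 1)⟫ = 0 := hV.2.1
  have hNN : ⟪N f y, N f y⟫ = 1 := by rw [real_inner_self_eq_norm_sq, hm_N_norm hf hyS]; norm_num
  have hcN : ⟪N f y, cr (N f y) (hmV f G x u (r 0, r 1))⟫ = 0 := by
    rw [real_inner_comm, hm_cr_left]
  ext1 v
  have e1 : fderiv ℝ (hmPhi f G x u) (r 0, r 1) (v 0, v 1) = v 0 • hmV f G x u (r 0, r 1) +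
      v 1 • (J f G (x, rot f x u (r 1)) (r 0) • cr (N f y) (hmV f G x u (r 0, r 1))) :=
    hmPhi_fderiv hf hG hu _ _ _
  rw [ContinuousLinearMap.comp_apply, hmT_apply, hmC_apply]
  have e2 : ⟪N f y, v 0 • hmV f G x u (r 0, r 1) +
      v 1 • (J f G (x, rot f x u (r 1)) (r 0) • cr (N f y) (hmV f G x u (r 0, r 1))) + v 2 • N f y⟫ = v 2 := by
    simp only [inner_add_right, real_inner_smul_right, hVN, hNN, hcN]
    ring
  rw [e2, add_sub_cancel_right, ← e1]
  simp only [add_apply, ContinuousLinearMap.comp_apply, smul_apply,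
    ContinuousLinearMap.smulRight_apply, ContinuousLinearMap.prod_apply,
    Function.comp_apply]
  rw [← hy]
  have p0 : (EuclideanSpace.proj (0:Fin 3) : E →L[ℝ] ℝ) v = v 0 := rfl
  have p1 : (EuclideanSpace.proj (1:Fin 3) : E →L[ℝ] ℝ) v = v 1 := rfl
  have p2 : (EuclideanSpace.proj (2:Fin 3) : E →L[ℝ] ℝ) v = v 2 := rfl
  rw [p0, p1, p2]
  abel

theorem hmP_det (hf : Surf f) (hG : GFlow f G) {x u : E} (hu : (x, u) ∈ UT f) (r : E) :
    ((hmT f (hmPhi f G x u (r 0, r 1)) (r 2)).comp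
      (hmC (hmV f G x u (r 0, r 1)) (J f G (x, rot f x u (r 1)) (r 0) •
        cr (N f (hmPhi f G x u (r 0, r 1))) (hmV f G x u (r 0, r 1))) (N f (hmPhi f G x u (r 0, r 1))))).det
    = (hmT f (hmPhi f G x u (r 0, r 1)) (r 2)).det * J f G (x, rot f x u (r 1)) (r 0) := by
  have hyS : f (hmPhi f G x u (r 0, r 1)) = 0 := hmPhi_mem hf hG hu _
  have hV := hm_G_mem hG (hm_rot_mem hf hu (r 1)) (r 0)
  have hVN : ⟪N f (hmPhi f G x u (r 0, r 1)), hmV f G x u (r 0, r 1)⟫ = 0 := hV.2.1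
  have hVV : ‖hmV f G x u (r 0, r 1)‖ = 1 := hV.2.2
  have h1 := hmC_det' (N f (hmPhi f G x u (r 0, r 1))) (hmV f G x u (r 0, r 1))
    (J f G (x, rot f x u (r 1)) (r 0))
  rw [real_inner_self_eq_norm_sq, real_inner_self_eq_norm_sq, hVN, hVV, hm_N_norm hf hyS] at h1
  have h2 : ∀ S T : E →L[ℝ] E, (S.comp T).det = S.det * T.det := by
    intro S T
    change LinearMap.det ((S : E →ₗ[ℝ] E).comp (T : E →ₗ[ℝ] E)) = _
    exact LinearMap.det_comp _ _
  rw [h2, h1]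
  ring



theorem hm_cr_continuous : Continuous (fun p : E × E => cr p.1 p.2) := by
  unfold cr
  refine (PiLp.continuous_toLp 2 _).comp (continuous_pi fun i => ?_)
  have h1 : ∀ j : Fin 3, Continuous (fun p : E × E => p.1 j) := fun j =>
    ((EuclideanSpace.proj j : E →L[ℝ] ℝ).continuous).comp continuous_fst
  have h2 : ∀ j : Fin 3, Continuous (fun p : E × E => p.2 j) := fun j =>
    ((EuclideanSpace.proj j : E →L[ℝ] ℝ).continuous).comp continuous_snd
  fin_cases i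
  · exact ((h1 1).mul (h2 2)).sub ((h1 2).mul (h2 1))
  · exact ((h1 2).mul (h2 0)).sub ((h1 0).mul (h2 2))
  · exact ((h1 0).mul (h2 1)).sub ((h1 1).mul (h2 0))

theorem hm_NPhi_continuous (hf : Surf f) (hG : GFlow f G) {x u : E} (hu : (x, u) ∈ UT f) :
    Continuous (fun r : ℝ × ℝ => N f (hmPhi f G x u r)) := by
  rw [continuous_iff_continuousAt]
  intro r
  exact ContinuousAt.comp (f := hmPhi f G x u) (g := N f)
    (hm_N_contDiffAt hf (hmPhi_mem hf hG hu r)).continuousAt (hmPhi_contDiff hG x u).continuous.continuousAt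

theorem hmJ_continuous (hf : Surf f) (hG : GFlow f G) {x u : E} (hu : (x, u) ∈ UT f) :
    Continuous (fun r : ℝ × ℝ => J f G (x, rot f x u r.2) r.1) := by
  have hc : Continuous (fun r : ℝ × ℝ => cr (N f (hmPhi f G x u r)) (hmV f G x u r)) :=
    hm_cr_continuous.comp ((hm_NPhi_continuous hf hG hu).prodMk
      (continuous_snd.comp (hm_state_contDiff hG x u).continuous))
  have h1 : (fun r : ℝ × ℝ => J f G (x, rot f x u r.2) r.1) = fun r : ℝ × ℝ =>
      ⟪fderiv ℝ (hmPhi f G x u) r (0, 1), cr (N f (hmPhi f G x u r)) (hmV f G x u r)⟫ := by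
    funext r
    rw [hmPhi_fderiv hf hG hu r 0 1, zero_smul, zero_add, one_smul, real_inner_smul_left,
      real_inner_self_eq_norm_sq]
    have : ‖cr (N f (hmPhi f G x u r)) (hmV f G x u r)‖ = 1 :=
      hm_cr_norm hf (hm_G_mem hG (hm_rot_mem hf hu r.2) r.1)
    rw [this]
    ring
  rw [h1]
  refine Continuous.inner ?_ hc
  exact ((hmPhi_contDiff hG x u).continuous_fderiv (by simp)).clm_apply continuous_const

/-- the measure on the surface in polar coordinates -/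
noncomputable def mu (f : E → ℝ) (G : ℝ → E × E → E × E) (L : ℝ) (x u : E) : Measure E :=
  Measure.map (fun r : ℝ × ℝ => (G r.1 (x, rot f x u r.2)).1)
    ((volume.restrict (Ioo 0 L ×ˢ Ico 0 (2 * Real.pi))).withDensity
      (fun r => ENNReal.ofReal (J f G (x, rot f x u r.2) r.1)))

/-- the parameter domain of tube coordinates -/
def hmOm (L : ℝ) : Set E := {r | (r 0, r 1) ∈ Ioo (0:ℝ) L ×ˢ Ico (0:ℝ) (2 * Real.pi) ∧ r 2 ∈ Ioo (0:ℝ) 1}

theorem hm_coord_meas (j : Fin 3) : Measurable (fun r : E => r j) :=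
  ((EuclideanSpace.proj j : E →L[ℝ] ℝ).continuous).measurable

theorem hmOm_meas (L : ℝ) : MeasurableSet (hmOm L) := by
  apply MeasurableSet.inter
  · exact ((hm_coord_meas 0).prodMk (hm_coord_meas 1)) (measurableSet_Ioo.prod measurableSet_Ico)
  · exact (hm_coord_meas 2) measurableSet_Ioo

theorem hm_split : MeasurePreserving (fun r : E => ((r 2, (r 0, r 1)) : ℝ × (ℝ × ℝ))) volume volume := by
  have h1 : MeasurePreserving (WithLp.ofLp : E → (Fin 3 → ℝ)) volume volume := PiLp.volume_preserving_ofLp (Fin 3)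
  have h2 := volume_preserving_piFinSuccAbove (fun _ : Fin 3 => ℝ) (Fin.last 2)
  have h3 := volume_preserving_finTwoArrow ℝ
  have h4 := (MeasurePreserving.id (volume : Measure ℝ)).prod h3
  have h5 := (h4.comp h2).comp h1
  have h6 : (fun r : E => ((r 2, (r 0, r 1)) : ℝ × (ℝ × ℝ))) =
      (Prod.map id (MeasurableEquiv.finTwoArrow (α := ℝ)) ∘
        (MeasurableEquiv.piFinSuccAbove (fun _ : Fin 3 => ℝ) (Fin.last 2))) ∘ WithLp.ofLp := by
    funext r
    rfl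
  rw [h6]
  exact h5

theorem hm_slab (L : ℝ) (φ : ℝ × ℝ → ℝ≥0∞) (hφ : Measurable φ) :
    ∫⁻ r in hmOm L, φ (r 0, r 1) = ∫⁻ p in Ioo (0:ℝ) L ×ˢ Ico (0:ℝ) (2 * Real.pi), φ p := by
  set Box := Ioo (0:ℝ) L ×ˢ Ico (0:ℝ) (2 * Real.pi) with hBox
  have hBoxm : MeasurableSet Box := measurableSet_Ioo.prod measurableSet_Ico
  rw [← lintegral_indicator (hmOm_meas L)]
  have h1 : (fun r : E => (hmOm L).indicator (fun r => φ (r 0, r 1)) r) =
      fun r : E => ((Ioo (0:ℝ) 1 ×ˢ Box).indicator (fun q : ℝ × (ℝ × ℝ) => φ q.2)) (r 2, (r 0, r 1)) := by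
    funext r
    by_cases hr : r ∈ hmOm L
    · rw [indicator_of_mem hr, indicator_of_mem]
      exact ⟨hr.2, hr.1⟩
    · rw [indicator_of_notMem hr, indicator_of_notMem]
      intro h
      exact hr ⟨h.2, h.1⟩
  rw [h1, hm_split.lintegral_comp (f := (Ioo (0:ℝ) 1 ×ˢ Box).indicator (fun q : ℝ × (ℝ × ℝ) => φ q.2))
    ((hφ.comp measurable_snd).indicator (measurableSet_Ioo.prod hBoxm)),
    lintegral_indicator (measurableSet_Ioo.prod hBoxm), Measure.volume_eq_prod,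
    ← Measure.prod_restrict, lintegral_prod (fun a : ℝ × (ℝ × ℝ) => φ a.2) (hφ.comp measurable_snd).aemeasurable]
  simp

/-- tube over the surface -/
def hmTube (f : E → ℝ) : Set E := {z | ∃ y : E, ∃ s : ℝ, f y = 0 ∧ s ∈ Ioo (0:ℝ) 1 ∧ z = y + s • N f y}

open Classical in
/-- density on the tube -/
noncomputable def hmH (f : E → ℝ) (B : Set E) (z : E) : ℝ≥0∞ :=
  if h : ∃ p : E × ℝ, f p.1 = 0 ∧ p.2 ∈ Ioo (0:ℝ) 1 ∧ z = p.1 + p.2 • N f p.1 then
    B.indicator 1 h.choose.1 / ENNReal.ofReal |(hmT f h.choose.1 h.choose.2).det| else 0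

theorem hmH_eval (hf : Surf f) (B : Set E) {y : E} {s : ℝ} (hy : f y = 0) (hs : s ∈ Ioo (0:ℝ) 1) :
    hmH f B (y + s • N f y) = B.indicator 1 y / ENNReal.ofReal |(hmT f y s).det| := by
  have h : ∃ p : E × ℝ, f p.1 = 0 ∧ p.2 ∈ Ioo (0:ℝ) 1 ∧ y + s • N f y = p.1 + p.2 • N f p.1 :=
    ⟨(y, s), hy, hs, rfl⟩
  rw [hmH, dif_pos h]
  have h1 := h.choose_spec
  have h2 := hm_foot_unique hf hy h1.1 hs.1 h1.2.1.1 h1.2.2
  rw [← h2.1, ← h2.2]

theorem hmP_injOn (hf : Surf f) (hG : GFlow f G) {L : ℝ} {q : E → E} (hB : Blaschke f G L q) {x u : E}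
    (hu : (x, u) ∈ UT f) : InjOn (hmP f G x u) (hmOm L) := by
  intro r hr r' hr' h
  have h1 := hm_foot_unique hf (hmPhi_mem hf hG hu _) (hmPhi_mem hf hG hu _) hr.2.1 hr'.2.1 h
  have h2 := hB.inj x (rot f x u (r 1)) (rot f x u (r' 1)) (r 0) (r' 0) (hm_rot_mem hf hu _)
    (hm_rot_mem hf hu _) hr.1.1 hr'.1.1 h1.1
  have h3 := hm_rot_inj hf hu hr.1.2 hr'.1.2 h2.2
  ext i
  fin_cases i
  · exact h2.1
  · exact h3
  · exact h1.2

theorem hm_line_null (x n : E) : volume {z : E | ∃ s : ℝ, z = x + s • n} = 0 := by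
  have h1 : {z : E | ∃ s : ℝ, z = x + s • n} ⊆ (AffineSubspace.mk' x (Submodule.span ℝ {n}) : Set E) := by
    rintro z ⟨s, rfl⟩
    rw [SetLike.mem_coe, AffineSubspace.mem_mk']
    simp only [vsub_eq_sub, add_sub_cancel_left]
    exact Submodule.smul_mem _ _ (Submodule.mem_span_singleton_self n)
  refine measure_mono_null h1 (Measure.addHaar_affineSubspace _ _ ?_)
  intro h
  have h2 := congrArg AffineSubspace.direction h
  rw [AffineSubspace.direction_mk', AffineSubspace.direction_top] at h2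
  have h3 : Module.finrank ℝ (Submodule.span ℝ {n}) ≤ 1 := by
    have := finrank_span_le_card (R := ℝ) ({n} : Set E)
    simpa using this
  rw [h2, finrank_top] at h3
  simp at h3

theorem hmP_image (hf : Surf f) (hG : GFlow f G) {L : ℝ} {q : E → E} (hB : Blaschke f G L q) {x u : E}
    (hu : (x, u) ∈ UT f) : (hmP f G x u '' hmOm L : Set E) =ᵐ[volume] hmTube f := by
  have hsub : hmP f G x u '' hmOm L ⊆ hmTube f := by
    rintro z ⟨r, hr, rfl⟩
    exact ⟨_, _, hmPhi_mem hf hG hu _, hr.2, rfl⟩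
  have hsup : hmTube f ⊆ (hmP f G x u '' hmOm L) ∪ ({z : E | ∃ s : ℝ, z = x + s • N f x} ∪
      {z : E | ∃ s : ℝ, z = q x + s • N f (q x)}) := by
    rintro z ⟨y, s, hy, hs, rfl⟩
    by_cases h1 : y = x
    · subst h1; exact Or.inr (Or.inl ⟨s, rfl⟩)
    by_cases h2 : y = q x
    · subst h2; exact Or.inr (Or.inr ⟨s, rfl⟩)
    obtain ⟨w, t, hw, ht, h3⟩ := hB.surj x y hu.1 hy h1 h2
    obtain ⟨θ, hθ, h4⟩ := hm_rot_surj hf hu hw
    left
    refine ⟨!₂[t, θ, s], ⟨⟨ht, hθ⟩, hs⟩, ?_⟩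
    have h5 : hmPhi f G x u (t, θ) = y := by rw [hmPhi, h4]; exact h3
    change hmPhi f G x u (t, θ) + s • N f (hmPhi f G x u (t, θ)) = _
    rw [h5]
  apply Filter.EventuallyLE.antisymm
  · exact LE.le.eventuallyLE hsub
  · rw [ae_le_set]
    refine measure_mono_null (t := {z : E | ∃ s : ℝ, z = x + s • N f x} ∪
      {z : E | ∃ s : ℝ, z = q x + s • N f (q x)}) ?_ (measure_union_null (hm_line_null _ _) (hm_line_null _ _))
    rintro z ⟨hz1, hz2⟩
    rcases hsup hz1 with h | h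
    · exact absurd h hz2
    · exact h

theorem hm_mu_eq (hf : Surf f) (hG : GFlow f G) {L : ℝ} {q : E → E} (hB : Blaschke f G L q) {x u : E}
    (hu : (x, u) ∈ UT f) {B : Set E} (hBm : MeasurableSet B) :
    mu f G L x u B = ∫⁻ z in hmTube f, hmH f B z := by
  have hΦ : Measurable (hmPhi f G x u) := (hmPhi_contDiff hG x u).continuous.measurable
  have hJ : Measurable (fun r : ℝ × ℝ => J f G (x, rot f x u r.2) r.1) := (hmJ_continuous hf hG hu).measurable
  have hBoxm : MeasurableSet (Ioo (0:ℝ) L ×ˢ Ico (0:ℝ) (2 * Real.pi)) := measurableSet_Ioo.prod measurableSet_Ico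
  have h1 : mu f G L x u B = ∫⁻ p in Ioo (0:ℝ) L ×ˢ Ico (0:ℝ) (2 * Real.pi),
      (hmPhi f G x u ⁻¹' B).indicator (fun p => ENNReal.ofReal (J f G (x, rot f x u p.2) p.1)) p := by
    change (Measure.map (hmPhi f G x u) _) B = _
    rw [Measure.map_apply hΦ hBm, withDensity_apply _ (hΦ hBm), lintegral_indicator (hΦ hBm)]
  rw [h1, ← hm_slab L _ (hJ.ennreal_ofReal.indicator (hΦ hBm)), ← setLIntegral_congr (hmP_image hf hG hB hu),
    lintegral_image_eq_lintegral_abs_det_fderiv_mul volume (hmOm_meas L)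
      (fun r _ => (hmP_hasFDerivAt hf hG hu r).hasFDerivWithinAt) (hmP_injOn hf hG hB hu)]
  apply setLIntegral_congr_fun (hmOm_meas L)
  intro r hr
  have hyS : f (hmPhi f G x u (r 0, r 1)) = 0 := hmPhi_mem hf hG hu _
  have hJpos : 0 < J f G (x, rot f x u (r 1)) (r 0) := hB.J_pos _ (hm_rot_mem hf hu _) _ hr.1.1
  have hT := hmT_det_ne hf hG hyS hr.2.1.le
  simp only
  rw [hmP_det hf hG hu r, hmP, hmH_eval hf B hyS hr.2, abs_mul, ENNReal.ofReal_mul (abs_nonneg _),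
    abs_of_pos hJpos]
  have hT1 : ENNReal.ofReal |(hmT f (hmPhi f G x u (r 0, r 1)) (r 2)).det| ≠ 0 := by
    rw [Ne, ENNReal.ofReal_eq_zero, not_le]
    exact abs_pos.mpr hT
  by_cases hm : hmPhi f G x u (r 0, r 1) ∈ B
  · rw [indicator_of_mem hm, indicator_of_mem (show (r 0, r 1) ∈ hmPhi f G x u ⁻¹' B from hm), Pi.one_apply,
      mul_right_comm, one_div, ENNReal.mul_inv_cancel hT1 ENNReal.ofReal_ne_top, one_mul]
  · rw [indicator_of_notMem hm, indicator_of_notMem (show (r 0, r 1) ∉ hmPhi f G x u ⁻¹' B from hm)]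
    simp

theorem mu_indep (hf : Surf f) (hG : GFlow f G) {L : ℝ} {q : E → E} (hB : Blaschke f G L q) {x u y w : E}
    (hx : (x, u) ∈ UT f) (hy : (y, w) ∈ UT f) : mu f G L x u = mu f G L y w := by
  ext B hBm
  rw [hm_mu_eq hf hG hB hx hBm, hm_mu_eq hf hG hB hy hBm]



theorem hm_shift (hG : GFlow f G) {L : ℝ} {q : E → E} (hB : Blaschke f G L q) {p : E × E}
    (hp : p ∈ UT f) (s : ℝ) : (G (s + L) p).1 = q (G s p).1 := by
  rw [add_comm, hG.add]
  have h := hm_G_mem hG hp s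
  exact hB.anti (G s p).1 (G s p).2 h

theorem hm_periodic (hG : GFlow f G) {L : ℝ} {q : E → E} (hB : Blaschke f G L q) {p : E × E}
    (hp : p ∈ UT f) : Function.Periodic (fun s => (G s p).1) (2 * L) := by
  intro s
  change (G (s + 2 * L) p).1 = (G s p).1
  rw [two_mul, ← add_assoc, hm_shift hG hB hp, hm_shift hG hB hp, hB.q_q _ (hm_G_mem hG hp s).1]

theorem hm_neg_mem {x u : E} (hu : (x, u) ∈ UT f) : (x, -u) ∈ UT f := by
  obtain ⟨hx, h1, h2⟩ := hm_UT_iff.mp hu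
  exact hm_UT_iff.mpr ⟨hx, by rw [inner_neg_right, h1, neg_zero], by rw [norm_neg, h2]⟩

theorem hm_reverse (hG : GFlow f G) {x u : E} (hu : (x, u) ∈ UT f) (t : ℝ) :
    (G t (x, -u)).1 = (G (-t) (x, u)).1 := by
  obtain ⟨hx, h1, h2⟩ := hm_UT_iff.mp hu
  have h := hG.scale (x, u) ⟨hx, h1⟩ (-1) (by change ‖u‖ ≤ 2; rw [h2]; norm_num)
    (by change ‖(-1 : ℝ) • u‖ ≤ 2; rw [neg_one_smul, norm_neg, h2]; norm_num) t
  simp only [neg_smul, one_smul, neg_mul, one_mul] at h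
  rw [h]

theorem hm_rot_zero (f : E → ℝ) (x u : E) : rot f x u 0 = u := by simp [rot]

theorem hm_rot_pi (f : E → ℝ) (x u : E) : rot f x u Real.pi = -u := by simp [rot]

theorem hm_horizontal_null (c : ℝ) : (volume : Measure (ℝ × ℝ)) {p : ℝ × ℝ | p.2 = c} = 0 := by
  have : {p : ℝ × ℝ | p.2 = c} = (univ : Set ℝ) ×ˢ {c} := by
    ext p
    simp
  rw [this, Measure.volume_eq_prod, Measure.prod_prod]
  simp

theorem mu_geod_null (hf : Surf f) (hG : GFlow f G) {L : ℝ} {q : E → E} (hB : Blaschke f G L q) {x u : E}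
    (hu : (x, u) ∈ UT f) : mu f G L x u {z | ∃ s, z = (G s (x, u)).1} = 0 := by
  have hL := hB.L_pos
  have hcont : Continuous (fun s => (G s (x, u)).1) := by
    have h1 : Continuous (fun s : ℝ => G s (x, u)) :=
      hG.smooth.continuous.comp (continuous_id.prodMk continuous_const)
    exact continuous_fst.comp h1
  have hper := hm_periodic hG hB hu
  have hZ : {z | ∃ s, z = (G s (x, u)).1} = (fun s => (G s (x, u)).1) '' Icc (-L) L := by
    ext z
    constructor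
    · rintro ⟨s, rfl⟩
      obtain ⟨y, hy, hy2⟩ := hper.exists_mem_Ico (by linarith) s (-L)
      exact ⟨y, ⟨hy.1, by linarith [hy.2]⟩, hy2.symm⟩
    · rintro ⟨s, _, rfl⟩
      exact ⟨s, rfl⟩
  have hZm : MeasurableSet {z | ∃ s, z = (G s (x, u)).1} := by
    rw [hZ]
    exact (isCompact_Icc.image hcont).isClosed.measurableSet
  have hΦ : Measurable (hmPhi f G x u) := (hmPhi_contDiff hG x u).continuous.measurable
  change (Measure.map (hmPhi f G x u) _) _ = 0
  rw [Measure.map_apply hΦ hZm]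
  apply (withDensity_absolutelyContinuous _ _)
  rw [Measure.restrict_apply (hΦ hZm)]
  refine measure_mono_null (t := {p : ℝ × ℝ | p.2 = 0} ∪ {p : ℝ × ℝ | p.2 = Real.pi}) ?_
    (measure_union_null (hm_horizontal_null 0) (hm_horizontal_null Real.pi))
  rintro ⟨t, θ⟩ ⟨⟨s₀, hs₀⟩, ht, hθ⟩
  simp only at ht hθ
  obtain ⟨s, hs, hs2⟩ := hper.exists_mem_Ico (by linarith) s₀ (-L)
  have hs3 : (G t (x, rot f x u θ)).1 = (G s (x, u)).1 := by
    rw [← hs2]; exact hs₀
  have hne := hB.ne x (rot f x u θ) t (hm_rot_mem hf hu θ) ht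
  have hpi := Real.pi_pos
  rcases lt_trichotomy s 0 with h | h | h
  · rcases eq_or_lt_of_le hs.1 with h' | h'
    · exfalso
      have h1 := hm_shift hG hB hu s
      rw [← h', neg_add_cancel, hG.zero] at h1
      have h2 : (G s (x, u)).1 = q x := by
        rw [← h']
        have h3 := hB.q_q _ (hm_G_mem hG hu (-L)).1
        rw [← h3, ← h1]
      exact hne.2 (hs3.trans h2)
    · right
      have h1 : (G (-s) (x, -u)).1 = (G s (x, u)).1 := by rw [hm_reverse hG hu, neg_neg]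
      have h2 := hB.inj x (rot f x u θ) (-u) t (-s) (hm_rot_mem hf hu θ) (hm_neg_mem hu) ht
        ⟨by linarith, by linarith⟩ (hs3.trans h1.symm)
      exact hm_rot_inj hf hu hθ ⟨hpi.le, by linarith⟩ (h2.2.trans (hm_rot_pi f x u).symm)
  · exfalso
    subst h
    rw [hG.zero] at hs3
    exact hne.1 hs3
  · left
    have h2 := hB.inj x (rot f x u θ) u t s (hm_rot_mem hf hu θ) hu ht
      ⟨h, by linarith [hs.2]⟩ hs3
    exact hm_rot_inj hf hu hθ ⟨le_rfl, by linarith⟩ (h2.2.trans (hm_rot_zero f x u).symm)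

end Pool.Agent.GR
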