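import Pool.Agent.GR.Defs
import Pool.Agent.GR.GA1
import Pool.Agent.GR.GA3
import Pool.Agent.GR.GA6
import Pool.Agent.GR.GA7
import Pool.Agent.GR.GA8
import Pool.Agent.GR.GB2
import Pool.Agent.GR.GL4
import Pool.Agent.GR.GL5
import Pool.Agent.GR.GL6
import Pool.Agent.GR.HM

/-! Toolkit for block H (curvature constant): interface lemmas (helper14). -/

set_option autoImplicit false

open Set Filter Topology MeasureTheory
open scoped Gradient RealInnerProductSpace ContDiff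

namespace Pool.Agent.GR
open Pool.Agent.GR.GA1 (N_smooth N_norm)
open Pool.Agent.GR.GA3 (exists_UT)
open Pool.Agent.GR.GA6 (cr_inner_right cr_cr frame)
open Pool.Agent.GR.GA7 (perp_UT rot_UT rot_eq_iff rot_surj)
open Pool.Agent.GR.GA8 (K_smooth)
open Pool.Agent.GR.GB2 (G_UT)
open Pool.Agent.GR.GL4 (J_zero J_deriv J_deriv_zero J_ode)
open Pool.Agent.GR.GL5 (F_deriv J_cont)
open Pool.Agent.GR.GL6 (K_bdd)

theorem TK_K_nonneg {f : E → ℝ} (hf : Surf f) {x : E} (hx : f x = 0) : 0 ≤ K f x := by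
  obtain ⟨C, hC, h⟩ := K_bdd hf
  exact (h x hx).1

theorem TK_K_cont {f : E → ℝ} (hf : Surf f) : ContinuousOn (K f) {x | f x = 0} :=
  fun x hx => (K_smooth hf hx).continuousAt.continuousWithinAt

theorem TK_N_cont {f : E → ℝ} (hf : Surf f) : ContinuousOn (N f) {x | f x = 0} :=
  fun x hx => (N_smooth hf hx).continuousAt.continuousWithinAt

theorem TK_K_meas {f : E → ℝ} (hf : Surf f) : Measurable (K f) := by
  have hgrad : Continuous (fun x => ∇ f x) := by
    have h1 : Continuous (fun x => fderiv ℝ f x) :=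
      hf.smooth.continuous_fderiv (by simp)
    exact (InnerProductSpace.toDual ℝ E).symm.continuous.comp h1
  have hN : Measurable (N f) := by
    unfold N
    exact (hgrad.norm.measurable.inv).smul hgrad.measurable
  have h1 : Measurable (fun x => fderiv ℝ (N f) x) := measurable_fderiv ℝ (N f)
  have h2 : Continuous (fun v : E => (innerSL ℝ v).smulRight v) := by
    have : Continuous (fun p : (E →L[ℝ] ℝ) × E => p.1.smulRight p.2) := by
      exact (ContinuousLinearMap.smulRightL ℝ E E).isBoundedBilinearMap.continuous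
    exact this.comp ((innerSL ℝ).continuous.prodMk continuous_id)
  have h3 : Measurable (fun x => fderiv ℝ (N f) x + (innerSL ℝ (N f x)).smulRight (N f x)) :=
    h1.add (h2.measurable.comp hN)
  have h4 : Continuous (fun A : E →L[ℝ] E => A.det) := ContinuousLinearMap.continuous_det
  exact h4.measurable.comp h3

theorem TK_N_norm {f : E → ℝ} (hf : Surf f) {x : E} (hx : f x = 0) : ‖N f x‖ = 1 := N_norm hf hx

theorem TK_cr {f : E → ℝ} {x u : E} (hf : Surf f) (h : (x, u) ∈ UT f) :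
    (x, cr (N f x) u) ∈ UT f ∧ ⟪u, cr (N f x) u⟫ = 0 ∧ cr (N f x) (cr (N f x) u) = -u ∧
      ∀ w : E, ⟪N f x, w⟫ = 0 → w = ⟪u, w⟫ • u + ⟪cr (N f x) u, w⟫ • cr (N f x) u := by
  obtain ⟨h1, h2, h3⟩ := h
  have hn := N_norm hf h1
  refine ⟨perp_UT hf ⟨h1, h2, h3⟩, ?_, cr_cr hn h2, ?_⟩
  · rw [real_inner_comm]; exact cr_inner_right _ _
  · intro w hw
    have := frame hn h3 h2 w
    rw [hw, zero_smul, zero_add] at this
    exact this

theorem TK_exists {f : E → ℝ} (hf : Surf f) {x : E} (hx : f x = 0) : ∃ u, (x, u) ∈ UT f :=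
  exists_UT hf hx

theorem TK_UT {f : E → ℝ} {G : ℝ → E × E → E × E} (hG : GFlow f G) {p : E × E} (hp : p ∈ UT f)
    (t : ℝ) : G t p ∈ UT f := G_UT hG hp t

theorem TK_rot_UT {f : E → ℝ} (hf : Surf f) {x u : E} (h : (x, u) ∈ UT f) (θ : ℝ) :
    (x, rot f x u θ) ∈ UT f := rot_UT hf h θ

theorem TK_rot_surj {f : E → ℝ} (hf : Surf f) {x u w : E} (h : (x, u) ∈ UT f)
    (hw : (x, w) ∈ UT f) : ∃ θ ∈ Ico (0 : ℝ) (2 * Real.pi), w = rot f x u θ := rot_surj hf h hw

theorem TK_rot_inj {f : E → ℝ} (hf : Surf f) {x u : E} (h : (x, u) ∈ UT f) {θ φ : ℝ}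
    (hθ : θ ∈ Ico (0 : ℝ) (2 * Real.pi)) (hφ : φ ∈ Ico (0 : ℝ) (2 * Real.pi))
    (he : rot f x u θ = rot f x u φ) : θ = φ := by
  obtain ⟨k, hk⟩ := (rot_eq_iff hf h θ φ).1 he
  have hpi := Real.pi_pos
  have h1 : (k : ℝ) < 1 := by
    by_contra hcon
    push_neg at hcon
    nlinarith [hθ.1, hφ.2]
  have h2 : (-1 : ℝ) < k := by
    by_contra hcon
    push_neg at hcon
    nlinarith [hθ.2, hφ.1]
  have h3 : k = 0 := by
    have h1' : k < 1 := by exact_mod_cast h1
    have h2' : -1 < k := by exact_mod_cast h2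
    omega
  rw [h3] at hk
  simpa using hk.symm

theorem TK_J_zero {f : E → ℝ} {G : ℝ → E × E → E × E} (hf : Surf f) (hG : GFlow f G)
    {p : E × E} (hp : p ∈ UT f) : J f G p 0 = 0 := J_zero hf hG hp

theorem TK_J_deriv {f : E → ℝ} {G : ℝ → E × E → E × E} (hf : Surf f) (hG : GFlow f G)
    {p : E × E} (hp : p ∈ UT f) (t : ℝ) : HasDerivAt (J f G p) (deriv (J f G p) t) t :=
  J_deriv hf hG hp t

theorem TK_J_deriv0 {f : E → ℝ} {G : ℝ → E × E → E × E} (hf : Surf f) (hG : GFlow f G)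
    {p : E × E} (hp : p ∈ UT f) : deriv (J f G p) 0 = 1 := J_deriv_zero hf hG hp

theorem TK_J_ode {f : E → ℝ} {G : ℝ → E × E → E × E} (hf : Surf f) (hG : GFlow f G)
    {p : E × E} (hp : p ∈ UT f) (t : ℝ) :
    HasDerivAt (deriv (J f G p)) (-(K f (G t p).1 * J f G p t)) t := J_ode hf hG hp t

theorem TK_F_theta {f : E → ℝ} {G : ℝ → E × E → E × E} (hf : Surf f) (hG : GFlow f G)
    {x u : E} (h : (x, u) ∈ UT f) (t θ : ℝ) :
    HasDerivAt (fun θ => (G t (x, rot f x u θ)).1)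
      (J f G (x, rot f x u θ) t •
        cr (N f (G t (x, rot f x u θ)).1) (G t (x, rot f x u θ)).2) θ := F_deriv hf hG h t θ

theorem TK_J_cont {f : E → ℝ} {G : ℝ → E × E → E × E} (hf : Surf f) (hG : GFlow f G) :
    ContinuousOn (fun r : ℝ × (E × E) => J f G r.2 r.1) (univ ×ˢ UT f) := J_cont hf hG

end Pool.Agent.GR
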