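import Pool.Agent.GR.Defs
import Pool.Agent.GR.HM
import Pool.Agent.GR.HTK
import Pool.Agent.GR.HA

/-! Block H: a Blaschke structure has constant curvature (helper14 with helper419). -/

set_option autoImplicit false

open Set Filter Topology MeasureTheory
open scoped Gradient RealInnerProductSpace ContDiff

namespace Pool.Agent.GR

section CC4
theorem CC4 {f : E → ℝ} {G : ℝ → E × E → E × E} {L : ℝ} {q : E → E} (hf : Surf f)
    (hG : GFlow f G) (hB : Blaschke f G L q) {p : E × E} (hp : p ∈ UT f) :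
    deriv (J f G p) L = -1 ∧ (∫ t in (0 : ℝ)..L, K f (G t p).1) ≤ Real.pi ^ 2 / L ∧
    ((∫ t in (0 : ℝ)..L, K f (G t p).1) = Real.pi ^ 2 / L →
      ∀ t, K f (G t p).1 = (Real.pi / L) ^ 2) := by
  have hU : ∀ t, G t p ∈ UT f := fun t => TK_UT hG hp t
  have hc : Continuous (fun t : ℝ => (G t p).1) := by
    have h1 : Continuous (fun t : ℝ => G t p) :=
      hG.smooth.continuous.comp (continuous_id.prodMk continuous_const)
    exact h1.fst
  have hk : Continuous (fun t : ℝ => K f (G t p).1) :=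
    (TK_K_cont hf).comp_continuous hc (fun t => (hU t).1)
  have h0 : ∀ s : ℝ, (fun s t : ℝ => J f G (G s p) (t - s)) s s = 0 := by
    intro s
    show J f G (G s p) (s - s) = 0
    rw [sub_self]
    exact TK_J_zero hf hG (hU s)
  have h1 : ∀ s : ℝ, (fun s t : ℝ => deriv (J f G (G s p)) (t - s)) s s = 1 := by
    intro s
    show deriv (J f G (G s p)) (s - s) = 1
    rw [sub_self]
    exact TK_J_deriv0 hf hG (hU s)
  have hY : ∀ s t : ℝ, HasDerivAt ((fun s t : ℝ => J f G (G s p) (t - s)) s)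
      ((fun s t : ℝ => deriv (J f G (G s p)) (t - s)) s t) t := by
    intro s t
    exact HasDerivAt.comp_sub_const t s (TK_J_deriv hf hG (hU s) (t - s))
  have hY' : ∀ s t : ℝ, HasDerivAt ((fun s t : ℝ => deriv (J f G (G s p)) (t - s)) s)
      (-((fun t : ℝ => K f (G t p).1) t * (fun s t : ℝ => J f G (G s p) (t - s)) s t)) t := by
    intro s t
    have h2 := HasDerivAt.comp_sub_const t s (TK_J_ode hf hG (hU s) (t - s))
    have h3 : G (t - s) (G s p) = G t p := by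
      rw [← hG.add, sub_add_cancel]
    rw [h3] at h2
    exact h2
  have hL0 : ∀ s : ℝ, (fun s t : ℝ => J f G (G s p) (t - s)) s (s + L) = 0 := by
    intro s
    show J f G (G s p) (s + L - s) = 0
    rw [add_sub_cancel_left]
    exact hB.J_L _ (hU s)
  have hpos : ∀ s : ℝ, ∀ t ∈ Ioo s (s + L), 0 < (fun s t : ℝ => J f G (G s p) (t - s)) s t := by
    intro s t ht
    exact hB.J_pos _ (hU s) (t - s) ⟨by linarith [ht.1], by linarith [ht.2]⟩
  have c1 := CC1 hk hB.L_pos h0 h1 hY hY' hL0 hpos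
  have c3 := CC3 hk hB.L_pos h0 h1 hY hY' hL0 hpos
  refine ⟨?_, c3.1, c3.2⟩
  have h4 : deriv (J f G (G 0 p)) (0 + L - 0) = -1 := c1.1 0
  rwa [hG.zero, zero_add, sub_zero] at h4

end CC4

section CC5
theorem CC5 {f : E → ℝ} {G : ℝ → E × E → E × E} (hf : Surf f) (hG : GFlow f G)
    {p : E × E} (hp : p ∈ UT f) (t : ℝ) :
    J f G ((G t p).1, -(G t p).2) t = J f G p t := by
  obtain ⟨hq1, hq2, hq3⟩ := TK_UT hG hp t
  obtain ⟨p', hp'⟩ : ∃ p' : E × E, p' = ((G t p).1, -(G t p).2) := ⟨_, rfl⟩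
  have hpU : p' ∈ UT f := by
    rw [hp']
    refine ⟨hq1, ?_, ?_⟩
    · show ⟪N f (G t p).1, -(G t p).2⟫ = 0
      rw [inner_neg_right, hq2, neg_zero]
    · show ‖-(G t p).2‖ = 1
      rw [norm_neg, hq3]
  have hrev : ∀ r, (G r p').1 = (G (t - r) p).1 := by
    intro r
    have h1 := hG.scale (G t p) ⟨hq1, hq2⟩ (-1) (by rw [hq3]; norm_num)
      (by rw [norm_smul, hq3]; norm_num) r
    rw [neg_one_smul, ← hp'] at h1
    rw [h1]
    show (G (-1 * r) (G t p)).1 = (G (t - r) p).1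
    rw [← hG.add]
    congr 2
    ring
  rw [← hp']
  have hW : ∀ r, HasDerivAt (fun r => J f G p r * deriv (J f G p') (t - r)
      + deriv (J f G p) r * J f G p' (t - r)) 0 r := by
    intro r
    have h1 := TK_J_deriv hf hG hp r
    have h2 := TK_J_ode hf hG hp r
    have h3 := (TK_J_deriv hf hG hpU (t - r)).comp_const_sub t r
    have h4 := (TK_J_ode hf hG hpU (t - r)).comp_const_sub t r
    have h5 := (h1.mul h4).add (h2.mul h3)
    exact h5.congr_deriv (by rw [hrev, sub_sub_cancel]; ring)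
  have hc := is_const_of_deriv_eq_zero (fun r => (hW r).differentiableAt) (fun r => (hW r).deriv) 0 t
  simp only [sub_zero, sub_self] at hc
  rw [TK_J_zero hf hG hp, TK_J_deriv0 hf hG hp, TK_J_zero hf hG hpU, TK_J_deriv0 hf hG hpU] at hc
  linarith

end CC5

section CC6
theorem CC6 {f : E → ℝ} {G : ℝ → E × E → E × E} {L : ℝ} {q : E → E} (hf : Surf f)
    (hG : GFlow f G) (hB : Blaschke f G L q) {x u : E} (hxu : (x, u) ∈ UT f) :
    ∫⁻ z, ENNReal.ofReal (K f z) ∂(mu f G L x u) = ENNReal.ofReal (4 * Real.pi) := by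
  unfold mu
  -- continuity
  have hrot : Continuous (fun θ : ℝ => rot f x u θ) := by
    unfold rot
    fun_prop
  have hGc : Continuous (fun q : ℝ × (E × E) => G q.1 q.2) := hG.smooth.continuous
  have hΦ : Continuous (fun r : ℝ × ℝ => (G r.1 (x, rot f x u r.2)).1) := by
    have h1 : Continuous (fun r : ℝ × ℝ => ((r.1, (x, rot f x u r.2)) : ℝ × (E × E))) :=
      continuous_fst.prodMk (continuous_const.prodMk (hrot.comp continuous_snd))
    exact (hGc.comp h1).fst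
  have hJc : Continuous (fun r : ℝ × ℝ => J f G (x, rot f x u r.2) r.1) := by
    have h1 : Continuous (fun r : ℝ × ℝ => ((r.1, (x, rot f x u r.2)) : ℝ × (E × E))) :=
      continuous_fst.prodMk (continuous_const.prodMk (hrot.comp continuous_snd))
    have h2 : ∀ r : ℝ × ℝ, ((r.1, (x, rot f x u r.2)) : ℝ × (E × E)) ∈
        (univ : Set ℝ) ×ˢ UT f := fun r => ⟨mem_univ _, TK_rot_UT hf hxu r.2⟩
    obtain ⟨Jf, hJf⟩ : ∃ Jf : ℝ × (E × E) → ℝ, Jf = fun r => J f G r.2 r.1 := ⟨_, rfl⟩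
    have h3 : ContinuousOn Jf (univ ×ˢ UT f) := by rw [hJf]; exact TK_J_cont hf hG
    have h4 := h3.comp_continuous h1 h2
    rw [hJf] at h4
    exact h4
  have hρ : Measurable (fun r : ℝ × ℝ => ENNReal.ofReal (J f G (x, rot f x u r.2) r.1)) :=
    hJc.measurable.ennreal_ofReal
  have hg : Measurable (fun z => ENNReal.ofReal (K f z)) := (TK_K_meas hf).ennreal_ofReal
  have hgΦ : Measurable (fun r : ℝ × ℝ => ENNReal.ofReal (K f (G r.1 (x, rot f x u r.2)).1)) :=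
    hg.comp hΦ.measurable
  rw [lintegral_map hg hΦ.measurable, lintegral_withDensity_eq_lintegral_mul _ hρ hgΦ]
  have hprod : (volume : Measure (ℝ × ℝ)).restrict (Ioo 0 L ×ˢ Ico 0 (2 * Real.pi)) =
      ((volume : Measure ℝ).restrict (Ioo 0 L)).prod
        ((volume : Measure ℝ).restrict (Ico 0 (2 * Real.pi))) := by
    rw [Measure.prod_restrict, Measure.volume_eq_prod]
  rw [hprod, lintegral_prod_symm _ (hρ.mul hgΦ).aemeasurable]
  have key : ∀ θ ∈ Ico (0 : ℝ) (2 * Real.pi),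
      (∫⁻ t in Ioo 0 L, ((fun r : ℝ × ℝ => ENNReal.ofReal (J f G (x, rot f x u r.2) r.1)) *
      (fun r : ℝ × ℝ => ENNReal.ofReal (K f (G r.1 (x, rot f x u r.2)).1))) (t, θ)) =
      ENNReal.ofReal 2 := by
    intro θ hθ
    have hpU : (x, rot f x u θ) ∈ UT f := TK_rot_UT hf hxu θ
    have hUT : ∀ t, G t (x, rot f x u θ) ∈ UT f := fun t => TK_UT hG hpU t
    have hmem : ∀ t, f (G t (x, rot f x u θ)).1 = 0 := fun t => (hUT t).1
    have hKnn : ∀ t, 0 ≤ K f (G t (x, rot f x u θ)).1 := fun t => TK_K_nonneg hf (hmem t)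
    have hKc : Continuous (fun t => K f (G t (x, rot f x u θ)).1) := by
      have h1 : Continuous (fun t : ℝ => (G t (x, rot f x u θ)).1) := by
        have h2 : Continuous (fun t : ℝ => ((t, θ) : ℝ × ℝ)) :=
          continuous_id.prodMk continuous_const
        exact hΦ.comp h2
      exact (TK_K_cont hf).comp_continuous h1 (fun t => hmem t)
    obtain ⟨j, hj⟩ : ∃ j : ℝ → ℝ, j = J f G (x, rot f x u θ) := ⟨_, rfl⟩
    obtain ⟨k, hk⟩ : ∃ k : ℝ → ℝ, k = fun t => K f (G t (x, rot f x u θ)).1 := ⟨_, rfl⟩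
    have hjd : ∀ t, HasDerivAt j (deriv j t) t := by
      intro t; rw [hj]; exact TK_J_deriv hf hG hpU t
    have hjo : ∀ t, HasDerivAt (deriv j) (-(k t * j t)) t := by
      intro t; rw [hj, hk]; exact TK_J_ode hf hG hpU t
    have hj0 : deriv j 0 = 1 := by rw [hj]; exact TK_J_deriv0 hf hG hpU
    have hjL : deriv j L = -1 := by rw [hj]; exact (CC4 hf hG hB hpU).1
    have hjp : ∀ t ∈ Ioo 0 L, 0 < j t := by
      intro t ht; rw [hj]; exact hB.J_pos _ hpU t ht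
    have hkn : ∀ t, 0 ≤ k t := by intro t; rw [hk]; exact hKnn t
    have hkc : Continuous k := by rw [hk]; exact hKc
    have hjc : Continuous j := continuous_iff_continuousAt.2 fun t => (hjd t).continuousAt
    have h3 : ∫⁻ t in Ioo 0 L, ((fun r : ℝ × ℝ => ENNReal.ofReal (J f G (x, rot f x u r.2) r.1)) *
      (fun r : ℝ × ℝ => ENNReal.ofReal (K f (G r.1 (x, rot f x u r.2)).1))) (t, θ) =
      ∫⁻ t in Ioo 0 L, ENNReal.ofReal (k t * j t) := by
      apply setLIntegral_congr_fun measurableSet_Ioo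
      intro t ht
      have e1 : J f G (x, rot f x u θ) t = j t := by rw [hj]
      have e2 : K f (G t (x, rot f x u θ)).1 = k t := by rw [hk]
      simp only [Pi.mul_apply]
      rw [e1, e2, mul_comm, ← ENNReal.ofReal_mul (hkn t)]
    rw [h3]
    have hc : Continuous (fun t => k t * j t) := hkc.mul hjc
    have hint : IntegrableOn (fun t => k t * j t) (Ioo 0 L) :=
      hc.integrableOn_Icc.mono_set Ioo_subset_Icc_self
    rw [← ofReal_integral_eq_lintegral_ofReal hint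
      ((ae_restrict_mem measurableSet_Ioo).mono fun t ht =>
        mul_nonneg (hkn t) (hjp t ht).le)]
    congr 1
    have h4 : (∫ t in (0 : ℝ)..L, -(k t * j t)) = deriv j L - deriv j 0 :=
      intervalIntegral.integral_eq_sub_of_hasDerivAt
        (fun t _ => hjo t) (hc.neg.intervalIntegrable _ _)
    rw [intervalIntegral.integral_neg, hjL, hj0,
      intervalIntegral.integral_of_le hB.L_pos.le, integral_Ioc_eq_integral_Ioo] at h4
    linarith
  rw [setLIntegral_congr_fun measurableSet_Ico key, setLIntegral_const, Real.volume_Ico,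
    ← ENNReal.ofReal_mul (by norm_num)]
  congr 1
  ring

end CC6

section CC7
theorem CC7_cr_cont {X : Type*} [TopologicalSpace X] {a b : X → E} (ha : Continuous a)
    (hb : Continuous b) : Continuous fun x => cr (a x) (b x) := by
  have ha' : ∀ i, Continuous fun x => (a x) i := fun i =>
    (EuclideanSpace.proj i : E →L[ℝ] ℝ).continuous.comp ha
  have hb' : ∀ i, Continuous fun x => (b x) i := fun i =>
    (EuclideanSpace.proj i : E →L[ℝ] ℝ).continuous.comp hb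
  unfold cr
  refine (PiLp.continuous_toLp 2 (fun _ : Fin 3 => ℝ)).comp (continuous_pi fun i => ?_)
  fin_cases i
  · exact ((ha' 1).mul (hb' 2)).sub ((ha' 2).mul (hb' 1))
  · exact ((ha' 2).mul (hb' 0)).sub ((ha' 0).mul (hb' 2))
  · exact ((ha' 0).mul (hb' 1)).sub ((ha' 1).mul (hb' 0))

theorem CC7_comp {X : Type*} [TopologicalSpace X] (Jf : ℝ × (E × E) → ℝ) (S : Set (E × E))
    (h : ContinuousOn Jf (univ ×ˢ S)) (a : X → ℝ) (b : X → E × E) (ha : Continuous a)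
    (hb : Continuous b) (hS : ∀ x, b x ∈ S) : Continuous fun x => Jf (a x, b x) :=
  h.comp_continuous (ha.prodMk hb) (fun x => ⟨mem_univ _, hS x⟩)

theorem CC7 {f : E → ℝ} {G : ℝ → E × E → E × E} {L : ℝ} {q : E → E} (hf : Surf f)
    (hG : GFlow f G) (hB : Blaschke f G L q) {p : E × E} (hp : p ∈ UT f) :
    ∃ kern : ℝ × E → ENNReal, Measurable kern ∧
      ∀ s : ℝ, ∀ t ∈ Ioo 0 L, ∀ θ ∈ Ico (0 : ℝ) (2 * Real.pi),
        kern (s, (G t ((G s p).1, rot f (G s p).1 (G s p).2 θ)).1) =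
          ENNReal.ofReal (|Real.sin θ| /
            J f G ((G s p).1, rot f (G s p).1 (G s p).2 θ) t) := by
  classical
  have hGc : Continuous fun q : ℝ × (E × E) => G q.1 q.2 := hG.smooth.continuous
  have hGs : Continuous fun s : ℝ => G s p :=
    hGc.comp (continuous_id.prodMk continuous_const)
  have hUs : ∀ s, G s p ∈ UT f := fun s => TK_UT hG hp s
  have hNs : Continuous fun s : ℝ => N f (G s p).1 :=
    (TK_N_cont hf).comp_continuous (continuous_fst.comp hGs) (fun s => (hUs s).1)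
  have hDir : Continuous fun r : ℝ × ℝ × ℝ => rot f (G r.1 p).1 (G r.1 p).2 r.2.2 := by
    unfold rot
    have h1 : Continuous fun r : ℝ × ℝ × ℝ => (G r.1 p).2 :=
      (continuous_snd.comp hGs).comp continuous_fst
    have h2 : Continuous fun r : ℝ × ℝ × ℝ => N f (G r.1 p).1 := hNs.comp continuous_fst
    have h3 : Continuous fun r : ℝ × ℝ × ℝ => r.2.2 := continuous_snd.comp continuous_snd
    exact ((Real.continuous_cos.comp h3).smul h1).add
      ((Real.continuous_sin.comp h3).smul (CC7_cr_cont h2 h1))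
  have hP : Continuous fun r : ℝ × ℝ × ℝ =>
      (((G r.1 p).1, rot f (G r.1 p).1 (G r.1 p).2 r.2.2) : E × E) :=
    ((continuous_fst.comp hGs).comp continuous_fst).prodMk hDir
  have hPU : ∀ r : ℝ × ℝ × ℝ,
      (((G r.1 p).1, rot f (G r.1 p).1 (G r.1 p).2 r.2.2) : E × E) ∈ UT f := fun r =>
    TK_rot_UT hf (x := (G r.1 p).1) (u := (G r.1 p).2) (hUs r.1) r.2.2
  set Θ : ℝ × ℝ × ℝ → ℝ × E := fun r =>
    (r.1, (G r.2.1 ((G r.1 p).1, rot f (G r.1 p).1 (G r.1 p).2 r.2.2)).1) with hΘ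
  have hΘc : Continuous Θ :=
    continuous_fst.prodMk (continuous_fst.comp
      (hGc.comp ((continuous_fst.comp continuous_snd).prodMk hP)))
  set val : ℝ × ℝ × ℝ → ENNReal := fun r => ENNReal.ofReal (|Real.sin r.2.2| /
    J f G ((G r.1 p).1, rot f (G r.1 p).1 (G r.1 p).2 r.2.2) r.2.1) with hval
  have hJ : Continuous fun r : ℝ × ℝ × ℝ =>
      J f G ((G r.1 p).1, rot f (G r.1 p).1 (G r.1 p).2 r.2.2) r.2.1 := by
    have h1 := CC7_comp (fun r : ℝ × (E × E) => J f G r.2 r.1) (UT f) (TK_J_cont hf hG)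
      (fun r : ℝ × ℝ × ℝ => r.2.1) _ (continuous_fst.comp continuous_snd) hP hPU
    exact h1
  have hvalm : Measurable val := by
    have h3 : Continuous fun r : ℝ × ℝ × ℝ => |Real.sin r.2.2| :=
      (Real.continuous_sin.comp (continuous_snd.comp continuous_snd)).abs
    exact (h3.measurable.div hJ.measurable).ennreal_ofReal
  set S : Set (ℝ × ℝ × ℝ) := {r | r.2.1 ∈ Ioo 0 L ∧ r.2.2 ∈ Ico (0 : ℝ) (2 * Real.pi)} with hS
  have hSm : MeasurableSet S := by
    have h1 : MeasurableSet {r : ℝ × ℝ × ℝ | r.2.1 ∈ Ioo 0 L} :=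
      (measurable_fst.comp measurable_snd) measurableSet_Ioo
    have h2 : MeasurableSet {r : ℝ × ℝ × ℝ | r.2.2 ∈ Ico (0 : ℝ) (2 * Real.pi)} :=
      (measurable_snd.comp measurable_snd) measurableSet_Ico
    exact h1.inter h2
  have hinj : InjOn Θ S := by
    rintro ⟨s, t, θ⟩ ⟨ht, hθ⟩ ⟨s', t', θ'⟩ ⟨ht', hθ'⟩ he
    simp only [hΘ, Prod.mk.injEq] at he
    obtain ⟨hs, he⟩ := he
    subst hs
    have h1 : (((G s p).1, rot f (G s p).1 (G s p).2 θ) : E × E) ∈ UT f := hPU (s, t, θ)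
    have h2 : (((G s p).1, rot f (G s p).1 (G s p).2 θ') : E × E) ∈ UT f := hPU (s, t, θ')
    obtain ⟨e1, e2⟩ := hB.inj _ _ _ t t' h1 h2 ht ht' he
    have e3 := TK_rot_inj hf (x := (G s p).1) (u := (G s p).2) (hUs s) hθ hθ' e2
    have e4 : θ = θ' := e3
    rw [e1, e4]
  have hemb := ContinuousOn.measurableEmbedding hSm hΘc.continuousOn hinj
  refine ⟨Function.extend (S.domRestrict Θ) (fun r : S => val r.1) (fun _ => 0),
    hemb.measurable_extend (hvalm.comp measurable_subtype_coe) measurable_const, ?_⟩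
  intro s t ht θ hθ
  have hr : ((s, t, θ) : ℝ × ℝ × ℝ) ∈ S := ⟨ht, hθ⟩
  have h1 := hemb.injective.extend_apply (fun r : S => val r.1) (fun _ => 0) ⟨(s, t, θ), hr⟩
  exact h1

end CC7

section CC8a
theorem CC8a {f : E → ℝ} {G : ℝ → E × E → E × E} {L : ℝ} {q : E → E} (hf : Surf f)
    (hG : GFlow f G) (hB : Blaschke f G L q) {p : E × E} (hp : p ∈ UT f) :
    (∀ s, (G (s + L) p).1 = q (G s p).1) ∧ (∀ s, G (s + 2 * L) p = G s p) ∧
    (∀ s r, r ∈ Ioo 0 (2 * L) → (G (s + r) p).1 ≠ (G s p).1) ∧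
    (∀ t, G t (p.1, -p.2) = ((G (-t) p).1, -(G (-t) p).2)) := by
  have hUT : ∀ s, G s p ∈ UT f := fun s => TK_UT hG hp s
  have hf0 : ∀ s, f (G s p).1 = 0 := fun s => (hUT s).1
  have hTT : p ∈ TT f := ⟨hp.1, hp.2.1⟩
  have hn : ‖p.2‖ ≤ 2 := by rw [hp.2.2]; norm_num
  have h1 : ∀ s, (G (s + L) p).1 = q (G s p).1 := by
    intro s
    rw [add_comm, hG.add]
    exact hB.anti (G s p).1 (G s p).2 (hUT s)
  have h2a : ∀ s, (G (s + 2 * L) p).1 = (G s p).1 := by
    intro s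
    rw [show s + 2 * L = (s + L) + L by ring, h1, h1, hB.q_q _ (hf0 s)]
  have h2 : ∀ s, G (s + 2 * L) p = G s p := by
    intro s
    refine Prod.ext (h2a s) ?_
    have e1 : HasDerivAt (fun t => (G (t + 2 * L) p).1) (G (s + 2 * L) p).2 s :=
      HasDerivAt.comp_add_const s (2 * L) (hG.pos p hTT hn (s + 2 * L))
    have e2 := hG.pos p hTT hn s
    have e3 : (fun t => (G (t + 2 * L) p).1) = fun t => (G t p).1 := funext h2a
    rw [e3] at e1
    exact e1.unique e2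
  refine ⟨h1, h2, ?_, ?_⟩
  · intro s r hr
    rcases lt_trichotomy r L with h | h | h
    · rw [add_comm, hG.add]
      exact (hB.ne (G s p).1 (G s p).2 r (hUT s) ⟨hr.1, h⟩).1
    · rw [h, h1]
      exact hB.q_ne _ (hf0 s)
    · rw [show s + r = (r - L) + (s + L) by ring, hG.add]
      have h3 := (hB.ne (G (s + L) p).1 (G (s + L) p).2 (r - L) (hUT (s + L))
        ⟨by linarith, by linarith [hr.2]⟩).2
      rw [h1 s, hB.q_q _ (hf0 s)] at h3
      have h4 : (q (G s p).1, (G (s + L) p).2) = G (s + L) p := by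
        rw [← h1 s]
      rw [h4] at h3
      exact h3
  · intro t
    have h5 := hG.scale p hTT (-1) hn (by rw [norm_smul]; simpa using hn) t
    simpa using h5

end CC8a

section CC8b
theorem CC8b_compact {f : E → ℝ} (z : E) : IsCompact {w : E | (z, w) ∈ UT f} := by
  have h1 : {w : E | (z, w) ∈ UT f} ⊆ Metric.sphere 0 1 := by
    intro w hw
    have := hw.2.2
    simpa using this
  refine (isCompact_sphere (0 : E) 1).of_isClosed_subset ?_ h1
  by_cases hz : f z = 0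
  · have h2 : {w : E | (z, w) ∈ UT f} = {w | ⟪N f z, w⟫ = 0} ∩ {w | ‖w‖ = 1} := by
      ext w
      simp [UT, hz]
    rw [h2]
    exact (isClosed_eq (by fun_prop) continuous_const).inter
      (isClosed_eq continuous_norm continuous_const)
  · have h2 : {w : E | (z, w) ∈ UT f} = ∅ := by
      ext w
      simp [UT, hz]
    rw [h2]
    exact isClosed_empty

theorem CC8b {f : E → ℝ} {G : ℝ → E × E → E × E} {L : ℝ} {q : E → E} (hf : Surf f)
    (hG : GFlow f G) (hB : Blaschke f G L q) {p : E × E} (hp : p ∈ UT f) {z : E}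
    (hz : f z = 0) (hzp : ∀ s, (G s p).1 ≠ z) :
    ∃ w : ℝ → E, ∃ τ : ℝ → ℝ, Continuous w ∧ Continuous τ ∧
      ∀ s, (z, w s) ∈ UT f ∧ τ s ∈ Ioo 0 L ∧ (G (τ s) (z, w s)).1 = (G s p).1 := by
  obtain ⟨c1, -, -, -⟩ := CC8a hf hG hB hp
  have hfy : ∀ s, f (G s p).1 = 0 := fun s => (TK_UT hG hp s).1
  have hnq : ∀ s, (G s p).1 ≠ q z := by
    intro s e
    apply hzp (s + L)
    rw [c1 s, e, hB.q_q z hz]
  have hex : ∀ s, ∃ w τ, (z, w) ∈ UT f ∧ τ ∈ Ioo 0 L ∧ (G τ (z, w)).1 = (G s p).1 :=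
    fun s => hB.surj z (G s p).1 hz (hfy s) (hzp s) (hnq s)
  choose w τ h1 h2 h3 using hex
  have huniq : ∀ s w' τ', (z, w') ∈ UT f → τ' ∈ Icc 0 L → (G τ' (z, w')).1 = (G s p).1 →
      w' = w s ∧ τ' = τ s := by
    intro s w' τ' hw' hτ' he
    have hne0 : τ' ≠ 0 := by
      intro e
      rw [e, hG.zero] at he
      exact hzp s he.symm
    have hneL : τ' ≠ L := by
      intro e
      rw [e, hB.anti z w' hw'] at he
      exact hnq s he.symm
    have hIoo : τ' ∈ Ioo 0 L :=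
      ⟨lt_of_le_of_ne hτ'.1 (Ne.symm hne0), lt_of_le_of_ne hτ'.2 hneL⟩
    have := hB.inj z w' (w s) τ' (τ s) hw' (h1 s) hIoo (h2 s) (by rw [he, h3 s])
    exact ⟨this.2, this.1⟩
  have hΦ : Continuous fun r : E × ℝ => (G r.2 (z, r.1)).1 := by
    have h4 : Continuous (fun q : ℝ × (E × E) => G q.1 q.2) := hG.smooth.continuous
    have h5 : Continuous fun r : E × ℝ => ((r.2, (z, r.1)) : ℝ × (E × E)) := by fun_prop
    exact (h4.comp h5).fst
  have hc : Continuous fun s : ℝ => (G s p).1 := by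
    have h4 : Continuous (fun q : ℝ × (E × E) => G q.1 q.2) := hG.smooth.continuous
    have h5 : Continuous fun s : ℝ => ((s, p) : ℝ × (E × E)) := by fun_prop
    exact (h4.comp h5).fst
  have hX : IsCompact ({w : E | (z, w) ∈ UT f} ×ˢ Icc (0 : ℝ) L) :=
    (CC8b_compact z).prod isCompact_Icc
  have hcont : Continuous fun s => (w s, τ s) := by
    rw [continuous_iff_continuousAt]
    intro s0
    refine hX.tendsto_nhds_of_unique_mapClusterPt
      (Eventually.of_forall fun s => ⟨h1 s, Ioo_subset_Icc_self (h2 s)⟩) ?_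
    rintro ⟨w', τ'⟩ ⟨hw', hτ'⟩ hcl
    have h6 : MapClusterPt ((G τ' (z, w')).1) (𝓝 s0)
        ((fun r : E × ℝ => (G r.2 (z, r.1)).1) ∘ fun s => (w s, τ s)) :=
      MapClusterPt.continuousAt_comp (x := ((w', τ') : E × ℝ))
        (f := fun r : E × ℝ => (G r.2 (z, r.1)).1) hΦ.continuousAt hcl
    have h7 : ((fun r : E × ℝ => (G r.2 (z, r.1)).1) ∘ fun s => (w s, τ s)) =
        fun s => (G s p).1 := by
      funext s
      exact h3 s
    rw [h7] at h6
    have h8 : ClusterPt ((G τ' (z, w')).1) (𝓝 (G s0 p).1) :=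
      ClusterPt.mono h6 (hc.tendsto s0)
    have h9 : (G τ' (z, w')).1 = (G s0 p).1 := eq_of_nhds_neBot h8
    obtain ⟨e1, e2⟩ := huniq s0 w' τ' hw' hτ' h9
    rw [e1, e2]
  exact ⟨w, τ, continuous_fst.comp hcont, continuous_snd.comp hcont,
    fun s => ⟨h1 s, h2 s, h3 s⟩⟩

end CC8b

section CC8c
theorem CC8c_inv (Phi : ℝ × ℝ → ℝ × ℝ) (c : ℝ → ℝ × ℝ) (s0 : ℝ) (ψ : ℝ × ℝ) (J0 : ℝ)
    (hJ : J0 ≠ 0) (hPhi : ContDiffAt ℝ 1 Phi (c s0)) (hc : ContinuousAt c s0)
    (h1 : fderiv ℝ Phi (c s0) (1, 0) = (1, 0)) (h2 : fderiv ℝ Phi (c s0) (0, 1) = (0, J0))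
    (hψ : HasDerivAt (fun s => Phi (c s)) ψ s0) :
    HasDerivAt (fun s => (c s).2) (ψ.2 / J0) s0 := by
  let e : (ℝ × ℝ) ≃L[ℝ] (ℝ × ℝ) := ContinuousLinearEquiv.equivOfInverse
    ((ContinuousLinearMap.fst ℝ ℝ ℝ).prod (J0 • ContinuousLinearMap.snd ℝ ℝ ℝ))
    ((ContinuousLinearMap.fst ℝ ℝ ℝ).prod (J0⁻¹ • ContinuousLinearMap.snd ℝ ℝ ℝ))
    (by
      intro x
      ext
      · simp
      · simp [hJ])
    (by
      intro x
      ext
      · simp
      · simp [hJ])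
  have hS0 : HasStrictFDerivAt Phi (fderiv ℝ Phi (c s0)) (c s0) :=
    hPhi.hasStrictFDerivAt one_ne_zero
  have he : (e : ℝ × ℝ →L[ℝ] ℝ × ℝ) = fderiv ℝ Phi (c s0) := by
    ext
    · simp [e, h1]
    · simp [e, h1]
    · simp [e, h2]
    · simp [e, h2]
  have hS : HasStrictFDerivAt Phi (e : ℝ × ℝ →L[ℝ] ℝ × ℝ) (c s0) := by
    rw [he]
    exact hS0
  have hleft := hS.eventually_left_inverse
  have hloc := hS.to_localInverse
  have hcomp := hloc.hasFDerivAt.comp_hasDerivAt s0 hψ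
  have hev : (fun s => hS.localInverse Phi e (c s0) (Phi (c s))) =ᶠ[𝓝 s0] c := hc.eventually hleft
  have hcd : HasDerivAt c (e.symm ψ) s0 := hcomp.congr_of_eventuallyEq hev.symm
  have h3 := (hasFDerivAt_snd (𝕜 := ℝ) (p := c s0)).comp_hasDerivAt s0 hcd
  have h4 : (ContinuousLinearMap.snd ℝ ℝ ℝ) (e.symm ψ) = ψ.2 / J0 := by
    change J0⁻¹ • ψ.2 = ψ.2 / J0
    rw [smul_eq_mul, div_eq_inv_mul]
  rw [h4] at h3
  exact h3

theorem CC8c_rot_zero (f : E → ℝ) (z u : E) : rot f z u 0 = u := by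
  simp [rot]

theorem CC8c_rot_deriv (f : E → ℝ) (z u : E) : HasDerivAt (rot f z u) (cr (N f z) u) 0 := by
  have h1 := ((Real.hasDerivAt_cos 0).smul_const u).add
    ((Real.hasDerivAt_sin 0).smul_const (cr (N f z) u))
  have h2 : (-Real.sin 0) • u + Real.cos 0 • cr (N f z) u = cr (N f z) u := by simp
  rw [h2] at h1
  exact h1

/-- local angle -/
theorem CC8c_angle {f : E → ℝ} (hf : Surf f) {z u v : E} (hu : (z, u) ∈ UT f)
    (hv : (z, v) ∈ UT f) (hpos : 0 < ⟪u, v⟫) :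
    v = rot f z u (Real.arcsin ⟪cr (N f z) u, v⟫) := by
  obtain ⟨h1, h2, h3, h4⟩ := TK_cr hf hu
  have hv2 := h4 v hv.2.1
  have hnu : ⟪u, u⟫ = (1 : ℝ) := by
    rw [real_inner_self_eq_norm_sq, hu.2.2, one_pow]
  have hnc : ⟪cr (N f z) u, cr (N f z) u⟫ = (1 : ℝ) := by
    rw [real_inner_self_eq_norm_sq, h1.2.2, one_pow]
  have hsum : ⟪u, v⟫ ^ 2 + ⟪cr (N f z) u, v⟫ ^ 2 = (1 : ℝ) := by
    have h5 : ⟪v, v⟫ = (1 : ℝ) := by
      rw [real_inner_self_eq_norm_sq, hv.2.2, one_pow]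
    have h6 : ⟪v, v⟫ = ⟪u, v⟫ * ⟪u, v⟫ + ⟪cr (N f z) u, v⟫ * ⟪cr (N f z) u, v⟫ := by
      conv_lhs => rw [hv2]
      rw [inner_add_left, real_inner_smul_left, real_inner_smul_left, ← hv2]
    rw [h5] at h6
    nlinarith
  have hs1 : -1 ≤ ⟪cr (N f z) u, v⟫ := by nlinarith [sq_nonneg (⟪u, v⟫ : ℝ)]
  have hs2 : ⟪cr (N f z) u, v⟫ ≤ 1 := by nlinarith [sq_nonneg (⟪u, v⟫ : ℝ)]
  unfold rot
  rw [Real.sin_arcsin hs1 hs2, Real.cos_arcsin]
  have h7 : √(1 - ⟪cr (N f z) u, v⟫ ^ 2) = ⟪u, v⟫ := by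
    rw [← hsum]
    rw [add_sub_cancel_right, Real.sqrt_sq hpos.le]
  rw [h7]
  exact hv2

theorem CC8c {f : E → ℝ} {G : ℝ → E × E → E × E} {L : ℝ} {q : E → E} (hf : Surf f)
    (hG : GFlow f G) (hB : Blaschke f G L q) {p : E × E} (hp : p ∈ UT f) {z : E}
    {w : ℝ → E} {τ : ℝ → ℝ} (hw : Continuous w) (hτ : Continuous τ)
    (h : ∀ s, (z, w s) ∈ UT f ∧ τ s ∈ Ioo 0 L ∧ (G (τ s) (z, w s)).1 = (G s p).1) (s : ℝ) :
    HasDerivAt w ((⟪(G s p).2, cr (N f (G s p).1) (G (τ s) (z, w s)).2⟫ /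
      J f G (z, w s) (τ s)) • cr (N f z) (w s)) s := by
  obtain ⟨hu, ht, hy⟩ := h s
  set u0 := w s with hu0
  set t0 := τ s with ht0
  set y0 := (G s p).1 with hy0
  set T := (G t0 (z, u0)).2 with hT
  set nu := cr (N f y0) T with hnu
  have hUT : (y0, T) ∈ UT f := by
    have := TK_UT hG hu t0
    rw [← hy]
    exact this
  obtain ⟨hc1, hc2, hc3, hc4⟩ := TK_cr hf hUT
  rw [← hnu] at hc1 hc2 hc3 hc4
  have hTT : ⟪T, T⟫ = (1 : ℝ) := by
    rw [real_inner_self_eq_norm_sq, hUT.2.2, one_pow]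
  have hnn : ⟪nu, nu⟫ = (1 : ℝ) := by
    rw [real_inner_self_eq_norm_sq, hc1.2.2, one_pow]
  have hnT : ⟪nu, T⟫ = (0 : ℝ) := by
    rw [real_inner_comm]
    exact hc2
  have hJ0 : J f G (z, u0) t0 ≠ 0 := (hB.J_pos _ hu t0 ht).ne'
  -- the map F
  set F : ℝ × ℝ → E := fun r => (G r.1 (z, rot f z u0 r.2)).1 with hF
  have hrot : ContDiff ℝ ((⊤ : ℕ∞) : WithTop ℕ∞) (fun r : ℝ × ℝ => rot f z u0 r.2) := by
    unfold rot
    exact ((Real.contDiff_cos.comp contDiff_snd).smul contDiff_const).add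
      ((Real.contDiff_sin.comp contDiff_snd).smul contDiff_const)
  have hFs : ContDiff ℝ ((⊤ : ℕ∞) : WithTop ℕ∞) F :=
    (hG.smooth.comp (contDiff_fst.prodMk (contDiff_const.prodMk hrot))).fst
  set Phi : ℝ × ℝ → ℝ × ℝ := fun r => (⟪T, F r⟫, ⟪nu, F r⟫) with hPhi
  have hPs : ContDiff ℝ ((⊤ : ℕ∞) : WithTop ℕ∞) Phi :=
    (contDiff_const.inner ℝ hFs).prodMk (contDiff_const.inner ℝ hFs)
  set α : ℝ → ℝ := fun s' => Real.arcsin ⟪cr (N f z) u0, w s'⟫ with hα
  have hα0 : α s = 0 := by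
    rw [hα]
    simp only
    rw [← hu0]
    have h1 : ⟪cr (N f z) u0, u0⟫ = (0 : ℝ) := by
      rw [real_inner_comm]
      exact (TK_cr hf hu).2.1
    rw [h1, Real.arcsin_zero]
  have hαc : Continuous α := Real.continuous_arcsin.comp (continuous_const.inner hw)
  set c : ℝ → ℝ × ℝ := fun s' => (τ s', α s') with hc
  have hcs : c s = (t0, 0) := by
    rw [hc]
    simp only
    rw [hα0]
  have hcc : ContinuousAt c s := (hτ.prodMk hαc).continuousAt
  -- eventually w = rot ∘ α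
  have hpos : ∀ᶠ s' in 𝓝 s, (0 : ℝ) < ⟪u0, w s'⟫ := by
    have h1 : Continuous (fun s' => (⟪u0, w s'⟫ : ℝ)) := continuous_const.inner hw
    have h2 : (0 : ℝ) < ⟪u0, w s⟫ := by
      rw [← hu0, real_inner_self_eq_norm_sq, hu.2.2]
      norm_num
    exact h1.continuousAt.eventually (lt_mem_nhds h2)
  have hwev : ∀ᶠ s' in 𝓝 s, w s' = rot f z u0 (α s') := by
    filter_upwards [hpos] with s' hs'
    exact CC8c_angle hf hu (h s').1 hs'
  have hPd : HasFDerivAt Phi (fderiv ℝ Phi (t0, 0)) (t0, 0) :=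
    (hPs.differentiable (by simp)).differentiableAt.hasFDerivAt
  -- partial derivatives
  have hfd1 : fderiv ℝ Phi (t0, 0) (1, 0) = (1, 0) := by
    have h1 : HasDerivAt (fun t : ℝ => (t, (0 : ℝ))) ((1 : ℝ), (0 : ℝ)) t0 :=
      (hasDerivAt_id t0).prodMk (hasDerivAt_const t0 0)
    have h2 := hPd.comp_hasDerivAt t0 h1
    have h3 : HasDerivAt (fun t => (G t (z, u0)).1) T t0 :=
      hG.pos (z, u0) ⟨hu.1, hu.2.1⟩ (by rw [hu.2.2]; norm_num) t0
    have h4 : HasDerivAt (fun t => (⟪T, (G t (z, u0)).1⟫ : ℝ)) ⟪T, T⟫ t0 := by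
      have := (hasDerivAt_const t0 T).inner ℝ h3
      simpa using this
    have h5 : HasDerivAt (fun t => (⟪nu, (G t (z, u0)).1⟫ : ℝ)) ⟪nu, T⟫ t0 := by
      have := (hasDerivAt_const t0 nu).inner ℝ h3
      simpa using this
    have h6 := h4.prodMk h5
    have h7 : (Phi ∘ fun t : ℝ => (t, (0 : ℝ))) =
        fun t => ((⟪T, (G t (z, u0)).1⟫ : ℝ), (⟪nu, (G t (z, u0)).1⟫ : ℝ)) := by
      funext t
      simp only [hPhi, hF, Function.comp_apply, CC8c_rot_zero]
    rw [h7] at h2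
    rw [h2.unique h6, hTT, hnT]
  have hfd2 : fderiv ℝ Phi (t0, 0) (0, 1) = (0, J f G (z, u0) t0) := by
    have h1 : HasDerivAt (fun a : ℝ => (t0, a)) ((0 : ℝ), (1 : ℝ)) 0 :=
      (hasDerivAt_const 0 t0).prodMk (hasDerivAt_id 0)
    have h2 := hPd.comp_hasDerivAt 0 h1
    have h3 := TK_F_theta hf hG hu t0 0
    rw [CC8c_rot_zero, hy, ← hT, ← hnu] at h3
    have h4 : HasDerivAt (fun a => (⟪T, (G t0 (z, rot f z u0 a)).1⟫ : ℝ))
        ⟪T, J f G (z, u0) t0 • nu⟫ 0 := by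
      have := (hasDerivAt_const 0 T).inner ℝ h3
      simpa using this
    have h5 : HasDerivAt (fun a => (⟪nu, (G t0 (z, rot f z u0 a)).1⟫ : ℝ))
        ⟪nu, J f G (z, u0) t0 • nu⟫ 0 := by
      have := (hasDerivAt_const 0 nu).inner ℝ h3
      simpa using this
    have h6 := h4.prodMk h5
    have h7 : (Phi ∘ fun a : ℝ => (t0, a)) =
        fun a => ((⟪T, (G t0 (z, rot f z u0 a)).1⟫ : ℝ),
          (⟪nu, (G t0 (z, rot f z u0 a)).1⟫ : ℝ)) := by
      funext a
      simp only [hPhi, hF, Function.comp_apply]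
    rw [h7] at h2
    rw [h2.unique h6, real_inner_smul_right, real_inner_smul_right, hnn, hc2, mul_zero, mul_one]
  -- derivative of Phi ∘ c
  have hψ : HasDerivAt (fun s' => Phi (c s')) (⟪T, (G s p).2⟫, ⟪nu, (G s p).2⟫) s := by
    have h3 : HasDerivAt (fun t => (G t p).1) (G s p).2 s :=
      hG.pos p ⟨hp.1, hp.2.1⟩ (by rw [hp.2.2]; norm_num) s
    have h4 : HasDerivAt (fun t => (⟪T, (G t p).1⟫ : ℝ)) ⟪T, (G s p).2⟫ s := by
      have := (hasDerivAt_const s T).inner ℝ h3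
      simpa using this
    have h5 : HasDerivAt (fun t => (⟪nu, (G t p).1⟫ : ℝ)) ⟪nu, (G s p).2⟫ s := by
      have := (hasDerivAt_const s nu).inner ℝ h3
      simpa using this
    refine (h4.prodMk h5).congr_of_eventuallyEq ?_
    filter_upwards [hwev] with s' hs'
    have h6 : F (c s') = (G s' p).1 := by
      change (G (τ s') (z, rot f z u0 (α s'))).1 = (G s' p).1
      rw [← hs']
      exact (h s').2.2
    change ((⟪T, F (c s')⟫ : ℝ), (⟪nu, F (c s')⟫ : ℝ)) = _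
    rw [h6]
  have hα' : HasDerivAt α (⟪nu, (G s p).2⟫ / J f G (z, u0) t0) s := by
    have := CC8c_inv Phi c s _ (J f G (z, u0) t0) hJ0
      (by
        refine (hPs.of_le ?_).contDiffAt
        exact_mod_cast (le_top : (1 : ℕ∞) ≤ ⊤))
      hcc (by rw [hcs]; exact hfd1) (by rw [hcs]; exact hfd2) hψ
    exact this
  have hrd : HasDerivAt (rot f z u0) (cr (N f z) u0) (α s) := by
    rw [hα0]
    exact CC8c_rot_deriv f z u0
  have hfin := hrd.scomp s hα'
  have hfin2 := hfin.congr_of_eventuallyEq (hwev : w =ᶠ[𝓝 s] rot f z u0 ∘ α)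
  rw [real_inner_comm] at hfin2
  exact hfin2

end CC8c

section CC8d
theorem CC8d_neg_UT {f : E → ℝ} {a v : E} (h : (a, v) ∈ UT f) : (a, -v) ∈ UT f := by
  obtain ⟨h1, h2, h3⟩ := h
  refine ⟨h1, ?_, ?_⟩
  · show ⟪N f a, -v⟫ = 0
    rw [inner_neg_right]
    have h2' : ⟪N f a, v⟫ = 0 := h2
    rw [h2', neg_zero]
  · show ‖-v‖ = 1
    rw [norm_neg]
    exact h3

theorem CC8d_per {f : E → ℝ} {G : ℝ → E × E → E × E} {L : ℝ} {q : E → E} (hf : Surf f)
    (hG : GFlow f G) (hB : Blaschke f G L q) {p : E × E} (hp : p ∈ UT f) {z : E}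
    {w : ℝ → E} {τ : ℝ → ℝ}
    (h : ∀ s, (z, w s) ∈ UT f ∧ τ s ∈ Ioo 0 L ∧ (G (τ s) (z, w s)).1 = (G s p).1) (s : ℝ) :
    τ (s + 2 * L) = τ s ∧ w (s + 2 * L) = w s := by
  obtain ⟨-, h2, -, -⟩ := CC8a hf hG hB hp
  obtain ⟨a1, a2, a3⟩ := h (s + 2 * L)
  obtain ⟨b1, b2, b3⟩ := h s
  apply hB.inj z _ _ _ _ a1 b1 a2 b2
  rw [a3, b3, h2 s]

theorem CC8d_aux {f : E → ℝ} {G : ℝ → E × E → E × E} {L : ℝ} {q : E → E} (hf : Surf f)
    (hG : GFlow f G) (hB : Blaschke f G L q) {p : E × E} (hp : p ∈ UT f) {z : E}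
    (hzp : ∀ s, (G s p).1 ≠ z) {w : ℝ → E} {τ : ℝ → ℝ}
    (h : ∀ s, (z, w s) ∈ UT f ∧ τ s ∈ Ioo 0 L ∧ (G (τ s) (z, w s)).1 = (G s p).1)
    (s r : ℝ) (hr : r ∈ Ioo 0 (2 * L)) (hw : w (s + r) = w s) (hτ : τ s < τ (s + r)) : False := by
  obtain ⟨c1, c2, c3, c4⟩ := CC8a hf hG hB hp
  obtain ⟨a1, a2, a3⟩ := h (s + r)
  obtain ⟨b1, b2, b3⟩ := h s
  rw [hw] at a1 a3
  obtain ⟨P, hP⟩ : ∃ P, P = G (τ s) (z, w s) := ⟨_, rfl⟩
  obtain ⟨Q, hQ⟩ : ∃ Q, Q = G s p := ⟨_, rfl⟩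
  have hPU : P ∈ UT f := by rw [hP]; exact TK_UT hG b1 _
  have hQU : Q ∈ UT f := by rw [hQ]; exact TK_UT hG hp _
  have hPQ : P.1 = Q.1 := by rw [hP, hQ]; exact b3
  have hδ : τ (s + r) - τ s ∈ Ioo 0 L := ⟨by linarith, by linarith [a2.2, b2.1]⟩
  have hb : (G (τ (s + r) - τ s) P).1 = (G (s + r) p).1 := by
    rw [hP, ← hG.add, sub_add_cancel]
    exact a3
  have hPe : P = (Q.1, P.2) := by
    rw [← hPQ]
  have hPU' : (Q.1, P.2) ∈ UT f := by rw [← hPe]; exact hPU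
  have hback : (z, w s) = G (-τ s) P := by
    rw [hP, ← hG.add, neg_add_cancel, hG.zero]
  rcases lt_trichotomy r L with hrL | hrL | hrL
  · -- r < L
    have h1 : (G (τ (s + r) - τ s) (Q.1, P.2)).1 = (G r (Q.1, Q.2)).1 := by
      rw [← hPe, hb]
      show (G (s + r) p).1 = (G r Q).1
      rw [hQ, ← hG.add, add_comm]
    obtain ⟨-, h3⟩ := hB.inj Q.1 P.2 Q.2 _ _ hPU' hQU hδ ⟨hr.1, hrL⟩ h1
    have h4 : P = Q := by rw [hPe, h3]
    rw [h4, hQ, ← hG.add] at hback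
    have h5 := congrArg Prod.fst hback
    exact hzp _ h5.symm
  · -- r = L
    have h1 : (G (τ (s + r) - τ s) (Q.1, P.2)).1 = q Q.1 := by
      rw [← hPe, hb, hrL, c1, hQ]
    exact (hB.ne Q.1 P.2 _ hPU' hδ).2 h1
  · -- r > L
    obtain ⟨-, -, -, d4⟩ := CC8a hf hG hB hQU
    have h1 : (G (τ (s + r) - τ s) (Q.1, P.2)).1 = (G (2 * L - r) (Q.1, -Q.2)).1 := by
      rw [← hPe, hb, d4]
      show (G (s + r) p).1 = (G (-(2 * L - r)) Q).1
      rw [hQ, ← hG.add, ← c2 (-(2 * L - r) + s)]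
      congr 2
      ring
    obtain ⟨-, h3⟩ := hB.inj Q.1 P.2 (-Q.2) _ _ hPU' (CC8d_neg_UT hQU) hδ
      ⟨by linarith [hr.2], by linarith⟩ h1
    have h4 : P = (Q.1, -Q.2) := by rw [hPe, h3]
    rw [h4, d4, neg_neg, hQ, ← hG.add] at hback
    have h5 := congrArg Prod.fst hback
    exact hzp _ h5.symm

theorem CC8d {f : E → ℝ} {G : ℝ → E × E → E × E} {L : ℝ} {q : E → E} (hf : Surf f)
    (hG : GFlow f G) (hB : Blaschke f G L q) {p : E × E} (hp : p ∈ UT f) {z : E}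
    (hzp : ∀ s, (G s p).1 ≠ z) {w : ℝ → E} {τ : ℝ → ℝ}
    (h : ∀ s, (z, w s) ∈ UT f ∧ τ s ∈ Ioo 0 L ∧ (G (τ s) (z, w s)).1 = (G s p).1) :
    (∀ s, w (s + 2 * L) = w s) ∧ (∀ s r, r ∈ Ioo 0 (2 * L) → w (s + r) ≠ w s) := by
  have hper := CC8d_per hf hG hB hp h
  refine ⟨fun s => (hper s).2, ?_⟩
  intro s r hr hw
  rcases lt_trichotomy (τ s) (τ (s + r)) with ht | ht | ht
  · exact CC8d_aux hf hG hB hp hzp h s r hr hw ht
  · obtain ⟨-, -, c3, -⟩ := CC8a hf hG hB hp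
    apply c3 s r hr
    rw [← (h (s + r)).2.2, ← (h s).2.2, hw, ht]
  · have e : s + r + (2 * L - r) = s + 2 * L := by ring
    refine CC8d_aux hf hG hB hp hzp h (s + r) (2 * L - r) ⟨by linarith [hr.2], by linarith [hr.1]⟩ ?_ ?_
    · rw [e, (hper s).2, hw]
    · rw [e, (hper s).1]
      exact ht

end CC8d

section CC8e
theorem CC8e_min {g : ℝ → ℝ} (hg : Continuous g) {P c : ℝ} (hc : c ∈ Ioo 0 P) (h0P : g 0 = g P)
    (hmin : ∀ x ∈ Icc 0 P, g c ≤ g x) : ∃ t s, 0 ≤ t ∧ t < s ∧ s < P ∧ g t = g s := by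
  by_cases h : g 0 = g c
  · exact ⟨0, c, le_rfl, hc.1, hc.2, h⟩
  · have h1 : g c < g 0 := lt_of_le_of_ne (hmin 0 ⟨le_rfl, (hc.1.trans hc.2).le⟩) (Ne.symm h)
    have h2 : (g c + g 0) / 2 ∈ Ioo (g c) (g 0) := ⟨by linarith, by linarith⟩
    obtain ⟨t, ht, ht'⟩ := intermediate_value_Ioo' hc.1.le hg.continuousOn h2
    rw [h0P] at h2
    obtain ⟨s, hs, hs'⟩ := intermediate_value_Ioo hc.2.le hg.continuousOn h2
    exact ⟨t, s, ht.1.le, ht.2.trans hs.1, hs.2, by rw [ht', hs', h0P]⟩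

theorem CC8e_noninj {g : ℝ → ℝ} (hg : Continuous g) {P : ℝ} (hP : 0 < P) (h0P : g 0 = g P) :
    ∃ t s, 0 ≤ t ∧ t < s ∧ s < P ∧ g t = g s := by
  obtain ⟨c, hc, h | h⟩ := exists_Ioo_extr_on_Icc hP hg.continuousOn h0P
  · exact CC8e_min hg hc h0P (fun x hx => h hx)
  · obtain ⟨t, s, h1, h2, h3, h4⟩ := CC8e_min (g := fun x => - g x) hg.neg hc (by rw [h0P])
      (fun x hx => neg_le_neg (h hx))
    exact ⟨t, s, h1, h2, h3, neg_injective h4⟩

/-- cross product as a continuous linear map -/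
noncomputable def CC8e_R (n : E) : E →L[ℝ] E :=
  LinearMap.toContinuousLinearMap
    { toFun := fun v => cr n v
      map_add' := by
        intro x y
        ext i
        fin_cases i <;> simp [cr] <;> ring
      map_smul' := by
        intro t x
        ext i
        fin_cases i <;> simp [cr] <;> ring }

theorem CC8e_R_apply (n v : E) : CC8e_R n v = cr n v := rfl

theorem CC8e_rot {f : E → ℝ} (hf : Surf f) {z : E} {w : ℝ → E} {c : ℝ → ℝ}
    (hUT : ∀ s, (z, w s) ∈ UT f) (hc : Continuous c)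
    (hw : ∀ s, HasDerivAt w (c s • cr (N f z) (w s)) s) (s : ℝ) :
    w s = Real.cos (∫ x in (0:ℝ)..s, c x) • w 0 + Real.sin (∫ x in (0:ℝ)..s, c x) •
      cr (N f z) (w 0) := by
  have hθ : ∀ s, HasDerivAt (fun s => ∫ x in (0:ℝ)..s, c x) (c s) s := fun s =>
    (hc.integral_hasStrictDerivAt 0 s).hasDerivAt
  have hRR : ∀ s, CC8e_R (N f z) (CC8e_R (N f z) (w s)) = - w s := fun s =>
    (TK_cr hf (hUT s)).2.2.1
  have hd : ∀ s, HasDerivAt (fun s => Real.cos (∫ x in (0:ℝ)..s, c x) • w s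
      - Real.sin (∫ x in (0:ℝ)..s, c x) • CC8e_R (N f z) (w s)) 0 s := by
    intro s
    have h1 := (hθ s).cos.smul (hw s)
    have h2 := (hθ s).sin.smul ((CC8e_R (N f z)).hasFDerivAt.comp_hasDerivAt s (hw s))
    have h3 := h1.sub h2
    refine HasDerivAt.congr_deriv (f' := _) h3 ?_
    simp only [Function.comp]
    rw [← CC8e_R_apply, map_smul, hRR]
    module
  have hconst := is_const_of_deriv_eq_zero (fun s => (hd s).differentiableAt)
    (fun s => (hd s).deriv) s 0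
  simp only [intervalIntegral.integral_same, Real.cos_zero, Real.sin_zero, one_smul, zero_smul,
    sub_zero] at hconst
  have hsc := Real.sin_sq_add_cos_sq (∫ x in (0:ℝ)..s, c x)
  rw [← CC8e_R_apply, ← hconst, map_sub, map_smul, map_smul, hRR]
  have e1 : w s = (Real.sin (∫ x in (0:ℝ)..s, c x) ^ 2 + Real.cos (∫ x in (0:ℝ)..s, c x) ^ 2) • w s := by
    rw [hsc, one_smul]
  nth_rewrite 1 [e1]
  module

theorem CC8e {f : E → ℝ} (hf : Surf f) {z : E} {w : ℝ → E} {c : ℝ → ℝ} {P : ℝ} (hP : 0 < P)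
    (hUT : ∀ s, (z, w s) ∈ UT f) (hc : Continuous c)
    (hw : ∀ s, HasDerivAt w (c s • cr (N f z) (w s)) s) (hper : w P = w 0)
    (hinj : ∀ s ∈ Ioo 0 P, ∀ t ∈ Ico 0 P, t < s → w s ≠ w t) :
    2 * Real.pi ≤ ∫ s in (0 : ℝ)..P, |c s| := by
  set θ : ℝ → ℝ := fun s => ∫ x in (0:ℝ)..s, c x with hθdef
  have hrot := CC8e_rot hf hUT hc hw
  have hθc : Continuous θ := by
    refine continuous_iff_continuousAt.2 fun s => ?_
    exact (hc.integral_hasStrictDerivAt 0 s).hasDerivAt.continuousAt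
  have hθ0 : θ 0 = 0 := by simp [hθdef]
  have hcos : Real.cos (θ P) = 1 := by
    have h1 := hrot P
    rw [hper] at h1
    have h2 := congrArg (fun v => ⟪w 0, v⟫) h1
    simp only [inner_add_right, inner_smul_right] at h2
    have h3 : ⟪w 0, w 0⟫ = 1 := by
      rw [real_inner_self_eq_norm_sq, (hUT 0).2.2]; norm_num
    rw [h3, (TK_cr hf (hUT 0)).2.1] at h2
    change Real.cos (∫ x in (0:ℝ)..P, c x) = 1
    linarith
  obtain ⟨m, hm⟩ := (Real.cos_eq_one_iff _).1 hcos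
  have hm0 : m ≠ 0 := by
    rintro rfl
    rw [Int.cast_zero, zero_mul] at hm
    obtain ⟨t, s, h1, h2, h3, h4⟩ := CC8e_noninj hθc hP (by rw [hθ0, hm])
    refine hinj s ⟨lt_of_le_of_lt h1 h2, h3⟩ t ⟨h1, h2.trans h3⟩ h2 ?_
    rw [hrot s, hrot t]
    have h4' : (∫ x in (0:ℝ)..t, c x) = ∫ x in (0:ℝ)..s, c x := h4
    rw [h4']
  have h5 : |θ P| ≤ ∫ s in (0 : ℝ)..P, |c s| := intervalIntegral.abs_integral_le_integral_abs hP.le
  refine le_trans ?_ h5
  rw [← hm, abs_mul, abs_of_pos (by positivity : (0:ℝ) < 2 * Real.pi)]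
  have h6 : (1 : ℝ) ≤ |(m : ℝ)| := by
    rw [← Int.cast_abs]
    exact_mod_cast Int.one_le_abs hm0
  nlinarith [Real.pi_pos]

end CC8e

section CC8
theorem CC8_cr_lin (a b c : E) (x y : ℝ) : cr a (x • b + y • c) = x • cr a b + y • cr a c := by
  ext i
  fin_cases i <;> simp [cr] <;> ring

theorem CC8_cr_neg (a b : E) : cr a (-b) = -cr a b := by
  ext i
  fin_cases i <;> simp [cr] <;> ring

theorem CC8_cr_cont {X : Type*} [TopologicalSpace X] {a b : X → E} (ha : Continuous a)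
    (hb : Continuous b) : Continuous fun s => cr (a s) (b s) := by
  have ha' : ∀ i, Continuous fun s => (a s) i := fun i =>
    (EuclideanSpace.proj (𝕜 := ℝ) i : E →L[ℝ] ℝ).continuous.comp ha
  have hb' : ∀ i, Continuous fun s => (b s) i := fun i =>
    (EuclideanSpace.proj (𝕜 := ℝ) i : E →L[ℝ] ℝ).continuous.comp hb
  unfold cr
  refine (PiLp.continuous_toLp 2 _).comp ?_
  refine continuous_pi fun i => ?_
  fin_cases i
  · exact ((ha' 1).mul (hb' 2)).sub ((ha' 2).mul (hb' 1))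
  · exact ((ha' 2).mul (hb' 0)).sub ((ha' 0).mul (hb' 2))
  · exact ((ha' 0).mul (hb' 1)).sub ((ha' 1).mul (hb' 0))

theorem CC8 {f : E → ℝ} {G : ℝ → E × E → E × E} {L : ℝ} {q : E → E} (hf : Surf f)
    (hG : GFlow f G) (hB : Blaschke f G L q) {p : E × E} (hp : p ∈ UT f)
    {kern : ℝ × E → ENNReal} (hk : ∀ s : ℝ, ∀ t ∈ Ioo 0 L, ∀ θ ∈ Ico (0 : ℝ) (2 * Real.pi),
        kern (s, (G t ((G s p).1, rot f (G s p).1 (G s p).2 θ)).1) =
          ENNReal.ofReal (|Real.sin θ| /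
            J f G ((G s p).1, rot f (G s p).1 (G s p).2 θ) t))
    {z : E} (hz : f z = 0) (hzp : ∀ s, (G s p).1 ≠ z) :
    ENNReal.ofReal (2 * Real.pi) ≤ ∫⁻ s in Ico 0 (2 * L), kern (s, z) := by
  obtain ⟨w, τ, hw, hτ, h⟩ := CC8b hf hG hB hp hz hzp
  obtain ⟨c, hc⟩ : ∃ c : ℝ → ℝ, c = fun s =>
    ⟪(G s p).2, cr (N f (G s p).1) (G (τ s) (z, w s)).2⟫ / J f G (z, w s) (τ s) := ⟨_, rfl⟩
  have hGc : Continuous fun r : ℝ × (E × E) => G r.1 r.2 := hG.smooth.continuous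
  have hGs : Continuous fun s => G s p := hGc.comp (continuous_id.prodMk continuous_const)
  have hGw : Continuous fun s => G (τ s) (z, w s) :=
    hGc.comp (hτ.prodMk (continuous_const.prodMk hw))
  have hUTs : ∀ s, G s p ∈ UT f := fun s => TK_UT hG hp s
  have hNs : Continuous fun s => N f (G s p).1 :=
    (TK_N_cont hf).comp_continuous (continuous_fst.comp hGs) (fun s => (hUTs s).1)
  have hJs : Continuous fun s => J f G (z, w s) (τ s) := by
    have := (TK_J_cont hf hG).comp_continuous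
      (f := fun s : ℝ => ((τ s, (z, w s)) : ℝ × (E × E)))
      (hτ.prodMk (continuous_const.prodMk hw)) (fun s => ⟨mem_univ _, (h s).1⟩)
    exact this
  have hJp : ∀ s, 0 < J f G (z, w s) (τ s) := fun s => hB.J_pos _ (h s).1 _ (h s).2.1
  have hcc : Continuous c := by
    rw [hc]
    refine Continuous.div ?_ hJs (fun s => (hJp s).ne')
    exact (continuous_snd.comp hGs).inner (CC8_cr_cont hNs (continuous_snd.comp hGw))
  have hder : ∀ s, HasDerivAt w (c s • cr (N f z) (w s)) s := by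
    intro s
    rw [hc]
    exact CC8c hf hG hB hp hw hτ h s
  obtain ⟨d1, d2⟩ := CC8d hf hG hB hp hzp h
  have hL : 0 < 2 * L := by linarith [hB.L_pos]
  have hmain : 2 * Real.pi ≤ ∫ s in (0 : ℝ)..(2 * L), |c s| := by
    refine CC8e hf hL (fun s => (h s).1) hcc hder ?_ ?_
    · have := d1 0
      rwa [zero_add] at this
    · intro s hs t ht hts heq
      have h1 := d2 t (s - t) ⟨by linarith, by linarith [hs.2, ht.1]⟩
      rw [add_sub_cancel] at h1
      exact h1 heq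
  have hkern : ∀ s, kern (s, z) = ENNReal.ofReal |c s| := by
    intro s
    obtain ⟨hz1, ht, hz2⟩ := h s
    obtain ⟨P1, hP1⟩ : ∃ P1, P1 = G (τ s) (z, w s) := ⟨_, rfl⟩
    have hP1U : P1 ∈ UT f := by rw [hP1]; exact TK_UT hG hz1 _
    have hP11 : P1.1 = (G s p).1 := by rw [hP1]; exact hz2
    have hy : ((G s p).1, (G s p).2) ∈ UT f := hUTs s
    have hv : ((G s p).1, -P1.2) ∈ UT f := by
      obtain ⟨u1, u2, u3⟩ := hP1U
      rw [hP11] at u2
      refine ⟨hy.1, ?_, ?_⟩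
      · change ⟪N f (G s p).1, -P1.2⟫ = 0
        rw [inner_neg_right, u2, neg_zero]
      · change ‖-P1.2‖ = 1
        rw [norm_neg, u3]
    obtain ⟨θ, hθ, hvθ⟩ := TK_rot_surj hf hy hv
    have h1 := hk s (τ s) ht θ hθ
    rw [← hvθ] at h1
    have h2 : ((G s p).1, -P1.2) = (P1.1, -P1.2) := by rw [hP11]
    have h3 : (G (τ s) (P1.1, -P1.2)).1 = z := by
      rw [(CC8a hf hG hB hP1U).2.2.2 (τ s)]
      change (G (-τ s) P1).1 = z
      rw [hP1, ← hG.add, neg_add_cancel, hG.zero]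
    have h4 : J f G (P1.1, -P1.2) (τ s) = J f G (z, w s) (τ s) := by
      have := CC5 hf hG hz1 (τ s)
      rw [← hP1] at this
      exact this
    rw [h2, h3, h4] at h1
    rw [h1]
    congr 1
    have h5 : ⟪(G s p).2, cr (N f (G s p).1) P1.2⟫ = Real.sin θ := by
      obtain ⟨-, e1, e2, -⟩ := TK_cr hf hy
      have e3 : P1.2 = -(Real.cos θ • (G s p).2 + Real.sin θ • cr (N f (G s p).1) (G s p).2) := by
        rw [← neg_eq_iff_eq_neg]
        exact hvθ
      have e4 : ⟪(G s p).2, (G s p).2⟫ = (1 : ℝ) := by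
        rw [real_inner_self_eq_norm_sq, hy.2.2]
        norm_num
      rw [e3, CC8_cr_neg, CC8_cr_lin, e2, inner_neg_right, inner_add_right, inner_smul_right,
        inner_smul_right, inner_neg_right, e1, e4]
      ring
    rw [hc]
    change _ = |⟪(G s p).2, cr (N f (G s p).1) (G (τ s) (z, w s)).2⟫ / J f G (z, w s) (τ s)|
    rw [← hP1, h5, abs_div, abs_of_pos (hJp s)]
  have hint : ∫⁻ s in Ico 0 (2 * L), kern (s, z) =
      ENNReal.ofReal (∫ s in (0 : ℝ)..(2 * L), |c s|) := by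
    rw [intervalIntegral.integral_of_le hL.le,
      ofReal_integral_eq_lintegral_ofReal]
    · rw [setLIntegral_congr Ico_ae_eq_Ioc]
      exact lintegral_congr fun s => hkern s
    · exact (hcc.abs.intervalIntegrable 0 (2 * L)).1
    · exact Eventually.of_forall fun s => abs_nonneg _
  rw [hint]
  exact ENNReal.ofReal_le_ofReal hmain

end CC8

section CC9a
theorem CC9a {f : E → ℝ} {G : ℝ → E × E → E × E} {L : ℝ} {q : E → E} (hf : Surf f)
    (hG : GFlow f G) (hB : Blaschke f G L q) {p : E × E} (hp : p ∈ UT f)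
    {kern : ℝ × E → ENNReal} (hkm : Measurable kern)
    (hk : ∀ s : ℝ, ∀ t ∈ Ioo 0 L, ∀ θ ∈ Ico (0 : ℝ) (2 * Real.pi),
        kern (s, (G t ((G s p).1, rot f (G s p).1 (G s p).2 θ)).1) =
          ENNReal.ofReal (|Real.sin θ| /
            J f G ((G s p).1, rot f (G s p).1 (G s p).2 θ) t)) (s : ℝ) :
    ∫⁻ z, ENNReal.ofReal (K f z) * kern (s, z) ∂(mu f G L p.1 p.2) =
      ∫⁻ θ in Ico (0 : ℝ) (2 * Real.pi), ENNReal.ofReal (|Real.sin θ| *
        ∫ t in (0 : ℝ)..L, K f (G t ((G s p).1, rot f (G s p).1 (G s p).2 θ)).1) := by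
  obtain ⟨x, hxd⟩ : ∃ x, x = (G s p).1 := ⟨_, rfl⟩
  obtain ⟨u, hud⟩ : ∃ u, u = (G s p).2 := ⟨_, rfl⟩
  have hxu : (x, u) ∈ UT f := by
    rw [hxd, hud]
    exact TK_UT hG hp s
  have hk' := hk s
  rw [← hxd, ← hud] at hk' ⊢
  have hpp : (p.1, p.2) ∈ UT f := hp
  rw [mu_indep hf hG hB hpp hxu]
  unfold mu
  -- continuity
  have hrot : Continuous (fun θ : ℝ => rot f x u θ) := by
    unfold rot
    fun_prop
  have hGc : Continuous (fun q : ℝ × (E × E) => G q.1 q.2) := hG.smooth.continuous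
  have hΦ : Continuous (fun r : ℝ × ℝ => (G r.1 (x, rot f x u r.2)).1) := by
    have h1 : Continuous (fun r : ℝ × ℝ => ((r.1, (x, rot f x u r.2)) : ℝ × (E × E))) :=
      continuous_fst.prodMk (continuous_const.prodMk (hrot.comp continuous_snd))
    exact (hGc.comp h1).fst
  have hJc : Continuous (fun r : ℝ × ℝ => J f G (x, rot f x u r.2) r.1) := by
    have h1 : Continuous (fun r : ℝ × ℝ => ((r.1, (x, rot f x u r.2)) : ℝ × (E × E))) :=
      continuous_fst.prodMk (continuous_const.prodMk (hrot.comp continuous_snd))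
    have h2 : ∀ r : ℝ × ℝ, ((r.1, (x, rot f x u r.2)) : ℝ × (E × E)) ∈
        (univ : Set ℝ) ×ˢ UT f := fun r => ⟨mem_univ _, TK_rot_UT hf hxu r.2⟩
    obtain ⟨Jf, hJf⟩ : ∃ Jf : ℝ × (E × E) → ℝ, Jf = fun r => J f G r.2 r.1 := ⟨_, rfl⟩
    have h3 : ContinuousOn Jf (univ ×ˢ UT f) := by rw [hJf]; exact TK_J_cont hf hG
    have h4 := h3.comp_continuous h1 h2
    rw [hJf] at h4
    exact h4
  have hρ : Measurable (fun r : ℝ × ℝ => ENNReal.ofReal (J f G (x, rot f x u r.2) r.1)) :=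
    hJc.measurable.ennreal_ofReal
  have hg : Measurable (fun z => ENNReal.ofReal (K f z) * kern (s, z)) :=
    (TK_K_meas hf).ennreal_ofReal.mul (hkm.comp measurable_prodMk_left)
  have hgΦ : Measurable (fun r : ℝ × ℝ => ENNReal.ofReal (K f (G r.1 (x, rot f x u r.2)).1) *
      kern (s, (G r.1 (x, rot f x u r.2)).1)) := hg.comp hΦ.measurable
  rw [lintegral_map hg hΦ.measurable, lintegral_withDensity_eq_lintegral_mul _ hρ hgΦ]
  have hprod : (volume : Measure (ℝ × ℝ)).restrict (Ioo 0 L ×ˢ Ico 0 (2 * Real.pi)) =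
      ((volume : Measure ℝ).restrict (Ioo 0 L)).prod
        ((volume : Measure ℝ).restrict (Ico 0 (2 * Real.pi))) := by
    rw [Measure.prod_restrict, Measure.volume_eq_prod]
  rw [hprod, lintegral_prod_symm _ (hρ.mul hgΦ).aemeasurable]
  apply setLIntegral_congr_fun measurableSet_Ico
  intro θ hθ
  have hUT : ∀ t, G t (x, rot f x u θ) ∈ UT f := fun t => TK_UT hG (TK_rot_UT hf hxu θ) t
  have hmem : ∀ t, f (G t (x, rot f x u θ)).1 = 0 := fun t => (hUT t).1
  have hKnn : ∀ t, 0 ≤ K f (G t (x, rot f x u θ)).1 := fun t => TK_K_nonneg hf (hmem t)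
  have hKc : Continuous (fun t => K f (G t (x, rot f x u θ)).1) := by
    have h1 : Continuous (fun t : ℝ => (G t (x, rot f x u θ)).1) := by
      have h2 : Continuous (fun t : ℝ => ((t, θ) : ℝ × ℝ)) :=
        continuous_id.prodMk continuous_const
      exact hΦ.comp h2
    exact (TK_K_cont hf).comp_continuous h1 (fun t => hmem t)
  have h3 : ∫⁻ t in Ioo 0 L, ((fun r : ℝ × ℝ => ENNReal.ofReal (J f G (x, rot f x u r.2) r.1)) *
      (fun r : ℝ × ℝ => ENNReal.ofReal (K f (G r.1 (x, rot f x u r.2)).1) *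
      kern (s, (G r.1 (x, rot f x u r.2)).1))) (t, θ) =
      ∫⁻ t in Ioo 0 L, ENNReal.ofReal (|Real.sin θ| * K f (G t (x, rot f x u θ)).1) := by
    apply setLIntegral_congr_fun measurableSet_Ioo
    intro t ht
    have hJ : 0 < J f G (x, rot f x u θ) t := hB.J_pos _ (TK_rot_UT hf hxu θ) t ht
    simp only [Pi.mul_apply]
    rw [hk' t ht θ hθ, ← ENNReal.ofReal_mul (hKnn t), ← ENNReal.ofReal_mul hJ.le]
    congr 1
    field_simp
  simp only [] 
  rw [h3]
  have hint : IntegrableOn (fun t => |Real.sin θ| * K f (G t (x, rot f x u θ)).1) (Ioo 0 L) := by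
    have hc : Continuous (fun t => |Real.sin θ| * K f (G t (x, rot f x u θ)).1) :=
      continuous_const.mul hKc
    exact hc.integrableOn_Icc.mono_set Ioo_subset_Icc_self
  rw [← ofReal_integral_eq_lintegral_ofReal hint
    (Filter.Eventually.of_forall fun t => mul_nonneg (abs_nonneg _) (hKnn t))]
  congr 1
  rw [intervalIntegral.integral_of_le hB.L_pos.le, integral_Ioc_eq_integral_Ioo,
    integral_const_mul]

end CC9a

section CC9
theorem CC9_cont {f : E → ℝ} {G : ℝ → E × E → E × E} (hG : GFlow f G) (x u : E) :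
    Continuous (fun r : ℝ × ℝ => (G r.1 (x, rot f x u r.2)).1) := by
  have h1 : Continuous (fun q : ℝ × (E × E) => G q.1 q.2) := hG.smooth.continuous
  have h2 : Continuous (fun r : ℝ × ℝ => rot f x u r.2) := by
    unfold rot
    exact ((Real.continuous_cos.comp continuous_snd).smul continuous_const).add
      ((Real.continuous_sin.comp continuous_snd).smul continuous_const)
  have h3 : Continuous (fun r : ℝ × ℝ => (r.1, ((x, rot f x u r.2) : E × E))) :=
    continuous_fst.prodMk (continuous_const.prodMk h2)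
  exact continuous_fst.comp (h1.comp h3)

theorem CC9_ae {f : E → ℝ} {G : ℝ → E × E → E × E} {L : ℝ} {q : E → E} (hf : Surf f)
    (hG : GFlow f G) (hB : Blaschke f G L q) {x u : E} (hx : (x, u) ∈ UT f) :
    ∀ᵐ z ∂(mu f G L x u), f z = 0 ∧ ∀ s, (G s (x, u)).1 ≠ z := by
  have h1 : ∀ᵐ z ∂(mu f G L x u), f z = 0 := by
    unfold mu
    rw [ae_map_iff (CC9_cont hG x u).aemeasurable]
    · exact ae_of_all _ fun r => (TK_UT hG (TK_rot_UT hf hx r.2) r.1).1
    · exact (isClosed_eq hf.smooth.continuous continuous_const).measurableSet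
  have h2 : ∀ᵐ z ∂(mu f G L x u), z ∉ {z | ∃ s, z = (G s (x, u)).1} := by
    rw [ae_iff]
    simp only [not_not]
    exact mu_geod_null hf hG hB hx
  filter_upwards [h1, h2] with z hz1 hz2
  exact ⟨hz1, fun s hs => hz2 ⟨s, hs.symm⟩⟩

theorem CC9 {f : E → ℝ} {G : ℝ → E × E → E × E} {L : ℝ} {q : E → E} (hf : Surf f)
    (hG : GFlow f G) (hB : Blaschke f G L q) {p : E × E} (hp : p ∈ UT f) :
    ENNReal.ofReal (8 * Real.pi ^ 2) ≤
      ∫⁻ s in Ico 0 (2 * L), ∫⁻ θ in Ico (0 : ℝ) (2 * Real.pi), ENNReal.ofReal (|Real.sin θ| *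
        ∫ t in (0 : ℝ)..L, K f (G t ((G s p).1, rot f (G s p).1 (G s p).2 θ)).1) := by
  obtain ⟨kern, hkm, hk⟩ := CC7 hf hG hB hp
  have hp' : (p.1, p.2) ∈ UT f := hp
  have e1 : ∀ s : ℝ, (∫⁻ θ in Ico (0 : ℝ) (2 * Real.pi), ENNReal.ofReal (|Real.sin θ| *
        ∫ t in (0 : ℝ)..L, K f (G t ((G s p).1, rot f (G s p).1 (G s p).2 θ)).1)) =
      ∫⁻ z, ENNReal.ofReal (K f z) * kern (s, z) ∂(mu f G L p.1 p.2) :=
    fun s => (CC9a hf hG hB hp hkm hk s).symm
  simp only [e1]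
  haveI : SFinite (mu f G L p.1 p.2) := by
    unfold mu; infer_instance
  have hm : Measurable (Function.uncurry fun (s : ℝ) (z : E) =>
      ENNReal.ofReal (K f z) * kern (s, z)) :=
    (((TK_K_meas hf).comp measurable_snd).ennreal_ofReal).mul hkm
  rw [lintegral_lintegral_swap hm.aemeasurable]
  have e2 : ∀ z : E, (∫⁻ s in Ico 0 (2 * L), ENNReal.ofReal (K f z) * kern (s, z)) =
      ENNReal.ofReal (K f z) * ∫⁻ s in Ico 0 (2 * L), kern (s, z) := fun z =>
    lintegral_const_mul _ (hkm.comp (measurable_id.prodMk measurable_const))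
  simp only [e2]
  have e3 : ENNReal.ofReal (8 * Real.pi ^ 2) =
      ∫⁻ z, ENNReal.ofReal (K f z) * ENNReal.ofReal (2 * Real.pi) ∂(mu f G L p.1 p.2) := by
    rw [lintegral_mul_const _ (TK_K_meas hf).ennreal_ofReal, CC6 hf hG hB hp',
      ← ENNReal.ofReal_mul (by positivity)]
    congr 1
    ring
  rw [e3]
  refine lintegral_mono_ae ?_
  filter_upwards [CC9_ae hf hG hB hp'] with z hz
  exact mul_le_mul_right (CC8 hf hG hB hp hk hz.1 hz.2) _

end CC9

section CC10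
theorem CC10_sin : ∫ θ in (0 : ℝ)..(2 * Real.pi), |Real.sin θ| = 4 := by
  have hpi := Real.pi_pos
  have hi : ∀ a b : ℝ, IntervalIntegrable (fun θ => |Real.sin θ|) volume a b := fun a b =>
    (Real.continuous_sin.abs).intervalIntegrable a b
  rw [← intervalIntegral.integral_add_adjacent_intervals (hi 0 Real.pi) (hi Real.pi (2 * Real.pi))]
  have h1 : ∫ θ in (0 : ℝ)..Real.pi, |Real.sin θ| = ∫ θ in (0 : ℝ)..Real.pi, Real.sin θ := by
    apply intervalIntegral.integral_congr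
    intro θ hθ
    rw [Set.uIcc_of_le hpi.le] at hθ
    exact abs_of_nonneg (Real.sin_nonneg_of_mem_Icc hθ)
  have h2 : ∫ θ in Real.pi..(2 * Real.pi), |Real.sin θ| = ∫ θ in Real.pi..(2 * Real.pi), -Real.sin θ := by
    apply intervalIntegral.integral_congr
    intro θ hθ
    rw [Set.uIcc_of_le (by linarith)] at hθ
    have h3 : 0 ≤ Real.sin (θ - Real.pi) :=
      Real.sin_nonneg_of_mem_Icc ⟨by linarith [hθ.1], by linarith [hθ.2]⟩
    rw [Real.sin_sub_pi] at h3
    exact abs_of_nonpos (by linarith)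
  rw [h1, h2, intervalIntegral.integral_neg, integral_sin, integral_sin]
  simp only [Real.cos_zero, Real.cos_pi, Real.cos_two_pi]
  norm_num

/-- nonnegative continuous weight argument -/
theorem CC10_eq (I : ℝ → ℝ) (c : ℝ) (hI : Continuous I) (hle : ∀ θ, I θ ≤ c)
    (h0 : ∀ θ, 0 ≤ I θ)
    (h : ENNReal.ofReal (4 * c) ≤ ∫⁻ θ in Ico (0 : ℝ) (2 * Real.pi),
      ENNReal.ofReal (|Real.sin θ| * I θ)) : ∀ θ ∈ Ico (0 : ℝ) (2 * Real.pi), I θ = c := by
  have hpi := Real.pi_pos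
  have hcont : Continuous (fun θ => |Real.sin θ| * I θ) := Real.continuous_sin.abs.mul hI
  have hio : IntegrableOn (fun θ => |Real.sin θ| * I θ) (Ico (0 : ℝ) (2 * Real.pi)) :=
    (hcont.continuousOn.integrableOn_compact isCompact_Icc).mono_set Ico_subset_Icc_self
  rw [← ofReal_integral_eq_lintegral_ofReal hio
    (Filter.Eventually.of_forall fun θ => mul_nonneg (abs_nonneg _) (h0 θ))] at h
  have hnn : 0 ≤ ∫ θ in Ico (0 : ℝ) (2 * Real.pi), |Real.sin θ| * I θ :=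
    integral_nonneg fun θ => mul_nonneg (abs_nonneg _) (h0 θ)
  rw [ENNReal.ofReal_le_ofReal_iff hnn] at h
  have h1 : ∫ θ in Ico (0 : ℝ) (2 * Real.pi), |Real.sin θ| * I θ =
      ∫ θ in (0 : ℝ)..(2 * Real.pi), |Real.sin θ| * I θ := by
    rw [intervalIntegral.integral_of_le (by linarith), integral_Ico_eq_integral_Ioc]
  rw [h1] at h
  have hg0 : ∀ c0 ∈ Icc (0 : ℝ) (2 * Real.pi), |Real.sin c0| * (c - I c0) ≤ 0 := by
    by_contra hcon
    push Not at hcon
    obtain ⟨c0, hc0, hpos⟩ := hcon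
    have h2 := intervalIntegral.integral_pos (f := fun θ => |Real.sin θ| * (c - I θ))
      (show (0 : ℝ) < 2 * Real.pi by linarith)
      (Real.continuous_sin.abs.mul (continuous_const.sub hI)).continuousOn
      (fun θ _ => mul_nonneg (abs_nonneg _) (by linarith [hle θ])) ⟨c0, hc0, hpos⟩
    have h3 : ∫ θ in (0 : ℝ)..(2 * Real.pi), |Real.sin θ| * (c - I θ) =
        c * (∫ θ in (0 : ℝ)..(2 * Real.pi), |Real.sin θ|) -
          ∫ θ in (0 : ℝ)..(2 * Real.pi), |Real.sin θ| * I θ := by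
      have hi1 : IntervalIntegrable (fun θ => c * |Real.sin θ|) volume 0 (2 * Real.pi) :=
        (continuous_const.mul Real.continuous_sin.abs).intervalIntegrable _ _
      rw [← intervalIntegral.integral_const_mul, ← intervalIntegral.integral_sub hi1
        (hcont.intervalIntegrable _ _)]
      apply intervalIntegral.integral_congr
      intro θ _
      simp only
      ring
    rw [h3, CC10_sin] at h2
    linarith
  have heq : ∀ θ ∈ Icc (0 : ℝ) (2 * Real.pi), Real.sin θ ≠ 0 → I θ = c := by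
    intro θ hθ hs
    have h4 := hg0 θ hθ
    have h5 : 0 < |Real.sin θ| := abs_pos.2 hs
    have h6 : c - I θ ≤ 0 := by
      by_contra h7
      push Not at h7
      have := mul_pos h5 h7
      linarith
    linarith [hle θ]
  have hcl : IsClosed {θ | I θ = c} := isClosed_eq hI continuous_const
  have hA : Icc (0 : ℝ) Real.pi ⊆ {θ | I θ = c} := by
    rw [← closure_Ioo (ne_of_lt hpi)]
    apply hcl.closure_subset_iff.2
    intro θ hθ
    exact heq θ ⟨hθ.1.le, by linarith [hθ.2]⟩ (Real.sin_pos_of_mem_Ioo hθ).ne'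
  have hB : Icc Real.pi (2 * Real.pi) ⊆ {θ | I θ = c} := by
    rw [← closure_Ioo (by linarith : Real.pi ≠ 2 * Real.pi)]
    apply hcl.closure_subset_iff.2
    intro θ hθ
    refine heq θ ⟨by linarith [hθ.1], hθ.2.le⟩ ?_
    have h3 : 0 < Real.sin (θ - Real.pi) :=
      Real.sin_pos_of_mem_Ioo ⟨by linarith [hθ.1], by linarith [hθ.2]⟩
    rw [Real.sin_sub_pi] at h3
    intro h0
    rw [h0] at h3
    simp at h3
  intro θ hθ
  rcases le_total θ Real.pi with h7 | h7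
  · exact hA ⟨hθ.1, h7⟩
  · exact hB ⟨h7, hθ.2.le⟩

theorem curv_const {f : E → ℝ} {G : ℝ → E × E → E × E} {L : ℝ} {q : E → E} (hf : Surf f)
    (hG : GFlow f G) (hB : Blaschke f G L q) : ∀ x, f x = 0 → K f x = (Real.pi / L) ^ 2 := by
  intro x hx
  have hL := hB.L_pos
  have hpi := Real.pi_pos
  obtain ⟨u, hu⟩ := TK_exists hf hx
  set p : E × E := (x, u) with hp
  have hGp : ∀ s, G s p ∈ UT f := fun s => TK_UT hG hu s
  have hrot : ∀ s θ, ((G s p).1, rot f (G s p).1 (G s p).2 θ) ∈ UT f := fun s θ =>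
    TK_rot_UT hf (hGp s) θ
  set I : ℝ → ℝ → ℝ := fun s θ => ∫ t in (0 : ℝ)..L,
    K f (G t ((G s p).1, rot f (G s p).1 (G s p).2 θ)).1 with hI
  have hIle : ∀ s θ, I s θ ≤ Real.pi ^ 2 / L := fun s θ => (CC4 hf hG hB (hrot s θ)).2.1
  have hI0 : ∀ s θ, 0 ≤ I s θ := fun s θ =>
    intervalIntegral.integral_nonneg hL.le (fun t _ => TK_K_nonneg hf (TK_UT hG (hrot s θ) t).1)
  have h9 := CC9 hf hG hB hu
  have hex : ∃ s, ENNReal.ofReal (4 * (Real.pi ^ 2 / L)) ≤
      ∫⁻ θ in Ico (0 : ℝ) (2 * Real.pi), ENNReal.ofReal (|Real.sin θ| * I s θ) := by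
    by_contra hcon
    push Not at hcon
    have hconst : ∫⁻ _s in Ico 0 (2 * L), ENNReal.ofReal (4 * (Real.pi ^ 2 / L)) =
        ENNReal.ofReal (8 * Real.pi ^ 2) := by
      rw [setLIntegral_const, Real.volume_Ico, ← ENNReal.ofReal_mul (by positivity)]
      congr 1
      field_simp
      ring
    have hlt : ∫⁻ s in Ico 0 (2 * L), ∫⁻ θ in Ico (0 : ℝ) (2 * Real.pi),
        ENNReal.ofReal (|Real.sin θ| * I s θ) <
        ∫⁻ _s in Ico 0 (2 * L), ENNReal.ofReal (4 * (Real.pi ^ 2 / L)) := by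
      apply lintegral_strict_mono
      · rw [Ne, Measure.restrict_eq_zero, Real.volume_Ico, ENNReal.ofReal_eq_zero]
        linarith
      · exact aemeasurable_const
      · refine ne_top_of_le_ne_top ?_ (lintegral_mono (fun s => (hcon s).le))
        rw [hconst]
        exact ENNReal.ofReal_ne_top
      · exact Filter.Eventually.of_forall hcon
    rw [hconst] at hlt
    exact absurd h9 (not_le.2 hlt)
  obtain ⟨s, hs⟩ := hex
  set y : E := (G s p).1 with hy
  set v : E := (G s p).2 with hv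
  have hyv : (y, v) ∈ UT f := hGp s
  have hcr : Continuous (fun q : ℝ × ℝ => (G q.2 (y, rot f y v q.1)).1) := by
    have h1 : Continuous (fun q : ℝ × ℝ => rot f y v q.1) := by
      unfold rot
      fun_prop
    have h2 : Continuous (fun q : ℝ × ℝ => (q.2, (y, rot f y v q.1))) :=
      continuous_snd.prodMk (continuous_const.prodMk h1)
    exact continuous_fst.comp (hG.smooth.continuous.comp h2)
  have hKc : Continuous (fun q : ℝ × ℝ => K f (G q.2 (y, rot f y v q.1)).1) :=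
    (TK_K_cont hf).comp_continuous hcr (fun q => (TK_UT hG (hrot s q.1) q.2).1)
  have hIc : Continuous (I s) :=
    intervalIntegral.continuous_parametric_intervalIntegral_of_continuous'
      (f := fun θ t => K f (G t (y, rot f y v θ)).1) hKc 0 L
  have hall := CC10_eq (I s) (Real.pi ^ 2 / L) hIc (hIle s) (hI0 s) hs
  have hfin : ∀ θ ∈ Ico (0 : ℝ) (2 * Real.pi), ∀ t, K f (G t (y, rot f y v θ)).1 = (Real.pi / L) ^ 2 :=
    fun θ hθ => (CC4 hf hG hB (hrot s θ)).2.2 (hall θ hθ)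
  have h00 : (0 : ℝ) ∈ Ico (0 : ℝ) (2 * Real.pi) := ⟨le_rfl, by linarith⟩
  by_cases hxy : x = y
  · have := hfin 0 h00 0
    rw [hG.zero] at this
    rw [hxy]
    exact this
  · by_cases hxq : x = q y
    · have := hfin 0 h00 L
      rw [hB.anti y _ (hrot s 0)] at this
      rw [hxq]
      exact this
    · obtain ⟨w, r, hw, hr, hxr⟩ := hB.surj y x hyv.1 hx hxy hxq
      obtain ⟨θ, hθ, hwθ⟩ := TK_rot_surj hf hyv hw
      have := hfin θ hθ r
      rw [← hwθ, hxr] at this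
      exact this

end CC10

end Pool.Agent.GR
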