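import Pool.Agent.GR.Defs

/-! Block I: Liebmann's theorem for smooth convex surfaces (helper634). -/

set_option autoImplicit false

open Set Filter Topology MeasureTheory
open scoped Gradient RealInnerProductSpace ContDiff

namespace Pool.Agent.GR.I
open Pool.Agent.GR

/-! ### Block I : vector algebra -/

theorem inner_E (a b : E) : ⟪a, b⟫ = a 0 * b 0 + a 1 * b 1 + a 2 * b 2 := by
  rw [PiLp.inner_apply, Fin.sum_univ_three]
  simp
  ring

theorem cr_inner_left (a b : E) : ⟪cr a b, a⟫ = 0 := by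
  rw [inner_E]; simp [cr]; ring

theorem cr_inner_right (a b : E) : ⟪cr a b, b⟫ = 0 := by
  rw [inner_E]; simp [cr]; ring

theorem cr_norm_sq (a b : E) : ‖cr a b‖ ^ 2 = ‖a‖ ^ 2 * ‖b‖ ^ 2 - ⟪a, b⟫ ^ 2 := by
  rw [← real_inner_self_eq_norm_sq, ← real_inner_self_eq_norm_sq, ← real_inner_self_eq_norm_sq,
    inner_E, inner_E, inner_E, inner_E]
  simp [cr]; ring

theorem inner_grad (f : E → ℝ) (x v : E) : ⟪∇ f x, v⟫ = fderiv ℝ f x v := by
  simp [gradient, InnerProductSpace.toDual_symm_apply]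

theorem grad_eq (f : E → ℝ) : ∇ f = fun x => fderiv ℝ f x (EuclideanSpace.single 0 1) • EuclideanSpace.single (0 : Fin 3) (1 : ℝ)
    + fderiv ℝ f x (EuclideanSpace.single 1 1) • EuclideanSpace.single (1 : Fin 3) (1 : ℝ)
    + fderiv ℝ f x (EuclideanSpace.single 2 1) • EuclideanSpace.single (2 : Fin 3) (1 : ℝ) := by
  funext x
  have h : ∀ i : Fin 3, (∇ f x) i = fderiv ℝ f x (EuclideanSpace.single i 1) := by
    intro i
    rw [← inner_grad, EuclideanSpace.inner_single_right]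
    simp
  ext i
  rw [h i]
  fin_cases i <;> simp

theorem grad_contDiff {f : E → ℝ} (hf : Surf f) : ContDiff ℝ ((⊤ : ℕ∞) : WithTop ℕ∞) (∇ f) := by
  rw [grad_eq]
  have h : ContDiff ℝ ((⊤ : ℕ∞) : WithTop ℕ∞) (fderiv ℝ f) :=
    hf.smooth.fderiv_right (by simp)
  fun_prop

theorem grad_ne {f : E → ℝ} (hf : Surf f) {x : E} (hx : f x = 0) : ∇ f x ≠ 0 := by
  intro h
  apply hf.reg x hx
  ext v
  rw [← inner_grad, h]; simp

theorem N_contDiffAt {f : E → ℝ} (hf : Surf f) {x : E} (hx : ∇ f x ≠ 0) :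
    ContDiffAt ℝ ((⊤ : ℕ∞) : WithTop ℕ∞) (N f) x := by
  have hg := (grad_contDiff hf).contDiffAt (x := x)
  exact ((hg.norm ℝ hx).inv (norm_ne_zero_iff.mpr hx)).smul hg

theorem norm_N_of_ne {f : E → ℝ} {x : E} (hx : ∇ f x ≠ 0) : ‖N f x‖ = 1 := by
  rw [N, norm_smul, norm_inv, norm_norm, inv_mul_cancel₀ (norm_ne_zero_iff.mpr hx)]

theorem ev_grad_ne {f : E → ℝ} (hf : Surf f) {x : E} (hx : ∇ f x ≠ 0) :
    ∀ᶠ y in 𝓝 x, ∇ f y ≠ 0 :=
  (grad_contDiff hf).continuous.continuousAt.eventually_ne hx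

theorem N_differentiableAt {f : E → ℝ} (hf : Surf f) {x : E} (hx : ∇ f x ≠ 0) :
    DifferentiableAt ℝ (N f) x := (N_contDiffAt hf hx).differentiableAt (by simp)

theorem DN_perp {f : E → ℝ} (hf : Surf f) {x : E} (hx : ∇ f x ≠ 0) (v : E) :
    ⟪fderiv ℝ (N f) x v, N f x⟫ = 0 := by
  have h1 : (fun y => ⟪N f y, N f y⟫) =ᶠ[𝓝 x] fun _ => (1 : ℝ) := by
    filter_upwards [ev_grad_ne hf hx] with y hy
    rw [real_inner_self_eq_norm_sq, norm_N_of_ne hy]; norm_num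
  have h2 := (N_differentiableAt hf hx).hasFDerivAt
  have h3 := (h2.inner ℝ h2).congr_of_eventuallyEq h1.symm
  have h4 := h3.unique (hasFDerivAt_const (1 : ℝ) x)
  have h5 := congrArg (fun L => L v) h4
  simp at h5
  rw [real_inner_comm] at h5
  linarith




theorem A_eq {f : E → ℝ} (hf : Surf f) {x : E} (hx : ∇ f x ≠ 0) (v : E) {w : E}
    (hw : ⟪∇ f x, w⟫ = 0) :
    A f x v w = ‖∇ f x‖⁻¹ * fderiv ℝ (fderiv ℝ f) x v w := by
  have hg : HasFDerivAt (∇ f) (fderiv ℝ (∇ f) x) x :=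
    ((grad_contDiff hf).differentiable (by simp) x).hasFDerivAt
  have hn : DifferentiableAt ℝ (fun y => ‖∇ f y‖⁻¹) x := by
    have := ((grad_contDiff hf).contDiffAt (x := x)).norm ℝ hx
    exact (this.inv (norm_ne_zero_iff.mpr hx)).differentiableAt (by simp)
  have h1 : HasFDerivAt (N f) _ x := hn.hasFDerivAt.smul hg
  have h2 : fderiv ℝ (fderiv ℝ f) x v w = ⟪fderiv ℝ (∇ f) x v, w⟫ := by
    have e1 : (fun y => fderiv ℝ f y w) = fun y => ⟪∇ f y, w⟫ := by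
      funext y; rw [inner_grad]
    have d1 : HasFDerivAt (fun y => fderiv ℝ f y w) ((fderiv ℝ (fderiv ℝ f) x).flip w) x := by
      have hd : DifferentiableAt ℝ (fderiv ℝ f) x :=
        (hf.smooth.fderiv_right (m := 1) (by norm_cast)).differentiable (by simp) x
      have := hd.hasFDerivAt.clm_apply (hasFDerivAt_const w x)
      refine this.congr_fderiv ?_
      simp
    have d2 : HasFDerivAt (fun y => ⟪∇ f y, w⟫) _ x := hg.inner ℝ (hasFDerivAt_const w x)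
    rw [← e1] at d2
    have := congrArg (fun L => L v) (d1.unique d2)
    simpa using this
  rw [A, h1.fderiv, h2]
  simp only [add_apply, smul_apply,
    ContinuousLinearMap.smulRight_apply, inner_add_left, inner_smul_left, hw]
  simp

theorem A_symm {f : E → ℝ} (hf : Surf f) {x : E} (hx : ∇ f x ≠ 0) {v w : E}
    (hv : ⟪∇ f x, v⟫ = 0) (hw : ⟪∇ f x, w⟫ = 0) : A f x v w = A f x w v := by
  rw [A_eq hf hx v hw, A_eq hf hx w hv]
  congr 1
  have h : IsSymmSndFDerivAt ℝ f x := by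
    apply ContDiffAt.isSymmSndFDerivAt (n := 2) (hf.smooth.contDiffAt.of_le (by norm_cast))
    simp
  exact h v w

theorem perp_iff {f : E → ℝ} {x v : E} (hx : ∇ f x ≠ 0) : ⟪N f x, v⟫ = 0 ↔ ⟪∇ f x, v⟫ = 0 := by
  rw [N, inner_smul_left]
  simp [hx]

theorem A_add_left (f : E → ℝ) (x u v w : E) : A f x (u + v) w = A f x u w + A f x v w := by
  simp [A, inner_add_left]
theorem A_smul_left (f : E → ℝ) (x v w : E) (c : ℝ) : A f x (c • v) w = c * A f x v w := by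
  simp [A, inner_smul_left]
theorem A_add_right (f : E → ℝ) (x u v w : E) : A f x u (v + w) = A f x u v + A f x u w := by
  simp [A, inner_add_right]
theorem A_smul_right (f : E → ℝ) (x v w : E) (c : ℝ) : A f x v (c • w) = c * A f x v w := by
  simp [A, inner_smul_right]

/-- an orthonormal frame of E with third vector the normal -/
structure Fr (f : E → ℝ) (x e₁ e₂ : E) : Prop where
  n1 : ‖e₁‖ = 1
  n2 : ‖e₂‖ = 1
  o : ⟪e₁, e₂⟫ = 0
  t1 : ⟪N f x, e₁⟫ = 0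
  t2 : ⟪N f x, e₂⟫ = 0

theorem Fr.orthonormal {f : E → ℝ} {x e₁ e₂ : E} (h : Fr f x e₁ e₂) (hx : ∇ f x ≠ 0) :
    Orthonormal ℝ ![e₁, e₂, N f x] := by
  rw [orthonormal_iff_ite]
  intro i j
  have a1 := h.n1
  have a2 := h.n2
  have a3 := norm_N_of_ne hx
  have b1 : ⟪e₁, N f x⟫ = 0 := by rw [real_inner_comm]; exact h.t1
  have b2 : ⟪e₂, N f x⟫ = 0 := by rw [real_inner_comm]; exact h.t2
  have b3 : ⟪e₂, e₁⟫ = 0 := by rw [real_inner_comm]; exact h.o
  have b4 := h.o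
  have b5 := h.t1
  have b6 := h.t2
  fin_cases i <;> fin_cases j <;> simp [real_inner_self_eq_norm_sq, *]

noncomputable def Fr.basis {f : E → ℝ} {x e₁ e₂ : E} (h : Fr f x e₁ e₂) (hx : ∇ f x ≠ 0) :
    OrthonormalBasis (Fin 3) ℝ E :=
  (basisOfOrthonormalOfCardEqFinrank (h.orthonormal hx) (by simp)).toOrthonormalBasis
    (by rw [coe_basisOfOrthonormalOfCardEqFinrank]; exact h.orthonormal hx)

theorem Fr.basis_apply {f : E → ℝ} {x e₁ e₂ : E} (h : Fr f x e₁ e₂) (hx : ∇ f x ≠ 0) (i : Fin 3) :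
    h.basis hx i = ![e₁, e₂, N f x] i := by
  simp [Fr.basis]

theorem Fr.expand {f : E → ℝ} {x e₁ e₂ : E} (h : Fr f x e₁ e₂) (hx : ∇ f x ≠ 0) (v : E) :
    v = ⟪e₁, v⟫ • e₁ + ⟪e₂, v⟫ • e₂ + ⟪N f x, v⟫ • N f x := by
  have := (h.basis hx).sum_repr' v
  rw [Fin.sum_univ_three] at this
  simp only [h.basis_apply hx] at this
  simpa using this.symm

theorem K_eq {f : E → ℝ} (hf : Surf f) {x e₁ e₂ : E} (hx : ∇ f x ≠ 0) (h : Fr f x e₁ e₂) :
    K f x = A f x e₁ e₁ * A f x e₂ e₂ - A f x e₁ e₂ * A f x e₂ e₁ := by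
  rw [K, ContinuousLinearMap.det, ← LinearMap.det_toMatrix (h.basis hx).toBasis, Matrix.det_fin_three]
  simp only [LinearMap.toMatrix_apply]
  simp [h.basis_apply hx, OrthonormalBasis.repr_apply_apply, A]
  have c1 := h.t1
  have c2 := h.t2
  have c3 : ⟪e₁, N f x⟫ = 0 := by rw [real_inner_comm]; exact h.t1
  have c4 : ⟪e₂, N f x⟫ = 0 := by rw [real_inner_comm]; exact h.t2
  have c5 : ∀ v, ⟪N f x, fderiv ℝ (N f) x v⟫ = 0 := fun v => by
    rw [real_inner_comm]; exact DN_perp hf hx v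
  have c6 := norm_N_of_ne hx
  rw [c1, c2, c3, c4, c5, c5, c5, c6, real_inner_comm (fderiv ℝ (N f) x e₁) e₁,
    real_inner_comm (fderiv ℝ (N f) x e₂) e₂, real_inner_comm (fderiv ℝ (N f) x e₁) e₂,
    real_inner_comm (fderiv ℝ (N f) x e₂) e₁]
  ring


/-! ### graphs over the tangent plane -/

/-- the graph map -/
noncomputable def Gr (x e₁ e₂ e₃ : E) (h : ℝ × ℝ → ℝ) (z : ℝ × ℝ) : E :=
  x + z.1 • e₁ + z.2 • e₂ - h z • e₃

theorem exists_graph {f : E → ℝ} (hf : Surf f) {x e₁ e₂ : E} (hx : f x = 0) (fr : Fr f x e₁ e₂) :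
    ∃ h : ℝ × ℝ → ℝ, ContDiffAt ℝ 6 h 0 ∧ h 0 = 0 ∧
      (∀ᶠ z in 𝓝 (0 : ℝ × ℝ), f (Gr x e₁ e₂ (N f x) h z) = 0) ∧
      (∀ᶠ y in 𝓝 x, f y = 0 → y = Gr x e₁ e₂ (N f x) h (⟪e₁, y - x⟫, ⟪e₂, y - x⟫)) := by
  have hg := grad_ne hf hx
  set M : (ℝ × ℝ) × ℝ → E := fun v => x + v.1.1 • e₁ + v.1.2 • e₂ - v.2 • N f x with hM
  have hMs : ContDiff ℝ ((⊤ : ℕ∞) : WithTop ℕ∞) M := by
    rw [hM]; fun_prop
  set F : (ℝ × ℝ) × ℝ → ℝ := fun v => f (M v) with hF
  have hFs : ContDiff ℝ ((⊤ : ℕ∞) : WithTop ℕ∞) F := hf.smooth.comp hMs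
  have hM0 : M 0 = x := by simp [hM]
  have hF6 : ContDiffAt ℝ 6 F 0 := hFs.contDiffAt.of_le (by norm_cast)
  have hne : (6 : WithTop ℕ∞) ≠ 0 := by norm_num
  have hder : ∀ t : ℝ, fderiv ℝ F 0 (0, t) = - (t * ‖∇ f x‖) := by
    intro t
    have hM' : HasFDerivAt M (fderiv ℝ M 0) 0 := (hMs.differentiable (by simp) 0).hasFDerivAt
    have e1 : fderiv ℝ M 0 (0, t) = -(t • N f x) := by
      have hM2 : HasFDerivAt M
          ((((ContinuousLinearMap.fst ℝ ℝ ℝ).comp (ContinuousLinearMap.fst ℝ (ℝ × ℝ) ℝ)).smulRight e₁ +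
          ((ContinuousLinearMap.snd ℝ ℝ ℝ).comp (ContinuousLinearMap.fst ℝ (ℝ × ℝ) ℝ)).smulRight e₂) -
          (ContinuousLinearMap.snd ℝ (ℝ × ℝ) ℝ).smulRight (N f x)) 0 := by
        have a1 := (((ContinuousLinearMap.fst ℝ ℝ ℝ).comp (ContinuousLinearMap.fst ℝ (ℝ × ℝ) ℝ)).smulRight e₁).hasFDerivAt (x := 0)
        have a2 := (((ContinuousLinearMap.snd ℝ ℝ ℝ).comp (ContinuousLinearMap.fst ℝ (ℝ × ℝ) ℝ)).smulRight e₂).hasFDerivAt (x := 0)
        have a3 := ((ContinuousLinearMap.snd ℝ (ℝ × ℝ) ℝ).smulRight (N f x)).hasFDerivAt (x := 0)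
        have a4 := ((a1.add a2).sub a3).const_add x
        refine a4.congr_of_eventuallyEq (Filter.Eventually.of_forall fun v => ?_)
        simp [hM]; abel
      rw [hM2.fderiv]
      simp
    have hF' : HasFDerivAt F ((fderiv ℝ f x).comp (fderiv ℝ M 0)) 0 := by
      have h1 : HasFDerivAt f (fderiv ℝ f (M 0)) (M 0) :=
        (hf.smooth.differentiable (by simp) _).hasFDerivAt
      rw [hM0] at h1
      rw [← hM0] at h1
      have := h1.comp 0 hM'
      rw [hM0] at this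
      exact this
    rw [hF'.fderiv, ContinuousLinearMap.comp_apply, e1, map_neg, map_smul, ← inner_grad, N,
      inner_smul_right, real_inner_self_eq_norm_sq]
    have : ‖∇ f x‖ ≠ 0 := norm_ne_zero_iff.mpr hg
    simp only [smul_eq_mul]
    field_simp
  have hinv : (fderiv ℝ F 0 ∘L .inr ℝ (ℝ × ℝ) ℝ).IsInvertible := by
    have hc : -‖∇ f x‖ ≠ 0 := neg_ne_zero.mpr (norm_ne_zero_iff.mpr hg)
    refine ⟨ContinuousLinearEquiv.unitsEquivAut ℝ (Units.mk0 _ hc), ?_⟩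
    ext
    simp [hder]
  set ψ := hF6.implicitFunction hne hinv with hψ
  refine ⟨ψ, ?_, ?_, ?_, ?_⟩
  · exact hF6.contDiffAt_implicitFunction hne hinv
  · exact hF6.implicitFunction_apply_self hne hinv
  · have := hF6.eventually_apply_implicitFunction hne hinv
    have hF0 : F 0 = 0 := by simp only [hF, hM0, hx]
    filter_upwards [this] with z hz
    rw [hF0] at hz
    exact hz
  · have h1 := hF6.eventually_apply_eq_iff_implicitFunction hne hinv
    have hF0 : F 0 = 0 := by simp only [hF, hM0, hx]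
    have hc : ContinuousAt (fun y : E => (((⟪e₁, y - x⟫, ⟪e₂, y - x⟫) : ℝ × ℝ), -⟪N f x, y - x⟫)) x := by
      fun_prop
    have hc2 : Tendsto (fun y : E => (((⟪e₁, y - x⟫, ⟪e₂, y - x⟫) : ℝ × ℝ), -⟪N f x, y - x⟫)) (𝓝 x)
        (𝓝 (0 : (ℝ × ℝ) × ℝ)) := by
      have := hc.tendsto
      rw [show (0 : (ℝ × ℝ) × ℝ) = ((0, 0), 0) from rfl]
      simpa using this
    filter_upwards [hc2.eventually h1] with y hy hy0
    have hMy : M (((⟪e₁, y - x⟫, ⟪e₂, y - x⟫) : ℝ × ℝ), -⟪N f x, y - x⟫) = y := by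
      have := fr.expand hg (y - x)
      have h2 : y = x + (y - x) := by abel
      rw [hM]
      conv_rhs => rw [h2, this]
      simp only [neg_smul, sub_neg_eq_add]
      abel
    rw [hF0] at hy
    have h3 : F (((⟪e₁, y - x⟫, ⟪e₂, y - x⟫) : ℝ × ℝ), -⟪N f x, y - x⟫) = 0 := by
      simp only [hF]; rw [hMy]; exact hy0
    have h4 : ψ (⟪e₁, y - x⟫, ⟪e₂, y - x⟫) = -⟪N f x, y - x⟫ := hy.mp h3
    rw [Gr, h4]
    exact hMy.symm


/-- tangent vectors of the graph -/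
noncomputable def Tg (e₁ e₂ e₃ : E) (h : ℝ × ℝ → ℝ) (z w : ℝ × ℝ) : E :=
  w.1 • e₁ + w.2 • e₂ - (fderiv ℝ h z w) • e₃

theorem hasFDerivAt_Gr {x e₁ e₂ e₃ : E} {h : ℝ × ℝ → ℝ} {z : ℝ × ℝ} (hh : DifferentiableAt ℝ h z) :
    ∃ L : (ℝ × ℝ) →L[ℝ] E, HasFDerivAt (Gr x e₁ e₂ e₃ h) L z ∧ ∀ w, L w = Tg e₁ e₂ e₃ h z w := by
  have a1 := ((ContinuousLinearMap.fst ℝ ℝ ℝ).smulRight e₁).hasFDerivAt (x := z)
  have a2 := ((ContinuousLinearMap.snd ℝ ℝ ℝ).smulRight e₂).hasFDerivAt (x := z)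
  have a3 := hh.hasFDerivAt.smul_const e₃
  have a4 := ((a1.add a2).sub a3).const_add x
  refine ⟨_, a4.congr_of_eventuallyEq (Filter.Eventually.of_forall fun v => ?_), fun w => ?_⟩
  · simp [Gr]; abel
  · simp [Tg]

theorem graph_tangent {f : E → ℝ} (hf : Surf f) {x e₁ e₂ : E} (hx : f x = 0)
    {h : ℝ × ℝ → ℝ} (hh : ContDiffAt ℝ 6 h 0) (h0 : h 0 = 0)
    (hG : ∀ᶠ z in 𝓝 (0 : ℝ × ℝ), f (Gr x e₁ e₂ (N f x) h z) = 0) :
    ∀ᶠ z in 𝓝 (0 : ℝ × ℝ), ∀ w, ⟪N f (Gr x e₁ e₂ (N f x) h z), Tg e₁ e₂ (N f x) h z w⟫ = 0 := by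
  have h6 := hh.eventually (by norm_num)
  filter_upwards [h6, hG.eventually_nhds, hG] with z hz hG hGz w
  obtain ⟨L, hL, hL'⟩ := hasFDerivAt_Gr (x := x) (e₁ := e₁) (e₂ := e₂) (e₃ := N f x)
    (hz.differentiableAt (by norm_num))
  have h1 : HasFDerivAt f (fderiv ℝ f (Gr x e₁ e₂ (N f x) h z)) (Gr x e₁ e₂ (N f x) h z) :=
    (hf.smooth.differentiable (by simp) _).hasFDerivAt
  have h2 := h1.comp z hL
  have h3 : HasFDerivAt (f ∘ Gr x e₁ e₂ (N f x) h) (0 : (ℝ × ℝ) →L[ℝ] ℝ) z :=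
    (hasFDerivAt_const (0 : ℝ) z).congr_of_eventuallyEq hG
  have h4 := congrArg (fun T => T w) (h2.unique h3)
  simp only [ContinuousLinearMap.comp_apply, hL'] at h4
  rw [perp_iff (grad_ne hf hGz), inner_grad]
  simpa using h4

theorem graph_II {f : E → ℝ} (hf : Surf f) {x e₁ e₂ : E} (hx : f x = 0)
    {h : ℝ × ℝ → ℝ} (hh : ContDiffAt ℝ 6 h 0) (h0 : h 0 = 0)
    (hG : ∀ᶠ z in 𝓝 (0 : ℝ × ℝ), f (Gr x e₁ e₂ (N f x) h z) = 0) :
    ∀ᶠ z in 𝓝 (0 : ℝ × ℝ), ∀ v w,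
      A f (Gr x e₁ e₂ (N f x) h z) (Tg e₁ e₂ (N f x) h z v) (Tg e₁ e₂ (N f x) h z w) =
        fderiv ℝ (fderiv ℝ h) z v w * ⟪N f (Gr x e₁ e₂ (N f x) h z), N f x⟫ := by
  have h6 := hh.eventually (by norm_num)
  filter_upwards [h6, hG, (graph_tangent hf hx hh h0 hG).eventually_nhds] with z hz hGz ht v w
  obtain ⟨L, hL, hL'⟩ := hasFDerivAt_Gr (x := x) (e₁ := e₁) (e₂ := e₂) (e₃ := N f x)
    (hz.differentiableAt (by norm_num))
  have hN := (N_differentiableAt hf (grad_ne hf hGz)).hasFDerivAt.comp z hL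
  have hT : HasFDerivAt (fun z => Tg e₁ e₂ (N f x) h z w)
      (-((fderiv ℝ (fderiv ℝ h) z).flip w).smulRight (N f x)) z := by
    have hd : DifferentiableAt ℝ (fderiv ℝ h) z :=
      (hz.fderiv_right (m := 5) (by norm_num)).differentiableAt (by norm_num)
    have h1 := (hd.hasFDerivAt.clm_apply (hasFDerivAt_const w z)).smul_const (N f x)
    have h2 := h1.const_sub (w.1 • e₁ + w.2 • e₂)
    refine h2.congr_fderiv ?_
    simp
  have hI := hN.inner ℝ hT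
  have h3 : HasFDerivAt (fun z => ⟪(N f ∘ Gr x e₁ e₂ (N f x) h) z, Tg e₁ e₂ (N f x) h z w⟫)
      (0 : (ℝ × ℝ) →L[ℝ] ℝ) z := by
    refine (hasFDerivAt_const (0 : ℝ) z).congr_of_eventuallyEq ?_
    filter_upwards [ht] with y hy
    exact hy w
  have h4 := congrArg (fun T => T v) (hI.unique h3)
  simp [hL', inner_smul_right] at h4
  rw [A]
  linarith




/-! ### one variable lemmas -/

theorem second_deriv_nonneg {φ : ℝ → ℝ} (hm : IsLocalMin φ 0) (hc : ContinuousAt φ 0) :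
    0 ≤ deriv (deriv φ) 0 := by
  by_contra hneg
  push Not at hneg
  have hM := isLocalMax_of_deriv_deriv_neg hneg hm.deriv_eq_zero hc
  have he : φ =ᶠ[𝓝 0] fun _ => φ 0 := by
    filter_upwards [hm, hM] with t h1 h2
    exact le_antisymm h2 h1
  have h1 : deriv φ =ᶠ[𝓝 0] deriv (fun _ : ℝ => φ 0) := he.deriv
  have h2 : deriv (deriv φ) 0 = deriv (deriv (fun _ : ℝ => φ 0)) 0 := h1.deriv_eq
  rw [h2] at hneg
  simp at hneg

theorem diff_deriv {p : ℝ → ℝ} (hp : ContDiffAt ℝ 2 p 0) : DifferentiableAt ℝ (deriv p) 0 := by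
  have h1 : ContDiffAt ℝ 1 (fderiv ℝ p) 0 := hp.fderiv_right (by norm_num)
  have h2 : ContDiffAt ℝ 1 (fun t => fderiv ℝ p t 1) 0 := h1.clm_apply contDiffAt_const
  exact h2.differentiableAt (by norm_num)

/-- second derivative of the comparison function -/
theorem second_deriv_comp {p q u : ℝ → ℝ} (hp : ContDiffAt ℝ 2 p 0) (hq : ContDiffAt ℝ 2 q 0)
    (hu : ContDiffAt ℝ 2 u 0) (hp0 : p 0 = 0) (hq0 : q 0 = 0) (a c : ℝ) :
    deriv (deriv (fun t => a * ((1 + p t ^ 2) * (1 + (p t ^ 2 + q t ^ 2) / 2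
      - c * (p t ^ 2 + q t ^ 2) ^ 2)) - u t)) 0 =
      a * (3 * deriv p 0 ^ 2 + deriv q 0 ^ 2) - deriv (deriv u) 0 := by
  have hp' := hp.eventually (by norm_num)
  have hq' := hq.eventually (by norm_num)
  have hu' := hu.eventually (by norm_num)
  have h1 : deriv (fun t => a * ((1 + p t ^ 2) * (1 + (p t ^ 2 + q t ^ 2) / 2
      - c * (p t ^ 2 + q t ^ 2) ^ 2)) - u t) =ᶠ[𝓝 0] fun t =>
      a * ((2 * (p t * deriv p t)) * (1 + (p t ^ 2 + q t ^ 2) / 2
      - c * (p t ^ 2 + q t ^ 2) ^ 2) + (1 + p t ^ 2) * ((p t * deriv p t + q t * deriv q t)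
      - c * ((p t ^ 2 + q t ^ 2) * (4 * (p t * deriv p t + q t * deriv q t))))) - deriv u t := by
    filter_upwards [hp', hq', hu'] with t hpt hqt hut
    have dp := (hpt.differentiableAt (by norm_num)).hasDerivAt
    have dq := (hqt.differentiableAt (by norm_num)).hasDerivAt
    have du := (hut.differentiableAt (by norm_num)).hasDerivAt
    have ds := (dp.pow 2).add (dq.pow 2)
    have d1 : HasDerivAt (fun t => a * ((1 + p t ^ 2) * (1 + (p t ^ 2 + q t ^ 2) / 2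
      - c * (p t ^ 2 + q t ^ 2) ^ 2)) - u t) _ t :=
      ((((dp.pow 2).const_add 1).mul ((((ds.div_const 2).const_add 1)).sub
      ((ds.pow 2).const_mul c))).const_mul a).sub du
    rw [d1.deriv]
    simp only [Pi.add_apply, Pi.sub_apply, Pi.pow_apply, Pi.mul_apply, Nat.cast_ofNat,
      Nat.reduceSub, pow_one]
    ring
  rw [h1.deriv_eq]
  have dp := (hp.differentiableAt (by norm_num)).hasDerivAt
  have dq := (hq.differentiableAt (by norm_num)).hasDerivAt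
  have dp2 := (diff_deriv hp).hasDerivAt
  have dq2 := (diff_deriv hq).hasDerivAt
  have du2 := (diff_deriv hu).hasDerivAt
  have dpp := dp.mul dp2
  have dqq := dq.mul dq2
  have ds := (dp.pow 2).add (dq.pow 2)
  have d2 : HasDerivAt (fun t =>
      a * ((2 * (p t * deriv p t)) * (1 + (p t ^ 2 + q t ^ 2) / 2
      - c * (p t ^ 2 + q t ^ 2) ^ 2) + (1 + p t ^ 2) * ((p t * deriv p t + q t * deriv q t)
      - c * ((p t ^ 2 + q t ^ 2) * (4 * (p t * deriv p t + q t * deriv q t))))) - deriv u t) _ 0 :=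
    ((((dpp.const_mul 2).mul ((((ds.div_const 2).const_add 1)).sub
      ((ds.pow 2).const_mul c))).add (((dp.pow 2).const_add 1).mul ((dpp.add dqq).sub
      ((ds.mul ((dpp.add dqq).const_mul 4)).const_mul c)))).const_mul a).sub du2
  rw [d2.deriv]
  simp only [Pi.add_apply, Pi.sub_apply, Pi.pow_apply, Pi.mul_apply, Nat.cast_ofNat,
      Nat.reduceSub, pow_one, hp0, hq0]
  ring




/-! ### partial derivatives -/

/-- directional derivative -/
noncomputable def Dd (v : ℝ × ℝ) (g : ℝ × ℝ → ℝ) (z : ℝ × ℝ) : ℝ := fderiv ℝ g z v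

theorem Dd_contDiffAt {n m : WithTop ℕ∞} {g : ℝ × ℝ → ℝ} {z : ℝ × ℝ} (hg : ContDiffAt ℝ n g z)
    (hmn : m + 1 ≤ n) (v : ℝ × ℝ) : ContDiffAt ℝ m (Dd v g) z :=
  (hg.fderiv_right hmn).clm_apply contDiffAt_const

theorem Dd_Dd {g : ℝ × ℝ → ℝ} {z : ℝ × ℝ} (hg : ContDiffAt ℝ 2 g z) (v w : ℝ × ℝ) :
    Dd v (Dd w g) z = fderiv ℝ (fderiv ℝ g) z v w := by
  have hd : DifferentiableAt ℝ (fderiv ℝ g) z :=
    (hg.fderiv_right (m := 1) (by norm_num)).differentiableAt (by norm_num)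
  have := (hd.hasFDerivAt.clm_apply (hasFDerivAt_const w z)).fderiv
  show fderiv ℝ (fun z => fderiv ℝ g z w) z v = _
  rw [this]
  simp

theorem Dd_comm {g : ℝ × ℝ → ℝ} {z : ℝ × ℝ} (hg : ContDiffAt ℝ 2 g z) (v w : ℝ × ℝ) :
    Dd v (Dd w g) z = Dd w (Dd v g) z := by
  rw [Dd_Dd hg, Dd_Dd hg]
  have h : IsSymmSndFDerivAt ℝ g z := by
    apply ContDiffAt.isSymmSndFDerivAt (n := 2) hg
    simp
  exact h v w

theorem Dd_congr {g g' : ℝ × ℝ → ℝ} {z : ℝ × ℝ} (h : g =ᶠ[𝓝 z] g') (v : ℝ × ℝ) :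
    Dd v g =ᶠ[𝓝 z] Dd v g' := by
  filter_upwards [h.eventuallyEq_nhds] with y hy
  rw [Dd, Dd, hy.fderiv_eq]

theorem Dd_comm_ev {g : ℝ × ℝ → ℝ} {z : ℝ × ℝ} (hg : ContDiffAt ℝ 2 g z) (v w : ℝ × ℝ) :
    Dd v (Dd w g) =ᶠ[𝓝 z] Dd w (Dd v g) := by
  filter_upwards [hg.eventually (by norm_num)] with y hy
  exact Dd_comm hy v w

theorem Dd_four {h : ℝ × ℝ → ℝ} {z : ℝ × ℝ} (hh : ContDiffAt ℝ 6 h z) (v w : ℝ × ℝ) :
    Dd w (Dd w (Dd v (Dd v h))) z = Dd v (Dd v (Dd w (Dd w h))) z := by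
  have h2 : ContDiffAt ℝ 2 h z := hh.of_le (by norm_num)
  have hv : ContDiffAt ℝ 5 (Dd v h) z := Dd_contDiffAt hh (by norm_num) v
  have hw : ContDiffAt ℝ 5 (Dd w h) z := Dd_contDiffAt hh (by norm_num) w
  have hvw : ContDiffAt ℝ 4 (Dd v (Dd w h)) z := Dd_contDiffAt hw (by norm_num) v
  have hwv : ContDiffAt ℝ 4 (Dd w (Dd v h)) z := Dd_contDiffAt hv (by norm_num) w
  have e1 : Dd w (Dd w (Dd v (Dd v h))) =ᶠ[𝓝 z] Dd w (Dd v (Dd w (Dd v h))) :=
    Dd_congr (Dd_comm_ev (hv.of_le (by norm_num)) w v) w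
  have e2 : Dd w (Dd v (Dd w (Dd v h))) =ᶠ[𝓝 z] Dd w (Dd v (Dd v (Dd w h))) :=
    Dd_congr (Dd_congr (Dd_comm_ev h2 w v) v) w
  have e3 : Dd w (Dd v (Dd v (Dd w h))) =ᶠ[𝓝 z] Dd v (Dd w (Dd v (Dd w h))) :=
    Dd_comm_ev (hvw.of_le (by norm_num)) w v
  have e4 : Dd v (Dd w (Dd v (Dd w h))) =ᶠ[𝓝 z] Dd v (Dd v (Dd w (Dd w h))) :=
    Dd_congr (Dd_comm_ev (hw.of_le (by norm_num)) w v) v
  exact (((e1.trans e2).trans e3).trans e4).self_of_nhds

theorem line_deriv {g : ℝ × ℝ → ℝ} (hg : ContDiffAt ℝ 1 g 0) (v : ℝ × ℝ) :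
    deriv (fun t : ℝ => g (t • v)) =ᶠ[𝓝 0] fun t => Dd v g (t • v) := by
  have ht : Tendsto (fun t : ℝ => t • v) (𝓝 0) (𝓝 (0 : ℝ × ℝ)) := by
    have : ContinuousAt (fun t : ℝ => t • v) 0 := by fun_prop
    simpa [ContinuousAt] using this
  filter_upwards [ht.eventually (hg.eventually (by norm_num))] with t h
  have h1 := (h.differentiableAt (by norm_num)).hasFDerivAt
  have h2 : HasDerivAt (fun t : ℝ => t • v) v t := by
    simpa using (hasDerivAt_id t).smul_const v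
  have := h1.comp_hasDerivAt t h2
  exact this.deriv

theorem line_contDiff {n : WithTop ℕ∞} {g : ℝ × ℝ → ℝ} (hg : ContDiffAt ℝ n g 0) (v : ℝ × ℝ) :
    ContDiffAt ℝ n (fun t : ℝ => g (t • v)) 0 := by
  have h1 : ContDiffAt ℝ n g ((0 : ℝ) • v) := by simpa using hg
  have h2 : ContDiffAt ℝ n (fun t : ℝ => t • v) 0 := by fun_prop
  exact h1.comp (0 : ℝ) h2

theorem line_deriv2 {g : ℝ × ℝ → ℝ} (hg : ContDiffAt ℝ 2 g 0) (v : ℝ × ℝ) :
    deriv (deriv (fun t : ℝ => g (t • v))) 0 = Dd v (Dd v g) 0 := by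
  rw [(line_deriv (hg.of_le (by norm_num)) v).deriv_eq]
  have := (line_deriv (Dd_contDiffAt (m := 1) hg (by norm_num) v) v).self_of_nhds
  simpa using this

/-- if `h` has a local minimum at `0`, its second directional derivatives are nonnegative -/
theorem Dd_nonneg {h : ℝ × ℝ → ℝ} (hh : ContDiffAt ℝ 6 h 0) (hm : ∀ᶠ z in 𝓝 0, h 0 ≤ h z)
    (v : ℝ × ℝ) : 0 ≤ Dd v (Dd v h) 0 := by
  rw [← line_deriv2 (hh.of_le (by norm_num)) v]
  apply second_deriv_nonneg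
  · have ht : Tendsto (fun t : ℝ => t • v) (𝓝 0) (𝓝 (0 : ℝ × ℝ)) := by
      have : ContinuousAt (fun t : ℝ => t • v) 0 := by fun_prop
      simpa [ContinuousAt] using this
    filter_upwards [ht.eventually hm] with t ht
    simpa using ht
  · exact (line_contDiff hh v).continuousAt

theorem key_ineq {p q ν X Y a b : ℝ} (ha : 0 < a) (hb : 0 < b) (hν : 0 < ν)
    (h1 : ν ^ 2 * (1 + p ^ 2 + q ^ 2) = 1) (h2 : X * ν ≤ a * (1 + p ^ 2))
    (h3 : b * (1 + q ^ 2) ≤ Y * ν) :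
    X ≤ a * ((1 + p ^ 2) * (1 + (p ^ 2 + q ^ 2) / 2 - 0 * (p ^ 2 + q ^ 2) ^ 2)) ∧
    b * ((1 + q ^ 2) * (1 + (q ^ 2 + p ^ 2) / 2 - (1 / 8) * (q ^ 2 + p ^ 2) ^ 2)) ≤ Y := by
  set w := ν⁻¹ with hw
  have hw0 : 0 < w := inv_pos.mpr hν
  have hw2 : w ^ 2 = 1 + p ^ 2 + q ^ 2 := by
    rw [hw, inv_pow, inv_eq_iff_eq_inv]
    exact eq_inv_of_mul_eq_one_left h1
  have hνw : ν * w = 1 := mul_inv_cancel₀ hν.ne'
  have hw1 : 1 ≤ w := by nlinarith [sq_nonneg p, sq_nonneg q]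
  have e1 : w ≤ 1 + (p ^ 2 + q ^ 2) / 2 := by nlinarith [sq_nonneg (w - 1)]
  have e2 : 1 + (q ^ 2 + p ^ 2) / 2 - (1 / 8) * (q ^ 2 + p ^ 2) ^ 2 ≤ w := by
    have : q ^ 2 + p ^ 2 = w ^ 2 - 1 := by linarith
    rw [this]
    have h5 : (w - 1) ^ 2 * ((w + 1) ^ 2 - 4) ≥ 0 := by
      apply mul_nonneg (sq_nonneg _)
      nlinarith
    nlinarith
  constructor
  · have : X = X * ν * w := by
      rw [mul_assoc, hνw, mul_one]
    rw [this]
    calc _ ≤ a * (1 + p ^ 2) * w := by gcongr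
      _ ≤ a * (1 + p ^ 2) * (1 + (p ^ 2 + q ^ 2) / 2) := by gcongr
      _ = _ := by ring
  · have : Y = Y * ν * w := by
      rw [mul_assoc, hνw, mul_one]
    rw [this]
    calc _ = b * (1 + q ^ 2) * (1 + (q ^ 2 + p ^ 2) / 2 - (1 / 8) * (q ^ 2 + p ^ 2) ^ 2) := by ring
      _ ≤ b * (1 + q ^ 2) * w := by gcongr
      _ ≤ _ := by gcongr

theorem hilbert_lemma {h : ℝ × ℝ → ℝ} (hh : ContDiffAt ℝ 6 h 0) (hd : fderiv ℝ h 0 = 0)
    {a b : ℝ} (ha : 0 < a) (hb : 0 < b)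
    (hxx : Dd (1, 0) (Dd (1, 0) h) 0 = a) (hyy : Dd (0, 1) (Dd (0, 1) h) 0 = b)
    (hxy : Dd (1, 0) (Dd (0, 1) h) 0 = 0)
    (ev : ∀ᶠ z in 𝓝 0, ∃ ν : ℝ, 0 < ν ∧ ν ^ 2 * (1 + Dd (1, 0) h z ^ 2 + Dd (0, 1) h z ^ 2) = 1 ∧
      Dd (1, 0) (Dd (1, 0) h) z * ν ≤ a * (1 + Dd (1, 0) h z ^ 2) ∧
      b * (1 + Dd (0, 1) h z ^ 2) ≤ Dd (0, 1) (Dd (0, 1) h) z * ν) : a ≤ b := by
  have hX : ContDiffAt ℝ 5 (Dd (1, 0) h) 0 := Dd_contDiffAt hh (by norm_num) _
  have hY : ContDiffAt ℝ 5 (Dd (0, 1) h) 0 := Dd_contDiffAt hh (by norm_num) _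
  have hXX : ContDiffAt ℝ 4 (Dd (1, 0) (Dd (1, 0) h)) 0 := Dd_contDiffAt hX (by norm_num) _
  have hYY : ContDiffAt ℝ 4 (Dd (0, 1) (Dd (0, 1) h)) 0 := Dd_contDiffAt hY (by norm_num) _
  have hyx : Dd (0, 1) (Dd (1, 0) h) 0 = 0 := by
    rw [Dd_comm (hh.of_le (by norm_num))]; exact hxy
  have hX0 : Dd (1, 0) h 0 = 0 := by rw [Dd, hd]; simp
  have hY0 : Dd (0, 1) h 0 = 0 := by rw [Dd, hd]; simp
  have ht : ∀ v : ℝ × ℝ, Tendsto (fun t : ℝ => t • v) (𝓝 0) (𝓝 (0 : ℝ × ℝ)) := by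
    intro v
    have : ContinuousAt (fun t : ℝ => t • v) 0 := by fun_prop
    simpa [ContinuousAt] using this
  -- pointwise inequalities
  have key : ∀ᶠ z in 𝓝 0,
      Dd (1, 0) (Dd (1, 0) h) z ≤ a * ((1 + Dd (1, 0) h z ^ 2) *
        (1 + (Dd (1, 0) h z ^ 2 + Dd (0, 1) h z ^ 2) / 2 -
          0 * (Dd (1, 0) h z ^ 2 + Dd (0, 1) h z ^ 2) ^ 2)) ∧
      b * ((1 + Dd (0, 1) h z ^ 2) *
        (1 + (Dd (0, 1) h z ^ 2 + Dd (1, 0) h z ^ 2) / 2 -
          (1 / 8) * (Dd (0, 1) h z ^ 2 + Dd (1, 0) h z ^ 2) ^ 2)) ≤ Dd (0, 1) (Dd (0, 1) h) z := by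
    filter_upwards [ev] with z hz
    obtain ⟨ν, hν, h1, h2, h3⟩ := hz
    exact key_ineq ha hb hν h1 h2 h3
  have k0 := key.self_of_nhds
  -- first inequality
  have i1 := second_deriv_comp (line_contDiff (hX.of_le (by norm_num : (2 : WithTop ℕ∞) ≤ 5)) (0, 1))
    (line_contDiff (hY.of_le (by norm_num : (2 : WithTop ℕ∞) ≤ 5)) (0, 1))
    (line_contDiff (hXX.of_le (by norm_num : (2 : WithTop ℕ∞) ≤ 4)) (0, 1))
    (by simpa using hX0) (by simpa using hY0) a 0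
  have i2 := second_deriv_comp (line_contDiff (hY.of_le (by norm_num : (2 : WithTop ℕ∞) ≤ 5)) (1, 0))
    (line_contDiff (hX.of_le (by norm_num : (2 : WithTop ℕ∞) ≤ 5)) (1, 0))
    (line_contDiff ((hYY.neg).of_le (by norm_num : (2 : WithTop ℕ∞) ≤ 4)) (1, 0))
    (by simpa using hY0) (by simpa using hX0) (-b) (1 / 8)
  have j1 : 0 ≤ deriv (deriv (fun t : ℝ => a * ((1 + Dd (1, 0) h (t • (0, 1)) ^ 2) *
        (1 + (Dd (1, 0) h (t • (0, 1)) ^ 2 + Dd (0, 1) h (t • (0, 1)) ^ 2) / 2 -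
          0 * (Dd (1, 0) h (t • (0, 1)) ^ 2 + Dd (0, 1) h (t • (0, 1)) ^ 2) ^ 2)) -
          Dd (1, 0) (Dd (1, 0) h) (t • (0, 1)))) 0 := by
    apply second_deriv_nonneg
    · filter_upwards [(ht (0, 1)).eventually key] with t h1
      simp only [zero_smul, hX0, hY0, hxx]
      linarith [h1.1]
    · have c1 := (line_contDiff hX (0, 1)).continuousAt
      have c2 := (line_contDiff hY (0, 1)).continuousAt
      have c3 := (line_contDiff hXX (0, 1)).continuousAt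
      fun_prop
  have j2 : 0 ≤ deriv (deriv (fun t : ℝ => -b * ((1 + Dd (0, 1) h (t • (1, 0)) ^ 2) *
        (1 + (Dd (0, 1) h (t • (1, 0)) ^ 2 + Dd (1, 0) h (t • (1, 0)) ^ 2) / 2 -
          (1 / 8) * (Dd (0, 1) h (t • (1, 0)) ^ 2 + Dd (1, 0) h (t • (1, 0)) ^ 2) ^ 2)) -
          -(Dd (0, 1) (Dd (0, 1) h) (t • (1, 0))))) 0 := by
    apply second_deriv_nonneg
    · filter_upwards [(ht (1, 0)).eventually key] with t h1
      simp only [zero_smul, hX0, hY0, hyy]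
      linarith [h1.2]
    · have c1 := (line_contDiff hX (1, 0)).continuousAt
      have c2 := (line_contDiff hY (1, 0)).continuousAt
      have c3 := (line_contDiff hYY (1, 0)).continuousAt
      fun_prop
  rw [i1] at j1
  rw [i2] at j2
  have d1 := (line_deriv (hX.of_le (by norm_num : (1 : WithTop ℕ∞) ≤ 5)) (0, 1)).self_of_nhds
  have d2 := (line_deriv (hY.of_le (by norm_num : (1 : WithTop ℕ∞) ≤ 5)) (0, 1)).self_of_nhds
  have d3 := (line_deriv (hX.of_le (by norm_num : (1 : WithTop ℕ∞) ≤ 5)) (1, 0)).self_of_nhds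
  have d4 := (line_deriv (hY.of_le (by norm_num : (1 : WithTop ℕ∞) ≤ 5)) (1, 0)).self_of_nhds
  simp only [zero_smul] at d1 d2 d3 d4
  rw [d1, d2, line_deriv2 (hXX.of_le (by norm_num)), hyx, hyy] at j1
  rw [d3, d4, hxy, hxx] at j2
  have hneg : deriv (deriv fun t : ℝ => -(Dd (0, 1) (Dd (0, 1) h) (t • (1, 0)))) 0 =
      - deriv (deriv fun t : ℝ => (Dd (0, 1) (Dd (0, 1) h) (t • (1, 0)))) 0 := by
    have e1 : ∀ (g : ℝ → ℝ), deriv (fun t => - g t) = fun t => - deriv g t := by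
      intro g; funext z; exact deriv.fun_neg
    rw [e1, e1]
  rw [hneg, line_deriv2 (hYY.of_le (by norm_num)), ← Dd_four hh (1, 0) (0, 1)] at j2
  have j3 := add_nonneg j1 j2
  have j4 : 0 ≤ a * b * (b - a) := by
    refine j3.trans (le_of_eq ?_)
    ring
  have hab : 0 < a * b := mul_pos ha hb
  exact sub_nonneg.mp (nonneg_of_mul_nonneg_right j4 hab)




/-! ### convexity -/

theorem deriv_nonpos_of {g : ℝ → ℝ} {d : ℝ} (hg : HasDerivAt g d 0)
    (h : ∀ᶠ t in 𝓝[>] (0 : ℝ), g t ≤ g 0) : d ≤ 0 := by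
  have h1 := (hasDerivWithinAt_iff_tendsto_slope' (s := Ioi (0 : ℝ)) (by simp)).mp hg.hasDerivWithinAt
  refine le_of_tendsto h1 ?_
  filter_upwards [h, self_mem_nhdsWithin] with t ht h0
  rw [slope_def_field]
  exact div_nonpos_of_nonpos_of_nonneg (by linarith) (by simpa using (le_of_lt h0))

theorem line_hasDeriv {f : E → ℝ} (hf : Surf f) (x v : E) :
    HasDerivAt (fun t : ℝ => f (x + t • v)) ⟪∇ f x, v⟫ 0 := by
  have h1 : HasFDerivAt f (fderiv ℝ f (x + (0 : ℝ) • v)) (x + (0 : ℝ) • v) :=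
    (hf.smooth.differentiable (by simp) _).hasFDerivAt
  have h2 : HasDerivAt (fun t : ℝ => x + t • v) v 0 := by
    simpa using ((hasDerivAt_id (0 : ℝ)).smul_const v).const_add x
  have := h1.comp_hasDerivAt (0 : ℝ) h2
  rw [inner_grad]
  rw [zero_smul, add_zero] at this
  exact this

theorem grad_support {f : E → ℝ} (hf : Surf f) {x y : E} (hx : f x = 0) (hy : f y ≤ 0) :
    ⟪∇ f x, y - x⟫ ≤ 0 := by
  apply deriv_nonpos_of (line_hasDeriv hf x (y - x))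
  have h1 : ∀ᶠ t in 𝓝[>] (0 : ℝ), t ∈ Ioo (0 : ℝ) 1 := Ioo_mem_nhdsGT one_pos
  filter_upwards [h1] with t ht
  have := hf.convex (x := x) (y := y) (by simp [hx]) (by simpa using hy)
    (a := 1 - t) (b := t) (by linarith [ht.2]) ht.1.le (by ring)
  have e : (1 - t) • x + t • y = x + t • (y - x) := by
    rw [sub_smul, smul_sub, one_smul]; abel
  rw [e] at this
  simpa [hx] using this

theorem support {f : E → ℝ} (hf : Surf f) {x y : E} (hx : f x = 0) (hy : f y ≤ 0) :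
    ⟪N f x, y - x⟫ ≤ 0 := by
  rw [N, inner_smul_left]
  have := grad_support hf hx hy
  have h2 : 0 ≤ ‖∇ f x‖⁻¹ := by positivity
  simpa using mul_nonpos_of_nonneg_of_nonpos h2 this

theorem cr_frame {f : E → ℝ} (hf : Surf f) {x u : E} (hx : f x = 0) (hu : ‖u‖ = 1)
    (ht : ⟪N f x, u⟫ = 0) : Fr f x u (cr (N f x) u) where
  n1 := hu
  n2 := by
    have h := cr_norm_sq (N f x) u
    rw [norm_N_of_ne (grad_ne hf hx), hu, ht] at h
    have h0 : 0 ≤ ‖cr (N f x) u‖ := norm_nonneg _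
    nlinarith
  o := by rw [real_inner_comm]; exact cr_inner_right _ _
  t1 := ht
  t2 := by rw [real_inner_comm]; exact cr_inner_left _ _

/-- everything about the graph -/
theorem graph_pkg {f : E → ℝ} (hf : Surf f) {x e₁ e₂ : E} (hx : f x = 0) (fr : Fr f x e₁ e₂) :
    ∃ h : ℝ × ℝ → ℝ, ContDiffAt ℝ 6 h 0 ∧ h 0 = 0 ∧ fderiv ℝ h 0 = 0 ∧
      (∀ᶠ z in 𝓝 (0 : ℝ × ℝ), f (Gr x e₁ e₂ (N f x) h z) = 0) ∧
      (∀ᶠ y in 𝓝 x, f y = 0 → y = Gr x e₁ e₂ (N f x) h (⟪e₁, y - x⟫, ⟪e₂, y - x⟫)) ∧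
      (∀ᶠ z in 𝓝 (0 : ℝ × ℝ), ∀ w,
        ⟪N f (Gr x e₁ e₂ (N f x) h z), Tg e₁ e₂ (N f x) h z w⟫ = 0) ∧
      (∀ᶠ z in 𝓝 (0 : ℝ × ℝ), ∀ v w,
        A f (Gr x e₁ e₂ (N f x) h z) (Tg e₁ e₂ (N f x) h z v) (Tg e₁ e₂ (N f x) h z w) =
        fderiv ℝ (fderiv ℝ h) z v w * ⟪N f (Gr x e₁ e₂ (N f x) h z), N f x⟫) ∧
      (∀ᶠ z in 𝓝 (0 : ℝ × ℝ), 0 < ⟪N f (Gr x e₁ e₂ (N f x) h z), N f x⟫ ∧
        ⟪N f (Gr x e₁ e₂ (N f x) h z), N f x⟫ ^ 2 *
          (1 + Dd (1, 0) h z ^ 2 + Dd (0, 1) h z ^ 2) = 1) ∧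
      (∀ v w : ℝ × ℝ, A f x (v.1 • e₁ + v.2 • e₂) (w.1 • e₁ + w.2 • e₂) =
        fderiv ℝ (fderiv ℝ h) 0 v w) ∧
      (∀ᶠ z in 𝓝 (0 : ℝ × ℝ), 0 ≤ h z) := by
  obtain ⟨h, hh, h0, hG, hS⟩ := exists_graph hf hx fr
  have hgr := grad_ne hf hx
  have hN1 := norm_N_of_ne hgr
  have hG0 : Gr x e₁ e₂ (N f x) h 0 = x := by simp [Gr, h0]
  have hT := graph_tangent hf hx hh h0 hG
  have hII := graph_II hf hx hh h0 hG
  have hd0 : fderiv ℝ h 0 = 0 := by
    ext w
    all_goals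
    · have := hT.self_of_nhds
      rw [hG0] at this
      have h1 := this (1, 0)
      have h2 := this (0, 1)
      simp [Tg, inner_sub_right, inner_add_right, inner_smul_right, fr.t1, fr.t2, hN1] at h1 h2
      simp [h1, h2]
  have hT0 : ∀ w : ℝ × ℝ, Tg e₁ e₂ (N f x) h 0 w = w.1 • e₁ + w.2 • e₂ := by
    intro w; simp [Tg, hd0]
  refine ⟨h, hh, h0, hd0, hG, hS, hT, hII, ?_, ?_, ?_⟩
  · have hcG : ContinuousAt (Gr x e₁ e₂ (N f x) h) 0 := by
      have := hh.continuousAt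
      unfold Gr
      fun_prop
    have hcN : ContinuousAt (fun z => ⟪N f (Gr x e₁ e₂ (N f x) h z), N f x⟫) 0 := by
      have h1 : ContinuousAt (N f) (Gr x e₁ e₂ (N f x) h 0) := by
        rw [hG0]; exact (N_contDiffAt hf hgr).continuousAt
      have h2 : ContinuousAt (N f ∘ Gr x e₁ e₂ (N f x) h) 0 := h1.comp hcG
      exact h2.inner continuousAt_const
    have hpos : (0 : ℝ) < ⟪N f (Gr x e₁ e₂ (N f x) h 0), N f x⟫ := by
      rw [hG0, real_inner_self_eq_norm_sq, hN1]; norm_num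
    filter_upwards [hcN.eventually (lt_mem_nhds hpos), hG, hT] with z hz hGz hTz
    refine ⟨hz, ?_⟩
    set n := N f (Gr x e₁ e₂ (N f x) h z) with hn
    have hn1 : ‖n‖ = 1 := norm_N_of_ne (grad_ne hf hGz)
    have i1 := hTz (1, 0)
    have i2 := hTz (0, 1)
    have ex := fr.expand hgr n
    simp only [Tg, one_smul, zero_smul, add_zero, zero_add, inner_sub_right, inner_smul_right] at i1 i2
    have hsq : ‖n‖ ^ 2 = ⟪e₁, n⟫ ^ 2 + ⟪e₂, n⟫ ^ 2 + ⟪N f x, n⟫ ^ 2 := by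
      have ho := (fr.basis hgr).sum_sq_norm_inner_right n
      rw [Fin.sum_univ_three] at ho
      simp only [fr.basis_apply hgr] at ho
      simpa using ho.symm
    rw [hn1, real_inner_comm n e₁, real_inner_comm n e₂, real_inner_comm n (N f x)] at hsq
    have j1 : ⟪n, e₁⟫ = Dd (1, 0) h z * ⟪n, N f x⟫ := by rw [Dd]; linarith
    have j2 : ⟪n, e₂⟫ = Dd (0, 1) h z * ⟪n, N f x⟫ := by rw [Dd]; linarith
    rw [j1, j2] at hsq
    nlinarith
  · intro v w
    have := hII.self_of_nhds v w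
    rw [hG0, hT0, hT0, real_inner_self_eq_norm_sq, hN1] at this
    simpa using this
  · filter_upwards [hG] with z hz
    have := support hf hx (le_of_eq hz)
    simp only [Gr] at this
    have e : x + z.1 • e₁ + z.2 • e₂ - h z • N f x - x = z.1 • e₁ + z.2 • e₂ - h z • N f x := by abel
    rw [e] at this
    simp [inner_sub_right, inner_add_right, inner_smul_right, fr.t1, fr.t2, hN1] at this
    exact this

theorem A_nonneg {f : E → ℝ} (hf : Surf f) {x u : E} (hx : f x = 0) (hu : ‖u‖ = 1)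
    (ht : ⟪N f x, u⟫ = 0) : 0 ≤ A f x u u := by
  obtain ⟨h, hh, h0, hd0, hG, hS, hT, hII, hν, hA, hpos⟩ := graph_pkg hf hx (cr_frame hf hx hu ht)
  have h1 := hA (1, 0) (1, 0)
  simp only [one_smul, zero_smul, add_zero] at h1
  rw [h1, ← Dd_Dd (hh.of_le (by norm_num))]
  apply Dd_nonneg hh
  rw [h0]
  exact hpos

theorem A_norm_le {f : E → ℝ} {x : E} {a : ℝ}
    (h : ∀ u, ‖u‖ = 1 → ⟪N f x, u⟫ = 0 → A f x u u ≤ a) (v : E) (hv : ⟪N f x, v⟫ = 0) :
    A f x v v ≤ a * ‖v‖ ^ 2 := by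
  rcases eq_or_ne v 0 with rfl | h0
  · simp [A]
  · have hn : ‖v‖ ≠ 0 := norm_ne_zero_iff.mpr h0
    have h1 := h (‖v‖⁻¹ • v) (by rw [norm_smul, norm_inv, norm_norm, inv_mul_cancel₀ hn])
      (by rw [inner_smul_right, hv, mul_zero])
    rw [A_smul_left, A_smul_right] at h1
    have h2 : A f x v v = (‖v‖⁻¹ * (‖v‖⁻¹ * A f x v v)) * ‖v‖ ^ 2 := by field_simp
    rw [h2]
    exact mul_le_mul_of_nonneg_right h1 (by positivity)

theorem le_A_norm {f : E → ℝ} {x : E} {b : ℝ}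
    (h : ∀ u, ‖u‖ = 1 → ⟪N f x, u⟫ = 0 → b ≤ A f x u u) (v : E) (hv : ⟪N f x, v⟫ = 0) :
    b * ‖v‖ ^ 2 ≤ A f x v v := by
  rcases eq_or_ne v 0 with rfl | h0
  · simp [A]
  · have hn : ‖v‖ ≠ 0 := norm_ne_zero_iff.mpr h0
    have h1 := h (‖v‖⁻¹ • v) (by rw [norm_smul, norm_inv, norm_norm, inv_mul_cancel₀ hn])
      (by rw [inner_smul_right, hv, mul_zero])
    rw [A_smul_left, A_smul_right] at h1
    have h2 : A f x v v = (‖v‖⁻¹ * (‖v‖⁻¹ * A f x v v)) * ‖v‖ ^ 2 := by field_simp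
    rw [h2]
    exact mul_le_mul_of_nonneg_right h1 (by positivity)




/-! ### maximal normal curvature -/

theorem UT_iff {f : E → ℝ} (hf : Surf f) (p : E × E) :
    p ∈ UT f ↔ f p.1 = 0 ∧ ⟪∇ f p.1, p.2⟫ = 0 ∧ ‖p.2‖ = 1 := by
  constructor
  · rintro ⟨h1, h2, h3⟩
    exact ⟨h1, (perp_iff (grad_ne hf h1)).mp h2, h3⟩
  · rintro ⟨h1, h2, h3⟩
    exact ⟨h1, (perp_iff (grad_ne hf h1)).mpr h2, h3⟩

theorem UT_compact {f : E → ℝ} (hf : Surf f) : IsCompact (UT f) := by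
  have hK : IsCompact ({x | f x ≤ 0} ×ˢ Metric.closedBall (0 : E) 1) :=
    hf.compact.prod (isCompact_closedBall _ _)
  refine hK.of_isClosed_subset ?_ ?_
  · have e : UT f = {p : E × E | f p.1 = 0} ∩ ({p : E × E | ⟪∇ f p.1, p.2⟫ = 0} ∩ {p : E × E | ‖p.2‖ = 1}) := by
      ext p; rw [UT_iff hf]; rfl
    rw [e]
    have c1 := hf.smooth.continuous
    have c2 := (grad_contDiff hf).continuous
    refine (isClosed_eq (by fun_prop) continuous_const).inter
      ((isClosed_eq (by fun_prop) continuous_const).inter (isClosed_eq (by fun_prop) continuous_const))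
  · rintro p ⟨h1, h2, h3⟩
    exact ⟨le_of_eq h1, by simp [h3]⟩

theorem exists_zero {f : E → ℝ} (hf : Surf f) : ∃ x, f x = 0 := by
  obtain ⟨x0, hx0⟩ := hf.int
  have h0 : x0 ∈ {x | f x ≤ 0} := interior_subset hx0
  have : ∃ y, 0 < f y := by
    by_contra hcon
    push Not at hcon
    have hu : {x | f x ≤ 0} = univ := by ext x; simp [hcon x]
    have hc := hf.compact
    rw [hu] at hc
    exact noncompact_univ E hc
  obtain ⟨y, hy⟩ := this
  have := isPreconnected_univ.intermediate_value (mem_univ x0) (mem_univ y)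
    hf.smooth.continuous.continuousOn
  obtain ⟨z, -, hz⟩ := this ⟨h0, hy.le⟩
  exact ⟨z, hz⟩

theorem exists_unit_tangent {f : E → ℝ} (hf : Surf f) {x : E} (hx : f x = 0) :
    ∃ u, ‖u‖ = 1 ∧ ⟪N f x, u⟫ = 0 := by
  set n := N f x with hn
  have hn1 : ‖n‖ = 1 := norm_N_of_ne (grad_ne hf hx)
  have hsq : n 0 ^ 2 + n 1 ^ 2 + n 2 ^ 2 = 1 := by
    have := inner_E n n
    rw [real_inner_self_eq_norm_sq, hn1] at this
    nlinarith
  have : ∃ a : E, ‖a‖ = 1 ∧ ⟪n, a⟫ ^ 2 < 1 := by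
    by_cases h : n 0 ^ 2 < 1
    · exact ⟨EuclideanSpace.single 0 1, by simp, by
        rw [EuclideanSpace.inner_single_right]; simpa using h⟩
    · refine ⟨EuclideanSpace.single 1 1, by simp, ?_⟩
      rw [EuclideanSpace.inner_single_right]
      have h1 : n 1 ^ 2 ≤ 0 := by nlinarith [sq_nonneg (n 1), sq_nonneg (n 2)]
      have h2 : (1 : ℝ) * (starRingEnd ℝ) (n 1) = n 1 := by simp
      rw [h2]
      linarith
  obtain ⟨a, ha, hlt⟩ := this
  have hv : cr n a ≠ 0 := by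
    intro h0
    have := cr_norm_sq n a
    rw [h0, hn1, ha] at this
    simp at this
    nlinarith
  have hvn : ‖cr n a‖ ≠ 0 := norm_ne_zero_iff.mpr hv
  refine ⟨‖cr n a‖⁻¹ • cr n a, by rw [norm_smul, norm_inv, norm_norm, inv_mul_cancel₀ hvn], ?_⟩
  rw [inner_smul_right, real_inner_comm, cr_inner_left, mul_zero]

theorem exists_max {f : E → ℝ} (hf : Surf f) : ∃ p ∈ UT f, ∀ q ∈ UT f,
    A f q.1 q.2 q.2 ≤ A f p.1 p.2 p.2 := by
  have hne : (UT f).Nonempty := by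
    obtain ⟨x, hx⟩ := exists_zero hf
    obtain ⟨u, hu, ht⟩ := exists_unit_tangent hf hx
    exact ⟨(x, u), hx, ht, hu⟩
  have hc : ContinuousOn (fun q : E × E => ‖∇ f q.1‖⁻¹ * fderiv ℝ (fderiv ℝ f) q.1 q.2 q.2) (UT f) := by
    have c2 := (grad_contDiff hf).continuous
    have c3 : Continuous (fderiv ℝ (fderiv ℝ f)) := by
      have h1 : ContDiff ℝ ((⊤ : ℕ∞) : WithTop ℕ∞) (fderiv ℝ f) := hf.smooth.fderiv_right (by simp)
      exact (h1.fderiv_right (m := ((⊤ : ℕ∞) : WithTop ℕ∞)) (by simp)).continuous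
    have c4 : Continuous (fun q : E × E => fderiv ℝ (fderiv ℝ f) q.1 q.2 q.2) := by
      have c5 : Continuous (fun q : E × E => fderiv ℝ (fderiv ℝ f) q.1) := c3.comp continuous_fst
      exact (c5.clm_apply continuous_snd).clm_apply continuous_snd
    refine ContinuousOn.mul ?_ c4.continuousOn
    refine ContinuousOn.inv₀ (by fun_prop) ?_
    intro q hq
    exact norm_ne_zero_iff.mpr (grad_ne hf hq.1)
  obtain ⟨p, hp, hm⟩ := (UT_compact hf).exists_isMaxOn hne hc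
  refine ⟨p, hp, fun q hq => ?_⟩
  have := hm hq
  simp only [mem_setOf_eq] at this
  rw [A_eq hf (grad_ne hf hq.1) _ ((UT_iff hf q).mp hq).2.1,
    A_eq hf (grad_ne hf hp.1) _ ((UT_iff hf p).mp hp).2.1]
  exact this

/-- constant Gauss curvature implies umbilic with a constant factor -/
theorem umbilic_const {f : E → ℝ} (hf : Surf f) {k : ℝ} (hk : 0 < k)
    (hK : ∀ x, f x = 0 → K f x = k) :
    ∃ a : ℝ, 0 < a ∧ ∀ x, f x = 0 → ∀ u, ‖u‖ = 1 → ⟪N f x, u⟫ = 0 → A f x u u = a := by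
  obtain ⟨p, hp, hmax⟩ := exists_max hf
  obtain ⟨x, e₁⟩ := p
  obtain ⟨hx, ht1, hn1⟩ := hp
  simp only at hx ht1 hn1 hmax
  set a := A f x e₁ e₁ with ha
  have hle : ∀ y, f y = 0 → ∀ u, ‖u‖ = 1 → ⟪N f y, u⟫ = 0 → A f y u u ≤ a := by
    intro y hy u hu ht
    exact hmax (y, u) ⟨hy, ht, hu⟩
  have hprod : ∀ y, f y = 0 → ∀ u, ‖u‖ = 1 → ⟪N f y, u⟫ = 0 →
      A f y u u * A f y (cr (N f y) u) (cr (N f y) u) = k + A f y u (cr (N f y) u) ^ 2 := by
    intro y hy u hu ht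
    have fr := cr_frame hf hy hu ht
    have h1 := K_eq hf (grad_ne hf hy) fr
    rw [hK y hy, A_symm hf (grad_ne hf hy) ((perp_iff (grad_ne hf hy)).mp fr.t2)
      ((perp_iff (grad_ne hf hy)).mp fr.t1)] at h1
    linarith
  have hapos : 0 < a := by
    have fr := cr_frame hf hx hn1 ht1
    have h1 := hprod x hx e₁ hn1 ht1
    have h2 := A_nonneg hf hx fr.n2 fr.t2
    have h3 := A_nonneg hf hx hn1 ht1
    by_contra hcon
    push Not at hcon
    have h4 : A f x e₁ e₁ = 0 := le_antisymm hcon h3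
    rw [h4, zero_mul] at h1
    nlinarith [sq_nonneg (A f x e₁ (cr (N f x) e₁))]
  set b := k / a with hb
  have hbpos : 0 < b := div_pos hk hapos
  have hge : ∀ y, f y = 0 → ∀ u, ‖u‖ = 1 → ⟪N f y, u⟫ = 0 → b ≤ A f y u u := by
    intro y hy u hu ht
    have fr := cr_frame hf hy hu ht
    have h1 := hprod y hy u hu ht
    have h2 := hle y hy _ fr.n2 fr.t2
    have h3 := A_nonneg hf hy hu ht
    rw [hb, div_le_iff₀ hapos]
    nlinarith [sq_nonneg (A f y u (cr (N f y) u)), mul_le_mul_of_nonneg_left h2 h3]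
  set e₂ := cr (N f x) e₁ with he₂
  have fr : Fr f x e₁ e₂ := cr_frame hf hx hn1 ht1
  have hgx := grad_ne hf hx
  have h12s : A f x e₂ e₁ = A f x e₁ e₂ :=
    A_symm hf hgx ((perp_iff hgx).mp fr.t2) ((perp_iff hgx).mp fr.t1)
  have h12 : A f x e₁ e₂ = 0 := by
    by_contra hne
    have hq : ∀ t : ℝ, 2 * t * A f x e₁ e₂ ≤ (a - A f x e₂ e₂) * t ^ 2 := by
      intro t
      have h1 := A_norm_le (hle x hx) (e₁ + t • e₂) (by
        rw [inner_add_right, inner_smul_right, fr.t1, fr.t2]; simp)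
      have h2 : ‖e₁ + t • e₂‖ ^ 2 = 1 + t ^ 2 := by
        rw [norm_add_sq_real, fr.n1, inner_smul_right, fr.o, norm_smul, fr.n2]
        simp
      rw [h2, A_add_left, A_add_right, A_add_right, A_smul_left, A_smul_left, A_smul_right,
        A_smul_right, h12s] at h1
      rw [← ha] at h1
      nlinarith
    have hd : 0 ≤ a - A f x e₂ e₂ := sub_nonneg.mpr (hle x hx e₂ fr.n2 fr.t2)
    set m := A f x e₁ e₂ with hm
    set d := a - A f x e₂ e₂ with hdd
    have h1 := hq (m / (d + 1))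
    have hd1 : 0 < d + 1 := by linarith
    have hm2 : 0 < m ^ 2 := by positivity
    have h2 : 2 * (m / (d + 1)) * m = 2 * m ^ 2 / (d + 1) := by ring
    have h3 : d * (m / (d + 1)) ^ 2 = (d / (d + 1)) * m ^ 2 / (d + 1) := by field_simp
    rw [h2, h3, div_le_div_iff_of_pos_right hd1] at h1
    have h4 : d / (d + 1) ≤ 1 := (div_le_one hd1).mpr (by linarith)
    nlinarith
  have h22 : A f x e₂ e₂ = b := by
    have := hprod x hx e₁ hn1 ht1
    rw [← he₂, h12] at this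
    rw [hb, eq_div_iff hapos.ne', mul_comm]
    linarith
  obtain ⟨h, hh, h0, hd0, hG, hS, hT, hII, hν, hA, hpos⟩ := graph_pkg hf hx fr
  have h2h : ContDiffAt ℝ 2 h 0 := hh.of_le (by norm_num)
  have hab : a ≤ b := by
    apply hilbert_lemma hh hd0 hapos hbpos
    · have := hA (1, 0) (1, 0)
      simp only [one_smul, zero_smul, add_zero] at this
      rw [Dd_Dd h2h, ← this]
    · have := hA (0, 1) (0, 1)
      simp only [one_smul, zero_smul, zero_add] at this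
      rw [Dd_Dd h2h, ← this, h22]
    · have := hA (1, 0) (0, 1)
      simp only [one_smul, zero_smul, zero_add, add_zero] at this
      rw [Dd_Dd h2h, ← this, h12]
    · filter_upwards [hν, hII, hG, hT, hh.eventually (by norm_num)] with z hz hIIz hGz hTz hhz
      have h2z : ContDiffAt ℝ 2 h z := hhz.of_le (by norm_num)
      have i1 := hIIz (1, 0) (1, 0)
      have i2 := hIIz (0, 1) (0, 1)
      have n1 : ‖Tg e₁ e₂ (N f x) h z (1, 0)‖ ^ 2 = 1 + Dd (1, 0) h z ^ 2 := by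
        rw [Tg]
        simp only [one_smul, zero_smul, add_zero]
        rw [norm_sub_sq_real, fr.n1, inner_smul_right, norm_smul, norm_N_of_ne hgx,
          real_inner_comm, fr.t1, Dd]
        simp
      have n2 : ‖Tg e₁ e₂ (N f x) h z (0, 1)‖ ^ 2 = 1 + Dd (0, 1) h z ^ 2 := by
        rw [Tg]
        simp only [one_smul, zero_smul, zero_add]
        rw [norm_sub_sq_real, fr.n2, inner_smul_right, norm_smul, norm_N_of_ne hgx,
          real_inner_comm, fr.t2, Dd]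
        simp
      have j1 := A_norm_le (hle _ hGz) _ (hTz (1, 0))
      have j2 := le_A_norm (hge _ hGz) _ (hTz (0, 1))
      refine ⟨_, hz.1, hz.2, ?_, ?_⟩
      · rw [Dd_Dd h2z, ← i1, ← n1]; exact j1
      · rw [Dd_Dd h2z, ← i2, ← n2]; exact j2
  have hab' : a = b := by
    refine le_antisymm hab ?_
    rw [← h22]
    exact hle x hx e₂ fr.n2 fr.t2
  refine ⟨a, hapos, fun y hy u hu ht => le_antisymm (hle y hy u hu ht) ?_⟩
  rw [hab']
  exact hge y hy u hu ht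




/-! ### conclusion -/

theorem DN_eq {f : E → ℝ} (hf : Surf f) {a : ℝ}
    (ha : ∀ x, f x = 0 → ∀ u, ‖u‖ = 1 → ⟪N f x, u⟫ = 0 → A f x u u = a)
    {x : E} (hx : f x = 0) {v : E} (hv : ⟪N f x, v⟫ = 0) : fderiv ℝ (N f) x v = a • v := by
  have hg := grad_ne hf hx
  have hq : ∀ w, ⟪N f x, w⟫ = 0 → A f x w w = a * ‖w‖ ^ 2 := fun w hw =>
    le_antisymm (A_norm_le (fun u hu ht => (ha x hx u hu ht).le) w hw)
      (le_A_norm (fun u hu ht => (ha x hx u hu ht).ge) w hw)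
  have hpol : ∀ w, ⟪N f x, w⟫ = 0 → A f x v w = a * ⟪v, w⟫ := by
    intro w hw
    have h1 := hq (v + w) (by rw [inner_add_right, hv, hw, add_zero])
    have h2 := hq v hv
    have h3 := hq w hw
    rw [A_add_left, A_add_right, A_add_right, h2, h3, norm_add_sq_real,
      A_symm hf hg ((perp_iff hg).mp hw) ((perp_iff hg).mp hv)] at h1
    linarith
  have hd : ⟪N f x, fderiv ℝ (N f) x v - a • v⟫ = 0 := by
    rw [inner_sub_right, inner_smul_right, hv, real_inner_comm, DN_perp hf hg]; simp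
  have h4 := hpol _ hd
  rw [A] at h4
  have h5 : ⟪fderiv ℝ (N f) x v - a • v, fderiv ℝ (N f) x v - a • v⟫ = 0 := by
    rw [inner_sub_left, h4, inner_smul_left]; simp
  have h6 := inner_self_eq_zero.mp h5
  exact sub_eq_zero.mp h6

theorem loc_const {f : E → ℝ} (hf : Surf f) {a : ℝ}
    (ha : ∀ x, f x = 0 → ∀ u, ‖u‖ = 1 → ⟪N f x, u⟫ = 0 → A f x u u = a)
    {x : E} (hx : f x = 0) : ∀ᶠ y in 𝓝 x, f y = 0 → N f y - a • y = N f x - a • x := by
  obtain ⟨u, hu, ht⟩ := exists_unit_tangent hf hx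
  have fr := cr_frame hf hx hu ht
  obtain ⟨h, hh, h0, hd0, hG, hS, hT, hII, hν, hA, hpos⟩ := graph_pkg hf hx fr
  set e₂ := cr (N f x) u with he2
  have hG0 : Gr x u e₂ (N f x) h 0 = x := by simp [Gr, h0]
  have hev : ∀ᶠ z in 𝓝 (0 : ℝ × ℝ), HasFDerivAt
      (fun z => N f (Gr x u e₂ (N f x) h z) - a • Gr x u e₂ (N f x) h z)
      (0 : (ℝ × ℝ) →L[ℝ] E) z := by
    filter_upwards [hG, hT, hh.eventually (by norm_num)] with z hGz hTz hhz
    obtain ⟨L, hL, hL'⟩ := hasFDerivAt_Gr (x := x) (e₁ := u) (e₂ := e₂) (e₃ := N f x)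
      (hhz.differentiableAt (by norm_num))
    have h1 := (N_differentiableAt hf (grad_ne hf hGz)).hasFDerivAt.comp z hL
    have h2 := h1.sub (hL.const_smul a)
    refine h2.congr_fderiv ?_
    ext w
    all_goals simp [hL', DN_eq hf ha hGz (hTz _)]
  obtain ⟨ε, hε, hball⟩ := Metric.eventually_nhds_iff_ball.mp hev
  have hconst : ∀ z ∈ Metric.ball (0 : ℝ × ℝ) ε,
      N f (Gr x u e₂ (N f x) h z) - a • Gr x u e₂ (N f x) h z = N f x - a • x := by
    intro z hz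
    have := Metric.isOpen_ball.is_const_of_fderiv_eq_zero (𝕜 := ℝ)
      (convex_ball (0 : ℝ × ℝ) ε).isPreconnected
      (fun y hy => (hball y hy).differentiableAt.differentiableWithinAt)
      (fun y hy => (hball y hy).fderiv) hz (Metric.mem_ball_self hε)
    rw [hG0] at this
    exact this
  have hc : Tendsto (fun y : E => ((⟪u, y - x⟫, ⟪e₂, y - x⟫) : ℝ × ℝ)) (𝓝 x) (𝓝 0) := by
    have h1 : ContinuousAt (fun y : E => ((⟪u, y - x⟫, ⟪e₂, y - x⟫) : ℝ × ℝ)) x := by fun_prop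
    have := h1.tendsto
    rw [show (0 : (ℝ × ℝ)) = (0, 0) from rfl]
    simpa using this
  filter_upwards [hS, hc.eventually (Metric.ball_mem_nhds 0 hε)] with y hy hyb hy0
  have h1 := hconst _ hyb
  rw [← hy hy0] at h1
  exact h1

theorem surf_preconnected {f : E → ℝ} (hf : Surf f) : IsPreconnected {x | f x = 0} := by
  obtain ⟨c, hc⟩ := hf.int
  set B : Set E := {z | f (z + c) ≤ 0} with hB
  have hcont := hf.smooth.continuous
  have hBconv : Convex ℝ B := by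
    have := hf.convex.translate_preimage_left c
    exact this
  have hB0 : B ∈ 𝓝 (0 : E) := by
    have h1 : {x | f x ≤ 0} ∈ 𝓝 c := mem_interior_iff_mem_nhds.mp hc
    have h2 : ContinuousAt (fun z : E => z + c) 0 := by fun_prop
    have h3 : {x | f x ≤ 0} ∈ 𝓝 ((0 : E) + c) := by rwa [zero_add]
    exact h2 h3
  have hBb : Bornology.IsBounded B := by
    have h1 : B = (fun x => x - c) '' {x | f x ≤ 0} := by
      ext z
      simp only [hB, mem_setOf_eq, mem_image]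
      constructor
      · intro h; exact ⟨z + c, h, by abel⟩
      · rintro ⟨y, hy, rfl⟩; simpa using hy
    rw [h1]
    exact (hf.compact.image (by fun_prop)).isBounded
  have hBc : IsClosed B := by
    exact isClosed_le (by fun_prop) continuous_const
  have hfr : ∀ z, f (z + c) = 0 ↔ z ∈ frontier B := by
    intro z
    constructor
    · intro hz
      rw [hBc.frontier_eq]
      refine ⟨le_of_eq hz, fun hint => ?_⟩
      have hg := grad_ne hf hz
      have h1 : B ∈ 𝓝 z := mem_interior_iff_mem_nhds.mp hint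
      have h2 := line_hasDeriv hf (z + c) (∇ f (z + c))
      have h3 : ⟪∇ f (z + c), ∇ f (z + c)⟫ ≤ 0 := by
        apply deriv_nonpos_of h2
        have h4 : ContinuousAt (fun t : ℝ => z + t • ∇ f (z + c)) 0 := by fun_prop
        have h5 : B ∈ 𝓝 (z + (0 : ℝ) • ∇ f (z + c)) := by simpa using h1
        have h6 : ∀ᶠ t in 𝓝 (0 : ℝ), z + t • ∇ f (z + c) ∈ B := h4 h5
        filter_upwards [nhdsWithin_le_nhds h6] with t ht
        rw [zero_smul, add_zero, hz]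
        have e : z + c + t • ∇ f (z + c) = z + t • ∇ f (z + c) + c := by abel
        rw [e]
        exact ht
      rw [real_inner_self_eq_norm_sq] at h3
      have h7 : 0 < ‖∇ f (z + c)‖ := norm_pos_iff.mpr hg
      nlinarith
    · intro hz
      have h1 : z ∈ B := hBc.frontier_subset hz
      by_contra hne
      have hlt : f (z + c) < 0 := lt_of_le_of_ne h1 hne
      have h2 : z ∈ interior B := by
        rw [mem_interior_iff_mem_nhds]
        have h3 : ContinuousAt (fun z : E => f (z + c)) z := by fun_prop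
        filter_upwards [h3.eventually (gt_mem_nhds hlt)] with y hy
        exact hy.le
      exact hz.2 h2
  have hgc : Continuous (gauge B) := continuous_gauge hBconv hB0
  have hgpos : ∀ u : E, u ≠ 0 → 0 < gauge B u := fun u hu =>
    (gauge_pos (absorbent_nhds_zero hB0) (NormedSpace.isVonNBounded_iff ℝ |>.mpr hBb)).mpr hu
  have himg : {x | f x = 0} = (fun u => c + (gauge B u)⁻¹ • u) '' Metric.sphere (0 : E) 1 := by
    ext x
    simp only [mem_setOf_eq, mem_image, mem_sphere_iff_norm, sub_zero]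
    constructor
    · intro hx
      have h1 : x - c ∈ frontier B := by rw [← hfr]; simpa using hx
      have h2 : gauge B (x - c) = 1 := (gauge_eq_one_iff_mem_frontier hBconv hB0).mpr h1
      have h3 : x - c ≠ 0 := by
        intro h; rw [h] at h2; simp at h2
      have h4 : ‖x - c‖ ≠ 0 := norm_ne_zero_iff.mpr h3
      refine ⟨‖x - c‖⁻¹ • (x - c), by rw [norm_smul, norm_inv, norm_norm, inv_mul_cancel₀ h4], ?_⟩
      rw [gauge_smul_of_nonneg (by positivity), h2, smul_smul]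
      simp [h4]
    · rintro ⟨u, hu, rfl⟩
      have hu0 : u ≠ 0 := by intro h; simp [h] at hu
      have hpos : 0 < gauge B u := hgpos u hu0
      have h1 : gauge B ((gauge B u)⁻¹ • u) = 1 := by
        rw [gauge_smul_of_nonneg (by positivity), smul_eq_mul, inv_mul_cancel₀ hpos.ne']
      have h2 := (gauge_eq_one_iff_mem_frontier hBconv hB0).mp h1
      rw [← hfr] at h2
      rwa [add_comm]
  rw [himg]
  apply IsPreconnected.image
  · apply isPreconnected_sphere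
    rw [← Module.finrank_eq_rank]
    simp
  · have hs : ContinuousOn (fun u : E => (gauge B u)⁻¹) (Metric.sphere 0 1) := by
      refine hgc.continuousOn.inv₀ (fun u hu => (hgpos u ?_).ne')
      rintro rfl
      simp at hu
    fun_prop

theorem parallel_of {g d : E} (h : ∀ w, ⟪g, w⟫ < 0 → ⟪d, w⟫ ≤ 0) (hg : ‖g‖ = 1) :
    ∃ μ : ℝ, 0 ≤ μ ∧ d = μ • g := by
  set m := ⟪g, d⟫ with hm
  have hdg : ⟪d, g⟫ = m := real_inner_comm _ _
  have hgg : ⟪g, g⟫ = 1 := by rw [real_inner_self_eq_norm_sq, hg]; norm_num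
  set d' := d - m • g with hd'
  have h0 : ⟪g, d'⟫ = 0 := by rw [hd', inner_sub_right, inner_smul_right, hgg]; simp [hm]
  have h1 : ⟪d, d'⟫ = ‖d'‖ ^ 2 := by
    rw [← real_inner_self_eq_norm_sq]
    conv_rhs => rw [show d' = d - m • g from rfl]
    rw [inner_sub_left, inner_smul_left, h0]; simp [hd']
  have h2 : ∀ ε : ℝ, 0 < ε → ‖d'‖ ^ 2 ≤ ε * m := by
    intro ε hε
    have := h (d' - ε • g) (by rw [inner_sub_right, inner_smul_right, h0, hgg]; linarith)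
    rw [inner_sub_right, inner_smul_right, h1, hdg] at this
    linarith
  have hm0 : 0 ≤ m := by
    have := h2 1 one_pos
    nlinarith [sq_nonneg ‖d'‖]
  have hd0 : ‖d'‖ ^ 2 ≤ 0 := by
    by_contra hcon
    push Not at hcon
    have h3 := h2 (‖d'‖ ^ 2 / (2 * (m + 1))) (by positivity)
    have h4 : ‖d'‖ ^ 2 / (2 * (m + 1)) * m ≤ ‖d'‖ ^ 2 / 2 := by
      rw [div_mul_eq_mul_div, div_le_div_iff₀ (by positivity) (by positivity)]
      nlinarith
    linarith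
  have hd1 : d' = 0 := by
    have : ‖d'‖ = 0 := by nlinarith [norm_nonneg d', sq_nonneg ‖d'‖]
    exact norm_eq_zero.mp this
  exact ⟨m, hm0, sub_eq_zero.mp hd1⟩

/-- every unit vector is an outer normal -/
theorem gauss_surj {f : E → ℝ} (hf : Surf f) {d : E} (hd : ‖d‖ = 1) : ∃ x, f x = 0 ∧ N f x = d := by
  have hne : ({x | f x ≤ 0} : Set E).Nonempty := hf.int.mono interior_subset
  obtain ⟨x, hx, hmax⟩ := hf.compact.exists_isMaxOn hne
    (f := fun y => ⟪d, y⟫) (by fun_prop)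
  have hd2 : ⟪d, d⟫ = 1 := by rw [real_inner_self_eq_norm_sq, hd]; norm_num
  have hdir : ∀ w, (∀ᶠ t in 𝓝[>] (0 : ℝ), f (x + t • w) ≤ 0) → ⟪d, w⟫ ≤ 0 := by
    intro w hw
    obtain ⟨t, ht, ht0⟩ := (hw.and self_mem_nhdsWithin).exists
    have h1 := hmax (show x + t • w ∈ {x | f x ≤ 0} from ht)
    simp only [mem_setOf_eq, inner_add_right, inner_smul_right] at h1
    have ht0' : 0 < t := ht0
    by_contra hcon
    push Not at hcon
    nlinarith [mul_pos ht0' hcon]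
  have hx0 : f x = 0 := by
    by_contra hne0
    have hlt : f x < 0 := lt_of_le_of_ne hx hne0
    have h1 := hdir d (by
      have hc : ContinuousAt (fun t : ℝ => f (x + t • d)) 0 := by
        have := hf.smooth.continuous
        fun_prop
      have h2 : (fun t : ℝ => f (x + t • d)) 0 < 0 := by simpa using hlt
      filter_upwards [nhdsWithin_le_nhds (hc.eventually (gt_mem_nhds h2))] with t ht
      exact ht.le)
    rw [hd2] at h1
    linarith
  refine ⟨x, hx0, ?_⟩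
  have hg := grad_ne hf hx0
  obtain ⟨μ, hμ, hdμ⟩ := parallel_of (g := N f x) (d := d) (fun w hw => by
    apply hdir
    have h1 : ⟪∇ f x, w⟫ < 0 := by
      rw [N, inner_smul_left] at hw
      have h2 : 0 < ‖∇ f x‖⁻¹ := inv_pos.mpr (norm_pos_iff.mpr hg)
      simp only [conj_trivial] at hw
      by_contra hcon
      push Not at hcon
      exact absurd hw (not_lt.mpr (mul_nonneg h2.le hcon))
    have h2 := line_hasDeriv hf x w
    have h3 := (hasDerivAt_iff_tendsto_slope.mp h2).eventually (gt_mem_nhds h1)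
    have h4 : ∀ᶠ t in 𝓝[>] (0 : ℝ), slope (fun t : ℝ => f (x + t • w)) 0 t < 0 :=
      h3.filter_mono (nhdsWithin_mono 0 (fun t (ht : 0 < t) => ht.ne'))
    filter_upwards [h4, self_mem_nhdsWithin] with t ht ht0
    rw [slope_def_field] at ht
    simp only [zero_smul, add_zero, hx0, sub_zero] at ht
    have ht0' : 0 < t := ht0
    by_contra hcon
    push Not at hcon
    exact absurd ht (not_lt.mpr (div_nonneg hcon.le ht0'.le))) (norm_N_of_ne hg)
  have h5 : ‖d‖ = μ := by rw [hdμ, norm_smul, norm_N_of_ne hg, mul_one, Real.norm_of_nonneg hμ]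
  rw [hd] at h5
  rw [hdμ, ← h5, one_smul]

/-- Liebmann's theorem -/
theorem liebmann {f : E → ℝ} (hf : Surf f) {k : ℝ} (hk : 0 < k)
    (hK : ∀ x, f x = 0 → K f x = k) :
    ∃ c r, 0 < r ∧ {x | f x = 0} = Metric.sphere c r := by
  obtain ⟨a, ha0, ha⟩ := umbilic_const hf hk hK
  obtain ⟨x0, hx0⟩ := exists_zero hf
  have hconst : ∀ y, f y = 0 → N f y - a • y = N f x0 - a • x0 := by
    intro y hy
    have hpre : PreconnectedSpace {x | f x = 0} :=
      Subtype.preconnectedSpace (surf_preconnected hf)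
    have hloc : IsLocallyConstant (fun y : {x | f x = 0} => N f y.1 - a • y.1) := by
      rw [IsLocallyConstant.iff_eventually_eq]
      intro y
      have h1 := loc_const hf ha y.2
      have h2 := continuousAt_subtype_val.eventually h1
      filter_upwards [h2] with z hz
      exact hz z.2
    exact hloc.apply_eq_of_isPreconnected isPreconnected_univ (x := ⟨y, hy⟩) (y := ⟨x0, hx0⟩)
      (mem_univ _) (mem_univ _)
  set C := N f x0 - a • x0 with hC
  refine ⟨-(a⁻¹ • C), a⁻¹, inv_pos.mpr ha0, ?_⟩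
  have hform : ∀ y, f y = 0 → y - -(a⁻¹ • C) = a⁻¹ • N f y := by
    intro y hy
    rw [← hconst y hy, smul_sub, smul_smul, inv_mul_cancel₀ ha0.ne', one_smul]
    abel
  ext y
  simp only [mem_setOf_eq, mem_sphere_iff_norm]
  constructor
  · intro hy
    rw [hform y hy, norm_smul, norm_N_of_ne (grad_ne hf hy), mul_one, Real.norm_of_nonneg]
    exact (inv_pos.mpr ha0).le
  · intro hy
    obtain ⟨x, hx, hNx⟩ := gauss_surj hf (d := a • (y - -(a⁻¹ • C))) (by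
      rw [norm_smul, hy, Real.norm_of_nonneg ha0.le, mul_inv_cancel₀ ha0.ne'])
    have h1 := hform x hx
    rw [hNx, smul_smul, inv_mul_cancel₀ ha0.ne', one_smul] at h1
    have h2 : x = y := sub_left_injective h1
    rw [← h2]; exact hx


end Pool.Agent.GR.I
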