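import Pool.Agent.GR.GB1b
import Pool.Agent.GR.GG4
import Pool.Agent.GR.GG7
import Pool.Agent.GR.I
import Pool.Agent.GR.HCC

set_option autoImplicit false

open Set Filter Topology MeasureTheory
open scoped Gradient RealInnerProductSpace ContDiff

namespace Pool.Agent.GR.Main
open Pool.Agent.GR

/-- a smooth closed convex surface with property (M) is a round sphere -/
theorem main {f : E → ℝ} (hf : Surf f) (hM : PropM f) :
    ∃ c : E, ∃ r : ℝ, 0 < r ∧ {x | f x = 0} = Metric.sphere c r := by
  obtain ⟨G, hG⟩ := Pool.Agent.GR.GB1b.exists_flow hf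
  obtain ⟨L, q, hB⟩ := Pool.Agent.GR.GG7.blaschke hf hG
    (fun x hx => Pool.Agent.GR.GG4.cut_pt hf hG hM hx)
  exact Pool.Agent.GR.I.liebmann hf (by have := hB.L_pos; positivity)
    (Pool.Agent.GR.curv_const hf hG hB)

end Pool.Agent.GR.Main
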