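import Pool.Agent.GR.Defs

set_option autoImplicit false

open Set Filter Topology MeasureTheory
open scoped Gradient RealInnerProductSpace ContDiff

namespace Pool.Agent.GR

/-- abstract polar data at a point x of a surface S with intrinsic distance d; F t θ = polar coordinates,
I t θ = scalar Jacobi field, n t θ = unit normal of the geodesic t ↦ F t θ -/
structure PD (S : Set E) (d : E → E → ℝ) (x : E) (F : ℝ → ℝ → E) (I : ℝ → ℝ → ℝ) (n : ℝ → ℝ → E) :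
    Prop where
  S_compact : IsCompact S
  x_mem : x ∈ S
  d_nonneg : ∀ y z, 0 ≤ d y z
  d_eq : ∀ y ∈ S, ∀ z ∈ S, d y z = 0 → y = z
  d_comm : ∀ y z, d y z = d z y
  d_tri : ∀ a ∈ S, ∀ b ∈ S, ∀ c ∈ S, d a c ≤ d a b + d b c
  d_bdd : ∃ M : ℝ, ∀ y ∈ S, ∀ z ∈ S, d y z ≤ M
  d_cont : ContinuousOn (fun p : E × E => d p.1 p.2) (S ×ˢ S)
  d_curve : ∀ (σ : ℝ → E) (a b : ℝ) (φ : ℝ → ℝ), a ≤ b → (∀ t ∈ Icc a b, σ t ∈ S) →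
    ContinuousOn σ (Icc a b) → (∀ s ∈ Icc a b, ∀ t ∈ Icc a b, s ≤ t → ‖σ t - σ s‖ ≤ φ t - φ s) →
    d (σ a) (σ b) ≤ φ b - φ a
  F_mem : ∀ t θ, F t θ ∈ S
  F_zero : ∀ θ, F 0 θ = x
  F_smooth : ContDiff ℝ ∞ (fun q : ℝ × ℝ => F q.1 q.2)
  I_smooth : ContDiff ℝ ∞ (fun q : ℝ × ℝ => I q.1 q.2)
  F_per : ∀ t θ (k : ℤ), F t (θ + k * (2 * Real.pi)) = F t θ
  I_per : ∀ t θ (k : ℤ), I t (θ + k * (2 * Real.pi)) = I t θ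
  F_t : ∀ t θ, ‖deriv (fun s => F s θ) t‖ = 1
  F_n : ∀ t θ, ⟪deriv (fun s => F s θ) t, n t θ⟫ = 0
  n_norm : ∀ t θ, ‖n t θ‖ = 1
  F_θ : ∀ t θ, HasDerivAt (fun φ => F t φ) (I t θ • n t θ) θ
  I_zero : ∀ θ, I 0 θ = 0
  I_one : ∀ θ, HasDerivAt (fun t => I t θ) 1 0
  I_simple : ∀ t θ, I t θ = 0 → deriv (fun s => I s θ) t ≠ 0
  d_F : ∀ s t θ, d (F s θ) (F t θ) ≤ |s - t|
  small : ∃ ρ > 0, ∀ t ∈ Icc 0 ρ, ∀ θ, d x (F t θ) = t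
  min_exists : ∀ y ∈ S, y ≠ x → ∃ θ ∈ Ico 0 (2 * Real.pi), F (d x y) θ = y
  unique : ∀ θ φ s s' t, 0 < s → s < t → d x (F t θ) = t → d x (F s' φ) = s' → F s θ = F s' φ →
    s = s' ∧ ∃ k : ℤ, φ = θ + k * (2 * Real.pi)
  broken : ∀ θ s y, 0 < s → y ∈ S → F s θ ≠ y → d x y = s + d (F s θ) y → F (d x y) θ = y
  propM : ∀ y ∈ S, y ≠ x → {θ ∈ Ico 0 (2 * Real.pi) | F (d x y) θ = y}.Subsingleton ∨
    {θ ∈ Ico 0 (2 * Real.pi) | F (d x y) θ = y}.Infinite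
  cross : ∀ t₀ θ₀, 0 < t₀ → I t₀ θ₀ = 0 → ∀ ε > 0, ∃ t t' θ, |t - t₀| < ε ∧ |t' - t₀| < ε ∧
    θ ≠ θ₀ ∧ |θ - θ₀| < ε ∧ F t θ = F t' θ₀

/-- cut time -/
noncomputable def cut (d : E → E → ℝ) (x : E) (F : ℝ → ℝ → E) (θ : ℝ) : ℝ :=
  sSup {t | 0 ≤ t ∧ d x (F t θ) = t}


/-- all geodesics from x minimise exactly up to time L and end at q -/
def CutPt (f : E → ℝ) (G : ℝ → E × E → E × E) (x : E) (L : ℝ) (q : E) : Prop :=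
  0 < L ∧ f q = 0 ∧ ∀ u, (x, u) ∈ UT f → (G L (x, u)).1 = q ∧
    (∀ t ∈ Icc 0 L, D f x (G t (x, u)).1 = t) ∧ (∀ t ∈ Ioo 0 L, 0 < J f G (x, u) t) ∧
    J f G (x, u) L = 0


end Pool.Agent.GR
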